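import Pool.Agent.H15P.PCV

/-!
# Project H15P, piece ATT: `s_ATT : S_ATT` is in `Pool/Agent/H15P/PCV.lean` (helper66)
-/
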