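import Pool.Agent.H15P.Stm

/-!
# Project H15P, piece BCD (helper22): few vertices lose half of their edges
-/

set_option autoImplicit false

open Finset

namespace Pool.Agent.H15P

open Pool.Agent.V11328 Pool.Agent.V11328.E6

namespace BC

section
variable {V : Type} [Fintype V] [DecidableEq V]

omit [DecidableEq V] in
theorem touching_le_sum (G : SimpleGraph V) (S : Finset V) :
    #(touching G S) ≤ ∑ v ∈ S, #(nb G v) := by
  classical
  have h1 : touching G S ⊆ S.biUnion (fun v => (nb G v).image (fun u => s(v, u))) := by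
    intro e he
    simp only [touching, mem_filter, mem_univ, true_and] at he
    obtain ⟨he, v, hv, hve⟩ := he
    obtain ⟨u, rfl⟩ := Sym2.mem_iff_exists.1 hve
    rw [mem_biUnion]
    refine ⟨v, hv, ?_⟩
    rw [mem_image]
    exact ⟨u, by simpa [nb] using he, rfl⟩
  refine (card_le_card h1).trans (card_biUnion_le.trans ?_)
  exact sum_le_sum fun v _ => card_image_le

omit [Fintype V] in
theorem degF_le (F : Finset (Sym2 V)) (v : V) : degF F v ≤ #F := card_filter_le _ _

omit [Fintype V] in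
/-- every pair contains at most two vertices -/
theorem sum_degF_le (F : Finset (Sym2 V)) (S : Finset V) : ∑ v ∈ S, degF F v ≤ 2 * #F := by
  classical
  have h1 : ∑ v ∈ S, degF F v = ∑ e ∈ F, #(S.filter (fun v => v ∈ e)) := by
    unfold degF
    simp only [card_filter]
    rw [sum_comm]
  rw [h1, mul_comm, ← smul_eq_mul]
  refine sum_le_card_nsmul _ _ _ fun e _ => ?_
  induction e using Sym2.ind with
  | _ a b =>
    have : S.filter (fun v => v ∈ s(a, b)) ⊆ {a, b} := by
      intro v hv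
      rw [mem_filter, Sym2.mem_iff] at hv
      simp only [mem_insert, mem_singleton]
      exact hv.2
    exact (card_le_card this).trans card_le_two

theorem mem_BB {G : SimpleGraph V} {F : Finset (Sym2 V)} {v : V} :
    v ∈ BB G F ↔ #(nb G v) ≤ 2 * degF F v := by
  classical
  simp [BB]

end

end BC

open BC in
theorem s_BCD : S_BCD := by
  intro V _ _ G F k hk hF hlt
  by_contra hcon
  push Not at hcon
  obtain ⟨S1, h1, c1⟩ := exists_subset_card_eq (s := BB G F) (n := k - 1) (by omega)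
  obtain ⟨S2, h2, c2⟩ := exists_subset_card_eq (s := BB G F \ S1) (n := k - 1)
    (by rw [card_sdiff_of_subset h1]; omega)
  have h12 : S1 ∪ S2 ⊆ BB G F := union_subset h1 (h2.trans sdiff_subset)
  have d12 : Disjoint S1 S2 := disjoint_of_subset_right h2 disjoint_sdiff
  have c12 : #(S1 ∪ S2) = 2 * (k - 1) := by rw [card_union_of_disjoint d12]; omega
  obtain ⟨S3, h3, c3⟩ := exists_subset_card_eq (s := BB G F \ (S1 ∪ S2)) (n := k - 1)
    (by rw [card_sdiff_of_subset h12]; omega)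
  have h123 : S1 ∪ S2 ∪ S3 ⊆ BB G F := union_subset h12 (h3.trans sdiff_subset)
  have d123 : Disjoint (S1 ∪ S2) S3 := disjoint_of_subset_right h3 disjoint_sdiff
  have c123 : #(S1 ∪ S2 ∪ S3) = 3 * (k - 1) := by rw [card_union_of_disjoint d123]; omega
  obtain ⟨S4, h4, c4⟩ := exists_subset_card_eq (s := BB G F \ (S1 ∪ S2 ∪ S3)) (n := k - 1)
    (by rw [card_sdiff_of_subset h123]; omega)
  have h1234 : S1 ∪ S2 ∪ S3 ∪ S4 ⊆ BB G F := union_subset h123 (h4.trans sdiff_subset)
  have d1234 : Disjoint (S1 ∪ S2 ∪ S3) S4 := disjoint_of_subset_right h4 disjoint_sdiff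
  have hs : ∑ v ∈ S1 ∪ S2 ∪ S3 ∪ S4, #(nb G v) =
      ∑ v ∈ S1, #(nb G v) + ∑ v ∈ S2, #(nb G v) + ∑ v ∈ S3, #(nb G v) + ∑ v ∈ S4, #(nb G v) := by
    rw [sum_union d1234, sum_union d123, sum_union d12]
  have m1 := (minTouch_le G c1).trans (touching_le_sum G S1)
  have m2 := (minTouch_le G c2).trans (touching_le_sum G S2)
  have m3 := (minTouch_le G c3).trans (touching_le_sum G S3)
  have m4 := (minTouch_le G c4).trans (touching_le_sum G S4)
  have h5 : ∑ v ∈ S1 ∪ S2 ∪ S3 ∪ S4, #(nb G v) ≤ 2 * (2 * #F) := by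
    calc ∑ v ∈ S1 ∪ S2 ∪ S3 ∪ S4, #(nb G v) ≤ ∑ v ∈ S1 ∪ S2 ∪ S3 ∪ S4, 2 * degF F v :=
          sum_le_sum fun v hv => mem_BB.1 (h1234 hv)
      _ = 2 * ∑ v ∈ S1 ∪ S2 ∪ S3 ∪ S4, degF F v := by rw [mul_sum]
      _ ≤ 2 * (2 * #F) := Nat.mul_le_mul_left _ (sum_degF_le F _)
  omega

end Pool.Agent.H15P
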