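import Pool.Agent.H15P.Stm

/-! Piece BOO: many boosters. -/

open Finset
open scoped SimpleGraph

namespace Pool.Agent.H15P

open Pool.Agent.V11328 Pool.Agent.V11328.E6

namespace BOO

variable {V : Type} [Fintype V] [DecidableEq V]

omit [Fintype V] in
lemma pth_len {Γ : SimpleGraph V} {U : Finset V} {P : List V} (hP : IsPth Γ P)
    (hU : ∀ v ∈ P, v ∈ U) : P.length ≤ #U := by
  rw [← List.toFinset_card_of_nodup hP.2.2]
  exact card_le_card (fun v hv => hU v (by simpa using hv))

omit [Fintype V] in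
lemma le_lp {Γ : SimpleGraph V} {U : Finset V} {P : List V} (hP : IsPth Γ P)
    (hU : ∀ v ∈ P, v ∈ U) : P.length ≤ lp Γ U := by
  refine le_csSup ⟨#U, ?_⟩ ⟨P, hP, hU, rfl⟩
  rintro m ⟨Q', hQ', hQU', rfl⟩
  exact pth_len hQ' hQU'

omit [Fintype V] in
lemma lp_spec {Γ : SimpleGraph V} {U : Finset V} (hU : U.Nonempty) :
    ∃ P, IsPth Γ P ∧ (∀ v ∈ P, v ∈ U) ∧ P.length = lp Γ U := by
  have hne : {m | ∃ P : List V, IsPth Γ P ∧ (∀ v ∈ P, v ∈ U) ∧ P.length = m}.Nonempty := by
    obtain ⟨u, hu⟩ := hU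
    exact ⟨1, [u], ⟨by simp, by simp, by simp⟩, by simpa using hu, rfl⟩
  exact Nat.sSup_mem hne ⟨#U, by
    rintro m ⟨Q', hQ', hQU', rfl⟩
    exact pth_len hQ' hQU'⟩

lemma extend {Γ Γ' : SimpleGraph V} {U : Finset V} {r : ℕ} (hE : Exp Γ U r) (hle : Γ ≤ Γ')
    {P : List V} (hP : IsPth Γ P) (hPU : ∀ v ∈ P, v ∈ U) (hlen : P.length = lp Γ U) {v u : V}
    (hv : P.head? = some v) (hu : P.getLast? = some u) (huv : Γ'.Adj u v) :
    HamOn Γ' U ∨ lp Γ U < lp Γ' U := by
  by_cases hW : P.toFinset = U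
  · left
    refine ⟨P, v, u, ⟨hP.1, hP.2.1.imp (fun _ _ h => hle h), hP.2.2⟩, hv, hu, huv, ?_⟩
    intro w
    rw [← hW, List.mem_toFinset]
  · right
    have hne : P.toFinset.Nonempty := by
      rw [List.toFinset_nonempty_iff]
      exact hP.1
    obtain ⟨y, hy⟩ := hE.conn P.toFinset (fun x hx => hPU x (by simpa using hx)) hne hW
    simp only [nbh, mem_filter, mem_univ, true_and, List.mem_toFinset] at hy
    obtain ⟨hyP, w, hwP, hwy⟩ := hy
    obtain ⟨A, B, rfl⟩ := List.append_of_mem hwP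
    have hperm : List.Perm (y :: (w :: B ++ A)) (y :: (A ++ w :: B)) :=
      List.Perm.cons _ List.perm_append_comm
    have hpth : IsPth Γ' (y :: (w :: B ++ A)) := by
      refine ⟨by simp, ?_, ?_⟩
      · rw [List.cons_append, List.isChain_cons_cons]
        refine ⟨hle hwy.symm, ?_⟩
        rw [← List.cons_append, List.isChain_append]
        have hc := (List.isChain_append.1 (hP.2.1.imp (fun _ _ h => hle h) :
          (A ++ w :: B).IsChain Γ'.Adj))
        refine ⟨hc.2.1, hc.1, ?_⟩
        intro x hx z hz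
        have hxu : x = u := by
          rw [List.getLast?_append] at hu
          simp only [Option.mem_def] at hx
          rw [hx] at hu
          simpa using hu
        have hzv : z = v := by
          cases A with
          | nil => simp at hz
          | cons a A' =>
            simp at hz hv
            rw [← hz, hv]
        rw [hxu, hzv]
        exact huv
      · rw [hperm.nodup_iff, List.nodup_cons]
        exact ⟨hyP, hP.2.2⟩
    have hin : ∀ x ∈ (y :: (w :: B ++ A)), x ∈ U := by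
      intro x hx
      rw [hperm.mem_iff, List.mem_cons] at hx
      rcases hx with rfl | hx
      · exact hE.supp _ _ hwy.symm
      · exact hPU x hx
    have h1 := le_lp hpth hin
    rw [hperm.length_eq, List.length_cons, hlen] at h1
    omega

end BOO

open BOO in
theorem s_BOO (hPOS : S_POS) : S_BOO := by
  classical
  intro V _ _ Γ U r hE hr hU hnH
  have hUne : U.Nonempty := card_pos.1 (by omega)
  obtain ⟨P, hP, hPU, hPl⟩ := lp_spec (Γ := Γ) hUne
  -- the longest path has at least three vertices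
  have h3 : 3 ≤ lp Γ U := by
    obtain ⟨u, hu⟩ := hUne
    have h1 := hE.exp {u} (by simpa using hu) (by simpa using hr)
    rw [card_singleton] at h1
    obtain ⟨y1, hy1, y2, hy2, hne⟩ := one_lt_card.1 (lt_of_lt_of_le (by norm_num) h1)
    simp only [nbh, mem_filter, mem_univ, true_and, mem_singleton, exists_eq_left] at hy1 hy2
    have hp : IsPth Γ [y1, u, y2] := by
      refine ⟨by simp, ?_, ?_⟩
      · simp only [List.isChain_cons_cons, List.isChain_singleton, and_true]
        exact ⟨hy1.2.symm, hy2.2⟩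
      · simp only [List.nodup_cons, List.mem_cons, List.not_mem_nil, or_false, not_or,
          List.nodup_nil, and_true, not_false_eq_true]
        exact ⟨⟨hy1.1, hne⟩, fun h => hy2.1 h.symm⟩
    have := le_lp (U := U) hp (by
      intro x hx
      simp only [List.mem_cons, List.not_mem_nil, or_false] at hx
      rcases hx with rfl | rfl | rfl
      · exact hE.supp _ _ hy1.2.symm
      · exact hu
      · exact hE.supp _ _ hy2.2.symm)
    simpa using this
  obtain ⟨a, ha⟩ : ∃ a, P.head? = some a := by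
    rw [List.head?_eq_some_head hP.1]
    exact ⟨_, rfl⟩
  obtain ⟨R, hRr, hR⟩ := hPOS V Γ U r hE P a hP hPU hPl ha
  have hlen : ∀ Q Q' : List V, IsPth Γ Q → IsPth Γ Q' → (∀ w, w ∈ Q ↔ w ∈ Q') →
      Q.length = Q'.length := by
    intro Q Q' hQ hQ' hm
    rw [← List.toFinset_card_of_nodup hQ.2.2, ← List.toFinset_card_of_nodup hQ'.2.2]
    congr 1
    ext w
    simp [hm w]
  have hstep : ∀ v ∈ R, ∃ Rv : Finset V, r < #Rv ∧ ∀ u ∈ Rv, s(v, u) ∈ bst Γ U := by
    intro v hv
    obtain ⟨P', hP', hP'a, hP'v, hP'm⟩ := hR v hv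
    have hrev : IsPth Γ P'.reverse := by
      refine ⟨by simpa using hP'.1, ?_, by simpa using hP'.2.2⟩
      rw [List.isChain_reverse]
      exact hP'.2.1.imp (fun a b h => h.symm)
    have hrevm : ∀ w, w ∈ P'.reverse ↔ w ∈ P := fun w => by rw [List.mem_reverse, hP'm w]
    obtain ⟨Rv, hRv, hRv2⟩ := hPOS V Γ U r hE P'.reverse v hrev
      (fun w hw => hPU w ((hrevm w).1 hw)) ((hlen _ _ hrev hP hrevm).trans hPl)
      (by rw [List.head?_reverse]; exact hP'v)
    refine ⟨Rv, hRv, ?_⟩
    intro u hu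
    obtain ⟨Q, hQ, hQv, hQu, hQm⟩ := hRv2 u hu
    have hQm' : ∀ w, w ∈ Q ↔ w ∈ P := fun w => (hQm w).trans (hrevm w)
    have hQl : Q.length = lp Γ U := (hlen _ _ hQ hP hQm').trans hPl
    have hQU : ∀ w ∈ Q, w ∈ U := fun w hw => hPU w ((hQm' w).1 hw)
    have hvu : v ≠ u := by
      rintro rfl
      have h1 : Q.length ≠ 1 := by omega
      obtain ⟨x, Q1, rfl⟩ := List.exists_cons_of_ne_nil hQ.1
      have hx : x = v := by simpa using hQv
      subst hx
      have hQ1 : Q1 ≠ [] := by rintro rfl; simp at h1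
      have h2 : Q1.getLast? = some x := by
        rw [List.getLast?_cons_of_ne_nil hQ1] at hQu
        exact hQu
      have h3 : x ∈ Q1 := List.mem_of_getLast? h2
      exact (List.nodup_cons.1 hQ.2.2).1 h3
    have hnadj : ¬ Γ.Adj u v := by
      intro hadj
      rcases extend hE le_rfl hQ hQU hQl hQv hQu hadj with h | h
      · exact hnH h
      · exact lt_irrefl _ h
    have hvU : v ∈ U := hQU v (List.mem_of_head? hQv)
    have huU : u ∈ U := hQU u (List.mem_of_getLast? hQu)
    simp only [bst, mem_filter, mem_univ, true_and]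
    refine ⟨?_, ?_, ?_, ?_⟩
    · rw [Sym2.mk_isDiag_iff]; exact hvu
    · rw [mem_ed, SimpleGraph.mem_edgeSet]
      exact fun h => hnadj h.symm
    · intro w hw
      rw [Sym2.mem_iff] at hw
      rcases hw with rfl | rfl
      · exact hvU
      · exact huU
    · refine extend hE le_sup_left hQ hQU hQl hQv hQu ?_
      rw [addE, SimpleGraph.sup_adj, SimpleGraph.fromEdgeSet_adj]
      right
      exact ⟨by rw [Sym2.eq_swap]; exact Set.mem_singleton _, hvu.symm⟩
  choose! Rv hRv1 hRv2 using hstep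
  have hcard : (r + 1) ^ 2 ≤ #(R.sigma Rv) := by
    rw [card_sigma]
    calc (r + 1) ^ 2 = (r + 1) * (r + 1) := sq _
      _ ≤ #R * (r + 1) := Nat.mul_le_mul_right _ hRr
      _ = ∑ v ∈ R, (r + 1) := by rw [sum_const, smul_eq_mul]
      _ ≤ ∑ v ∈ R, #(Rv v) := sum_le_sum fun v hv => hRv1 v hv
  refine hcard.trans ?_
  refine card_le_mul_card_image_of_maps_to (f := fun q : (_ : V) × V => s(q.1, q.2)) ?_ 2 ?_
  · rintro ⟨v, u⟩ hq
    rw [mem_sigma] at hq
    exact hRv2 v hq.1 u hq.2
  · intro e _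
    induction e using Sym2.ind with
    | _ x y =>
    refine (card_le_card (t := {⟨x, y⟩, ⟨y, x⟩}) ?_).trans card_le_two
    rintro ⟨v, u⟩ hq
    simp only [mem_filter, Sym2.eq_iff] at hq
    rcases hq.2 with ⟨rfl, rfl⟩ | ⟨rfl, rfl⟩ <;> simp

end Pool.Agent.H15P
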