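import Pool.Agent.H15P.BCD

/-!
# Project H15P, piece CA1 (helper22): many vertices of bounded degree
-/

set_option autoImplicit false

open Finset

namespace Pool.Agent.H15P

open Pool.Agent.V11328 Pool.Agent.V11328.E6

namespace CA

section
variable {V : Type} [Fintype V] [DecidableEq V]

omit [DecidableEq V] in
theorem mem_nb {G : SimpleGraph V} {v u : V} : u ∈ nb G v ↔ G.Adj v u := by
  classical
  simp [nb]

/-- the degrees after the deletion -/
theorem nb_del {G : SimpleGraph V} {F : Finset (Sym2 V)} (hF : F ⊆ ed G) (v : V) :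
    #(nb (G.deleteEdges (F : Set (Sym2 V))) v) + degF F v = #(nb G v) := by
  classical
  have h1 : nb G v = nb (G.deleteEdges (F : Set (Sym2 V))) v ∪
      (nb G v).filter (fun u => s(v, u) ∈ F) := by
    ext u
    simp only [mem_union, mem_filter, mem_nb, del_adj]
    tauto
  have h2 : Disjoint (nb (G.deleteEdges (F : Set (Sym2 V))) v)
      ((nb G v).filter (fun u => s(v, u) ∈ F)) := by
    rw [disjoint_left]
    intro u hu hu'
    rw [mem_nb, del_adj] at hu
    exact hu.2 (mem_filter.1 hu').2
  have h3 : #((nb G v).filter (fun u => s(v, u) ∈ F)) = degF F v := by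
    unfold degF
    refine card_bij (fun u _ => s(v, u)) ?_ ?_ ?_
    · intro u hu
      rw [mem_filter] at hu ⊢
      exact ⟨hu.2, Sym2.mem_mk_left v u⟩
    · intro a _ b _ hab
      exact Sym2.congr_right.1 hab
    · intro e he
      rw [mem_filter] at he
      obtain ⟨u, rfl⟩ := Sym2.mem_iff_exists.1 he.2
      refine ⟨u, ?_, rfl⟩
      rw [mem_filter, mem_nb]
      exact ⟨(mem_ed G _).1 (hF he.1), he.1⟩
  conv_rhs => rw [h1]
  rw [card_union_of_disjoint h2, h3]

omit [Fintype V] in
/-- if no pair of `F` contains two vertices of `S` -/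
theorem sum_degF_le_card {F : Finset (Sym2 V)} {S : Finset V}
    (h : ∀ u ∈ S, ∀ v ∈ S, u ≠ v → s(u, v) ∉ F) : ∑ v ∈ S, degF F v ≤ #F := by
  classical
  have h1 : ∑ v ∈ S, degF F v = #(S.biUnion fun v => F.filter (fun e => v ∈ e)) := by
    rw [card_biUnion]
    · rfl
    · intro u hu v hv huv
      rw [Function.onFun, disjoint_left]
      intro e he he'
      rw [mem_filter] at he he'
      apply h u hu v hv huv
      have := (Sym2.mem_and_mem_iff huv).1 ⟨he.2, he'.2⟩
      rw [← this]
      exact he.1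
  rw [h1]
  refine card_le_card ?_
  intro e he
  rw [mem_biUnion] at he
  obtain ⟨v, _, hv⟩ := he
  exact (mem_filter.1 hv).1

omit [DecidableEq V] in
theorem mem_sm {G : SimpleGraph V} {d : ℝ} {v : V} : v ∈ sm G d ↔ (#(nb G v) : ℝ) ≤ d / 50000 := by
  classical
  simp [sm]

end

end CA

open CA BC in
theorem s_CA1 (hCOV : S_COV) (hBCD : S_BCD) : S_CA1 := by
  intro k M1 hk
  obtain ⟨d0, n0, hC⟩ := hCOV (6 * k)
  refine ⟨max d0 (50000 * (M1 + 1)), n0, ?_⟩
  intro V _ _ G d F M hd hn hNice hmin hF hlt hM hgap hlow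
  classical
  have hd0 : d0 ≤ d := (le_max_left _ _).trans hd
  have hd1 : 50000 * ((M1 : ℝ) + 1) ≤ d := (le_max_right _ _).trans hd
  have hM1 : (0 : ℝ) ≤ M1 := Nat.cast_nonneg _
  have hdpos : 0 < d := by linarith
  set H := G.deleteEdges (F : Set (Sym2 V)) with hH
  -- (1)
  obtain ⟨S, hS, cS⟩ := exists_subset_card_eq (s := low G M) (n := k - 1) hlow
  have hFS : #F < ∑ v ∈ S, #(nb G v) :=
    lt_of_lt_of_le hlt ((minTouch_le G cS).trans (touching_le_sum G S))
  have hFM : #F < (k - 1) * M := by
    refine lt_of_lt_of_le hFS ?_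
    rw [← cS, ← smul_eq_mul]
    refine sum_le_card_nsmul _ _ _ fun v hv => ?_
    have := hS hv
    simp only [low, mem_filter, mem_univ, true_and] at this
    exact this
  have hBM : ∀ v ∈ BB G F, #(nb G v) ≤ M := by
    intro v hv
    by_contra hcon
    have h1 := hgap v hv
    have h2 := mem_BB.1 hv
    have h3 := degF_le F v
    have h4 : 100 * k * M < #(nb G v) := by
      by_contra h5
      exact h1 ⟨by omega, by omega⟩
    have h5 : (k - 1) * M ≤ k * M := Nat.mul_le_mul_right _ (Nat.sub_le _ _)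
    have h6 : 100 * k * M = 100 * (k * M) := by ring
    omega
  have hBs : ∀ v ∈ BB G F, v ∈ sm G d := by
    intro v hv
    rw [mem_sm]
    have h1 : (#(nb G v) : ℝ) ≤ M1 := by exact_mod_cast (hBM v hv).trans hM
    rw [le_div_iff₀ (by norm_num)]
    linarith
  -- (2)
  have hBc := hBCD V G F k hk hF hlt
  have hdeg : ∀ v, #(nb H v) + degF F v = #(nb G v) := fun v => nb_del hF v
  have hnB : ∀ v, v ∉ BB G F → #(nb G v) < 2 * #(nb H v) := by
    intro v hv
    rw [mem_BB] at hv
    have := hdeg v
    omega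
  have hn2 : ∀ v, #(nb H v) < 2 → v ∈ BB G F := by
    intro v hv
    by_contra hcon
    have := hnB v hcon
    have := hmin v
    omega
  obtain ⟨I, hI⟩ : ∃ I : Finset V, I = univ.filter (fun v => #(nb H v) = 0) := ⟨_, rfl⟩
  obtain ⟨T, hT⟩ : ∃ T : Finset V, T = univ.filter (fun v => #(nb H v) = 1) := ⟨_, rfl⟩
  have mI : ∀ v, v ∈ I ↔ #(nb H v) = 0 := by intro v; rw [hI]; simp
  have mT : ∀ v, v ∈ T ↔ #(nb H v) = 1 := by intro v; rw [hT]; simp
  have hIT : Disjoint I T := by
    rw [disjoint_left]
    intro v h1 h2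
    rw [mI] at h1
    rw [mT] at h2
    omega
  have hsub : I ∪ T ⊆ BB G F := by
    intro v hv
    rw [mem_union, mI, mT] at hv
    exact hn2 v (by omega)
  have hcard : #I + #T ≤ #(BB G F) := by
    rw [← card_union_of_disjoint hIT]
    exact card_le_card hsub
  have hnbI : ∀ v, nb H v \ I = nb H v := by
    intro v
    rw [Finset.sdiff_eq_self_iff_disjoint, disjoint_left]
    intro u hu hu'
    rw [mI, card_eq_zero] at hu'
    have : v ∈ nb H u := mem_nb.2 (mem_nb.1 hu).symm
    rw [hu'] at this
    exact absurd this (notMem_empty v)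
  -- (3)
  have hcov : CovHyp G d (6 * k) F I T ∅ := by
    refine ⟨?_, by omega, by omega, by simp, ?_, hIT.symm, ?_, ?_, ?_, ?_⟩
    · have h1 : (#F : ℝ) ≤ ∑ v ∈ S, (#(nb G v) : ℝ) := by exact_mod_cast hFS.le
      have h2 : ∑ v ∈ S, (#(nb G v) : ℝ) ≤ ∑ v ∈ S, 6 * d := sum_le_sum fun v _ => hNice.maxdeg v
      rw [sum_const, cS, nsmul_eq_mul] at h2
      have h3 : ((k - 1 : ℕ) : ℝ) ≤ k := by exact_mod_cast Nat.sub_le k 1
      push_cast
      nlinarith
    · intro v hv
      exact hBs v (hsub (mem_union_right _ hv))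
    · intro v hv
      rw [← hH, hnbI]
      exact (mT v).1 hv
    · intro v h1 h2
      rw [← hH, hnbI]
      rw [mI] at h1
      rw [mT] at h2
      omega
    · intro v _ h1 _
      rw [← hH]
      have h2 := hnB v fun h => h1 (hBs v h)
      have h3 : (#(nb G v) : ℝ) < 2 * #(nb H v) := by exact_mod_cast h2
      rw [mem_sm] at h1
      push Not at h1
      rw [div_lt_iff₀ (by norm_num)] at h1
      rw [div_le_iff₀ (by norm_num)]
      linarith
    · intro v _ _ h1
      exact absurd h1 (notMem_empty v)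
  have hp := (hC V G d F I T ∅ hd0 hn (by
    have : 2 * (6 * k) = 12 * k := by ring
    rw [this]; exact hNice) hcov).1
  rw [← hH] at hp
  -- (4)
  by_contra hcon
  have hge : k ≤ #I + max 1 ((#T + 1) / 2) := by omega
  by_cases hIk : k - 1 ≤ #I
  · obtain ⟨S', hS', cS'⟩ := exists_subset_card_eq (s := I) (n := k - 1) hIk
    have h1 : touching G S' ⊆ F := by
      intro e he
      simp only [touching, mem_filter, mem_univ, true_and] at he
      obtain ⟨he, v, hv, hve⟩ := he
      obtain ⟨u, rfl⟩ := Sym2.mem_iff_exists.1 hve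
      have h2 := (mI v).1 (hS' hv)
      rw [card_eq_zero] at h2
      by_contra h3
      have h4 : u ∈ nb H v := mem_nb.2 (by rw [hH, del_adj]; exact ⟨he, h3⟩)
      rw [h2] at h4
      exact absurd h4 (notMem_empty u)
    have h2 := (minTouch_le G cS').trans (card_le_card h1)
    omega
  · have h1 : k ≤ #I + (#T + 1) / 2 := by
      rcases max_choice 1 ((#T + 1) / 2) with h | h
      · rw [h] at hge; omega
      · rw [h] at hge; exact hge
    obtain ⟨T', hT', cT'⟩ := exists_subset_card_eq (s := T) (n := k - 1 - #I) (by omega)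
    have hdis : Disjoint I T' := disjoint_of_subset_right hT' hIT
    have cS2 : #(I ∪ T') = k - 1 := by rw [card_union_of_disjoint hdis]; omega
    have h2 := (minTouch_le G cS2).trans (touching_le_sum G _)
    rw [sum_union hdis] at h2
    have h3 : ∑ v ∈ I ∪ T, degF F v ≤ #F := by
      refine sum_degF_le_card fun u hu v hv huv he => ?_
      have := (mem_ed G _).1 (hF he)
      exact hNice.sep1 u (hBs u (hsub hu)) v (hBs v (hsub hv)) this
    rw [sum_union hIT] at h3
    have h4 : ∑ v ∈ I, degF F v = ∑ v ∈ I, #(nb G v) := by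
      refine sum_congr rfl fun v hv => ?_
      have := hdeg v
      rw [mI] at hv
      omega
    have h5 : ∑ v ∈ T, degF F v = ∑ v ∈ T', degF F v + ∑ v ∈ T \ T', degF F v := by
      rw [add_comm, sum_sdiff hT']
    have h6 : ∑ v ∈ T', #(nb G v) = ∑ v ∈ T', degF F v + #T' := by
      rw [card_eq_sum_ones, ← sum_add_distrib]
      refine sum_congr rfl fun v hv => ?_
      have := hdeg v
      have h7 := (mT v).1 (hT' hv)
      omega
    have h7 : #(T \ T') ≤ ∑ v ∈ T \ T', degF F v := by
      rw [card_eq_sum_ones]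
      refine sum_le_sum fun v hv => ?_
      have := hdeg v
      have h8 := (mT v).1 (mem_sdiff.1 hv).1
      have := hmin v
      omega
    rw [card_sdiff_of_subset hT'] at h7
    omega

end Pool.Agent.H15P
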