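import Pool.Agent.H15P.Stm

/-!
# Project H15P, piece CA2 (helper13): at most `k - 2` vertices of bounded degree
-/

set_option autoImplicit false

open Finset

namespace Pool.Agent.H15P

open Pool.Agent.V11328 Pool.Agent.V11328.E6

namespace CA2

section

variable {V : Type} [Fintype V] [DecidableEq V]

lemma mem_nb {Γ : SimpleGraph V} {v w : V} : w ∈ nb Γ v ↔ Γ.Adj v w := by
  simp [nb]

/-- degrees after the deletion -/
lemma nb_add {G : SimpleGraph V} {F : Finset (Sym2 V)} (hF : F ⊆ ed G) (v : V) :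
    #(nb (G.deleteEdges (F : Set (Sym2 V))) v) + degF F v = #(nb G v) := by
  classical
  have h1 : nb (G.deleteEdges (F : Set (Sym2 V))) v = (nb G v).filter (fun w => ¬ s(v, w) ∈ F) := by
    ext w
    rw [mem_nb, del_adj, mem_filter, mem_nb]
  have h2 : degF F v = #((nb G v).filter (fun w => s(v, w) ∈ F)) := by
    have h3 : F.filter (fun e => v ∈ e) =
        ((nb G v).filter (fun w => s(v, w) ∈ F)).image (fun w => s(v, w)) := by
      ext e
      rw [mem_filter, mem_image]
      constructor
      · rintro ⟨he, hv⟩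
        obtain ⟨w, rfl⟩ := Sym2.mem_iff_exists.1 hv
        refine ⟨w, mem_filter.2 ⟨?_, he⟩, rfl⟩
        have := (mem_ed G _).1 (hF he)
        exact mem_nb.2 this
      · rintro ⟨w, hw, rfl⟩
        exact ⟨(mem_filter.1 hw).2, Sym2.mem_mk_left _ _⟩
    have h4 : degF F v = #(F.filter (fun e => v ∈ e)) := by
      unfold degF
      congr
    rw [h4, h3, card_image_of_injective]
    intro a b hab
    exact Sym2.congr_right.1 hab
  rw [h1, h2, add_comm]
  exact card_filter_add_card_filter_not (fun w => s(v, w) ∈ F)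

lemma touching_sum (G : SimpleGraph V) (S : Finset V) :
    #(touching G S) ≤ ∑ v ∈ S, #(nb G v) := by
  classical
  have h1 : touching G S ⊆ S.biUnion (fun v => (nb G v).image (fun u => s(v, u))) := by
    intro e he
    simp only [touching, mem_filter, mem_univ, true_and] at he
    obtain ⟨he, v, hv, hve⟩ := he
    obtain ⟨u, rfl⟩ := Sym2.mem_iff_exists.1 hve
    rw [mem_biUnion]
    refine ⟨v, hv, ?_⟩
    rw [mem_image]
    exact ⟨u, mem_nb.2 he, rfl⟩
  refine (card_le_card h1).trans (card_biUnion_le.trans ?_)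
  exact sum_le_sum fun v _ => card_image_le

/-- the pairs of `F` at the vertices of `Y` -/
lemma degF_sum (F : Finset (Sym2 V)) (Y : Finset V) :
    ∑ v ∈ Y, degF F v ≤ #F + #Y * #Y := by
  classical
  have h0 : ∀ v, degF F v = ∑ e ∈ F, if v ∈ e then 1 else 0 := by
    intro v
    rw [← card_filter]
    unfold degF
    congr
  simp only [h0]
  rw [sum_comm]
  have h1 : ∀ e ∈ F, (∑ v ∈ Y, if v ∈ e then 1 else 0) ≤
      1 + if e ∈ (Y ×ˢ Y).image (fun q => s(q.1, q.2)) then 1 else 0 := by
    intro e he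
    rw [← card_filter]
    induction e with
    | _ a b =>
    by_cases h : a ∈ Y ∧ b ∈ Y
    · rw [if_pos (mem_image.2 ⟨(a, b), mem_product.2 h, rfl⟩)]
      refine (card_le_card (t := {a, b}) ?_).trans card_le_two
      intro v hv
      have := (mem_filter.1 hv).2
      rw [Sym2.mem_iff] at this
      rcases this with rfl | rfl
      · exact mem_insert_self _ _
      · exact mem_insert_of_mem (mem_singleton_self _)
    · refine le_trans ?_ (Nat.le_add_right _ _)
      rw [card_le_one]
      intro v hv w hw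
      obtain ⟨hv1, hv2⟩ := mem_filter.1 hv
      obtain ⟨hw1, hw2⟩ := mem_filter.1 hw
      rw [Sym2.mem_iff] at hv2 hw2
      rcases hv2 with rfl | rfl <;> rcases hw2 with rfl | rfl
      · rfl
      · exact absurd ⟨hv1, hw1⟩ h
      · exact absurd ⟨hw1, hv1⟩ h
      · rfl
  refine (sum_le_sum h1).trans ?_
  rw [sum_add_distrib, sum_const, smul_eq_mul, mul_one, ← card_filter]
  refine Nat.add_le_add_left ?_ _
  refine (card_le_card (t := (Y ×ˢ Y).image (fun q => s(q.1, q.2))) ?_).trans
    (card_image_le.trans (card_product _ _).le)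
  intro e he
  exact (mem_filter.1 he).2

/-- (1) -/
lemma few {G : SimpleGraph V} {F : Finset (Sym2 V)} {k M : ℕ} (hF : F ⊆ ed G)
    (hk : 2 ≤ k) (hlt : #F < minTouch k G) (hM : 500 * k + 40 ≤ M) (hq : #(low G M) < k - 1)
    (hgap : ∀ v, ¬ (M < #(nb G v) ∧ #(nb G v) ≤ 100 * k * M)) :
    #(univ.filter (fun v => v ∉ low G M ∧
      #(nb (G.deleteEdges (F : Set (Sym2 V))) v) < 492 * k + 40)) + #(low G M) ≤ k - 1 := by
  classical
  by_contra hcon
  push Not at hcon
  set W := low G M with hW
  set Xb := univ.filter (fun v => v ∉ W ∧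
      #(nb (G.deleteEdges (F : Set (Sym2 V))) v) < 492 * k + 40) with hXb
  obtain ⟨Y, hY, hYc⟩ := exists_subset_card_eq (s := Xb) (n := k - #W) (by omega)
  have hYpos : 0 < #Y := by omega
  obtain ⟨y0, hy0⟩ := card_pos.1 hYpos
  have hWY : Disjoint W (Y.erase y0) := by
    rw [disjoint_left]
    intro x hx hx'
    exact (mem_filter.1 (hY (mem_of_mem_erase hx'))).2.1 hx
  have hc : #(W ∪ Y.erase y0) = k - 1 := by
    rw [card_union_of_disjoint hWY, card_erase_of_mem hy0, hYc]
    omega
  have h1 := minTouch_le G hc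
  have h2 := touching_sum G (W ∪ Y.erase y0)
  rw [sum_union hWY] at h2
  have h3 : ∑ v ∈ W, #(nb G v) ≤ #W * M := by
    rw [← smul_eq_mul]
    refine sum_le_card_nsmul _ _ _ fun v hv => ?_
    have : v ∈ low G M := hv
    simpa [low] using this
  have h4 : ∑ v ∈ Y, #(nb G v) = ∑ v ∈ Y.erase y0, #(nb G v) + #(nb G y0) :=
    (sum_erase_add _ _ hy0).symm
  have h5 : ∑ v ∈ Y, #(nb G v) ≤ #F + #Y * #Y + #Y * (492 * k + 40) := by
    have h6 : ∑ v ∈ Y, #(nb G v) = ∑ v ∈ Y, #(nb (G.deleteEdges (F : Set (Sym2 V))) v) +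
        ∑ v ∈ Y, degF F v := by
      rw [← sum_add_distrib]
      exact sum_congr rfl fun v _ => (nb_add hF v).symm
    have h7 : ∑ v ∈ Y, #(nb (G.deleteEdges (F : Set (Sym2 V))) v) ≤ #Y * (492 * k + 40) := by
      rw [← smul_eq_mul]
      exact sum_le_card_nsmul _ _ _ fun v hv => (mem_filter.1 (hY hv)).2.2.le
    have h8 := degF_sum F Y
    omega
  have h9 : 100 * k * M < #(nb G y0) := by
    have hy := (mem_filter.1 (hY hy0)).2.1
    have hy' : M < #(nb G y0) := by
      by_contra h
      push Not at h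
      exact hy (by simpa [low, hW] using h)
    by_contra h
    push Not at h
    exact hgap y0 ⟨hy', h⟩
  have hYk : #Y ≤ k := by omega
  have hWk : #W ≤ k := by omega
  have h10 : #Y * #Y ≤ k * M := Nat.mul_le_mul hYk (by omega)
  have h11 : #Y * (492 * k + 40) ≤ k * M := Nat.mul_le_mul hYk (by omega)
  have h12 : #W * M ≤ k * M := Nat.mul_le_mul_right _ hWk
  have h13 : 3 * (k * M) ≤ 100 * k * M := by nlinarith [Nat.zero_le (k * M)]
  omega

end

end CA2

open CA2 in
/-- Piece CA2. -/
theorem s_CA2 (hCOV : S_COV) (hATT : S_ATT) (hBCD : S_BCD) : S_CA2 := by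
  intro k M1 hk
  obtain ⟨d0, n0, hcov⟩ := hCOV (6 * k)
  refine ⟨max d0 (50000 * (M1 + 1)), max n0 k, ?_⟩
  intro V _ _ G d F M hd hn hN hmin hF hlt hM hM1 hq hgap
  classical
  have hd1 : d0 ≤ d := (le_max_left _ _).trans hd
  have hd2 : 50000 * ((M1 : ℝ) + 1) ≤ d := (le_max_right _ _).trans hd
  have hn1 : n0 ≤ Fintype.card V := (le_max_left _ _).trans hn
  have hn2 : k ≤ Fintype.card V := (le_max_right _ _).trans hn
  have hM1r : (0 : ℝ) ≤ M1 := Nat.cast_nonneg _
  have hd0 : 0 < d := by linarith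
  have hN' : Nice G d (2 * (6 * k)) := by
    have : 2 * (6 * k) = 12 * k := by ring
    rw [this]; exact hN
  have hfew := few hF hk hlt hM hq hgap
  set H := G.deleteEdges (F : Set (Sym2 V)) with hH
  set W := low G M with hW
  set Xb := univ.filter (fun v => v ∉ W ∧ #(nb H v) < 492 * k + 40) with hXb
  set Xw := W.filter (fun w => nb H w ⊆ Xb) with hXw
  set X := Xb ∪ Xw with hX
  set T := (W \ X).filter (fun w => #(nb H w \ X) = 1) with hT
  have hWsm : W ⊆ sm G d := by
    intro v hv
    have h1 : #(nb G v) ≤ M := by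
      have : v ∈ low G M := hv
      simpa [low] using this
    have h2 : (#(nb G v) : ℝ) ≤ M1 := by exact_mod_cast h1.trans hM1
    simp only [sm, mem_filter, mem_univ, true_and]
    rw [le_div_iff₀ (by norm_num)]
    linarith
  have hXwW : Xw ⊆ W := filter_subset _ _
  have hXT : #Xw + #T ≤ #W := by
    rw [← card_union_of_disjoint]
    · refine card_le_card (union_subset hXwW ?_)
      intro v hv
      exact (mem_sdiff.1 (mem_filter.1 hv).1).1
    · rw [disjoint_left]
      intro v hv hv'
      exact (mem_sdiff.1 (mem_filter.1 hv').1).2 (mem_union_right _ hv)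
  have hXc : #X ≤ #Xb + #Xw := card_union_le _ _
  have hXk : #X ≤ k - 1 := by
    have := card_le_card hXwW
    omega
  have hBc := hBCD V G F k hk hF hlt
  have hFd : (#F : ℝ) ≤ ((6 * k : ℕ) : ℝ) * d := by
    obtain ⟨S, hS, hST⟩ := minTouch_spec hn2 G
    have h1 : ∀ v, #(nb G v) ≤ ⌊6 * d⌋₊ := fun v => Nat.le_floor (hN.maxdeg v)
    have h2 := touching_card_le G S h1
    have h3 : #F ≤ (k - 1) * ⌊6 * d⌋₊ := by
      rw [hST, hS] at h2
      omega
    have h4 : #F ≤ k * ⌊6 * d⌋₊ := h3.trans (Nat.mul_le_mul_right _ (Nat.sub_le _ _))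
    have h5 : (#F : ℝ) ≤ k * (⌊6 * d⌋₊ : ℝ) := by exact_mod_cast h4
    have h6 : (⌊6 * d⌋₊ : ℝ) ≤ 6 * d := Nat.floor_le (by linarith)
    have h7 : (k : ℝ) * (⌊6 * d⌋₊ : ℝ) ≤ k * (6 * d) :=
      mul_le_mul_of_nonneg_left h6 (Nat.cast_nonneg k)
    push_cast
    linarith
  have hcv : CovHyp G d (6 * k) F X T (BB G F) := by
    refine ⟨hFd, by omega, ?_, by omega, ?_, ?_, ?_, ?_, ?_, ?_⟩
    · omega
    · intro v hv
      exact hWsm (mem_sdiff.1 (mem_filter.1 hv).1).1
    · rw [disjoint_left]
      intro v hv hv'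
      exact (mem_sdiff.1 (mem_filter.1 hv).1).2 hv'
    · intro v hv
      exact (mem_filter.1 hv).2
    · intro v hvX hvT
      by_cases hvW : v ∈ W
      · have h1 : ¬ nb H v ⊆ Xb := by
          intro h
          exact hvX (mem_union_right _ (mem_filter.2 ⟨hvW, h⟩))
        rw [not_subset] at h1
        obtain ⟨u, hu, huX⟩ := h1
        have hadj : G.Adj v u := by
          have := mem_nb.1 hu
          rw [hH, del_adj] at this
          exact this.1
        have husm : u ∉ sm G d := fun h => hN.sep1 v (hWsm hvW) u h hadj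
        have huX' : u ∉ X := by
          intro h
          rcases mem_union.1 h with h | h
          · exact huX h
          · exact husm (hWsm (hXwW h))
        have h2 : 0 < #(nb H v \ X) := card_pos.2 ⟨u, mem_sdiff.2 ⟨hu, huX'⟩⟩
        have h3 : #(nb H v \ X) ≠ 1 := by
          intro h
          exact hvT (mem_filter.2 ⟨mem_sdiff.2 ⟨hvW, hvX⟩, h⟩)
        change 2 ≤ #(nb H v \ X)
        omega
      · have h1 : ¬ #(nb H v) < 492 * k + 40 := by
          intro h
          exact hvX (mem_union_left _ (mem_filter.2 ⟨mem_univ _, hvW, h⟩))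
        have h2 := le_card_sdiff X (nb H v)
        change 2 ≤ #(nb H v \ X)
        omega
    · intro v hvX hvs hvB
      have h1 := nb_add hF v
      rw [← hH] at h1
      have h2 : ¬ #(nb G v) ≤ 2 * degF F v := by
        intro h
        exact hvB (by simpa [BB] using h)
      have h3 : #(nb G v) ≤ 2 * #(nb H v) := by omega
      have h4 : (#(nb G v) : ℝ) ≤ 2 * #(nb H v) := by exact_mod_cast h3
      have h5 : d / 50000 < #(nb G v) := by
        by_contra h
        push Not at h
        exact hvs (by simpa [sm] using h)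
      linarith
    · intro v hvX hvs hvZ
      have hvW : v ∉ W := fun h => hvs (hWsm h)
      have h1 : ¬ #(nb H v) < 492 * k + 40 := by
        intro h
        exact hvX (mem_union_left _ (mem_filter.2 ⟨mem_univ _, hvW, h⟩))
      change 82 * (6 * k) + 40 ≤ #(nb H v)
      omega
  obtain ⟨hc1, hc2⟩ := hcov V G d F X T (BB G F) hd1 hn1 hN' hcv
  rw [← hH] at hc1
  change pcn H ≤ k - 1
  by_cases hTe : T = ∅
  · by_cases hXe : #X ≤ k - 2
    · rw [hTe, card_empty] at hc1
      have : max 1 ((0 + 1) / 2) = 1 := by decide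
      rw [this] at hc1
      omega
    · have hXk' : #X = k - 1 := by omega
      have h1 := minTouch_le G hXk'
      have h2 : ¬ touching G X ⊆ F := by
        intro h
        have := card_le_card h
        omega
      rw [not_subset] at h2
      obtain ⟨e, he, heF⟩ := h2
      simp only [touching, mem_filter, mem_univ, true_and] at he
      obtain ⟨he, v, hv, hve⟩ := he
      obtain ⟨u, rfl⟩ := Sym2.mem_iff_exists.1 hve
      have hadj : H.Adj v u := by
        rw [hH, del_adj]
        exact ⟨he, heF⟩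
      have h3 := hATT V H X v u (hc2 hTe) hv hadj
      omega
  · have hTpos : 0 < #T := card_pos.2 (nonempty_iff_ne_empty.2 hTe)
    have h1 : max 1 ((#T + 1) / 2) ≤ #T := by
      rw [max_le_iff]
      omega
    omega

end Pool.Agent.H15P
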