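import Pool.Agent.H15P.Stm2

open MeasureTheory ProbabilityTheory unitInterval Finset Filter Topology
open scoped SimpleGraph

namespace Pool.Agent.H15P

open Pool.Agent.V11328 Pool.Agent.V11328.E6

/-- Piece CHE. -/
theorem s_CHE : S_CHE := by
  classical
  intro V _ _ p A q ε m hε hA hAA hm
  have hgw : ∀ G : SimpleGraph V, 0 ≤ gw (p : ℝ) G := gw_nonneg p.2.1 p.2.2
  have hP : ∀ B : Set (SimpleGraph V), (G(V, p)).real B =
      ∑ G : SimpleGraph V, gw (p : ℝ) G * (if G ∈ B then (1 : ℝ) else 0) := by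
    intro B
    rw [real_event, sum_filter]
    refine sum_congr rfl (fun G _ => ?_)
    split_ifs <;> simp
  set N : ℝ := (Fintype.card V : ℝ) with hN
  have hN0 : 0 ≤ N := Nat.cast_nonneg _
  have hV : Nonempty V := by
    by_contra h
    rw [not_nonempty_iff] at h
    have : N = 0 := by rw [hN, Fintype.card_eq_zero]; simp
    rw [this] at hm
    have : (0 : ℝ) ≤ m := Nat.cast_nonneg _
    linarith
  have hq : 0 ≤ q := by
    rw [← hA hV.some]
    exact measureReal_nonneg
  set x : SimpleGraph V → ℝ := fun G => ∑ v : V, (if G ∈ A v then (1 : ℝ) else 0) with hx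
  have hxn : ∀ G : SimpleGraph V, (Set.ncard {v : V | G ∈ A v} : ℝ) = x G := by
    intro G
    rw [hx]
    simp only
    rw [Finset.sum_boole, ← Set.ncard_coe_finset]
    congr 2
    ext v
    simp
  have e1 : ∑ G : SimpleGraph V, gw (p : ℝ) G * x G = N * q := by
    have : ∀ G : SimpleGraph V, gw (p : ℝ) G * x G =
        ∑ v : V, gw (p : ℝ) G * (if G ∈ A v then (1 : ℝ) else 0) := by
      intro G
      rw [hx, mul_sum]
    rw [sum_congr rfl (fun G _ => this G), sum_comm,
      sum_congr rfl (fun v _ => ((hP (A v)).symm.trans (hA v))), sum_const, card_univ,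
      nsmul_eq_mul]
  have e2 : ∑ G : SimpleGraph V, gw (p : ℝ) G * x G ^ 2 ≤ N * q + (N * q) ^ 2 * (1 + ε) := by
    have h1 : ∀ G : SimpleGraph V, gw (p : ℝ) G * x G ^ 2 =
        ∑ u : V, ∑ v : V, gw (p : ℝ) G * (if G ∈ A u ∩ A v then (1 : ℝ) else 0) := by
      intro G
      rw [hx, sq, Finset.sum_mul_sum, mul_sum]
      refine sum_congr rfl (fun u _ => ?_)
      rw [mul_sum]
      refine sum_congr rfl (fun v _ => ?_)
      by_cases h1 : G ∈ A u <;> by_cases h2 : G ∈ A v <;> simp [h1, h2]
    rw [sum_congr rfl (fun G _ => h1 G), sum_comm]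
    have h2 : ∀ u : V, ∑ G : SimpleGraph V, ∑ v : V,
        gw (p : ℝ) G * (if G ∈ A u ∩ A v then (1 : ℝ) else 0) ≤ q + N * (q ^ 2 * (1 + ε)) := by
      intro u
      rw [sum_comm]
      have h3 : ∀ v : V, ∑ G : SimpleGraph V,
          gw (p : ℝ) G * (if G ∈ A u ∩ A v then (1 : ℝ) else 0) ≤
          (if u = v then q else 0) + q ^ 2 * (1 + ε) := by
        intro v
        have e : ∑ G : SimpleGraph V, gw (p : ℝ) G * (if G ∈ A u ∩ A v then (1 : ℝ) else 0) =
            (G(V, p)).real (A u ∩ A v) := by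
          rw [hP]
          refine sum_congr rfl (fun G _ => ?_)
          congr
        rw [e]
        by_cases huv : u = v
        · subst huv
          rw [if_pos rfl, Set.inter_self, hA]
          have : 0 ≤ q ^ 2 * (1 + ε) := by positivity
          linarith
        · rw [if_neg huv, zero_add]
          exact hAA u v huv
      refine (sum_le_sum (fun v _ => h3 v)).trans (le_of_eq ?_)
      rw [sum_add_distrib, sum_ite_eq, if_pos (mem_univ u), sum_const, card_univ, nsmul_eq_mul]
    refine (sum_le_sum (fun u _ => h2 u)).trans (le_of_eq ?_)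
    rw [sum_const, card_univ, nsmul_eq_mul, ← hN]
    ring
  have e3 : ∑ G : SimpleGraph V, gw (p : ℝ) G * (x G - N * q) ^ 2 ≤
      N * q + ε * (N * q) ^ 2 := by
    have h1 : ∀ G : SimpleGraph V, gw (p : ℝ) G * (x G - N * q) ^ 2 =
        gw (p : ℝ) G * x G ^ 2 - 2 * (N * q) * (gw (p : ℝ) G * x G) +
          (N * q) ^ 2 * gw (p : ℝ) G := by
      intro G; ring
    rw [sum_congr rfl (fun G _ => h1 G), sum_add_distrib, sum_sub_distrib, ← mul_sum, ← mul_sum,
      e1, sum_gw]
    nlinarith
  have hpos : 0 < (N * q - m) ^ 2 := by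
    have : 0 < N * q - m := by linarith
    positivity
  rw [le_div_iff₀ hpos]
  refine le_trans ?_ e3
  rw [hP, sum_mul]
  refine sum_le_sum (fun G _ => ?_)
  by_cases hG : G ∈ {G : SimpleGraph V | Set.ncard {v : V | G ∈ A v} < m}
  · rw [if_pos hG, mul_one]
    refine mul_le_mul_of_nonneg_left ?_ (hgw G)
    have h1 : x G < m := by
      rw [← hxn]
      have : Set.ncard {v : V | G ∈ A v} < m := hG
      exact_mod_cast this
    nlinarith
  · rw [if_neg hG, mul_zero, zero_mul]
    exact mul_nonneg (hgw G) (sq_nonneg _)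

end Pool.Agent.H15P
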