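import Pool.Agent.H15P.Stm

/-!
# Project H15P, piece COV (helper98): the path cover theorem
-/

set_option autoImplicit false
set_option linter.unusedSectionVars false

open MeasureTheory ProbabilityTheory unitInterval Finset Filter Topology
open scoped SimpleGraph

namespace Pool.Agent.H15P

open Pool.Agent.V11328 Pool.Agent.V11328.E6

namespace Cov

section

variable {V : Type} [Fintype V] [DecidableEq V]

theorem ham_mono {Γ Γ' : SimpleGraph V} {U : Finset V} (h : Γ ≤ Γ') (hH : HamOn Γ U) :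
    HamOn Γ' U := by
  obtain ⟨P, a, b, h1, h2, h3, h4, h5⟩ := hH
  exact ⟨P, a, b, ⟨h1.1, h1.2.1.imp (fun _ _ h' => h h'), h1.2.2⟩, h2, h3, h h4, h5⟩

/-- pairing the elements of a finite set -/
theorem pairing (T : Finset V) : ∃ (T1 T3 : Finset V) (φ : V → V), T1 ⊆ T ∧ T3 ⊆ T ∧
    T1.image φ ⊆ T ∧
    Disjoint T1 (T1.image φ) ∧ Disjoint T1 T3 ∧ Disjoint (T1.image φ) T3 ∧
    T = T1 ∪ T1.image φ ∪ T3 ∧ (∀ u ∈ T1, ∀ v ∈ T1, φ u = φ v → u = v) ∧ #T3 ≤ 1 ∧
    #T1 + #T3 = (#T + 1) / 2 := by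
  classical
  obtain ⟨T1, hT1, hc1⟩ := Finset.exists_subset_card_eq (s := T) (n := #T / 2) (by omega)
  have hd : #(T \ T1) = #T - #T / 2 := by rw [card_sdiff_of_subset hT1, hc1]
  obtain ⟨T2, hT2, hc2⟩ := Finset.exists_subset_card_eq (s := T \ T1) (n := #T / 2) (by omega)
  have e : T1 ≃ T2 := Finset.equivOfCardEq (by rw [hc1, hc2])
  let φ : V → V := fun v => if h : v ∈ T1 then (e ⟨v, h⟩ : V) else v
  have hφ : ∀ v (h : v ∈ T1), φ v = (e ⟨v, h⟩ : V) := fun v h => by simp only [φ, h, dite_true]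
  have himg : T1.image φ = T2 := by
    ext w
    simp only [mem_image]
    constructor
    · rintro ⟨v, hv, rfl⟩
      rw [hφ v hv]
      exact (e ⟨v, hv⟩).2
    · intro hw
      refine ⟨(e.symm ⟨w, hw⟩ : V), (e.symm ⟨w, hw⟩).2, ?_⟩
      rw [hφ _ (e.symm ⟨w, hw⟩).2]
      simp
  have hT2T : T2 ⊆ T := hT2.trans sdiff_subset
  have hdis : Disjoint T1 T2 := by
    rw [Finset.disjoint_left]
    intro v h1 h2
    exact (Finset.mem_sdiff.1 (hT2 h2)).2 h1
  refine ⟨T1, T \ (T1 ∪ T2), φ, hT1, sdiff_subset, ?_, ?_, ?_, ?_, ?_, ?_, ?_, ?_⟩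
  · rw [himg]; exact hT2T
  · rw [himg]; exact hdis
  · rw [Finset.disjoint_left]
    intro v h1 h2
    exact (Finset.mem_sdiff.1 h2).2 (mem_union_left _ h1)
  · rw [himg, Finset.disjoint_left]
    intro v h1 h2
    exact (Finset.mem_sdiff.1 h2).2 (mem_union_right _ h1)
  · rw [himg]
    exact (union_sdiff_of_subset (union_subset hT1 hT2T)).symm
  · intro u hu v hv h
    rw [hφ u hu, hφ v hv] at h
    have := e.injective (Subtype.ext h)
    exact congrArg Subtype.val this
  · rw [card_sdiff_of_subset (union_subset hT1 hT2T), card_union_of_disjoint hdis, hc1, hc2]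
    omega
  · rw [card_sdiff_of_subset (union_subset hT1 hT2T), card_union_of_disjoint hdis, hc1, hc2]
    omega

theorem mem_nb (G : SimpleGraph V) (v w : V) : w ∈ nb G v ↔ G.Adj v w := by
  classical
  simp [nb]

theorem mem_QQ_of_sm {G : SimpleGraph V} {d : ℝ} {v : V} (h : v ∈ sm G d) : v ∈ QQ G d := by
  classical
  simp only [QQ, mem_filter, mem_univ, true_and]
  exact Or.inl h

end

end Cov

open Cov

/-- **COV** -/
theorem s_COV (hH : S_HTM) (hV : S_VIR) (hM : S_MIN) (hP : S_PCV) : S_COV := by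
  intro K
  obtain ⟨d1, n1, h1⟩ := hH (2 * K)
  refine ⟨max (max 0 d1) (100000 * (K + 2)), max n1 (2 * K + 3), ?_⟩
  intro V _ _ G d F X T Z hd hn hN hC
  have hd0 : 0 ≤ d := ((le_max_left _ _).trans (le_max_left _ _)).trans hd
  have hd1 : d1 ≤ d := ((le_max_right _ _).trans (le_max_left _ _)).trans hd
  have hd2 : 100000 * ((K : ℝ) + 2) ≤ d := (le_max_right _ _).trans hd
  have hn1 : n1 ≤ Fintype.card V := (le_max_left _ _).trans hn
  have hn2 : 2 * K + 3 ≤ Fintype.card V := (le_max_right _ _).trans hn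
  have hdel : ∀ x y, (G.deleteEdges (F : Set (Sym2 V))).Adj x y → G.Adj x y := fun x y h =>
    ((del_adj G F x y).1 h).1
  -- the unique neighbours
  have hν0 : ∀ v, ∃ w, v ∈ T → ((G.deleteEdges (F : Set (Sym2 V))).Adj v w ∧ w ∉ X) ∧
      ∀ z, (G.deleteEdges (F : Set (Sym2 V))).Adj v z → z ∉ X → z = w := by
    intro v
    by_cases hv : v ∈ T
    · obtain ⟨w, hw⟩ := Finset.card_eq_one.1 (hC.one v hv)
      refine ⟨w, fun _ => ⟨?_, ?_⟩⟩
      · have : w ∈ nb (G.deleteEdges (F : Set (Sym2 V))) v \ X := by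
          rw [hw]; exact mem_singleton_self w
        rw [Finset.mem_sdiff, mem_nb] at this
        exact this
      · intro z hz hzX
        have : z ∈ nb (G.deleteEdges (F : Set (Sym2 V))) v \ X := by
          rw [Finset.mem_sdiff, mem_nb]
          exact ⟨hz, hzX⟩
        rw [hw] at this
        exact mem_singleton.1 this
    · exact ⟨v, fun h => absurd h hv⟩
  choose ν hν using hν0
  obtain ⟨T1, T3, φ, hT1, hT3, hT2, hd12, hd13, hd23, hTeq, hinj, hT3c, hTc⟩ := pairing T
  have hφT : ∀ u ∈ T1, φ u ∈ T := fun u hu => hT2 (mem_image_of_mem φ hu)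
  have hsm : ∀ v ∈ T, v ∈ sm G d := fun v hv => hC.Tsm hv
  have hνG : ∀ v ∈ T, G.Adj v (ν v) := fun v hv => hdel _ _ (hν v hv).1.1
  have hνsm : ∀ v ∈ T, ν v ∉ sm G d := fun v hv h => hN.sep1 v (hsm v hv) (ν v) h (hνG v hv)
  -- the vertex y
  obtain ⟨y, hy⟩ : ∃ y : V, T3.Nonempty → y ∉ QQ G d ∧ y ∉ X := by
    rcases T3.eq_empty_or_nonempty with h | ⟨t, ht⟩
    · have : Nonempty V := Fintype.card_pos_iff.1 (by omega)
      obtain ⟨y⟩ := this
      refine ⟨y, fun h' => ?_⟩
      rw [h] at h'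
      exact absurd h' (by simp)
    · have htT := hT3 ht
      have hdeg : K + 2 ≤ #(nb (G.deleteEdges (F : Set (Sym2 V))) (ν t)) := by
        by_cases hz : ν t ∈ Z
        · have := hC.zlarge (ν t) (hν t htT).1.2 (hνsm t htT) hz
          omega
        · have := hC.large (ν t) (hν t htT).1.2 (hνsm t htT) hz
          have h3 : ((K + 2 : ℕ) : ℝ) ≤ #(nb (G.deleteEdges (F : Set (Sym2 V))) (ν t)) := by
            push_cast
            linarith
          exact_mod_cast h3
      have hlt : #(insert t X) < #(nb (G.deleteEdges (F : Set (Sym2 V))) (ν t)) := by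
        have := card_insert_le t X
        have := hC.hX
        omega
      obtain ⟨y, hy1, hy2⟩ := exists_mem_notMem_of_card_lt_card hlt
      rw [mem_nb] at hy1
      refine ⟨y, fun _ => ⟨fun hQ => ?_, fun hX => hy2 (mem_insert_of_mem hX)⟩⟩
      have := hN.sep3 (ν t) (hνsm t htT) t (mem_QQ_of_sm (hsm t htT)) y hQ (hνG t htT).symm
        (hdel _ _ hy1)
      exact hy2 (by rw [← this]; exact mem_insert_self t X)
  -- the virtual graph
  set Ev := T1.image (fun u => s(u, ν (φ u))) ∪ T3.image (fun t => s(t, y)) with hEv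
  set U := univ \ (X ∪ T1.image φ) with hU
  have hyp : Hyp G d (2 * K) F Ev U Z :=
    hV V G d K F X T Z T1 T3 φ ν y hd0 hN hC hT1 hT3 hd12 hd13 hd23 hTeq hinj hT3c
      (fun v hv => (hν v hv).1) hy
  have ham : HamOn (hh G F Ev U) U := h1 V G d F Ev U Z hd1 hn1 hN hyp
  have hmemU : ∀ v, v ∈ U ↔ v ∉ X ∧ v ∉ T1.image φ := by
    intro v
    rw [hU, Finset.mem_sdiff, mem_union]
    simp
  have hcardX : #X + #(univ \ X) = Fintype.card V := by
    rw [add_comm, card_sdiff_add_card_eq_card (subset_univ X), card_univ]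
  have hT2c : #(T1.image φ) ≤ K := (card_le_card hT2).trans hC.hT
  have hU3 : 3 ≤ #U := by
    have e1 : #(X ∪ T1.image φ) + #U = Fintype.card V := by
      rw [add_comm, hU, card_sdiff_add_card_eq_card (subset_univ _), card_univ]
    have e2 := card_union_le X (T1.image φ)
    have e3 := hC.hX
    omega
  have hTX : ∀ v ∈ T, v ∉ X := fun v hv h => (Finset.disjoint_left.1 hC.TX) hv h
  have hφne : ∀ u ∈ T1, u ≠ φ u := by
    intro u hu h
    exact (Finset.disjoint_left.1 hd12) hu (by rw [h]; exact mem_image_of_mem φ hu)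
  refine ⟨?_, ?_⟩
  · set E := T1.image (fun u => s(u, φ u)) ∪ T3.image (fun t => s(t, y)) with hE
    set Γ' := G.deleteEdges (F : Set (Sym2 V)) ⊔ SimpleGraph.fromEdgeSet (E : Set (Sym2 V)) with hΓ'
    have hmin := hM V Γ' φ ν (fun u => ν (φ u)) T1 (hh G F Ev U) U ham hU3
      (fun u hu => (hmemU u).2 ⟨hTX u (hT1 hu), fun h => (Finset.disjoint_left.1 hd12) hu h⟩)
      (fun u hu h => ((hmemU (φ u)).1 h).2 (mem_image_of_mem φ hu)) hinj
      (fun u hu h => hN.sep2 u (hsm u (hT1 hu)) (φ u) (hsm _ (hφT u hu)) (hφne u hu) (ν u)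
        ⟨hνG u (hT1 hu), by rw [h]; exact hνG _ (hφT u hu)⟩)
      (fun u hu h => hνsm _ (hφT u hu) (hsm _ (hT1 h)))
      (by
        intro u hu z hz
        obtain ⟨h2, h3, h4⟩ := hz
        rcases h2 with h2 | h2
        · exact Or.inl ((hν u (hT1 hu)).2 z h2 ((hmemU z).1 h4).1)
        · rw [SimpleGraph.fromEdgeSet_adj] at h2
          have h5 : s(u, z) ∈ Ev := h2.1
          rw [hEv, mem_union, mem_image, mem_image] at h5
          rcases h5 with ⟨u', hu', h6⟩ | ⟨t, ht, h6⟩
          · rcases Sym2.eq_iff.1 h6 with ⟨h7, h8⟩ | ⟨h7, h8⟩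
            · right
              rw [← h8, h7]
            · exfalso
              apply hνsm _ (hφT u' hu')
              rw [h8]
              exact hsm u (hT1 hu)
          · rcases Sym2.eq_iff.1 h6 with ⟨h7, h8⟩ | ⟨h7, h8⟩
            · exfalso
              exact (Finset.disjoint_left.1 hd13) hu (by rw [← h7]; exact ht)
            · exfalso
              apply (hy ⟨t, ht⟩).1
              rw [h8]
              exact mem_QQ_of_sm (hsm u (hT1 hu)))
      (by
        intro a b hab hne
        obtain ⟨h2, h3, h4⟩ := hab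
        rcases h2 with h2 | h2
        · exact Or.inl h2
        · rw [SimpleGraph.fromEdgeSet_adj] at h2
          have h5 : s(a, b) ∈ Ev := h2.1
          rw [hEv, mem_union, mem_image, mem_image] at h5
          rcases h5 with ⟨u', hu', h6⟩ | ⟨t, ht, h6⟩
          · exact absurd h6.symm (hne u' hu')
          · right
            rw [SimpleGraph.fromEdgeSet_adj]
            refine ⟨?_, h2.2⟩
            rw [← h6]
            exact mem_union_right _ (mem_image_of_mem (fun t => s(t, y)) ht))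
      (by
        intro u hu
        refine ⟨Or.inr ?_, Or.inl (hν (φ u) (hφT u hu)).1.1⟩
        rw [SimpleGraph.fromEdgeSet_adj]
        exact ⟨mem_union_left _ (mem_image_of_mem (fun u => s(u, φ u)) hu), hφne u hu⟩)
    have hUT : U ∪ T1.image φ = univ \ X := by
      ext v
      rw [mem_union, hmemU, Finset.mem_sdiff]
      constructor
      · rintro (h | h)
        · exact ⟨mem_univ v, h.1⟩
        · exact ⟨mem_univ v, hTX v (hT2 h)⟩
      · rintro ⟨-, h⟩
        by_cases h' : v ∈ T1.image φ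
        · exact Or.inr h'
        · exact Or.inl ⟨h, h'⟩
    rw [hUT] at hmin
    have h3X : 3 ≤ #(univ \ X) := by
      have := hC.hX
      omega
    have hp := hP V Γ' X E hmin h3X
    have hle : Γ'.deleteEdges (E : Set (Sym2 V)) ≤ G.deleteEdges (F : Set (Sym2 V)) := by
      intro a b hab
      rw [del_adj] at hab
      rcases hab.1 with h2 | h2
      · exact h2
      · rw [SimpleGraph.fromEdgeSet_adj] at h2
        exact absurd h2.1 hab.2
    have hcE : #E ≤ (#T + 1) / 2 := by
      rw [← hTc]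
      exact (card_union_le _ _).trans (add_le_add card_image_le card_image_le)
    calc pcn (G.deleteEdges (F : Set (Sym2 V))) ≤ pcn (Γ'.deleteEdges (E : Set (Sym2 V))) :=
          pcn_mono hle
      _ ≤ #X + max 1 #E := hp
      _ ≤ #X + max 1 ((#T + 1) / 2) := by
          have := max_le_max (le_refl 1) hcE
          omega
  · intro hTe
    have e1 : T1 = ∅ := subset_empty.1 (by rw [← hTe]; exact hT1)
    have e3 : T3 = ∅ := subset_empty.1 (by rw [← hTe]; exact hT3)
    have eU : U = univ \ X := by rw [hU, e1, image_empty, union_empty]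
    have eE : Ev = ∅ := by rw [hEv, e1, e3, image_empty, image_empty, union_empty]
    rw [eU, eE] at ham
    refine ham_mono ?_ ham
    intro a b hab
    obtain ⟨h2, h3, h4⟩ := hab
    refine ⟨?_, h3, h4⟩
    rcases h2 with h2 | h2
    · exact h2
    · rw [SimpleGraph.fromEdgeSet_adj] at h2
      exact absurd h2.1 (by simp)

end Pool.Agent.H15P
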