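import Pool.Agent.H15P.Stm2

/-!
# Project H15P, piece CYL (helper98): cylinder probabilities
-/

set_option autoImplicit false
set_option linter.unusedSectionVars false

open MeasureTheory ProbabilityTheory unitInterval Finset Filter Topology
open scoped SimpleGraph

namespace Pool.Agent.H15P

open Pool.Agent.V11328 Pool.Agent.V11328.E6

/-- **CYL** -/
theorem s_CYL : S_CYL := by
  classical
  intro V _ _ p E B hE hB hd
  rw [real_event, Finset.sum_filter]
  have h1 := sum_graph (V := V) (fun S : Finset (Sym2 V) => if E ⊆ S ∧ Disjoint B S then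
        (p : ℝ) ^ (#S) * (1 - (p : ℝ)) ^ (#(allE V \ S)) else 0)
  refine Eq.trans (Finset.sum_congr rfl fun G _ => rfl) (h1.trans ?_)
  have h2 : ∏ e ∈ allE V, ((p : ℝ) * (if e ∉ B then 1 else 0) +
      (1 - (p : ℝ)) * (if e ∉ E then 1 else 0)) = (p : ℝ) ^ #E * (1 - (p : ℝ)) ^ #B := by
    have hsub : E ∪ B ⊆ allE V := union_subset hE hB
    rw [← Finset.prod_subset hsub, Finset.prod_union hd]
    · congr 1
      · rw [← Finset.prod_const]
        refine Finset.prod_congr rfl fun e he => ?_
        have : e ∉ B := Finset.disjoint_left.1 hd he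
        simp [he, this]
      · rw [← Finset.prod_const]
        refine Finset.prod_congr rfl fun e he => ?_
        have : e ∉ E := Finset.disjoint_right.1 hd he
        simp [he, this]
    · intro e _ he
      rw [mem_union, not_or] at he
      simp [he.1, he.2]
  rw [← h2, Finset.prod_add]
  refine Finset.sum_congr rfl fun S hS => ?_
  rw [Finset.prod_mul_distrib, Finset.prod_mul_distrib, Finset.prod_const, Finset.prod_const,
    Finset.prod_ite_zero, Finset.prod_ite_zero, Finset.prod_const_one, Finset.prod_const_one]
  have e1 : (∀ i ∈ S, i ∉ B) ↔ Disjoint B S := by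
    rw [Finset.disjoint_right]
  have e2 : (∀ i ∈ allE V \ S, i ∉ E) ↔ E ⊆ S := by
    constructor
    · intro h e he
      by_contra hn
      exact h e (Finset.mem_sdiff.2 ⟨hE he, hn⟩) he
    · intro h e he hE'
      exact (Finset.mem_sdiff.1 he).2 (h hE')
  simp only [e1, e2]
  by_cases hA : E ⊆ S <;> by_cases hB' : Disjoint B S <;> simp [hA, hB']

end Pool.Agent.H15P
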