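import Pool.Agent.H15P.Stm

/-!
# Project H15P: cyclic lists (helper66)

Shared lemmas for the pieces INS, MIN, PCV, ATT.
-/

open Finset
open scoped SimpleGraph

namespace Pool.Agent.H15P

open Pool.Agent.V11328 Pool.Agent.V11328.E6

namespace Cy66

variable {V : Type}

/-- a Hamilton cycle on `U` as a closed chain -/
lemma ham_cyc {Γ : SimpleGraph V} {U : Finset V} (h : HamOn Γ U) :
    ∃ (u : V) (L : List V), (u :: (L ++ [u])).IsChain Γ.Adj ∧ (u :: L).Nodup ∧
      ∀ v, v ∈ u :: L ↔ v ∈ U := by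
  obtain ⟨P, a, b, ⟨hP0, hPc, hPn⟩, ha, hb, hab, hm⟩ := h
  obtain ⟨L, rfl⟩ := List.head?_eq_some_iff.1 ha
  refine ⟨a, L, ?_, hPn, hm⟩
  have : (a :: L ++ [a]).IsChain Γ.Adj := by
    rw [List.isChain_append]
    refine ⟨hPc, List.isChain_singleton _, ?_⟩
    intro x hx y hy
    rw [hb] at hx
    simp only [Option.mem_def, Option.some.injEq, List.head?_cons] at hx hy
    subst hx; subst hy
    exact hab
  simpa using this

/-- converse -/
lemma cyc_ham {Γ : SimpleGraph V} {U : Finset V} {u : V} {L : List V}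
    (hc : (u :: (L ++ [u])).IsChain Γ.Adj) (hn : (u :: L).Nodup)
    (hm : ∀ v, v ∈ u :: L ↔ v ∈ U) : HamOn Γ U := by
  have hc' : ((u :: L) ++ [u]).IsChain Γ.Adj := by simpa using hc
  rw [List.isChain_append] at hc'
  refine ⟨u :: L, u, (u :: L).getLast (by simp), ⟨by simp, hc'.1, hn⟩, rfl,
    List.getLast?_eq_getLast_of_ne_nil (by simp), ?_, hm⟩
  exact hc'.2.2 _ (List.getLast?_eq_getLast_of_ne_nil (by simp)) u (by simp)

/-- rotation -/
lemma ham_rot {Γ : SimpleGraph V} {U : Finset V} (h : HamOn Γ U) {u : V} (hu : u ∈ U) :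
    ∃ L : List V, (u :: (L ++ [u])).IsChain Γ.Adj ∧ (u :: L).Nodup ∧
      ∀ v, v ∈ u :: L ↔ v ∈ U := by
  obtain ⟨a, L, hc, hn, hm⟩ := ham_cyc h
  have hu' := (hm u).2 hu
  rw [List.mem_cons] at hu'
  rcases hu' with rfl | hu'
  · exact ⟨L, hc, hn, hm⟩
  · obtain ⟨A, B, rfl⟩ := List.append_of_mem hu'
    have hc1 : ((a :: A) ++ u :: (B ++ [a])).IsChain Γ.Adj := by simpa using hc
    rw [List.isChain_split] at hc1
    refine ⟨B ++ a :: A, ?_, ?_, ?_⟩
    · have : ((u :: B) ++ a :: (A ++ [u])).IsChain Γ.Adj := by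
        rw [List.isChain_split]
        exact ⟨by simpa using hc1.2, by simpa using hc1.1⟩
      simpa using this
    · have : ((a :: A) ++ (u :: B)).Nodup := by simpa using hn
      rw [List.nodup_append_comm] at this
      simpa using this
    · intro v
      rw [← hm v]
      simp only [List.mem_cons, List.mem_append]
      tauto

lemma cyc_rev {Γ : SimpleGraph V} {u : V} {L : List V} (hc : (u :: (L ++ [u])).IsChain Γ.Adj) :
    (u :: (L.reverse ++ [u])).IsChain Γ.Adj := by
  have h1 : (u :: (L.reverse ++ [u])) = (u :: (L ++ [u])).reverse := by simp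
  rw [h1, List.isChain_reverse]
  exact hc.imp fun _ _ h => h.symm

/-- rotation and direction: the second vertex can be chosen to be different from `b` -/
lemma ham_dir {Γ : SimpleGraph V} {U : Finset V} (h : HamOn Γ U) (h3 : 3 ≤ #U) {u : V} (hu : u ∈ U)
    (b : V) :
    ∃ (y : V) (M : List V) (z : V), y ≠ b ∧ (u :: y :: (M ++ [z] ++ [u])).IsChain Γ.Adj ∧
      (u :: y :: (M ++ [z])).Nodup ∧ ∀ v, v ∈ u :: y :: (M ++ [z]) ↔ v ∈ U := by
  classical
  obtain ⟨L, hc, hn, hm⟩ := ham_rot h hu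
  have hlen : #U = (u :: L).length := by
    have : U = (u :: L).toFinset := by
      ext v; rw [List.mem_toFinset]; exact (hm v).symm
    rw [this, List.toFinset_card_of_nodup hn]
  rw [List.length_cons] at hlen
  obtain ⟨y, L1, rfl⟩ := List.exists_cons_of_length_pos (l := L) (by omega)
  rw [List.length_cons] at hlen
  have hL1 : L1 ≠ [] := by
    rintro rfl
    simp at hlen
    omega
  obtain ⟨M, z, rfl⟩ : ∃ M z, L1 = M ++ [z] :=
    ⟨L1.dropLast, L1.getLast hL1, (List.dropLast_append_getLast hL1).symm⟩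
  by_cases hy : y = b
  · refine ⟨z, M.reverse, y, ?_, ?_, ?_, ?_⟩
    · rintro rfl
      rw [hy] at hn
      simp at hn
    · have := cyc_rev hc
      simpa using this
    · have h1 : (u :: (y :: (M ++ [z]))).Nodup := hn
      have : (u :: (y :: (M ++ [z])).reverse).Nodup := by
        rw [List.nodup_cons] at h1 ⊢
        exact ⟨by rw [List.mem_reverse]; exact h1.1, List.nodup_reverse.2 h1.2⟩
      simpa using this
    · intro v
      rw [← hm v]
      simp only [List.mem_cons, List.mem_append, List.mem_reverse, List.not_mem_nil, or_false]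
      tauto
  · exact ⟨y, M, z, hy, by simpa using hc, hn, hm⟩

/-- a path starting at `u` whose second vertex is not `x` avoids the pair `{u, x}` -/
lemma chain_avoid {Γ Γ' : SimpleGraph V} {u x y : V} {M : List V}
    (hc : (u :: y :: M).IsChain Γ.Adj) (hn : (u :: y :: M).Nodup) (hy : y ≠ x)
    (hΓ : ∀ a b, Γ.Adj a b → s(a, b) ≠ s(u, x) → Γ'.Adj a b) :
    (u :: y :: M).IsChain Γ'.Adj := by
  rw [List.isChain_cons_cons] at hc ⊢
  rw [List.nodup_cons] at hn
  refine ⟨hΓ _ _ hc.1 ?_, hc.2.imp_of_mem_imp ?_⟩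
  · intro h
    rw [Sym2.eq_iff] at h
    rcases h with ⟨-, h⟩ | ⟨h1, h2⟩
    · exact hy h
    · exact hy (h2.trans h1)
  · intro a b ha hb hab
    refine hΓ _ _ hab ?_
    intro h
    rw [Sym2.eq_iff] at h
    rcases h with ⟨rfl, -⟩ | ⟨-, rfl⟩
    · exact hn.1 ha
    · exact hn.1 hb

end Cy66

end Pool.Agent.H15P
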