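import Pool.Agent.H15P.Stm

/-! Piece DET: the deterministic theorem. -/

open Finset
open scoped SimpleGraph

namespace Pool.Agent.H15P

open Pool.Agent.V11328 Pool.Agent.V11328.E6

theorem s_DET (hBCD : S_BCD) (hGAP : S_GAP) (hCA1 : S_CA1) (hCA2 : S_CA2) : S_DET := by
  classical
  intro k hk
  obtain ⟨M1, hM1⟩ := hGAP k (500 * k + 40) hk
  obtain ⟨d1, n1, h1⟩ := hCA1 k M1 hk
  obtain ⟨d2, n2, h2⟩ := hCA2 k M1 hk
  refine ⟨max d1 d2, max (max n1 n2) (k + 1), ?_⟩
  intro V _ _ G d hd hn hN hdeg
  have hd1 : d1 ≤ d := (le_max_left _ _).trans hd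
  have hd2 : d2 ≤ d := (le_max_right _ _).trans hd
  have hn1 : n1 ≤ Fintype.card V := ((le_max_left _ _).trans (le_max_left _ _)).trans hn
  have hn2 : n2 ≤ Fintype.card V := ((le_max_right _ _).trans (le_max_left _ _)).trans hn
  have hn3 : k + 1 ≤ Fintype.card V := (le_max_right _ _).trans hn
  have key : ∀ F : Finset (Sym2 V), F ⊆ ed G → #F < minTouch k G →
      pcn (G.deleteEdges (F : Set (Sym2 V))) ≤ k - 1 := by
    intro F hF hFm
    obtain ⟨M, hM0, hMM, hB, hor⟩ := hM1 V (fun v => #(nb G v)) (BB G F)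
      (hBCD V G F k hk hF hFm)
    have hlow : univ.filter (fun v => #(nb G v) ≤ M) = low G M := by
      ext v; simp [low]
    by_cases hc : k - 1 ≤ #(low G M)
    · exact h1 V G d F M hd1 hn1 hN hdeg hF hFm hMM hB hc
    · push Not at hc
      rw [hlow] at hor
      rcases hor with hor | hor
      · omega
      · exact h2 V G d F M hd2 hn2 hN hdeg hF hFm hM0 hMM hc hor
  have hpos : 0 < minTouch k G := by
    obtain ⟨S, hS, hSt⟩ := minTouch_spec (k := k) (by omega) G
    rw [← hSt, card_pos]
    obtain ⟨v, hv⟩ := card_pos.1 (show 0 < #S by omega)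
    obtain ⟨u, hu⟩ := card_pos.1 (show 0 < #(nb G v) by have := hdeg v; omega)
    refine ⟨s(v, u), ?_⟩
    simp only [touching, mem_filter, mem_univ, true_and, SimpleGraph.mem_edgeSet]
    refine ⟨by simpa [nb] using hu, v, hv, by simp⟩
  apply le_antisymm
  · have hpcn : pcn G ≤ k := by
      have := key ∅ (empty_subset _) (by simpa using hpos)
      simp only [coe_empty, SimpleGraph.deleteEdges_empty] at this
      omega
    exact (fk_le (b := Fintype.card V) (by omega) (by omega) hpcn
      (fun v => card_le_univ _)).2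
  · refine le_iInf₂ fun F hF => ?_
    by_contra hcon
    push Not at hcon
    have h3 : #F < minTouch k G := by exact_mod_cast hcon
    have h4 : F ⊆ ed G := by
      intro e he
      rw [mem_ed]
      exact hF.1 he
    have := key F h4 h3
    rw [hF.2] at this
    omega

end Pool.Agent.H15P
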