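import Pool.Agent.H15P.Stm

/-!
# Project H15P, piece EXN (helper13): expansion of the sparse subgraph
-/

set_option autoImplicit false

open Finset

namespace Pool.Agent.H15P

open Pool.Agent.V11328 Pool.Agent.V11328.E6

namespace EXN

section

variable {V : Type} [Fintype V] [DecidableEq V]

lemma mem_nbh {Γ : SimpleGraph V} {S : Finset V} {v : V} :
    v ∈ nbh Γ S ↔ v ∉ S ∧ ∃ u ∈ S, Γ.Adj u v := by
  simp [nbh]

lemma mem_nb {Γ : SimpleGraph V} {v w : V} : w ∈ nb Γ v ↔ Γ.Adj v w := by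
  simp [nb]

/-- double counting of the edges at `S` -/
lemma half_sum {G Γ : SimpleGraph V} (hle : Γ ≤ G) (S T : Finset V) (hST : S ⊆ T)
    (hT : ∀ v ∈ S, ∀ w, Γ.Adj v w → w ∈ T) :
    ∑ v ∈ S, #(nb Γ v) ≤ 2 * #(between G T T) := by
  classical
  rw [← card_sigma]
  refine (card_le_mul_card_image (f := fun p : (_ : V) × V => s(p.1, p.2))
    (S.sigma fun v => nb Γ v) 2 ?_).trans ?_
  · intro e he
    obtain ⟨⟨a, b⟩, -, rfl⟩ := mem_image.1 he
    refine (card_le_card (t := {⟨a, b⟩, ⟨b, a⟩}) ?_).trans card_le_two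
    rintro ⟨x, y⟩ h
    obtain ⟨-, h⟩ := mem_filter.1 h
    have h' : s(x, y) = s(a, b) := h
    rw [Sym2.eq_iff] at h'
    rcases h' with ⟨rfl, rfl⟩ | ⟨rfl, rfl⟩
    · exact mem_insert_self _ _
    · exact mem_insert_of_mem (mem_singleton_self _)
  · refine Nat.mul_le_mul_left _ (card_le_card ?_)
    intro e he
    obtain ⟨⟨a, b⟩, hab, rfl⟩ := mem_image.1 he
    obtain ⟨ha, hb⟩ := mem_sigma.1 hab
    have ha' : a ∈ S := ha
    have hadj : Γ.Adj a b := mem_nb.1 hb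
    simp only [between, mem_filter, mem_univ, true_and]
    exact ⟨hle hadj, a, hST ha', b, hT a ha' b hadj, rfl⟩

lemma sg_le : sg ≤ 1 / 11 := by
  have h : tau ≤ 1 := by
    rw [tau]
    exact Real.exp_le_one_iff.2 (by norm_num)
  rw [sg]
  linarith

lemma tau_eq : 11 * sg = tau := by rw [sg]; ring

variable {G : SimpleGraph V} {d : ℝ} {K : ℕ} {F Ev : Finset (Sym2 V)} {U Z : Finset V}
  {Γ0 : SimpleGraph V}

/-- (a) -/
lemma part_a (hd : 0 < d) (hN : Nice G d K) (hS : Sel G d F Ev U Z Γ0) (S1 : Finset V)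
    (h1 : ∀ v ∈ S1, v ∈ U ∧ v ∉ sm G d ∧ v ∉ Z) (hsm : (#S1 : ℝ) ≤ sg * Fintype.card V) :
    10 * #S1 ≤ #(nbh Γ0 S1) := by
  classical
  by_contra hcon
  push Not at hcon
  have hpos : 0 < #S1 := by omega
  set T := S1 ∪ nbh Γ0 S1 with hT
  have hTc : #T ≤ 11 * #S1 := by
    have := card_union_le S1 (nbh Γ0 S1)
    rw [← hT] at this
    omega
  have hTr : (#T : ℝ) ≤ 11 * #S1 := by exact_mod_cast hTc
  have hTt : (#T : ℝ) ≤ tau * Fintype.card V := by
    rw [← tau_eq]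
    nlinarith
  have hsp := hN.sparse T hTt
  have hsum := half_sum (G := G) (Γ := Γ0 ⊓ G) inf_le_right S1 T subset_union_left (by
    intro v hv w hw
    rw [hT, mem_union]
    by_cases hw' : w ∈ S1
    · exact Or.inl hw'
    · exact Or.inr (mem_nbh.2 ⟨hw', v, hv, hw.1⟩))
  have hlow : (d / 200000) * #S1 ≤ ((∑ v ∈ S1, #(nb (Γ0 ⊓ G) v) : ℕ) : ℝ) := by
    push_cast
    rw [mul_comm, ← nsmul_eq_mul]
    exact card_nsmul_le_sum _ _ _ fun v hv => hS.big v (h1 v hv).1 (h1 v hv).2.1 (h1 v hv).2.2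
  have hsum' : ((∑ v ∈ S1, #(nb (Γ0 ⊓ G) v) : ℕ) : ℝ) ≤ 2 * #(between G T T) := by
    exact_mod_cast hsum
  have hposr : (0 : ℝ) < #S1 := by exact_mod_cast hpos
  have h3 : d / 8000000 * #T ≤ d / 8000000 * (11 * #S1) := by gcongr
  have h4 : 0 < d * #S1 := mul_pos hd hposr
  have h5 : (d / 200000) * #S1 = d * #S1 / 200000 := by ring
  have h6 : d / 8000000 * (11 * #S1) = 11 * (d * #S1) / 8000000 := by ring
  rw [h5] at hlow
  rw [h6] at h3
  nlinarith

/-- (b) -/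
lemma part_b (hd : 0 < d) (hN : Nice G d K) (hH : Hyp G d K F Ev U Z)
    (hS : Sel G d F Ev U Z Γ0) (S : Finset V)
    (h1 : ∀ v ∈ S, v ∈ U ∧ v ∉ sm G d) (hsm : (#S : ℝ) ≤ sg * Fintype.card V) :
    7 * #S ≤ #(nbh Γ0 S) := by
  classical
  set S1 := S.filter (fun v => v ∉ Z) with hS1
  set S2 := S.filter (fun v => v ∈ Z) with hS2
  have hc : #S2 + #S1 = #S := by
    rw [hS1, hS2]
    exact card_filter_add_card_filter_not (fun v => v ∈ Z)
  have ha := part_a hd hN hS S1 (fun v hv => by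
    obtain ⟨hv, hvZ⟩ := mem_filter.1 hv
    exact ⟨(h1 v hv).1, (h1 v hv).2, hvZ⟩) (by
    refine le_trans ?_ hsm
    exact_mod_cast card_le_card (filter_subset _ _))
  have hs2K : #S2 ≤ K := (card_le_card fun v hv => (mem_filter.1 hv).2).trans hH.hZ
  have hsub : nbh Γ0 S1 \ S2 ⊆ nbh Γ0 S := by
    intro v hv
    obtain ⟨hv1, hv2⟩ := mem_sdiff.1 hv
    obtain ⟨hv3, u, hu, huv⟩ := mem_nbh.1 hv1
    refine mem_nbh.2 ⟨fun hvS => ?_, u, (mem_filter.1 hu).1, huv⟩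
    by_cases hz : v ∈ Z
    · exact hv2 (mem_filter.2 ⟨hvS, hz⟩)
    · exact hv3 (mem_filter.2 ⟨hvS, hz⟩)
  have h3 : #(nbh Γ0 S1) ≤ #(nbh Γ0 S) + #S2 := by
    have := card_le_card hsub
    have h4 := le_card_sdiff S2 (nbh Γ0 S1)
    omega
  by_cases hcase : 8 * #S2 ≤ 3 * #S1
  · omega
  · have hpos : 0 < #S2 := by omega
    obtain ⟨z, hz⟩ := card_pos.1 hpos
    obtain ⟨hzS, hzZ⟩ := mem_filter.1 hz
    have h2 := hH.h2 z (h1 z hzS).1 (h1 z hzS).2 hzZ
    have h5 : nb (hh G F Ev U) z \ S ⊆ nbh Γ0 S := by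
      intro w hw
      obtain ⟨hw1, hw2⟩ := mem_sdiff.1 hw
      exact mem_nbh.2 ⟨hw2, z, hzS, hS.all z w (Or.inr hzZ) (mem_nb.1 hw1)⟩
    have h6 := card_le_card h5
    have h7 := le_card_sdiff S (nb (hh G F Ev U) z)
    omega

/-- (c) -/
lemma part_c (hH : Hyp G d K F Ev U Z)
    (hS : Sel G d F Ev U Z Γ0) (S : Finset V) (h1 : ∀ v ∈ S, v ∈ U ∧ v ∈ sm G d) :
    2 * #S ≤ #(nbh Γ0 S) := by
  classical
  have hsub : S.biUnion (fun v => nb (hh G F Ev U) v) ⊆ nbh Γ0 S := by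
    intro w hw
    obtain ⟨v, hv, hvw⟩ := mem_biUnion.1 hw
    have hadj := mem_nb.1 hvw
    refine mem_nbh.2 ⟨fun hwS => ?_, v, hv, hS.all v w (Or.inl (h1 v hv).2) hadj⟩
    exact hH.h4a v (h1 v hv).2 w (h1 w hwS).2 hadj
  refine le_trans ?_ (card_le_card hsub)
  rw [card_biUnion]
  · rw [mul_comm, ← smul_eq_mul]
    exact card_nsmul_le_sum _ _ _ fun v hv => hH.h3 v (h1 v hv).1 (h1 v hv).2
  · intro u hu v hv huv
    refine disjoint_left.2 ?_
    intro w hw hw'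
    exact hH.h4b u (h1 u hu).2 v (h1 v hv).2 huv w ⟨mem_nb.1 hw, mem_nb.1 hw'⟩

/-- expansion of the small sets -/
lemma exp_small (hd : 0 < d) (hN : Nice G d K) (hH : Hyp G d K F Ev U Z)
    (hS : Sel G d F Ev U Z Γ0) (S : Finset V) (hSU : S ⊆ U)
    (hsm : (#S : ℝ) ≤ sg * Fintype.card V) : 2 * #S ≤ #(nbh Γ0 S) := by
  classical
  set Ss := S.filter (fun v => v ∈ sm G d) with hSs
  set Sl := S.filter (fun v => v ∉ sm G d) with hSl
  have hc : #Ss + #Sl = #S := by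
    rw [hSs, hSl]
    exact card_filter_add_card_filter_not (fun v => v ∈ sm G d)
  have hb := part_b hd hN hH hS Sl (fun v hv => by
    obtain ⟨hv, hvs⟩ := mem_filter.1 hv
    exact ⟨hSU hv, hvs⟩) (by
    refine le_trans ?_ hsm
    exact_mod_cast card_le_card (filter_subset _ _))
  have hcc := part_c hH hS Ss (fun v hv => by
    obtain ⟨hv, hvs⟩ := mem_filter.1 hv
    exact ⟨hSU hv, hvs⟩)
  -- (d)
  have hd4 : #(nbh Γ0 Sl ∩ (Ss ∪ nbh Γ0 Ss)) ≤ #Sl * 4 := by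
    have h1 : nbh Γ0 Sl ∩ (Ss ∪ nbh Γ0 Ss) ⊆ Sl.biUnion (fun v =>
        univ.filter (fun w => (hh G F Ev U).Adj v w ∧
          (w ∈ sm G d ∨ ∃ u ∈ sm G d, (hh G F Ev U).Adj u w))) := by
      intro w hw
      obtain ⟨hw1, hw2⟩ := mem_inter.1 hw
      obtain ⟨-, v, hv, hvw⟩ := mem_nbh.1 hw1
      rw [mem_biUnion]
      refine ⟨v, hv, mem_filter.2 ⟨mem_univ _, hS.le hvw, ?_⟩⟩
      rcases mem_union.1 hw2 with h | h
      · exact Or.inl (mem_filter.1 h).2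
      · obtain ⟨-, u, hu, huw⟩ := mem_nbh.1 h
        exact Or.inr ⟨u, (mem_filter.1 hu).2, hS.le huw⟩
    refine (card_le_card h1).trans (card_biUnion_le_card_mul _ _ _ ?_)
    intro v hv
    obtain ⟨hv, hvs⟩ := mem_filter.1 hv
    convert hH.h5 v (hSU hv) hvs
  -- (e)
  have hsub : (nbh Γ0 Ss \ Sl) ∪ (nbh Γ0 Sl \ (Ss ∪ nbh Γ0 Ss)) ⊆ nbh Γ0 S := by
    intro w hw
    rcases mem_union.1 hw with h | h
    · obtain ⟨h1, h2⟩ := mem_sdiff.1 h
      obtain ⟨h3, u, hu, huw⟩ := mem_nbh.1 h1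
      refine mem_nbh.2 ⟨fun hwS => ?_, u, (mem_filter.1 hu).1, huw⟩
      by_cases hs : w ∈ sm G d
      · exact h3 (mem_filter.2 ⟨hwS, hs⟩)
      · exact h2 (mem_filter.2 ⟨hwS, hs⟩)
    · obtain ⟨h1, h2⟩ := mem_sdiff.1 h
      obtain ⟨h3, u, hu, huw⟩ := mem_nbh.1 h1
      refine mem_nbh.2 ⟨fun hwS => ?_, u, (mem_filter.1 hu).1, huw⟩
      by_cases hs : w ∈ sm G d
      · exact h2 (mem_union_left _ (mem_filter.2 ⟨hwS, hs⟩))
      · exact h3 (mem_filter.2 ⟨hwS, hs⟩)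
  have hdisj : Disjoint (nbh Γ0 Ss \ Sl) (nbh Γ0 Sl \ (Ss ∪ nbh Γ0 Ss)) := by
    rw [disjoint_left]
    intro w hw hw'
    exact (mem_sdiff.1 hw').2 (mem_union_right _ (mem_sdiff.1 hw).1)
  have h1 := card_le_card hsub
  rw [card_union_of_disjoint hdisj] at h1
  have h2 := le_card_sdiff Sl (nbh Γ0 Ss)
  have h3 : #(nbh Γ0 Sl \ (Ss ∪ nbh Γ0 Ss)) + #(nbh Γ0 Sl ∩ (Ss ∪ nbh Γ0 Ss)) = #(nbh Γ0 Sl) :=
    card_sdiff_add_card_inter _ _
  omega

end

end EXN

open EXN in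
/-- Piece EXN. -/
theorem s_EXN : S_EXN := by
  intro K
  refine ⟨5 * K + 10, ?_⟩
  intro V _ _ G d F Ev U Z Γ0 hd hn hN hH hS
  classical
  have hnr : ((5 * K + 10 : ℕ) : ℝ) ≤ Fintype.card V := by exact_mod_cast hn
  push_cast at hnr
  have hsupp : ∀ u v, Γ0.Adj u v → u ∈ U := fun u v h => (hS.le h).2.1
  have hsg : sg * Fintype.card V ≤ (Fintype.card V : ℝ) / 11 := by
    have := mul_le_mul_of_nonneg_right sg_le (Nat.cast_nonneg (Fintype.card V) : (0 : ℝ) ≤ _)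
    linarith
  have hUc : Fintype.card V ≤ #U + K := by
    have h1 := hH.hU
    have h2 := card_sdiff_add_card_eq_card (subset_univ U)
    rw [card_univ] at h2
    omega
  have hexp : ∀ S ⊆ U, #S ≤ Fintype.card V / 5 → 2 * #S ≤ #(nbh Γ0 S) := by
    intro S hSU hS5
    by_cases hcase : sg * Fintype.card V ≤ #S
    · set B := U \ (S ∪ nbh Γ0 S) with hB
      have hBs : (#B : ℝ) < sg * Fintype.card V := by
        by_contra hcon
        push Not at hcon
        obtain ⟨a, ha, b, hb, hab⟩ := hS.hit S B hSU sdiff_subset (by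
          rw [disjoint_left]
          intro x hx hx'
          exact (mem_sdiff.1 hx').2 (mem_union_left _ hx)) hcase hcon
        obtain ⟨-, hb2⟩ := mem_sdiff.1 hb
        by_cases hbS : b ∈ S
        · exact hb2 (mem_union_left _ hbS)
        · exact hb2 (mem_union_right _ (mem_nbh.2 ⟨hbS, a, ha, hab⟩))
      have h1 : #U ≤ #B + (#S + #(nbh Γ0 S)) := by
        have h2 := card_le_card_sdiff_add_card (t := S ∪ nbh Γ0 S) (s := U)
        have h3 := card_union_le S (nbh Γ0 S)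
        rw [← hB] at h2
        omega
      have h2 : (#U : ℝ) ≤ #B + (#S + #(nbh Γ0 S)) := by exact_mod_cast h1
      have h3 : (Fintype.card V : ℝ) ≤ #U + K := by exact_mod_cast hUc
      have h4 : (#S : ℝ) ≤ (Fintype.card V : ℝ) / 5 := by
        have h5 : #S * 5 ≤ Fintype.card V := by omega
        have h6 : (#S : ℝ) * 5 ≤ Fintype.card V := by exact_mod_cast h5
        linarith
      have h5 : (2 * #S : ℝ) ≤ #(nbh Γ0 S) := by
        have h6 : (0 : ℝ) ≤ K := Nat.cast_nonneg K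
        linarith
      exact_mod_cast h5
    · push Not at hcase
      exact exp_small hd hN hH hS S hSU hcase.le
  refine ⟨hsupp, ?_, hexp⟩
  intro S hSU hne hneU
  by_cases h1 : #S ≤ Fintype.card V / 5
  · have h2 := hexp S hSU h1
    have h3 := card_pos.2 hne
    exact card_pos.1 (by omega)
  · by_cases h2 : #(U \ S) ≤ Fintype.card V / 5
    · have hne2 : (U \ S).Nonempty := by
        rw [sdiff_nonempty]
        intro h
        exact hneU (Subset.antisymm hSU h)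
      have h3 := hexp (U \ S) sdiff_subset h2
      have h4 := card_pos.2 hne2
      have h5 : 0 < #(nbh Γ0 (U \ S)) := by omega
      obtain ⟨w, hw⟩ := card_pos.1 h5
      obtain ⟨hw1, u, hu, huw⟩ := mem_nbh.1 hw
      have hwU : w ∈ U := hsupp w u huw.symm
      have hwS : w ∈ S := by
        by_contra h
        exact hw1 (mem_sdiff.2 ⟨hwU, h⟩)
      exact ⟨u, mem_nbh.2 ⟨(mem_sdiff.1 hu).2, w, hwS, huw.symm⟩⟩
    · have hbig : ∀ m : ℕ, ¬ m ≤ Fintype.card V / 5 → sg * Fintype.card V ≤ m := by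
        intro m hm
        have h5 : Fintype.card V < 5 * m := by omega
        have h6 : (Fintype.card V : ℝ) < 5 * m := by exact_mod_cast h5
        have h7 : (0 : ℝ) ≤ Fintype.card V := Nat.cast_nonneg _
        linarith
      obtain ⟨a, ha, b, hb, hab⟩ := hS.hit S (U \ S) hSU sdiff_subset disjoint_sdiff
        (hbig _ h1) (hbig _ h2)
      exact ⟨b, mem_nbh.2 ⟨(mem_sdiff.1 hb).2, a, ha, hab⟩⟩

end Pool.Agent.H15P
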