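import Pool.Agent.H15P.Stm

/-! Assembly of the main limit theorem. -/

open MeasureTheory ProbabilityTheory unitInterval Finset Filter Topology
open scoped SimpleGraph

namespace Pool.Agent.H15P

open Pool.Agent.V11328 Pool.Agent.V11328.E6

lemma ev_log_le {p : ℕ → I}
    (hp : Tendsto (fun n : ℕ => (n : ℝ) * p n - Real.log n - Real.log (Real.log n)) atTop atTop) :
    ∀ᶠ n : ℕ in atTop, Real.log n ≤ n * (p n : ℝ) := by
  have hlogn : Tendsto (fun n : ℕ => Real.log (n : ℝ)) atTop atTop :=
    Real.tendsto_log_atTop.comp tendsto_natCast_atTop_atTop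
  filter_upwards [hp.eventually_ge_atTop 0, hlogn.eventually_ge_atTop 1] with n h1 h2
  have h3 : 0 ≤ Real.log (Real.log n) := Real.log_nonneg h2
  linarith

theorem s_FIN (hDET : S_DET) (hPNI : S_PNI) (hPMI : S_PMI) : S_FIN := by
  intro k hk p hp
  obtain ⟨d0, n0, hdet⟩ := hDET k hk
  have hev := ev_log_le hp
  have hlogn : Tendsto (fun n : ℕ => Real.log (n : ℝ)) atTop atTop :=
    Real.tendsto_log_atTop.comp tendsto_natCast_atTop_atTop
  have hN := hPNI (12 * k) p hev
  have hM := hPMI p hp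
  refine tendsto_one (B := fun n => {G : SimpleGraph (Fin n) | ¬ Nice G ((n : ℝ) * p n) (12 * k)} ∪
      {G : SimpleGraph (Fin n) | ∃ v, #(nb G v) < 2})
    (b := fun n => (G(Fin n, p n)).real
      {G : SimpleGraph (Fin n) | ¬ Nice G ((n : ℝ) * p n) (12 * k)} +
      (G(Fin n, p n)).real {G : SimpleGraph (Fin n) | ∃ v, #(nb G v) < 2}) ?_ ?_ ?_
  · filter_upwards [hev, hlogn.eventually_ge_atTop d0, eventually_ge_atTop n0] with n h1 h2 h3 G hG
    rw [Set.mem_union, not_or] at hG
    obtain ⟨hG1, hG2⟩ := hG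
    simp only [Set.mem_ofPred_eq, not_not] at hG1
    simp only [Set.mem_ofPred_eq, not_exists, not_lt] at hG2
    exact hdet (Fin n) G ((n : ℝ) * p n) (h2.trans h1) (by rw [Fintype.card_fin]; exact h3)
      hG1 hG2
  · exact Eventually.of_forall fun n => measureReal_union_le _ _
  · simpa using hN.add hM

end Pool.Agent.H15P
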