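import Pool.Agent.H15P.Stm

open Finset

namespace Pool.Agent.H15P

/-- Piece GAP. -/
theorem s_GAP : S_GAP := by
  classical
  intro k M0 hk
  set m : ℕ → ℕ := fun j => (100 * k) ^ j * (M0 + 1) with hm
  have hmono : Monotone m := by
    intro a b hab
    exact Nat.mul_le_mul (Nat.pow_le_pow_right (by omega) hab) le_rfl
  have hsucc : ∀ j, m (j + 1) = 100 * k * m j := by
    intro j
    simp only [hm]
    ring
  refine ⟨m (5 * k), ?_⟩
  intro V _ _ f B hB
  -- general injectivity
  have hinj : ∀ (J : Finset ℕ) (S : Finset V) (g : ℕ → V),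
      (∀ j ∈ J, g j ∈ S ∧ m j < f (g j) ∧ f (g j) ≤ m (j + 1)) → #J ≤ #S := by
    intro J S g hg
    refine card_le_card_of_injOn g (fun j hj => (hg j hj).1) ?_
    have key : ∀ i ∈ J, ∀ j ∈ J, g i = g j → ¬ i < j := by
      intro i hi j hj hij h
      have h1 := (hg i hi).2.2
      have h2 := (hg j hj).2.1
      have h3 : m (i + 1) ≤ m j := hmono h
      rw [hij] at h1
      omega
    intro i hi j hj hij
    have h1 := key i hi j hj hij
    have h2 := key j hj i hi hij.symm
    omega
  set J1 := (range (5 * k)).filter (fun j => ∃ v ∈ B, m j < f v ∧ f v ≤ m (j + 1)) with hJ1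
  set J2 := (range (5 * k)).filter (fun j => #(univ.filter (fun v => f v ≤ m j)) < k - 1 ∧
    ∃ v, m j < f v ∧ f v ≤ m (j + 1)) with hJ2
  have c1 : #J1 ≤ #B := by
    rcases J1.eq_empty_or_nonempty with h | ⟨j0, hj0⟩
    · rw [h]; simp
    · have hV : Nonempty V := by
        rw [hJ1, mem_filter] at hj0
        exact ⟨hj0.2.choose⟩
      have : ∀ j, ∃ v : V, j ∈ J1 → v ∈ B ∧ m j < f v ∧ f v ≤ m (j + 1) := by
        intro j
        by_cases hj : j ∈ J1
        · have h2 := hj
          rw [hJ1, mem_filter] at h2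
          obtain ⟨v, hv, hv2⟩ := h2.2
          exact ⟨v, fun _ => ⟨hv, hv2⟩⟩
        · exact ⟨hV.some, fun h => absurd h hj⟩
      choose g hg using this
      exact hinj J1 B g hg
  have c2 : #J2 ≤ k - 1 := by
    rcases J2.eq_empty_or_nonempty with h | hne
    · rw [h]; simp
    · have hmx := J2.max'_mem hne
      set js := J2.max' hne with hjs
      have hmx2 := hmx
      rw [hJ2, mem_filter] at hmx2
      have hV : Nonempty V := ⟨hmx2.2.2.choose⟩
      have : ∀ j, ∃ v : V, j ∈ J2 → m j < f v ∧ f v ≤ m (j + 1) := by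
        intro j
        by_cases hj : j ∈ J2
        · have h2 := hj
          rw [hJ2, mem_filter] at h2
          obtain ⟨v, hv⟩ := h2.2.2
          exact ⟨v, fun _ => hv⟩
        · exact ⟨hV.some, fun h => absurd h hj⟩
      choose g hg using this
      have h3 : #(J2.erase js) ≤ #(univ.filter (fun v => f v ≤ m js)) := by
        refine hinj _ _ g (fun j hj => ⟨?_, hg j (mem_of_mem_erase hj)⟩)
        rw [mem_filter]
        refine ⟨mem_univ _, ?_⟩
        have h4 : j ≤ js := J2.le_max' j (mem_of_mem_erase hj)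
        have h5 : j ≠ js := ne_of_mem_erase hj
        have h6 : m (j + 1) ≤ m js := hmono (by omega)
        exact (hg j (mem_of_mem_erase hj)).2.trans h6
      rw [card_erase_of_mem hmx] at h3
      have h7 := hmx2.2.1
      omega
  have c3 : #(J1 ∪ J2) < #(range (5 * k)) := by
    rw [card_range]
    have := card_union_le J1 J2
    omega
  obtain ⟨j, hj, hj2⟩ := exists_mem_notMem_of_card_lt_card c3
  have hjk : j < 5 * k := mem_range.1 hj
  rw [mem_union, not_or] at hj2
  refine ⟨m j, ?_, hmono hjk.le, ?_, ?_⟩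
  · have h1 : 1 ≤ (100 * k) ^ j := Nat.one_le_pow _ _ (by omega)
    calc M0 ≤ 1 * (M0 + 1) := by omega
      _ ≤ (100 * k) ^ j * (M0 + 1) := Nat.mul_le_mul h1 le_rfl
  · intro v hv h
    apply hj2.1
    rw [hJ1, mem_filter]
    exact ⟨hj, v, hv, h.1, by rw [hsucc]; exact h.2⟩
  · by_contra hc
    push Not at hc
    obtain ⟨h1, v, h2, h3⟩ := hc
    apply hj2.2
    rw [hJ2, mem_filter]
    exact ⟨hj, h1, v, h2, by rw [hsucc]; exact h3⟩

end Pool.Agent.H15P
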