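import Pool.Agent.H15P.Stm

open Finset

namespace Pool.Agent.H15P

private lemma greedy {α ι : Type} [DecidableEq α] [DecidableEq ι] (X : Finset α) (T : Finset ι)
    (B : ι → Finset α) (M c : ℕ) (hM : 1 ≤ M) (hB : ∀ i ∈ T, B i ⊆ X ∧ M ≤ #(B i))
    (hX : #X ≤ c * M) (hT : T.Nonempty) :
    ∃ x ∈ X, #T ≤ c * #(T.filter (fun i => x ∈ B i)) := by
  by_contra hc
  push Not at hc
  obtain ⟨i0, hi0⟩ := hT
  have hXne : X.Nonempty := by
    have h1 := hB i0 hi0
    have : (B i0).Nonempty := card_pos.1 (by omega)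
    exact this.mono h1.1
  have e1 : M * #T ≤ ∑ i ∈ T, #(B i) := by
    calc M * #T = ∑ _i ∈ T, M := by rw [sum_const, smul_eq_mul, mul_comm]
      _ ≤ ∑ i ∈ T, #(B i) := sum_le_sum (fun i hi => (hB i hi).2)
  have e2 : ∑ i ∈ T, #(B i) = ∑ x ∈ X, #(T.filter (fun i => x ∈ B i)) := by
    have h1 : ∀ i ∈ T, #(B i) = ∑ x ∈ X, if x ∈ B i then 1 else 0 := by
      intro i hi
      rw [← card_filter]
      congr 1
      ext x
      simp only [mem_filter]
      exact ⟨fun h => ⟨(hB i hi).1 h, h⟩, fun h => h.2⟩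
    rw [sum_congr rfl h1, sum_comm]
    refine sum_congr rfl (fun x _ => ?_)
    rw [card_filter]
  have e3 : ∑ x ∈ X, c * #(T.filter (fun i => x ∈ B i)) < ∑ _x ∈ X, #T :=
    sum_lt_sum_of_nonempty hXne (fun x hx => hc x hx)
  rw [← mul_sum, ← e2, sum_const, smul_eq_mul] at e3
  have e4 : c * (M * #T) ≤ c * ∑ i ∈ T, #(B i) := Nat.mul_le_mul le_rfl e1
  have e5 : #X * #T ≤ c * M * #T := Nat.mul_le_mul hX le_rfl
  have e6 : c * M * #T = c * (M * #T) := mul_assoc _ _ _
  omega

private lemma halve {α ι : Type} [DecidableEq α] [DecidableEq ι] (X : Finset α) (T : Finset ι)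
    (B : ι → Finset α) (M c : ℕ) (hM : 1 ≤ M) (hB : ∀ i ∈ T, B i ⊆ X ∧ M ≤ #(B i))
    (hX : #X ≤ c * M) (j : ℕ) :
    ∃ Y ⊆ X, #Y ≤ j ∧ (2 * #(T.filter (fun i => ¬ (Y ∩ B i).Nonempty)) ≤ #T ∨
      2 * c * #(T.filter (fun i => ¬ (Y ∩ B i).Nonempty)) + j * #T ≤ 2 * c * #T) := by
  induction j with
  | zero =>
    refine ⟨∅, empty_subset _, le_rfl, Or.inr ?_⟩
    have : T.filter (fun i => ¬ ((∅ : Finset α) ∩ B i).Nonempty) = T := by
      refine filter_true_of_mem (fun i _ => ?_)
      simp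
    rw [this]
    simp
  | succ j ih =>
    obtain ⟨Y, hYX, hYc, hY⟩ := ih
    by_cases h1 : 2 * #(T.filter (fun i => ¬ (Y ∩ B i).Nonempty)) ≤ #T
    · exact ⟨Y, hYX, by omega, Or.inl h1⟩
    have h2 : 2 * c * #(T.filter (fun i => ¬ (Y ∩ B i).Nonempty)) + j * #T ≤ 2 * c * #T := by
      rcases hY with h | h
      · exact absurd h h1
      · exact h
    set T' := T.filter (fun i => ¬ (Y ∩ B i).Nonempty) with hT'
    have hne : T'.Nonempty := card_pos.1 (by omega)
    obtain ⟨x, hx, hxc⟩ := greedy X T' B M c hM (fun i hi => hB i (mem_of_mem_filter _ hi)) hX hne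
    refine ⟨insert x Y, insert_subset hx hYX, (card_insert_le _ _).trans (by omega), Or.inr ?_⟩
    have h3 : T.filter (fun i => ¬ ((insert x Y) ∩ B i).Nonempty) ⊆
        T' \ T'.filter (fun i => x ∈ B i) := by
      intro i hi
      rw [mem_filter] at hi
      have hi2 := hi.2
      have a1 : ¬ (Y ∩ B i).Nonempty := fun h =>
        hi2 (h.mono (inter_subset_inter (subset_insert _ _) (Subset.refl _)))
      have a2 : x ∉ B i := fun h => hi2 ⟨x, mem_inter.2 ⟨mem_insert_self _ _, h⟩⟩
      rw [mem_sdiff, hT', mem_filter, mem_filter]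
      exact ⟨⟨hi.1, a1⟩, fun h => a2 h.2⟩
    have h4 := card_le_card h3
    have h5 : #(T' \ T'.filter (fun i => x ∈ B i)) + #(T'.filter (fun i => x ∈ B i)) = #T' :=
      card_sdiff_add_card_eq_card (filter_subset _ _)
    set a := #(T.filter (fun i => ¬ ((insert x Y) ∩ B i).Nonempty)) with ha
    set b := #(T'.filter (fun i => x ∈ B i)) with hb
    have h6 : a + b ≤ #T' := by omega
    have h7 : 2 * c * (a + b) ≤ 2 * c * #T' := Nat.mul_le_mul le_rfl h6
    have h8 : 2 * c * (a + b) = 2 * c * a + 2 * (c * b) := by ring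
    have h9 : (j + 1) * #T = j * #T + #T := by ring
    omega

/-- Piece HIT. -/
theorem s_HIT : S_HIT := by
  intro α ι _ _ X T B M c t hM hB hX hT
  induction t generalizing T with
  | zero =>
    rcases T.eq_empty_or_nonempty with rfl | ⟨i, hi⟩
    · exact ⟨∅, empty_subset _, by simp, by simp⟩
    · have h1 := hB i hi
      obtain ⟨x, hx⟩ : (B i).Nonempty := card_pos.1 (by omega)
      refine ⟨{x}, singleton_subset_iff.2 (h1.1 hx), ?_, ?_⟩
      · have : 0 < #X := card_pos.2 ⟨x, h1.1 hx⟩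
        have hc : 0 < c := by
          rcases Nat.eq_zero_or_pos c with h | h
          · subst h; simp at hX; simp [hX] at this
          · exact h
        simp; omega
      · intro i' hi'
        have : i' = i := by
          have h2 : #T ≤ 1 := by simpa using hT
          exact card_le_one.1 h2 i' hi' i hi
        subst this
        exact ⟨x, mem_inter.2 ⟨mem_singleton_self _, hx⟩⟩
  | succ t ih =>
    rcases T.eq_empty_or_nonempty with rfl | hne
    · exact ⟨∅, empty_subset _, by simp, by simp⟩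
    obtain ⟨Y1, hY1, hc1, h1⟩ := halve X T B M c hM hB hX c
    have hc : 0 < c := by
      obtain ⟨i, hi⟩ := hne
      have h1 := hB i hi
      obtain ⟨x, hx⟩ : (B i).Nonempty := card_pos.1 (by omega)
      have : 0 < #X := card_pos.2 ⟨x, h1.1 hx⟩
      rcases Nat.eq_zero_or_pos c with h | h
      · subst h; simp at hX; simp [hX] at this
      · exact h
    have h2 : 2 * #(T.filter (fun i => ¬ (Y1 ∩ B i).Nonempty)) ≤ #T := by
      rcases h1 with h | h
      · exact h
      · have h3 : c * (2 * #(T.filter (fun i => ¬ (Y1 ∩ B i).Nonempty))) ≤ c * #T := by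
          have e1 : 2 * c * #T = c * #T + c * #T := by ring
          have e2 : 2 * c * #(T.filter (fun i => ¬ (Y1 ∩ B i).Nonempty)) =
            c * (2 * #(T.filter (fun i => ¬ (Y1 ∩ B i).Nonempty))) := by ring
          omega
        exact Nat.le_of_mul_le_mul_left h3 hc
    have h3 : #(T.filter (fun i => ¬ (Y1 ∩ B i).Nonempty)) ≤ 2 ^ t := by
      have : 2 ^ (t + 1) = 2 * 2 ^ t := by ring
      omega
    obtain ⟨Y2, hY2, hc2, h4⟩ := ih (T.filter (fun i => ¬ (Y1 ∩ B i).Nonempty))
      (fun i hi => hB i (mem_of_mem_filter _ hi)) h3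
    refine ⟨Y1 ∪ Y2, union_subset hY1 hY2, ?_, ?_⟩
    · have := card_union_le Y1 Y2
      have e : c * (t + 1 + 1) = c + c * (t + 1) := by ring
      omega
    · intro i hi
      by_cases h : (Y1 ∩ B i).Nonempty
      · exact h.mono (inter_subset_inter subset_union_left (Subset.refl _))
      · exact (h4 i (mem_filter.2 ⟨hi, h⟩)).mono
          (inter_subset_inter subset_union_right (Subset.refl _))

end Pool.Agent.H15P
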