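import Pool.Agent.H15P.Stm

/-!
# Project H15P, piece HTM (helper98): Hamiltonicity
-/

set_option autoImplicit false
set_option linter.unusedSectionVars false

open MeasureTheory ProbabilityTheory unitInterval Finset Filter Topology
open scoped SimpleGraph

namespace Pool.Agent.H15P

open Pool.Agent.V11328 Pool.Agent.V11328.E6

section

variable {V : Type} [Fintype V] [DecidableEq V]

theorem nbh_mono {Γ Γ' : SimpleGraph V} (h : Γ ≤ Γ') (S : Finset V) : nbh Γ S ⊆ nbh Γ' S := by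
  classical
  intro v hv
  simp only [nbh, mem_filter, mem_univ, true_and] at hv ⊢
  obtain ⟨h1, u, h2, h3⟩ := hv
  exact ⟨h1, u, h2, h h3⟩

theorem mem_ed_hh (G : SimpleGraph V) (F Ev : Finset (Sym2 V)) (U : Finset V) (e : Sym2 V)
    (he : e ∈ ed (hh G F Ev U)) : (e ∈ ed G ∧ e ∉ F) ∨ e ∈ Ev := by
  rw [mem_ed] at he
  induction e using Sym2.ind with
  | _ x y =>
    rw [SimpleGraph.mem_edgeSet] at he
    obtain ⟨h1, -, -⟩ := he
    rcases h1 with h1 | h1
    · rw [SimpleGraph.deleteEdges_adj] at h1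
      left
      refine ⟨?_, fun hF => h1.2 hF⟩
      rw [mem_ed, SimpleGraph.mem_edgeSet]
      exact h1.1
    · right
      rw [SimpleGraph.fromEdgeSet_adj] at h1
      exact h1.1

theorem mem_ed_hh' (G : SimpleGraph V) (F Ev : Finset (Sym2 V)) (U : Finset V) (e : Sym2 V)
    (h1 : e ∈ ed G) (h2 : e ∉ F) (h3 : ∀ v ∈ e, v ∈ U) : e ∈ ed (hh G F Ev U) := by
  rw [mem_ed] at h1 ⊢
  induction e using Sym2.ind with
  | _ x y =>
    rw [SimpleGraph.mem_edgeSet] at h1 ⊢
    refine ⟨Or.inl ?_, h3 x (Sym2.mem_mk_left x y), h3 y (Sym2.mem_mk_right x y)⟩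
    rw [SimpleGraph.deleteEdges_adj]
    exact ⟨h1, fun h => h2 h⟩

end

/-- **HTM** -/
theorem s_HTM (hB : S_BOO) (hI : S_ITE) (hS : S_SEL) (hE : S_EXN) : S_HTM := by
  intro K
  obtain ⟨d1, n1, h1⟩ := hS K
  obtain ⟨n2, h2⟩ := hE K
  refine ⟨max 1 d1, max (max n1 n2) (1002 * K + 10), ?_⟩
  intro V _ _ G d F Ev U Z hd hn hN hH
  have hd1 : 1 ≤ d := (le_max_left _ _).trans hd
  have hd2 : d1 ≤ d := (le_max_right _ _).trans hd
  have hn1 : n1 ≤ Fintype.card V := ((le_max_left _ _).trans (le_max_left _ _)).trans hn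
  have hn2 : n2 ≤ Fintype.card V := ((le_max_right _ _).trans (le_max_left _ _)).trans hn
  have hn3 : 1002 * K + 10 ≤ Fintype.card V := (le_max_right _ _).trans hn
  obtain ⟨Γ0, hΓ0⟩ := h1 V G d F Ev U Z hd2 hn1 hN hH
  have hExp := h2 V G d F Ev U Z Γ0 (by linarith) hn2 hN hH hΓ0
  have hUc : #U + #(univ \ U) = Fintype.card V := by
    rw [add_comm, card_sdiff_add_card_eq_card (subset_univ U), card_univ]
  have hUn : #U ≤ Fintype.card V := by omega
  have hU3 : 3 ≤ #U := by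
    have := hH.hU
    omega
  apply hI V Γ0 (hh G F Ev U) U hΓ0.le
  intro Γ hΓ1 hΓ2 hcard hnot
  have few : (#(ed Γ) : ℝ) ≤ d * Fintype.card V / 12000 := by
    have e1 := hΓ0.few
    have e2 : (#(ed Γ) : ℝ) ≤ #(ed Γ0) + #U := by exact_mod_cast hcard
    have e3 : (#U : ℝ) ≤ Fintype.card V := by exact_mod_cast hUn
    linarith
  have hExpΓ : Exp Γ U (Fintype.card V / 5) :=
    { supp := fun u v h => (hΓ2 h).2.1
      conn := fun S h1 h2 h3 => (hExp.conn S h1 h2 h3).mono (nbh_mono hΓ1 S)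
      exp := fun S h1 h2 => (hExp.exp S h1 h2).trans (card_le_card (nbh_mono hΓ1 S)) }
  have hb := hB V Γ U (Fintype.card V / 5) hExpΓ (by omega) hU3 hnot
  have hb' : (Fintype.card V : ℝ) ^ 2 / 50 ≤ #(bst Γ U) := by
    have e1 : (Fintype.card V : ℝ) ≤ 5 * ((Fintype.card V / 5 + 1 : ℕ) : ℝ) := by
      have : Fintype.card V ≤ 5 * (Fintype.card V / 5 + 1) := by omega
      exact_mod_cast this
    have e2 : (((Fintype.card V / 5 + 1 : ℕ) : ℝ)) ^ 2 ≤ 2 * #(bst Γ U) := by exact_mod_cast hb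
    have e3 : (0 : ℝ) ≤ Fintype.card V := Nat.cast_nonneg _
    nlinarith
  have hdiff : #(ed Γ \ ed G) ≤ K := by
    refine (card_le_card (t := Ev) ?_).trans hH.hE
    intro e he
    rw [Finset.mem_sdiff] at he
    have h4 : e ∈ ed (hh G F Ev U) := by
      rw [mem_ed] at he ⊢
      exact SimpleGraph.edgeSet_mono hΓ2 he.1
    rcases mem_ed_hh G F Ev U e h4 with h5 | h5
    · exact absurd h5.1 he.2
    · exact h5
  have hboost := hN.boost Γ U hH.hU hdiff few hb'
  have hFlt : #F < #(bst Γ U ∩ ed G) := by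
    have e1 := hH.hF
    have e2 : (1000 : ℝ) * K ≤ Fintype.card V := by
      have : 1000 * K ≤ Fintype.card V := by omega
      exact_mod_cast this
    have e3 : (K : ℝ) * d ≤ d * Fintype.card V / 1000 := by nlinarith
    have e4 : (#F : ℝ) < #(bst Γ U ∩ ed G) := by linarith
    exact_mod_cast e4
  obtain ⟨e, he, heF⟩ := exists_mem_notMem_of_card_lt_card hFlt
  rw [Finset.mem_inter] at he
  refine ⟨e, he.1, mem_ed_hh' G F Ev U e he.2 heF ?_⟩
  have := he.1
  simp only [bst, mem_filter, mem_univ, true_and] at this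
  exact this.2.2.1

end Pool.Agent.H15P
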