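import Pool.Agent.H15P.Cy66

/-!
# Project H15P, pieces INS and MIN (helper66): insertion of vertices into a Hamilton cycle
-/

open Finset
open scoped SimpleGraph

namespace Pool.Agent.H15P

open Pool.Agent.V11328 Pool.Agent.V11328.E6 Cy66

theorem s_INS : S_INS := by
  intro V _ _ Γ Γ' U u w x z h h3 hu hz hwx hn hΓ huz hzx
  obtain ⟨y, M, t, hyx, hc, hnd, hm⟩ := ham_dir h h3 hu x
  have huy : Γ.Adj u y := (List.isChain_cons_cons.1 hc).1
  have hyw : y = w := (hn y huy).resolve_right hyx
  have hc' : (u :: y :: (M ++ [t]) ++ [u]).IsChain Γ.Adj := by simpa using hc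
  have htu : Γ.Adj t u := by
    have e1 : u :: y :: (M ++ [t]) ++ [u] = (u :: y :: M) ++ t :: [u] := by simp
    rw [e1, List.isChain_append_cons_cons] at hc'
    exact hc'.2.1
  have htx : t = x := by
    refine (hn t htu.symm).resolve_left ?_
    rintro rfl
    rw [← hyw] at hnd
    simp at hnd
  subst htx
  have hpath : (u :: y :: (M ++ [t])).IsChain Γ'.Adj :=
    chain_avoid (List.isChain_append.1 hc').1 hnd hyx hΓ
  have hmz : z ∉ u :: y :: (M ++ [t]) := fun h' => hz ((hm z).1 h')
  refine ⟨z :: u :: y :: (M ++ [t]), z, t, ⟨by simp, ?_, ?_⟩, rfl, ?_, hzx.symm, ?_⟩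
  · rw [List.isChain_cons_cons]
    exact ⟨huz.symm, hpath⟩
  · rw [List.nodup_cons]
    exact ⟨hmz, hnd⟩
  · have : z :: u :: y :: (M ++ [t]) = (z :: u :: y :: M) ++ [t] := by simp
    rw [this, List.getLast?_append]
    simp
  · intro v
    rw [List.mem_cons, hm v, mem_insert]

/-- the graph with one more inserted vertex -/
private def ins {V : Type} (Γ : SimpleGraph V) (u f x : V) : SimpleGraph V where
  Adj a b := (Γ.Adj a b ∧ s(a, b) ≠ s(u, x)) ∨ (a ≠ b ∧ (s(a, b) = s(u, f) ∨ s(a, b) = s(f, x)))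
  symm := ⟨by
    intro a b h
    rcases h with ⟨h1, h2⟩ | ⟨h1, h2⟩
    · exact Or.inl ⟨h1.symm, by rw [Sym2.eq_swap]; exact h2⟩
    · exact Or.inr ⟨h1.symm, by rw [Sym2.eq_swap]; exact h2⟩⟩
  loopless := ⟨by
    intro a h
    rcases h with ⟨h1, -⟩ | ⟨h1, -⟩
    · exact Γ.irrefl h1
    · exact h1 rfl⟩

theorem s_MIN : S_MIN := by
  intro V _ _ Γ' φ w x T1
  induction T1 using Finset.induction_on with
  | empty =>
    intro Γ U h h3 _ _ _ _ _ _ hΓ _
    obtain ⟨P, a, b, ⟨hP0, hPc, hPn⟩, ha, hb, hab, hm⟩ := h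
    refine ⟨P, a, b, ⟨hP0, ?_, hPn⟩, ha, hb, ?_, ?_⟩
    · exact hPc.imp fun c d hcd => hΓ c d hcd (by simp)
    · exact hΓ _ _ hab (by simp)
    · simpa using hm
  | insert u T huT ih =>
    intro Γ U h h3 hTU hφ hinj hwx hxT hnb hΓ hΓ'
    have huI : u ∈ insert u T := mem_insert_self _ _
    have huU : u ∈ U := hTU huI
    have hfU : φ u ∉ U := hφ u huI
    have huf : u ≠ φ u := fun h' => hfU (h' ▸ huU)
    have hfx : φ u ≠ x u := (hΓ' u huI).2.ne
    have h1 : HamOn (ins Γ u (φ u) (x u)) (insert (φ u) U) := by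
      refine s_INS V Γ (ins Γ u (φ u) (x u)) U u (w u) (x u) (φ u) h h3 huU hfU (hwx u huI)
        (hnb u huI) (fun a b hab hne => Or.inl ⟨hab, hne⟩) ?_ ?_
      · exact Or.inr ⟨huf, Or.inl rfl⟩
      · exact Or.inr ⟨hfx, Or.inr rfl⟩
    have h2 := ih (ins Γ u (φ u) (x u)) (insert (φ u) U) h1
      (h3.trans (card_le_card (subset_insert _ _)))
      (fun v hv => mem_insert_of_mem (hTU (mem_insert_of_mem hv)))
      (by
        intro v hv hv'
        rw [mem_insert] at hv'
        rcases hv' with hv' | hv'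
        · have := hinj v (mem_insert_of_mem hv) u huI hv'
          exact huT (this ▸ hv)
        · exact hφ v (mem_insert_of_mem hv) hv')
      (fun a ha b hb => hinj a (mem_insert_of_mem ha) b (mem_insert_of_mem hb))
      (fun a ha => hwx a (mem_insert_of_mem ha))
      (fun a ha h' => hxT a (mem_insert_of_mem ha) (mem_insert_of_mem h'))
      (by
        intro v hv y hvy
        have hvU : v ∈ U := hTU (mem_insert_of_mem hv)
        have hvu : v ≠ u := fun h' => huT (h' ▸ hv)
        have hvf : v ≠ φ u := fun h' => hfU (h' ▸ hvU)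
        have hvx : v ≠ x u := fun h' => hxT u huI (h' ▸ mem_insert_of_mem hv)
        rcases hvy with ⟨h', -⟩ | ⟨-, h' | h'⟩
        · exact hnb v (mem_insert_of_mem hv) y h'
        · rw [Sym2.eq_iff] at h'
          rcases h' with ⟨h', -⟩ | ⟨h', -⟩
          · exact absurd h' hvu
          · exact absurd h' hvf
        · rw [Sym2.eq_iff] at h'
          rcases h' with ⟨h', -⟩ | ⟨h', -⟩
          · exact absurd h' hvf
          · exact absurd h' hvx)
      (by
        intro a b hab hne
        rcases hab with ⟨h', hne'⟩ | ⟨-, h' | h'⟩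
        · refine hΓ a b h' ?_
          intro v hv
          rw [mem_insert] at hv
          rcases hv with rfl | hv
          · exact hne'
          · exact hne v hv
        · rw [Sym2.eq_iff] at h'
          rcases h' with ⟨rfl, rfl⟩ | ⟨rfl, rfl⟩
          · exact (hΓ' _ huI).1
          · exact (hΓ' _ huI).1.symm
        · rw [Sym2.eq_iff] at h'
          rcases h' with ⟨rfl, rfl⟩ | ⟨rfl, rfl⟩
          · exact (hΓ' _ huI).2
          · exact (hΓ' _ huI).2.symm)
      (fun v hv => hΓ' v (mem_insert_of_mem hv))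
    have h4 : insert (φ u) U ∪ T.image φ = U ∪ (insert u T).image φ := by
      rw [image_insert]
      ext v
      simp only [mem_union, mem_insert]
      tauto
    rw [← h4]
    exact h2

end Pool.Agent.H15P
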