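import Pool.Agent.H15P.Stm

/-! Piece ITE: iteration of boosters. -/

open Finset
open scoped SimpleGraph

namespace Pool.Agent.H15P

open Pool.Agent.V11328 Pool.Agent.V11328.E6

namespace ITE

variable {V : Type} [Fintype V] [DecidableEq V]

omit [Fintype V] [DecidableEq V] in
lemma ham_mono {Γ Γ' : SimpleGraph V} {U : Finset V} (h : Γ ≤ Γ') (hh : HamOn Γ U) :
    HamOn Γ' U := by
  obtain ⟨P, a, b, ⟨h1, h2, h3⟩, h4, h5, h6, h7⟩ := hh
  exact ⟨P, a, b, ⟨h1, h2.imp (fun x y hxy => h hxy), h3⟩, h4, h5, h h6, h7⟩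

omit [Fintype V] in
lemma lp_le (Γ : SimpleGraph V) (U : Finset V) : lp Γ U ≤ #U := by
  unfold lp
  refine csSup_le' ?_
  rintro m ⟨P, ⟨_, _, hn⟩, hU, rfl⟩
  rw [← List.toFinset_card_of_nodup hn]
  exact card_le_card (fun v hv => hU v (by simpa using hv))

omit [Fintype V] [DecidableEq V] in
lemma adj_addE (Γ : SimpleGraph V) (e : Sym2 V) (x y : V) :
    (addE Γ e).Adj x y ↔ Γ.Adj x y ∨ (s(x, y) = e ∧ x ≠ y) := by
  unfold addE
  simp [SimpleGraph.sup_adj, SimpleGraph.fromEdgeSet_adj]

lemma ed_addE (Γ : SimpleGraph V) (e : Sym2 V) (he : ¬ e.IsDiag) :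
    ed (addE Γ e) = insert e (ed Γ) := by
  ext f
  induction f using Sym2.ind with
  | _ x y =>
    rw [mem_ed, mem_insert, mem_ed, SimpleGraph.mem_edgeSet, adj_addE, SimpleGraph.mem_edgeSet]
    constructor
    · rintro (h | ⟨h, _⟩)
      · exact Or.inr h
      · exact Or.inl h
    · rintro (h | h)
      · refine Or.inr ⟨h, ?_⟩
        rintro rfl
        apply he
        rw [← h]
        simp
      · exact Or.inl h

lemma mem_bst {Γ : SimpleGraph V} {U : Finset V} {e : Sym2 V} :
    e ∈ bst Γ U ↔ (¬ e.IsDiag ∧ e ∉ ed Γ ∧ (∀ v ∈ e, v ∈ U) ∧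
    (HamOn (addE Γ e) U ∨ lp Γ U < lp (addE Γ e) U)) := by
  classical
  unfold bst
  simp only [mem_filter, mem_univ, true_and]

end ITE

open ITE in
theorem s_ITE : S_ITE := by
  intro V _ _ Γ0 H U hle hyp
  classical
  have key : ∀ (m : ℕ) (Γ : SimpleGraph V), Γ0 ≤ Γ → Γ ≤ H →
      #(ed Γ) + lp Γ0 U ≤ #(ed Γ0) + lp Γ U → #U - lp Γ U ≤ m → HamOn H U := by
    intro m
    induction m with
    | zero =>
      intro Γ h0 h1 h2 h3
      by_cases hham : HamOn Γ U
      · exact ham_mono h1 hham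
      have hl := lp_le Γ U
      obtain ⟨e, he, heH⟩ := hyp Γ h0 h1 (by omega) hham
      obtain ⟨hd, hne, hU, hc⟩ := mem_bst.1 he
      have hle2 : addE Γ e ≤ H := by
        intro x y hxy
        rw [adj_addE] at hxy
        rcases hxy with h | ⟨h, _⟩
        · exact h1 h
        · rw [mem_ed, ← h] at heH
          exact heH
      rcases hc with hc | hc
      · exact ham_mono hle2 hc
      · exfalso
        have := lp_le (addE Γ e) U
        omega
    | succ m ih =>
      intro Γ h0 h1 h2 h3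
      by_cases hham : HamOn Γ U
      · exact ham_mono h1 hham
      have hl := lp_le Γ U
      obtain ⟨e, he, heH⟩ := hyp Γ h0 h1 (by omega) hham
      obtain ⟨hd, hne, hU, hc⟩ := mem_bst.1 he
      have hle2 : addE Γ e ≤ H := by
        intro x y hxy
        rw [adj_addE] at hxy
        rcases hxy with h | ⟨h, _⟩
        · exact h1 h
        · rw [mem_ed, ← h] at heH
          exact heH
      rcases hc with hc | hc
      · exact ham_mono hle2 hc
      · refine ih (addE Γ e) ?_ hle2 ?_ ?_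
        · intro x y hxy
          rw [adj_addE]
          exact Or.inl (h0 hxy)
        · rw [ed_addE Γ e hd, card_insert_of_notMem hne]
          omega
        · omega
  exact key _ Γ0 le_rfl hle le_rfl le_rfl

end Pool.Agent.H15P
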