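import Pool.Agent.H15P.Stm2

open MeasureTheory ProbabilityTheory unitInterval Finset Filter Topology
open scoped SimpleGraph

namespace Pool.Agent.H15P

open Pool.Agent.V11328 Pool.Agent.V11328.E6

namespace LIM

lemma tlog : Tendsto (fun n : ℕ => Real.log (n : ℝ)) atTop atTop :=
  Real.tendsto_log_atTop.comp tendsto_natCast_atTop_atTop

lemma tlogdiv : Tendsto (fun n : ℕ => Real.log (n : ℝ) / n) atTop (𝓝 0) := by
  have h := Real.isLittleO_log_id_atTop.tendsto_div_nhds_zero
  exact h.comp tendsto_natCast_atTop_atTop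

lemma tlogsq : Tendsto (fun n : ℕ => Real.log (n : ℝ) ^ 2 / n) atTop (𝓝 0) := by
  have h := (isLittleO_log_rpow_atTop (r := 1 / 2) (by norm_num)).tendsto_div_nhds_zero
  have h2 : Tendsto ((fun x : ℝ => Real.log x / x ^ (1 / 2 : ℝ)) ∘ (fun n : ℕ => (n : ℝ))) atTop (𝓝 0) :=
    h.comp tendsto_natCast_atTop_atTop
  have h3 := h2.mul h2
  rw [mul_zero] at h3
  refine h3.congr (fun n => ?_)
  simp only [Function.comp]
  rw [← Real.sqrt_eq_rpow, div_mul_div_comm, Real.mul_self_sqrt (Nat.cast_nonneg n), sq]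

lemma ev_loglog (j : ℕ) : ∀ᶠ n : ℕ in atTop, (j : ℝ) * Real.log (Real.log n) ≤ Real.log n := by
  have h := Real.isLittleO_log_id_atTop.tendsto_div_nhds_zero
  have h2 : Tendsto (fun n : ℕ => Real.log (Real.log (n : ℝ)) / Real.log n) atTop (𝓝 0) :=
    h.comp tlog
  have h3 : ∀ᶠ n : ℕ in atTop, Real.log (Real.log (n : ℝ)) / Real.log n < 1 / (j + 1) :=
    h2.eventually_lt_const (by positivity)
  filter_upwards [h3, tlog.eventually_ge_atTop 1] with n h4 h5
  rw [div_lt_iff₀ (by linarith)] at h4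
  have hj : (0 : ℝ) ≤ j := Nat.cast_nonneg j
  have h6 : (j : ℝ) * Real.log (Real.log n) ≤ j * (1 / (j + 1) * Real.log n) :=
    mul_le_mul_of_nonneg_left h4.le hj
  refine h6.trans ?_
  rw [one_div, mul_comm ((j : ℝ) + 1)⁻¹, ← mul_assoc, ← div_eq_mul_inv,
    div_le_iff₀ (by positivity)]
  nlinarith

/-- lower bound for the binomial probability -/
lemma bp_lower {n j : ℕ} (hn : 2 * j + 2 ≤ n) {p : ℝ} (h0 : 0 < p) (h1 : p ≤ 1 / 2) :
    (1 / (2 ^ j * (j.factorial : ℝ))) * (((n : ℝ) * p) ^ j *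
      Real.exp (-((n : ℝ) * p) - 2 * (n * p ^ 2))) ≤ bp n j p := by
  have hnR : (2 * j + 2 : ℝ) ≤ n := by exact_mod_cast hn
  have hjR : (0 : ℝ) ≤ j := Nat.cast_nonneg j
  have hc : ((n : ℝ) / 2) ^ j / (j.factorial : ℝ) ≤ ((n - 1).choose j : ℝ) := by
    have h2 := Nat.pow_le_choose (α := ℝ) j (n - 1)
    refine le_trans ?_ h2
    have h3 : (n : ℝ) / 2 ≤ ((n - 1 + 1 - j : ℕ) : ℝ) := by
      rw [Nat.cast_sub (by omega), Nat.cast_add, Nat.cast_sub (by omega)]
      push_cast
      linarith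
    gcongr
  have he : Real.exp (-((n : ℝ) * p) - 2 * (n * p ^ 2)) ≤ (1 - p) ^ (n - 1 - j) := by
    have h2 : (1 - p) ^ n ≤ (1 - p) ^ (n - 1 - j) :=
      pow_le_pow_of_le_one (by linarith) (by linarith) (by omega)
    refine le_trans ?_ h2
    have h3 : -p - 2 * p ^ 2 ≤ Real.log (1 - p) := by
      have h4 := Real.one_sub_inv_le_log_of_pos (show 0 < 1 - p by linarith)
      refine le_trans ?_ h4
      have h5 : (1 - p)⁻¹ ≤ 1 + p + 2 * p ^ 2 := by
        rw [inv_le_iff_one_le_mul₀ (by linarith)]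
        nlinarith [mul_nonneg h0.le h0.le, mul_nonneg (mul_nonneg h0.le h0.le) (by linarith : 0 ≤ 1 - 2 * p)]
      linarith
    have h6 : (1 - p) ^ n = Real.exp (n * Real.log (1 - p)) := by
      rw [← Real.log_pow, Real.exp_log (pow_pos (by linarith) n)]
    rw [h6]
    apply Real.exp_le_exp.2
    have h7 : (n : ℝ) * (-p - 2 * p ^ 2) ≤ n * Real.log (1 - p) :=
      mul_le_mul_of_nonneg_left h3 (Nat.cast_nonneg n)
    linarith
  unfold bp
  have h8 : (1 / (2 ^ j * (j.factorial : ℝ))) * (((n : ℝ) * p) ^ j *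
      Real.exp (-((n : ℝ) * p) - 2 * (n * p ^ 2))) =
      (((n : ℝ) / 2) ^ j / (j.factorial : ℝ)) * p ^ j *
        Real.exp (-((n : ℝ) * p) - 2 * (n * p ^ 2)) := by
    rw [mul_pow, div_pow]
    field_simp
  rw [h8]
  have h9 : (0 : ℝ) ≤ 1 - p := by linarith
  gcongr

end LIM

/-- Piece LIM. -/
theorem s_LIM : S_LIM := by
  intro j p hp1 hp2
  have hpos : ∀ᶠ n : ℕ in atTop, (0 : ℝ) < p n := by
    filter_upwards [hp1, LIM.tlog.eventually_ge_atTop 1, eventually_ge_atTop 1] with n h1 h2 h3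
    have h4 : (0 : ℝ) < n * (p n : ℝ) := by linarith
    have h5 : (0 : ℝ) < n := by exact_mod_cast h3
    exact (mul_pos_iff_of_pos_left h5).1 h4
  have hup : ∀ᶠ n : ℕ in atTop, (n : ℝ) * p n ≤ 2 * Real.log n := by
    filter_upwards [hp2.eventually_le_atBot 0, LIM.ev_loglog j] with n h1 h2
    linarith
  have hp0 : Tendsto (fun n : ℕ => (p n : ℝ)) atTop (𝓝 0) := by
    have h1 : Tendsto (fun n : ℕ => 2 * (Real.log (n : ℝ) / n)) atTop (𝓝 0) := by
      have := LIM.tlogdiv.const_mul 2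
      rwa [mul_zero] at this
    refine tendsto_of_tendsto_of_tendsto_of_le_of_le' tendsto_const_nhds h1
      (Eventually.of_forall fun n => (p n).2.1) ?_
    filter_upwards [hup, eventually_ge_atTop 1] with n h2 h3
    have h5 : (0 : ℝ) < n := by exact_mod_cast h3
    rw [mul_div_assoc', le_div_iff₀ h5]
    linarith
  have hlt : ∀ᶠ n : ℕ in atTop, (p n : ℝ) < 1 / 2 := hp0.eventually_lt_const (by norm_num)
  refine ⟨?_, ?_, ?_⟩
  · have hsq : Tendsto (fun n : ℕ => 8 * (Real.log (n : ℝ) ^ 2 / n)) atTop (𝓝 0) := by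
      have := LIM.tlogsq.const_mul 8
      rwa [mul_zero] at this
    have hmain : Tendsto (fun n : ℕ => (1 / (2 ^ j * (j.factorial : ℝ)) * Real.exp (-1)) *
        Real.exp (-((n : ℝ) * p n - Real.log n - j * Real.log (Real.log n)))) atTop atTop := by
      have hc : (0 : ℝ) < 1 / (2 ^ j * (j.factorial : ℝ)) * Real.exp (-1) := by positivity
      refine Tendsto.const_mul_atTop hc ?_
      exact Real.tendsto_exp_atTop.comp (tendsto_neg_atBot_atTop.comp hp2)
    refine tendsto_atTop_mono' _ ?_ hmain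
    filter_upwards [hp1, hpos, hup, hlt, hsq.eventually_lt_const one_pos,
      LIM.tlog.eventually_ge_atTop 1, eventually_ge_atTop (2 * j + 2)] with n h1 h2 h3 h4 h5 h6 h7
    have hn0 : (0 : ℝ) < n := by
      have : 0 < n := by omega
      exact_mod_cast this
    have h8 := LIM.bp_lower h7 h2 h4.le
    have h9 : 2 * ((n : ℝ) * (p n : ℝ) ^ 2) ≤ 1 := by
      have h10 : (n : ℝ) * (p n : ℝ) ^ 2 = (n * p n) ^ 2 / n := by
        field_simp
      have h11 : ((n : ℝ) * p n) ^ 2 ≤ (2 * Real.log n) ^ 2 := by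
        apply pow_le_pow_left₀ _ h3
        positivity
      have h12 : ((n : ℝ) * p n) ^ 2 / n ≤ (2 * Real.log n) ^ 2 / n := by gcongr
      have h13 : 2 * ((2 * Real.log (n : ℝ)) ^ 2 / n) = 8 * (Real.log (n : ℝ) ^ 2 / n) := by ring
      rw [h10]
      linarith
    have h14 : Real.exp (j * Real.log (Real.log n)) ≤ ((n : ℝ) * p n) ^ j := by
      have h15 : Real.exp (j * Real.log (Real.log n)) = (Real.log n) ^ j := by
        rw [mul_comm, Real.exp_mul, Real.exp_log (by linarith)]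
        simp
      rw [h15]
      exact pow_le_pow_left₀ (by linarith) h1 j
    have h16 : (n : ℝ) * ((1 / (2 ^ j * (j.factorial : ℝ))) * (((n : ℝ) * p n) ^ j *
      Real.exp (-((n : ℝ) * p n) - 2 * (n * (p n : ℝ) ^ 2)))) ≤ n * bp n j (p n) :=
      mul_le_mul_of_nonneg_left h8 hn0.le
    refine le_trans ?_ h16
    have h17 : (1 / (2 ^ j * (j.factorial : ℝ)) * Real.exp (-1)) *
        Real.exp (-((n : ℝ) * p n - Real.log n - j * Real.log (Real.log n))) =
        (n : ℝ) * ((1 / (2 ^ j * (j.factorial : ℝ))) * (Real.exp (j * Real.log (Real.log n)) *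
        Real.exp (-((n : ℝ) * p n) - 1))) := by
      have h18 : Real.exp (-((n : ℝ) * p n - Real.log n - j * Real.log (Real.log n))) =
          n * (Real.exp (j * Real.log (Real.log n)) * Real.exp (-((n : ℝ) * p n))) := by
        have h20 : -((n : ℝ) * p n - Real.log n - j * Real.log (Real.log n)) =
            Real.log n + (j * Real.log (Real.log n) + -((n : ℝ) * p n)) := by ring
        rw [h20, Real.exp_add, Real.exp_add, Real.exp_log hn0]
      have h19 : Real.exp (-((n : ℝ) * p n) - 1) = Real.exp (-((n : ℝ) * p n)) * Real.exp (-1) := by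
        rw [← Real.exp_add]
        congr 1
      rw [h18, h19]
      ring
    rw [h17]
    gcongr
  · have h1 : Tendsto (fun n : ℕ => 1 / (1 - (p n : ℝ))) atTop (𝓝 1) := by
      have h2 : Tendsto (fun n : ℕ => 1 - (p n : ℝ)) atTop (𝓝 (1 - 0)) := hp0.const_sub 1
      rw [sub_zero] at h2
      have h3 := h2.inv₀ one_ne_zero
      rw [inv_one] at h3
      simpa [one_div] using h3
    have h4 : Tendsto (fun n : ℕ => ((n : ℝ) - 1) ^ 2 * p n) atTop atTop := by
      have h5 : Tendsto (fun n : ℕ => (n : ℝ) / 4) atTop atTop :=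
        tendsto_natCast_atTop_atTop.atTop_div_const (by norm_num)
      refine tendsto_atTop_mono' _ ?_ h5
      filter_upwards [hp1, LIM.tlog.eventually_ge_atTop 1, eventually_ge_atTop 2, hpos]
        with n h6 h7 h8 h9
      have hnR : (2 : ℝ) ≤ n := by exact_mod_cast h8
      have h10 : (n : ℝ) ^ 2 / 4 ≤ ((n : ℝ) - 1) ^ 2 := by nlinarith
      have h11 : (n : ℝ) ^ 2 / 4 * p n ≤ ((n : ℝ) - 1) ^ 2 * p n :=
        mul_le_mul_of_nonneg_right h10 h9.le
      refine le_trans ?_ h11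
      have h12 : 1 ≤ (n : ℝ) * p n := by linarith
      nlinarith
    have h13 : Tendsto (fun n : ℕ => (j : ℝ) ^ 2 / (((n : ℝ) - 1) ^ 2 * p n)) atTop (𝓝 0) :=
      tendsto_const_nhds.div_atTop h4
    have h14 := (h1.add h13).sub_const 1
    simpa using h14
  · filter_upwards [hpos, hlt] with n h1 h2
    exact ⟨h1, by linarith⟩

end Pool.Agent.H15P
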