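import Pool.Agent.H15P.INS

/-!
# Project H15P, piece MIN: `s_MIN : S_MIN` is in `Pool/Agent/H15P/INS.lean` (helper66)
-/
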