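import Pool.Agent.H15P.Stm2

/-!
# Project H15P, piece MOM (helper98): first and second moment of the number of vertices of degree `j`
-/

set_option autoImplicit false
set_option linter.unusedSectionVars false

open MeasureTheory ProbabilityTheory unitInterval Finset Filter Topology
open scoped SimpleGraph

namespace Pool.Agent.H15P

open Pool.Agent.V11328 Pool.Agent.V11328.E6

namespace Mom

section

variable {V : Type} [Fintype V] [DecidableEq V]

/-- the edges of a graph in a set of pairs -/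
theorem cyl_iff (G : SimpleGraph V) {S N : Finset (Sym2 V)} (hN : N ⊆ S) :
    (N ⊆ ed G ∧ Disjoint (S \ N) (ed G)) ↔ S ∩ ed G = N := by
  constructor
  · rintro ⟨h1, h2⟩
    ext e
    rw [Finset.mem_inter]
    constructor
    · rintro ⟨h3, h4⟩
      by_contra h5
      exact Finset.disjoint_left.1 h2 (Finset.mem_sdiff.2 ⟨h3, h5⟩) h4
    · intro h3
      exact ⟨hN h3, h1 h3⟩
  · intro h
    refine ⟨fun e he => ?_, ?_⟩
    · rw [← h] at he
      exact (Finset.mem_inter.1 he).2
    · rw [Finset.disjoint_left]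
      intro e he1 he2
      rw [Finset.mem_sdiff] at he1
      exact he1.2 (by rw [← h]; exact Finset.mem_inter.2 ⟨he1.1, he2⟩)

theorem meas (A : Set (SimpleGraph V)) : MeasurableSet A :=
  Set.Finite.measurableSet (Set.toFinite _)

theorem mem_star {v : V} {e : Sym2 V} : e ∈ E6.star v ↔ v ∈ e ∧ ¬ e.IsDiag := by
  simp only [E6.star, mem_image, mem_erase, mem_univ, and_true]
  constructor
  · rintro ⟨u, hu, rfl⟩
    exact ⟨Sym2.mem_mk_left v u, fun h => hu (Sym2.mk_isDiag_iff.1 h).symm⟩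
  · rintro ⟨h1, h2⟩
    obtain ⟨w, rfl⟩ := Sym2.mem_iff_exists.1 h1
    exact ⟨w, fun h => h2 (by rw [h]; exact Sym2.mk_isDiag_iff.2 rfl), rfl⟩

theorem first (hC : S_CYL) (p : I) (j : ℕ) (v : V) :
    (G(V, p)).real {G : SimpleGraph V | #(nb G v) = j} = bp (Fintype.card V) j p := by
  classical
  have h1 : {G : SimpleGraph V | #(nb G v) = j} = ⋃ N ∈ powersetCard j (star v),
      {G : SimpleGraph V | N ⊆ ed G ∧ Disjoint (star v \ N) (ed G)} := by
    ext G
    simp only [Set.mem_ofPred_eq, Set.mem_iUnion, mem_powersetCard, exists_prop]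
    constructor
    · intro h
      refine ⟨star v ∩ ed G, ⟨inter_subset_left, ?_⟩, (cyl_iff G inter_subset_left).2 rfl⟩
      rw [star_inter, h]
    · rintro ⟨N, ⟨h2, h3⟩, h4⟩
      rw [← star_inter, (cyl_iff G h2).1 h4, h3]
  rw [h1, measureReal_biUnion_finset]
  · have h2 : ∀ N ∈ powersetCard j (star v),
        (G(V, p)).real {G : SimpleGraph V | N ⊆ ed G ∧ Disjoint (star v \ N) (ed G)} =
        (p : ℝ) ^ j * (1 - (p : ℝ)) ^ (Fintype.card V - 1 - j) := by
      intro N hN
      rw [mem_powersetCard] at hN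
      rw [hC V p N (star v \ N) (hN.1.trans (star_subset v))
        (sdiff_subset.trans (star_subset v)) disjoint_sdiff, card_sdiff_of_subset hN.1, hN.2, star_card]
    rw [Finset.sum_congr rfl h2, Finset.sum_const, card_powersetCard, star_card, nsmul_eq_mul, bp]
    ring
  · intro N hN N' hN' hne
    rw [Function.onFun, Set.disjoint_left]
    intro G hG hG'
    rw [Finset.mem_coe, mem_powersetCard] at hN hN'
    apply hne
    rw [← (cyl_iff G hN.1).1 hG, ← (cyl_iff G hN'.1).1 hG']
  · intro N _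
    exact meas _

theorem second (hC : S_CYL) (p : I) (j : ℕ) (hj : 1 ≤ j) (hn : j + 3 ≤ Fintype.card V)
    (hp0 : (0 : ℝ) < p) (hp1 : (p : ℝ) < 1) (u v : V) (huv : u ≠ v) :
    (G(V, p)).real {G : SimpleGraph V | #(nb G u) = j ∧ #(nb G v) = j} ≤
      bp (Fintype.card V) j p ^ 2 *
        (1 / (1 - (p : ℝ)) + (j : ℝ) ^ 2 / (((Fintype.card V : ℝ) - 1) ^ 2 * p)) := by
  classical
  set e0 : Sym2 V := s(u, v) with he0
  have hnd : ¬ e0.IsDiag := fun h => huv (Sym2.mk_isDiag_iff.1 h)
  have hu0 : e0 ∈ E6.star u := mem_star.2 ⟨Sym2.mem_mk_left u v, hnd⟩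
  have hv0 : e0 ∈ E6.star v := mem_star.2 ⟨Sym2.mem_mk_right u v, hnd⟩
  set Su := (E6.star u).erase e0 with hSu
  set Sv := (E6.star v).erase e0 with hSv
  have cu : #Su = Fintype.card V - 2 := by rw [hSu, card_erase_of_mem hu0, star_card]; omega
  have cv : #Sv = Fintype.card V - 2 := by rw [hSv, card_erase_of_mem hv0, star_card]; omega
  have hdis : Disjoint Su Sv := by
    rw [Finset.disjoint_left]
    intro e h1 h2
    rw [hSu, mem_erase, mem_star] at h1
    rw [hSv, mem_erase, mem_star] at h2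
    exact h1.1 ((Sym2.mem_and_mem_iff huv).1 ⟨h1.2.1, h2.2.1⟩)
  have h0u : e0 ∉ Su := fun h => (mem_erase.1 h).1 rfl
  have h0v : e0 ∉ Sv := fun h => (mem_erase.1 h).1 rfl
  have hSuA : Su ⊆ allE V := (erase_subset _ _).trans (star_subset u)
  have hSvA : Sv ⊆ allE V := (erase_subset _ _).trans (star_subset v)
  have h0A : e0 ∈ allE V := star_subset u hu0
  obtain ⟨a, ha⟩ : ∃ a, Fintype.card V = a + 2 := ⟨Fintype.card V - 2, by omega⟩
  obtain ⟨i, rfl⟩ : ∃ i, j = i + 1 := ⟨j - 1, by omega⟩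
  obtain ⟨b, hb⟩ : ∃ b, a = b + (i + 1) := ⟨a - (i + 1), by omega⟩
  -- the two kinds of events
  let A1 : Finset (Sym2 V) × Finset (Sym2 V) → Set (SimpleGraph V) := fun q =>
    {G | q.1 ∪ q.2 ⊆ ed G ∧ Disjoint (insert e0 ((Su \ q.1) ∪ (Sv \ q.2))) (ed G)}
  let A2 : Finset (Sym2 V) × Finset (Sym2 V) → Set (SimpleGraph V) := fun q =>
    {G | insert e0 (q.1 ∪ q.2) ⊆ ed G ∧ Disjoint ((Su \ q.1) ∪ (Sv \ q.2)) (ed G)}
  have hsplit : ∀ (w : V) (G : SimpleGraph V), e0 ∈ E6.star w → #(nb G w) = i + 1 →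
      (e0 ∉ ed G → #((E6.star w).erase e0 ∩ ed G) = i + 1) ∧
      (e0 ∈ ed G → #((E6.star w).erase e0 ∩ ed G) = i) := by
    intro w G hw hG
    rw [← star_inter] at hG
    have hee : (E6.star w).erase e0 ∩ ed G = (E6.star w ∩ ed G).erase e0 := by
      ext x
      simp only [Finset.mem_inter, Finset.mem_erase]
      tauto
    constructor
    · intro h
      rw [hee, Finset.erase_eq_of_notMem (fun h' => h (mem_inter.1 h').2), hG]
    · intro h
      rw [hee, card_erase_of_mem (mem_inter.2 ⟨hw, h⟩), hG]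
      rfl
  have hsub : {G : SimpleGraph V | #(nb G u) = i + 1 ∧ #(nb G v) = i + 1} ⊆
      (⋃ q ∈ powersetCard (i + 1) Su ×ˢ powersetCard (i + 1) Sv, A1 q) ∪
      (⋃ q ∈ powersetCard i Su ×ˢ powersetCard i Sv, A2 q) := by
    rintro G ⟨g1, g2⟩
    have hd1 : Disjoint ((Su \ (Su ∩ ed G)) ∪ (Sv \ (Sv ∩ ed G))) (ed G) := by
      rw [Finset.disjoint_left]
      intro e h1 h2
      rw [mem_union, Finset.mem_sdiff, Finset.mem_sdiff] at h1
      rcases h1 with h1 | h1
      · exact h1.2 (Finset.mem_inter.2 ⟨h1.1, h2⟩)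
      · exact h1.2 (Finset.mem_inter.2 ⟨h1.1, h2⟩)
    have hs1 : (Su ∩ ed G) ∪ (Sv ∩ ed G) ⊆ ed G :=
      union_subset inter_subset_right inter_subset_right
    by_cases h : e0 ∈ ed G
    · right
      simp only [Set.mem_iUnion, exists_prop]
      refine ⟨(Su ∩ ed G, Sv ∩ ed G), ?_, ?_, hd1⟩
      · rw [mem_product, mem_powersetCard, mem_powersetCard]
        exact ⟨⟨inter_subset_left, (hsplit u G hu0 g1).2 h⟩,
          ⟨inter_subset_left, (hsplit v G hv0 g2).2 h⟩⟩
      · exact insert_subset h hs1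
    · left
      simp only [Set.mem_iUnion, exists_prop]
      refine ⟨(Su ∩ ed G, Sv ∩ ed G), ?_, hs1, ?_⟩
      · rw [mem_product, mem_powersetCard, mem_powersetCard]
        exact ⟨⟨inter_subset_left, (hsplit u G hu0 g1).1 h⟩,
          ⟨inter_subset_left, (hsplit v G hv0 g2).1 h⟩⟩
      · rw [disjoint_insert_left]
        exact ⟨h, hd1⟩
  have hP1 : ∀ q ∈ powersetCard (i + 1) Su ×ˢ powersetCard (i + 1) Sv,
      (G(V, p)).real (A1 q) = (p : ℝ) ^ (2 * i + 2) * (1 - (p : ℝ)) ^ (2 * b + 1) := by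
    rintro ⟨N, N'⟩ hq
    rw [mem_product, mem_powersetCard, mem_powersetCard] at hq
    obtain ⟨⟨h1, h2⟩, ⟨h3, h4⟩⟩ := hq
    dsimp only at h1 h2 h3 h4
    have hNN : Disjoint N N' := disjoint_of_subset_left h1 (disjoint_of_subset_right h3 hdis)
    have hBd : Disjoint (Su \ N) (Sv \ N') :=
      disjoint_of_subset_left sdiff_subset (disjoint_of_subset_right sdiff_subset hdis)
    have h5 : e0 ∉ (Su \ N) ∪ (Sv \ N') := by
      rw [mem_union, Finset.mem_sdiff, Finset.mem_sdiff]
      rintro (h | h)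
      · exact h0u h.1
      · exact h0v h.1
    have h6 := hC V p (N ∪ N') (insert e0 ((Su \ N) ∪ (Sv \ N')))
      (union_subset (h1.trans hSuA) (h3.trans hSvA))
      (insert_subset h0A (union_subset (sdiff_subset.trans hSuA) (sdiff_subset.trans hSvA)))
      (by
        rw [Finset.disjoint_left]
        intro e he1 he2
        rw [mem_union] at he1
        rw [mem_insert, mem_union, Finset.mem_sdiff, Finset.mem_sdiff] at he2
        rcases he2 with rfl | he2 | he2
        · rcases he1 with he1 | he1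
          · exact h0u (h1 he1)
          · exact h0v (h3 he1)
        · rcases he1 with he1 | he1
          · exact he2.2 he1
          · exact Finset.disjoint_left.1 hdis he2.1 (h3 he1)
        · rcases he1 with he1 | he1
          · exact Finset.disjoint_left.1 hdis (h1 he1) he2.1
          · exact he2.2 he1)
    refine h6.trans ?_
    rw [card_union_of_disjoint hNN, card_insert_of_notMem h5, card_union_of_disjoint hBd,
      card_sdiff_of_subset h1, card_sdiff_of_subset h3, h2, h4, cu, cv]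
    congr 2
    · omega
    · omega
  have hP2 : ∀ q ∈ powersetCard i Su ×ˢ powersetCard i Sv,
      (G(V, p)).real (A2 q) = (p : ℝ) ^ (2 * i + 1) * (1 - (p : ℝ)) ^ (2 * b + 2) := by
    rintro ⟨N, N'⟩ hq
    rw [mem_product, mem_powersetCard, mem_powersetCard] at hq
    obtain ⟨⟨h1, h2⟩, ⟨h3, h4⟩⟩ := hq
    dsimp only at h1 h2 h3 h4
    have hNN : Disjoint N N' := disjoint_of_subset_left h1 (disjoint_of_subset_right h3 hdis)
    have hBd : Disjoint (Su \ N) (Sv \ N') :=
      disjoint_of_subset_left sdiff_subset (disjoint_of_subset_right sdiff_subset hdis)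
    have h5 : e0 ∉ N ∪ N' := by
      rw [mem_union]
      rintro (h | h)
      · exact h0u (h1 h)
      · exact h0v (h3 h)
    have h6 := hC V p (insert e0 (N ∪ N')) ((Su \ N) ∪ (Sv \ N'))
      (insert_subset h0A (union_subset (h1.trans hSuA) (h3.trans hSvA)))
      (union_subset (sdiff_subset.trans hSuA) (sdiff_subset.trans hSvA))
      (by
        rw [Finset.disjoint_left]
        intro e he1 he2
        rw [mem_insert, mem_union] at he1
        rw [mem_union, Finset.mem_sdiff, Finset.mem_sdiff] at he2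
        rcases he1 with rfl | he1 | he1
        · rcases he2 with he2 | he2
          · exact h0u he2.1
          · exact h0v he2.1
        · rcases he2 with he2 | he2
          · exact he2.2 he1
          · exact Finset.disjoint_left.1 hdis (h1 he1) he2.1
        · rcases he2 with he2 | he2
          · exact Finset.disjoint_left.1 hdis he2.1 (h3 he1)
          · exact he2.2 he1)
    refine h6.trans ?_
    rw [card_insert_of_notMem h5, card_union_of_disjoint hNN, card_union_of_disjoint hBd,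
      card_sdiff_of_subset h1, card_sdiff_of_subset h3, h2, h4, cu, cv]
    congr 2
    · omega
    · omega
  have hq0 : (0 : ℝ) < 1 - p := by linarith
  -- the total
  have htot : (G(V, p)).real {G : SimpleGraph V | #(nb G u) = i + 1 ∧ #(nb G v) = i + 1} ≤
      ((a.choose (i + 1) : ℝ) ^ 2 * ((p : ℝ) ^ (2 * i + 2) * (1 - (p : ℝ)) ^ (2 * b + 1))) +
      ((a.choose i : ℝ) ^ 2 * ((p : ℝ) ^ (2 * i + 1) * (1 - (p : ℝ)) ^ (2 * b + 2))) := by
    refine (measureReal_mono hsub (measure_ne_top _ _)).trans ?_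
    refine (measureReal_union_le _ _).trans (add_le_add ?_ ?_)
    · refine (measureReal_biUnion_finset_le _ _).trans (le_of_eq ?_)
      rw [Finset.sum_congr rfl hP1, Finset.sum_const, card_product, card_powersetCard,
        card_powersetCard, cu, cv, nsmul_eq_mul]
      have : Fintype.card V - 2 = a := by omega
      rw [this]
      push_cast
      ring
    · refine (measureReal_biUnion_finset_le _ _).trans (le_of_eq ?_)
      rw [Finset.sum_congr rfl hP2, Finset.sum_const, card_product, card_powersetCard,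
        card_powersetCard, cu, cv, nsmul_eq_mul]
      have : Fintype.card V - 2 = a := by omega
      rw [this]
      push_cast
      ring
  refine htot.trans ?_
  have hbp : bp (Fintype.card V) (i + 1) p = ((a + 1).choose (i + 1) : ℝ) * (p : ℝ) ^ (i + 1) *
      (1 - (p : ℝ)) ^ (b + 1) := by
    rw [bp]
    have e1 : Fintype.card V - 1 = a + 1 := by omega
    have e2 : Fintype.card V - 1 - (i + 1) = b + 1 := by omega
    rw [e2, e1]
  have hc1 : (a.choose (i + 1) : ℝ) ≤ ((a + 1).choose (i + 1) : ℝ) := by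
    exact_mod_cast Nat.choose_le_choose (i + 1) (Nat.le_succ a)
  have hc2 : ((a : ℝ) + 1) * (a.choose i : ℝ) = ((a + 1).choose (i + 1) : ℝ) * ((i : ℝ) + 1) := by
    exact_mod_cast Nat.add_one_mul_choose_eq a i
  have hcard : (Fintype.card V : ℝ) - 1 = (a : ℝ) + 1 := by
    rw [ha]; push_cast; ring
  rw [hbp, hcard]
  have ha0 : (0 : ℝ) < (a : ℝ) + 1 := by positivity
  have h2 : (a.choose i : ℝ) = ((a + 1).choose (i + 1) : ℝ) * ((i : ℝ) + 1) / ((a : ℝ) + 1) := by
    rw [eq_div_iff ha0.ne']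
    linarith
  have e3 : (((a + 1).choose (i + 1) : ℝ) * (p : ℝ) ^ (i + 1) * (1 - (p : ℝ)) ^ (b + 1)) ^ 2 *
      (1 / (1 - (p : ℝ)) + ((i + 1 : ℕ) : ℝ) ^ 2 / (((a : ℝ) + 1) ^ 2 * p)) =
      (((a + 1).choose (i + 1) : ℝ) ^ 2 * ((p : ℝ) ^ (2 * i + 2) * (1 - (p : ℝ)) ^ (2 * b + 1))) +
      ((((a + 1).choose (i + 1) : ℝ) * ((i : ℝ) + 1) / ((a : ℝ) + 1)) ^ 2 *
        ((p : ℝ) ^ (2 * i + 1) * (1 - (p : ℝ)) ^ (2 * b + 2))) := by
    have hp0' : (p : ℝ) ≠ 0 := hp0.ne'
    have hq0' : 1 - (p : ℝ) ≠ 0 := hq0.ne'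
    push_cast
    field_simp
    ring
  rw [e3, h2]
  gcongr

end

end Mom

/-- **MOM** -/
theorem s_MOM (hC : S_CYL) : S_MOM := fun V _ _ p j =>
  ⟨fun v => Mom.first hC p j v, fun hj hn hp0 hp1 u v huv => Mom.second hC p j hj hn hp0 hp1 u v huv⟩

end Pool.Agent.H15P
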