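import Pool.Agent.H15P.PSA

/-!
# Project H15P, piece PBO: all the sets of boosters of sparse graphs meet the random graph
-/

set_option autoImplicit false
set_option linter.unusedSectionVars false

open MeasureTheory ProbabilityTheory unitInterval Finset Filter Topology
open scoped SimpleGraph

namespace Pool.Agent.H15P

open Pool.Agent.V11328 Pool.Agent.V11328.E6

namespace PBOP

open PSAP

/-- The number of small subsets. -/
theorem card_small {α : Type} [DecidableEq α] (X : Finset α) (K : ℕ) :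
    #(X.powerset.filter fun S => #S ≤ K) ≤ (#X + 1) ^ K := by
  induction K with
  | zero =>
    rw [pow_zero]
    refine Finset.card_le_one.2 fun a ha b hb => ?_
    rw [Finset.mem_filter] at ha hb
    rw [Finset.card_eq_zero.1 (Nat.le_zero.1 ha.2), Finset.card_eq_zero.1 (Nat.le_zero.1 hb.2)]
  | succ K ih =>
    set P := X.powerset.filter fun S => #S ≤ K with hP
    have hsub : (X.powerset.filter fun S => #S ≤ K + 1) ⊆
        P ∪ X.biUnion fun x => P.image fun S => insert x S := by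
      intro S hS
      rw [Finset.mem_filter, Finset.mem_powerset] at hS
      rw [Finset.mem_union]
      rcases S.eq_empty_or_nonempty with rfl | ⟨x, hx⟩
      · left
        rw [hP, Finset.mem_filter, Finset.mem_powerset]
        exact ⟨Finset.empty_subset _, by simp⟩
      · right
        rw [Finset.mem_biUnion]
        refine ⟨x, hS.1 hx, ?_⟩
        rw [Finset.mem_image]
        refine ⟨S.erase x, ?_, Finset.insert_erase hx⟩
        rw [hP, Finset.mem_filter, Finset.mem_powerset]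
        refine ⟨(Finset.erase_subset _ _).trans hS.1, ?_⟩
        rw [Finset.card_erase_of_mem hx]
        omega
    calc #(X.powerset.filter fun S => #S ≤ K + 1)
        ≤ #(P ∪ X.biUnion fun x => P.image fun S => insert x S) := Finset.card_le_card hsub
      _ ≤ #P + #(X.biUnion fun x => P.image fun S => insert x S) := Finset.card_union_le _ _
      _ ≤ #P + #X * #P := by
          refine Nat.add_le_add_left ?_ _
          exact Finset.card_biUnion_le_card_mul _ _ _ fun x _ => Finset.card_image_le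
      _ = #P * (#X + 1) := by ring
      _ ≤ (#X + 1) ^ K * (#X + 1) := Nat.mul_le_mul_right _ ih
      _ = (#X + 1) ^ (K + 1) := by ring

theorem exp_seven : (1000 : ℝ) ≤ Real.exp 7 := by
  have h1 := Real.exp_one_gt_d9
  have h3 : Real.exp 7 = Real.exp 1 ^ 7 := by
    rw [← Real.exp_nat_mul]
    norm_num
  rw [h3]
  calc (1000 : ℝ) ≤ (2.7182 : ℝ) ^ 7 := by norm_num
    _ ≤ Real.exp 1 ^ 7 := pow_le_pow_left₀ (by norm_num) (by linarith) 7

theorem exp_half : Real.exp (-(1 / 2)) ≤ 61 / 100 := by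
  have h1 := Real.exp_one_gt_d9
  have h2 : (1.648 : ℝ) ≤ Real.exp (1 / 2) := by
    have h3 : Real.exp (1 / 2) ^ 2 = Real.exp 1 := by
      rw [← Real.exp_nat_mul]
      norm_num
    nlinarith [Real.exp_pos (1 / 2)]
  rw [Real.exp_neg]
  have h3 : (Real.exp (1 / 2))⁻¹ ≤ (1.648 : ℝ)⁻¹ := inv_anti₀ (by norm_num) h2
  refine h3.trans ?_
  norm_num

/-- The sum over the edge sets of sparse graphs. -/
theorem sum_sparse {α : Type} [DecidableEq α] (X : Finset α) {q J : ℝ} (hq : 0 ≤ q) :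
    ∑ S ∈ X.powerset.filter (fun S => (#S : ℝ) ≤ J), q ^ #S ≤
      Real.exp (7 * J + q / 1000 * #X) := by
  have h1 : ∀ S ∈ X.powerset.filter (fun S => (#S : ℝ) ≤ J),
      q ^ #S ≤ Real.exp (7 * J) * (q / 1000) ^ #S := by
    intro S hS
    rw [Finset.mem_filter] at hS
    have h2 : (1000 : ℝ) ^ #S ≤ Real.exp (7 * J) := by
      calc (1000 : ℝ) ^ #S ≤ Real.exp 7 ^ #S := pow_le_pow_left₀ (by norm_num) exp_seven _
        _ = Real.exp (7 * #S) := by
            rw [← Real.exp_nat_mul]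
            congr 1
            ring
        _ ≤ Real.exp (7 * J) := Real.exp_le_exp.2 (by linarith [hS.2])
    have h3 : q ^ #S = 1000 ^ #S * (q / 1000) ^ #S := by
      rw [← mul_pow]
      congr 1
      ring
    rw [h3]
    exact mul_le_mul_of_nonneg_right h2 (by positivity)
  refine (Finset.sum_le_sum h1).trans ?_
  rw [← Finset.mul_sum, Real.exp_add]
  refine mul_le_mul_of_nonneg_left ?_ (Real.exp_pos _).le
  calc ∑ S ∈ X.powerset.filter (fun S => (#S : ℝ) ≤ J), (q / 1000) ^ #S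
      ≤ ∑ S ∈ X.powerset, (q / 1000) ^ #S :=
        Finset.sum_le_sum_of_subset_of_nonneg (Finset.filter_subset _ _)
          fun S _ _ => by positivity
    _ = (q / 1000 + 1) ^ #X := by
        rw [← Finset.sum_pow_mul_eq_add_pow]
        refine Finset.sum_congr rfl fun S _ => ?_
        rw [one_pow, mul_one]
    _ ≤ Real.exp (q / 1000) ^ #X := by
        refine pow_le_pow_left₀ (by positivity) ?_ _
        exact Real.add_one_le_exp _
    _ = Real.exp (q / 1000 * #X) := by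
        rw [← Real.exp_nat_mul]
        congr 1
        ring

variable {V : Type} [Fintype V] [DecidableEq V]

/-- One triple. -/
theorem one_triple (hT : S_TAI) (p : I) {n : ℕ} (E0 Ev : Finset (Sym2 V)) (U : Finset V)
    (hE : E0 ⊆ allE V) (hEv : Ev ⊆ allE V)
    (hb : (n : ℝ) ^ 2 / 50 ≤
      #(bst (SimpleGraph.fromEdgeSet ((E0 ∪ Ev : Finset (Sym2 V)) : Set (Sym2 V))) U)) :
    (G(V, p)).real {G : SimpleGraph V | E0 ⊆ ed G ∧
      (#(bst (SimpleGraph.fromEdgeSet ((E0 ∪ Ev : Finset (Sym2 V)) : Set (Sym2 V))) U ∩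
        ed G) : ℝ) ≤ ((n : ℝ) * p) * n / 1000} ≤
      (p : ℝ) ^ #E0 * Real.exp (-(73 / 10000 * (((n : ℝ) * p) * n))) := by
  have hp0 : 0 ≤ (p : ℝ) := p.2.1
  have hp1 : (p : ℝ) ≤ 1 := p.2.2
  set Γ := SimpleGraph.fromEdgeSet ((E0 ∪ Ev : Finset (Sym2 V)) : Set (Sym2 V)) with hΓ
  have hed : ed Γ = E0 ∪ Ev := ed_fromEdgeSet (Finset.union_subset hE hEv)
  have hBs : bst Γ U ⊆ allE V := by
    intro e he
    simp only [bst, mem_filter, mem_univ, true_and] at he
    rw [mem_allE]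
    exact he.1
  have hdis : Disjoint E0 (bst Γ U) := by
    rw [Finset.disjoint_left]
    intro e he he'
    simp only [bst, mem_filter, mem_univ, true_and] at he'
    apply he'.2.1
    rw [hed]
    exact Finset.mem_union_left _ he
  refine (hT V p E0 (bst Γ U) (-(1 / 2)) (-(((n : ℝ) * p) * n / 2000)) _ hE hBs hdis
    (fun G hG => ⟨hG.1, ?_⟩)).trans ?_
  · have h1 : (#(bst Γ U ∩ ed G) : ℝ) ≤ ((n : ℝ) * p) * n / 1000 := hG.2
    linarith
  · refine mul_le_mul_of_nonneg_left (Real.exp_le_exp.2 ?_) (by positivity)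
    have h1 := exp_half
    have h2 : (p : ℝ) * ((n : ℝ) ^ 2 / 50) ≤ (p : ℝ) * #(bst Γ U) :=
      mul_le_mul_of_nonneg_left hb hp0
    have h3 : 0 ≤ (p : ℝ) * #(bst Γ U) := by positivity
    have h4 : (p : ℝ) * #(bst Γ U) * (Real.exp (-(1 / 2)) - 1) ≤
        (p : ℝ) * #(bst Γ U) * (-(39 / 100)) :=
      mul_le_mul_of_nonneg_left (by linarith) h3
    have h5 : (p : ℝ) * (n : ℝ) ^ 2 = (n : ℝ) * p * n := by ring
    nlinarith

/-- The sum over all triples, for a union bound with weights. -/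
theorem union_sum {ι : Type} [DecidableEq ι] (p : I) (W : Finset ι)
    (A : ι → Set (SimpleGraph V)) (C : ι → ℝ) (h : ∀ i ∈ W, (G(V, p)).real (A i) ≤ C i)
    {B : Set (SimpleGraph V)} (hB : ∀ G ∈ B, ∃ i ∈ W, G ∈ A i) :
    (G(V, p)).real B ≤ ∑ i ∈ W, C i := by
  have hsub : B ⊆ ⋃ i ∈ W, A i := by
    intro G hG
    obtain ⟨i, hi, hGi⟩ := hB G hG
    simp only [Set.mem_iUnion]
    exact ⟨i, hi, hGi⟩
  refine (measureReal_mono hsub (measure_ne_top _ _)).trans ?_
  exact (measureReal_biUnion_finset_le _ _).trans (Finset.sum_le_sum h)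

/-- The bad event. -/
def bad (V : Type) [Fintype V] [DecidableEq V] (K n : ℕ) (p : ℝ) : Set (SimpleGraph V) :=
  {G : SimpleGraph V | ∃ (Γ : SimpleGraph V) (U : Finset V),
      #(univ \ U) ≤ K ∧ #(ed Γ \ ed G) ≤ K ∧ (#(ed Γ) : ℝ) ≤ ((n : ℝ) * p) * n / 12000 ∧
      (n : ℝ) ^ 2 / 50 ≤ #(bst Γ U) ∧
      (#(bst Γ U ∩ ed G) : ℝ) ≤ ((n : ℝ) * p) * n / 1000}

theorem bad_le (hT : S_TAI) (p : I) (K : ℕ) {n : ℕ} (hn : Fintype.card V = n) :
    (G(V, p)).real (bad V K n p) ≤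
      ((n : ℝ) + 1) ^ K * ((n : ℝ) ^ 2 + 1) ^ K *
        Real.exp (-(6 / 1000 * (((n : ℝ) * p) * n))) := by
  classical
  have hp0 : 0 ≤ (p : ℝ) := p.2.1
  have hp1 : (p : ℝ) ≤ 1 := p.2.2
  set D : ℝ := ((n : ℝ) * p) * n with hD
  have hD0 : 0 ≤ D := by positivity
  set WU := (univ : Finset V).powerset.filter fun S => #S ≤ K with hWU
  set WE := (allE V).powerset.filter fun S => (#S : ℝ) ≤ D / 12000 with hWE
  set WV := (allE V).powerset.filter fun S => #S ≤ K with hWV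
  have key := union_sum (V := V) p (WU ×ˢ WE ×ˢ WV)
    (fun i => {G : SimpleGraph V | (n : ℝ) ^ 2 / 50 ≤ #(bst (SimpleGraph.fromEdgeSet
      ((i.2.1 ∪ i.2.2 : Finset (Sym2 V)) : Set (Sym2 V))) (univ \ i.1)) ∧ i.2.1 ⊆ ed G ∧
      (#(bst (SimpleGraph.fromEdgeSet ((i.2.1 ∪ i.2.2 : Finset (Sym2 V)) : Set (Sym2 V)))
        (univ \ i.1) ∩ ed G) : ℝ) ≤ D / 1000})
    (fun i => (p : ℝ) ^ #i.2.1 * Real.exp (-(73 / 10000 * D))) (fun i hi => ?_)
    (B := bad V K n p) (fun G hG => ?_)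
  · refine key.trans ?_
    rw [Finset.sum_product]
    have h1 : ∀ S ∈ WU, ∑ i ∈ WE ×ˢ WV, (p : ℝ) ^ #i.1 * Real.exp (-(73 / 10000 * D)) =
        (∑ E ∈ WE, (p : ℝ) ^ #E) * (#WV * Real.exp (-(73 / 10000 * D))) := by
      intro S _
      rw [Finset.sum_product, Finset.sum_mul]
      refine Finset.sum_congr rfl fun E _ => ?_
      show ∑ _y ∈ WV, (p : ℝ) ^ #E * Real.exp (-(73 / 10000 * D)) = _
      rw [Finset.sum_const, nsmul_eq_mul]
      ring
    rw [Finset.sum_congr rfl h1, Finset.sum_const, nsmul_eq_mul]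
    have hcU : (#WU : ℝ) ≤ ((n : ℝ) + 1) ^ K := by
      have := card_small (univ : Finset V) K
      rw [card_univ, hn] at this
      exact_mod_cast this
    have hall : #(allE V) ≤ n ^ 2 := by
      rw [card_allE, hn, Nat.choose_two_right]
      refine (Nat.div_le_self _ _).trans ?_
      rw [sq]
      exact Nat.mul_le_mul_left _ (Nat.sub_le _ _)
    have hall2 : (#(allE V) : ℝ) ≤ (n : ℝ) ^ 2 / 2 := by
      rw [card_allE, hn, Nat.cast_choose_two]
      nlinarith [Nat.cast_nonneg (α := ℝ) n]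
    have hcV : (#WV : ℝ) ≤ ((n : ℝ) ^ 2 + 1) ^ K := by
      have h2 := card_small (allE V) K
      have h3 : (#(allE V) + 1) ^ K ≤ (n ^ 2 + 1) ^ K :=
        Nat.pow_le_pow_left (by omega) K
      exact_mod_cast h2.trans h3
    have hs := sum_sparse (allE V) (J := D / 12000) hp0
    have hs2 : ∑ E ∈ WE, (p : ℝ) ^ #E ≤ Real.exp (13 / 10000 * D) := by
      refine hs.trans (Real.exp_le_exp.2 ?_)
      have h4 : (p : ℝ) / 1000 * #(allE V) ≤ (p : ℝ) / 1000 * ((n : ℝ) ^ 2 / 2) :=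
        mul_le_mul_of_nonneg_left hall2 (by positivity)
      have h5 : (p : ℝ) / 1000 * ((n : ℝ) ^ 2 / 2) = D / 2000 := by
        rw [hD]
        ring
      linarith
    have hs0 : 0 ≤ ∑ E ∈ WE, (p : ℝ) ^ #E := Finset.sum_nonneg fun E _ => by positivity
    calc (#WU : ℝ) * ((∑ E ∈ WE, (p : ℝ) ^ #E) * (#WV * Real.exp (-(73 / 10000 * D))))
        ≤ ((n : ℝ) + 1) ^ K * (Real.exp (13 / 10000 * D) *
            (((n : ℝ) ^ 2 + 1) ^ K * Real.exp (-(73 / 10000 * D)))) := by gcongr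
      _ = ((n : ℝ) + 1) ^ K * ((n : ℝ) ^ 2 + 1) ^ K *
            Real.exp (-(6 / 1000 * D)) := by
          have h6 : Real.exp (13 / 10000 * D) * Real.exp (-(73 / 10000 * D)) =
              Real.exp (-(6 / 1000 * D)) := by
            rw [← Real.exp_add]
            congr 1
            ring
          linear_combination ((n : ℝ) + 1) ^ K * ((n : ℝ) ^ 2 + 1) ^ K * h6
  · obtain ⟨S, E0, Ev⟩ := i
    simp only [Finset.mem_product] at hi
    obtain ⟨h1, h2, h3⟩ := hi
    rw [hWE, Finset.mem_filter, Finset.mem_powerset] at h2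
    rw [hWV, Finset.mem_filter, Finset.mem_powerset] at h3
    by_cases hb : (n : ℝ) ^ 2 / 50 ≤
      #(bst (SimpleGraph.fromEdgeSet ((E0 ∪ Ev : Finset (Sym2 V)) : Set (Sym2 V))) (univ \ S))
    · refine le_trans (measureReal_mono (fun G hG => hG.2) (measure_ne_top _ _))
        (one_triple hT p (n := n) E0 Ev (univ \ S) h2.1 h3.1 hb)
    · have : {G : SimpleGraph V | (n : ℝ) ^ 2 / 50 ≤ #(bst (SimpleGraph.fromEdgeSet
          ((E0 ∪ Ev : Finset (Sym2 V)) : Set (Sym2 V))) (univ \ S)) ∧ E0 ⊆ ed G ∧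
          (#(bst (SimpleGraph.fromEdgeSet ((E0 ∪ Ev : Finset (Sym2 V)) : Set (Sym2 V)))
            (univ \ S) ∩ ed G) : ℝ) ≤ D / 1000} = ∅ := by
        ext G
        simp only [Set.mem_ofPred_eq, Set.mem_empty_iff_false, iff_false]
        exact fun h => hb h.1
      show (G(V, p)).real {G : SimpleGraph V | (n : ℝ) ^ 2 / 50 ≤ #(bst (SimpleGraph.fromEdgeSet
          ((E0 ∪ Ev : Finset (Sym2 V)) : Set (Sym2 V))) (univ \ S)) ∧ E0 ⊆ ed G ∧
          (#(bst (SimpleGraph.fromEdgeSet ((E0 ∪ Ev : Finset (Sym2 V)) : Set (Sym2 V)))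
            (univ \ S) ∩ ed G) : ℝ) ≤ D / 1000} ≤ _
      rw [this, measureReal_empty]
      positivity
  · obtain ⟨Γ, U, h1, h2, h3, h4, h5⟩ := hG
    have hΓ : SimpleGraph.fromEdgeSet ((ed Γ ∩ ed G ∪ ed Γ \ ed G : Finset (Sym2 V)) :
        Set (Sym2 V)) = Γ := by
      have e1 : ed Γ ∩ ed G ∪ ed Γ \ ed G = ed Γ := by
        ext e
        simp only [Finset.mem_union, Finset.mem_inter, Finset.mem_sdiff]
        tauto
      rw [e1, ed_coe, SimpleGraph.fromEdgeSet_edgeSet]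
    have hU : univ \ (univ \ U) = U := by
      ext v
      simp
    refine ⟨(univ \ U, ed Γ ∩ ed G, ed Γ \ ed G), ?_, ?_⟩
    · simp only [Finset.mem_product]
      refine ⟨?_, ?_, ?_⟩
      · rw [hWU, Finset.mem_filter, Finset.mem_powerset]
        exact ⟨Finset.subset_univ _, h1⟩
      · rw [hWE, Finset.mem_filter, Finset.mem_powerset]
        refine ⟨Finset.inter_subset_left.trans (ed_subset Γ), ?_⟩
        have : (#(ed Γ ∩ ed G) : ℝ) ≤ #(ed Γ) := by
          exact_mod_cast Finset.card_le_card Finset.inter_subset_left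
        exact this.trans h3
      · rw [hWV, Finset.mem_filter, Finset.mem_powerset]
        exact ⟨Finset.sdiff_subset.trans (ed_subset Γ), h2⟩
    · show (n : ℝ) ^ 2 / 50 ≤ #(bst (SimpleGraph.fromEdgeSet ((ed Γ ∩ ed G ∪ ed Γ \ ed G :
        Finset (Sym2 V)) : Set (Sym2 V))) (univ \ (univ \ U))) ∧ ed Γ ∩ ed G ⊆ ed G ∧
        (#(bst (SimpleGraph.fromEdgeSet ((ed Γ ∩ ed G ∪ ed Γ \ ed G : Finset (Sym2 V)) :
          Set (Sym2 V))) (univ \ (univ \ U)) ∩ ed G) : ℝ) ≤ D / 1000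
      rw [hΓ, hU]
      exact ⟨h4, Finset.inter_subset_right, h5⟩

end PBOP

open PSAP PBOP in
/-- **Piece PBO.** -/
theorem s_PBO (hT : S_TAI) : S_PBO := by
  intro K p hp
  have hlim : Tendsto (fun n : ℕ => (1 : ℝ) / n) atTop (𝓝 0) :=
    tendsto_const_div_atTop_nhds_zero_nat 1
  refine tendsto_of_tendsto_of_tendsto_of_le_of_le' tendsto_const_nhds hlim
    (Eventually.of_forall fun n => measureReal_nonneg) ?_
  filter_upwards [hp, eventually_ge_atTop (1000 * (6 * K + 1) + 2)] with n h1 h2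
  have hp0 : 0 ≤ (p n : ℝ) := (p n).2.1
  have h := bad_le (V := Fin n) hT (p n) K (Fintype.card_fin n)
  refine le_trans h ?_
  have hn1 : (1000 * (6 * (K : ℝ) + 1) + 2) ≤ n := by exact_mod_cast h2
  have hK0 : (0 : ℝ) ≤ K := Nat.cast_nonneg K
  have hn2 : (2 : ℝ) ≤ n := by linarith
  have hlog : 0 ≤ Real.log n := Real.log_nonneg (by linarith)
  have h3 : ((n : ℝ) + 1) ≤ (n : ℝ) ^ 2 := by nlinarith
  have h4 : ((n : ℝ) ^ 2 + 1) ≤ (n : ℝ) ^ 4 := by nlinarith [sq_nonneg ((n : ℝ) ^ 2 - 2)]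
  have h5 : ((n : ℝ) + 1) ^ K * ((n : ℝ) ^ 2 + 1) ^ K ≤ (n : ℝ) ^ (6 * K) := by
    calc ((n : ℝ) + 1) ^ K * ((n : ℝ) ^ 2 + 1) ^ K
        ≤ ((n : ℝ) ^ 2) ^ K * ((n : ℝ) ^ 4) ^ K := by gcongr
      _ = (n : ℝ) ^ (6 * K) := by
          rw [← pow_mul, ← pow_mul, ← pow_add]
          congr 1
          ring
  have h6 : (n : ℝ) ^ (6 * K) = Real.exp ((6 * K : ℕ) * Real.log n) := by
    rw [Real.exp_nat_mul, Real.exp_log (by linarith)]
  have h7 : (1 : ℝ) / n = Real.exp (-Real.log n) := by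
    rw [Real.exp_neg, Real.exp_log (by linarith), one_div]
  calc ((n : ℝ) + 1) ^ K * ((n : ℝ) ^ 2 + 1) ^ K *
        Real.exp (-(6 / 1000 * (((n : ℝ) * p n) * n)))
      ≤ Real.exp ((6 * K : ℕ) * Real.log n) * Real.exp (-(6 / 1000 * (((n : ℝ) * p n) * n))) := by
        rw [← h6]
        exact mul_le_mul_of_nonneg_right h5 (Real.exp_pos _).le
    _ = Real.exp ((6 * K : ℕ) * Real.log n + -(6 / 1000 * (((n : ℝ) * p n) * n))) := by
        rw [← Real.exp_add]
    _ ≤ Real.exp (-Real.log n) := by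
        refine Real.exp_le_exp.2 ?_
        push_cast
        have h8 : Real.log n * n ≤ ((n : ℝ) * p n) * n :=
          mul_le_mul_of_nonneg_right h1 (by linarith)
        have h9 : (1000 * (6 * (K : ℝ) + 1)) * Real.log n ≤ n * Real.log n :=
          mul_le_mul_of_nonneg_right (by linarith) hlog
        nlinarith
    _ = 1 / n := h7.symm

end Pool.Agent.H15P
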