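import Pool.Agent.H15P.Cy66

/-!
# Project H15P, pieces PCV and ATT (helper66): path covers from a Hamilton cycle
-/

open Finset
open scoped SimpleGraph

namespace Pool.Agent.H15P

open Pool.Agent.V11328 Pool.Agent.V11328.E6 Cy66

theorem s_PCV : S_PCV := by
  intro V _ _ Γ X E h h3
  induction E using Finset.induction_on with
  | empty =>
    obtain ⟨P, a, b, ⟨hP0, hPc, hPn⟩, ha, hb, hab, hm⟩ := h
    have := pcn_le_one_list (H := Γ) hP0 hPc hPn X
      (fun v hv => by have := (hm v).1 hv; simpa using this)
      (fun v => by
        by_cases hv : v ∈ X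
        · exact Or.inr hv
        · exact Or.inl ((hm v).2 (by simpa using hv)))
    simpa using this
  | insert e E he ih =>
    rcases E.eq_empty_or_nonempty with rfl | hE
    · have h1 : pcn (Γ.deleteEdges {e}) ≤ #X + 1 := by
        induction e with
        | _ a b =>
        have hΓ : ∀ c d, Γ.Adj c d → s(c, d) ≠ s(a, b) → (Γ.deleteEdges {s(a, b)}).Adj c d := by
          intro c d hcd hne
          rw [SimpleGraph.deleteEdges_adj]
          exact ⟨hcd, by simpa using hne⟩
        by_cases haX : a ∈ univ \ X
        · obtain ⟨y, M, t, hyb, hc, hnd, hm⟩ := ham_dir h h3 haX b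
          have hc' : (a :: y :: (M ++ [t]) ++ [a]).IsChain Γ.Adj := by simpa using hc
          have hpath := chain_avoid (List.isChain_append.1 hc').1 hnd hyb hΓ
          exact pcn_le_one_list (by simp) hpath hnd X
            (fun v hv => by have := (hm v).1 hv; simpa using this)
            (fun v => by
              by_cases hv : v ∈ X
              · exact Or.inr hv
              · exact Or.inl ((hm v).2 (by simpa using hv)))
        · obtain ⟨P, a', b', ⟨hP0, hPc, hPn⟩, ha, hb, hab, hm⟩ := h
          refine pcn_le_one_list (H := Γ.deleteEdges {s(a, b)}) hP0 ?_ hPn X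
            (fun v hv => by have := (hm v).1 hv; simpa using this)
            (fun v => by
              by_cases hv : v ∈ X
              · exact Or.inr hv
              · exact Or.inl ((hm v).2 (by simpa using hv)))
          refine hPc.imp_of_mem_imp ?_
          intro c d hc hd hcd
          refine hΓ c d hcd ?_
          intro hs
          rw [Sym2.eq_iff] at hs
          rcases hs with ⟨rfl, -⟩ | ⟨-, rfl⟩
          · exact haX ((hm _).1 hc)
          · exact haX ((hm _).1 hd)
      simpa using h1
    · have h1 := pcn_delete_one (Γ.deleteEdges (E : Set (Sym2 V))) e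
      rw [SimpleGraph.deleteEdges_deleteEdges] at h1
      have h2 : ((E : Set (Sym2 V)) ∪ {e}) = ((insert e E : Finset (Sym2 V)) : Set (Sym2 V)) := by
        rw [coe_insert, Set.insert_eq, Set.union_comm]
      rw [h2] at h1
      rw [card_insert_of_notMem he]
      have h4 : 1 ≤ #E := hE.card_pos
      have h5 : max 1 #E = #E := max_eq_right h4
      rw [h5] at ih
      have h6 : #E + 1 ≤ max 1 (#E + 1) := le_max_right _ _
      omega

theorem s_ATT : S_ATT := by
  intro V _ _ H X v u h hv hvu
  by_cases hu : u ∈ X
  · obtain ⟨P, a, b, ⟨hP0, hPc, hPn⟩, ha, hb, hab, hm⟩ := h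
    have hPH : P.IsChain H.Adj := hPc.imp fun c d hcd => hcd.1
    have hmX : ∀ w ∈ P, w ∉ X := fun w hw => by have := (hm w).1 hw; simpa using this
    have hXc : #((X.erase v).erase u) + 2 = #X := by
      have h1 : #((X.erase v).erase u) + 1 = #(X.erase v) :=
        card_erase_add_one (mem_erase.2 ⟨hvu.ne', hu⟩)
      have h2 : #(X.erase v) + 1 = #X := card_erase_add_one hv
      omega
    rw [← hXc]
    refine pcn_le_two_lists (P := P) (Q := [v, u]) hP0 hPH hPn (by simp) (by simpa using hvu)
      (by simpa using hvu.ne) ?_ _ ?_ ?_ ?_
    · intro w hw hw'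
      simp only [List.mem_cons, List.not_mem_nil, or_false] at hw'
      rcases hw' with rfl | rfl
      · exact hmX _ hw hv
      · exact hmX _ hw hu
    · intro w hw hw'
      exact hmX w hw (mem_of_mem_erase (mem_of_mem_erase hw'))
    · intro w hw hw'
      simp only [List.mem_cons, List.not_mem_nil, or_false] at hw
      rcases hw with rfl | rfl
      · simp at hw'
      · simp at hw'
    · intro w
      by_cases hw : w ∈ X
      · right
        by_cases h1 : w = u
        · left; simp [h1]
        · by_cases h2 : w = v
          · left; simp [h2]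
          · right
            exact mem_erase.2 ⟨h1, mem_erase.2 ⟨h2, hw⟩⟩
      · left
        exact (hm w).2 (by simpa using hw)
  · have hu' : u ∈ univ \ X := by simpa using hu
    obtain ⟨L, hc, hnd, hm⟩ := ham_rot h hu'
    have hc' : (u :: L ++ [u]).IsChain (restr H (univ \ X)).Adj := by simpa using hc
    have hpath : (u :: L).IsChain H.Adj :=
      (List.isChain_append.1 hc').1.imp fun c d hcd => hcd.1
    have hmX : ∀ w ∈ u :: L, w ∉ X := fun w hw => by have := (hm w).1 hw; simpa using this
    have hXc : #(X.erase v) + 1 = #X := card_erase_add_one hv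
    rw [← hXc]
    refine pcn_le_one_list (P := v :: u :: L) (by simp) ?_ ?_ _ ?_ ?_
    · rw [List.isChain_cons_cons]
      exact ⟨hvu, hpath⟩
    · rw [List.nodup_cons]
      exact ⟨fun h' => hmX v h' hv, hnd⟩
    · intro w hw hw'
      rw [List.mem_cons] at hw
      rcases hw with rfl | hw
      · simp at hw'
      · exact hmX w hw (mem_of_mem_erase hw')
    · intro w
      by_cases hw : w ∈ X
      · by_cases h1 : w = v
        · left; simp [h1]
        · right; exact mem_erase.2 ⟨h1, hw⟩
      · left
        rw [List.mem_cons]
        right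
        exact (hm w).2 (by simpa using hw)

end Pool.Agent.H15P
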