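import Pool.Agent.H15P.Stm

/-! # Project H15P, piece PDN: large sets are joined by many edges (helper86) -/

open MeasureTheory ProbabilityTheory unitInterval Finset Filter Topology
open scoped SimpleGraph

namespace Pool.Agent.H15P

open Pool.Agent.V11328 Pool.Agent.V11328.E6

theorem s_PDN : S_PDN := by
  intro p hp
  have hsg : 0 < sg := by unfold sg tau; positivity
  -- the finite bound
  have hfin : ∀ n : ℕ, (G(Fin n, p n)).real
      {G : SimpleGraph (Fin n) | ∃ A B : Finset (Fin n), Disjoint A B ∧ sg * n ≤ #A ∧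
        sg * n ≤ #B ∧ (#(between G A B) : ℝ) < sg ^ 2 * n * ((n : ℝ) * p n) / 2} ≤
      (4 : ℝ) ^ n * Real.exp (-(sg ^ 2 * n * ((n : ℝ) * p n) / 16)) := by
    intro n
    classical
    have hp0 : 0 ≤ (p n : ℝ) := (p n).2.1
    set R := Real.exp (-(sg ^ 2 * n * ((n : ℝ) * p n) / 16)) with hR
    set P := ((univ : Finset (Finset (Fin n))) ×ˢ (univ : Finset (Finset (Fin n)))) with hP
    have hsub : {G : SimpleGraph (Fin n) | ∃ A B : Finset (Fin n), Disjoint A B ∧ sg * n ≤ #A ∧
        sg * n ≤ #B ∧ (#(between G A B) : ℝ) < sg ^ 2 * n * ((n : ℝ) * p n) / 2} ⊆ ⋃ q ∈ P,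
        {G : SimpleGraph (Fin n) | Disjoint q.1 q.2 ∧ sg * n ≤ #q.1 ∧ sg * n ≤ #q.2 ∧
          (#(prs q.1 q.2 ∩ ed G) : ℝ) < sg ^ 2 * n * ((n : ℝ) * p n) / 2} := by
      rintro G ⟨A, B, hd, hA, hB, h⟩
      simp only [Set.mem_iUnion]
      refine ⟨(A, B), mem_product.2 ⟨mem_univ _, mem_univ _⟩, hd, hA, hB, ?_⟩
      rw [prs_inter]
      exact h
    refine (measureReal_mono hsub (measure_ne_top _ _)).trans ?_
    refine (measureReal_biUnion_finset_le _ _).trans ?_
    have hle : ∀ q ∈ P, (G(Fin n, p n)).real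
        {G : SimpleGraph (Fin n) | Disjoint q.1 q.2 ∧ sg * n ≤ #q.1 ∧ sg * n ≤ #q.2 ∧
          (#(prs q.1 q.2 ∩ ed G) : ℝ) < sg ^ 2 * n * ((n : ℝ) * p n) / 2} ≤ R := by
      rintro ⟨A, B⟩ -
      by_cases hc : Disjoint A B ∧ sg * n ≤ #A ∧ sg * n ≤ #B
      · obtain ⟨hd, hA, hB⟩ := hc
        have hcard : (#(prs A B) : ℝ) = (#A : ℝ) * #B := by
          rw [prs_card hd]
          push_cast
          ring
        have hn0 : (0 : ℝ) ≤ sg * n := by positivity
        have h1 : sg ^ 2 * n * ((n : ℝ) * p n) ≤ (p n : ℝ) * #(prs A B) := by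
          rw [hcard]
          have h2 : (sg * n) * (sg * n) ≤ (#A : ℝ) * #B :=
            mul_le_mul hA hB hn0 (Nat.cast_nonneg _)
          have h3 := mul_le_mul_of_nonneg_left h2 hp0
          calc sg ^ 2 * n * ((n : ℝ) * p n) = (p n : ℝ) * ((sg * n) * (sg * n)) := by ring
            _ ≤ _ := h3
        have h4 := chernoff_lower (p n) (prs_subset hd) (η := 1 / 2) (by norm_num) (by norm_num)
          {G : SimpleGraph (Fin n) | Disjoint A B ∧ sg * n ≤ #A ∧ sg * n ≤ #B ∧
            (#(prs A B ∩ ed G) : ℝ) < sg ^ 2 * n * ((n : ℝ) * p n) / 2}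
          (fun G hG => by
            have := hG.2.2.2
            linarith)
        refine h4.trans ?_
        rw [hR]
        apply Real.exp_le_exp.2
        linarith
      · have : {G : SimpleGraph (Fin n) | Disjoint A B ∧ sg * n ≤ #A ∧ sg * n ≤ #B ∧
            (#(prs A B ∩ ed G) : ℝ) < sg ^ 2 * n * ((n : ℝ) * p n) / 2} = ∅ := by
          ext G
          simp only [Set.mem_ofPred_eq, Set.mem_empty_iff_false, iff_false]
          exact fun h => hc ⟨h.1, h.2.1, h.2.2.1⟩
        simp only [this, measureReal_empty]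
        exact (Real.exp_pos _).le
    refine (Finset.sum_le_sum hle).trans ?_
    rw [Finset.sum_const, nsmul_eq_mul, hP, card_product, card_univ, Fintype.card_finset,
      Fintype.card_fin]
    have h5 : ((2 ^ n * 2 ^ n : ℕ) : ℝ) = (4 : ℝ) ^ n := by
      push_cast
      rw [← mul_pow]
      norm_num
    rw [h5]
  -- the limit
  have hlim : Tendsto (fun n : ℕ => Real.exp (-(n : ℝ))) atTop (𝓝 0) :=
    Real.tendsto_exp_neg_atTop_nhds_zero.comp tendsto_natCast_atTop_atTop
  refine squeeze_zero' (Eventually.of_forall fun n => measureReal_nonneg) ?_ hlim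
  have hlog : Tendsto (fun n : ℕ => Real.log (n : ℝ)) atTop atTop :=
    Real.tendsto_log_atTop.comp tendsto_natCast_atTop_atTop
  filter_upwards [hp, hlog.eventually_ge_atTop (16 * (Real.log 4 + 1) / sg ^ 2)] with n h1 h2
  refine (hfin n).trans ?_
  have h3 : (4 : ℝ) ^ n = Real.exp (n * Real.log 4) := by
    rw [mul_comm, Real.exp_mul, Real.exp_log (by norm_num), Real.rpow_natCast]
  rw [h3, ← Real.exp_add]
  apply Real.exp_le_exp.2
  have h4 : 16 * (Real.log 4 + 1) ≤ sg ^ 2 * ((n : ℝ) * p n) := by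
    have h5 := h2.trans h1
    rw [div_le_iff₀ (by positivity)] at h5
    linarith
  have h6 := mul_le_mul_of_nonneg_left h4 (Nat.cast_nonneg n : (0 : ℝ) ≤ n)
  have h7 : sg ^ 2 * n * ((n : ℝ) * p n) / 16 = n * (sg ^ 2 * ((n : ℝ) * p n)) / 16 := by ring
  rw [h7]
  nlinarith

end Pool.Agent.H15P
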