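import Pool.Agent.H15P.Stm

/-! Piece PMI of project H15P: minimum degree two. -/

set_option autoImplicit false

open MeasureTheory ProbabilityTheory unitInterval Finset Filter Topology
open scoped SimpleGraph

namespace Pool.Agent.H15P

open Pool.Agent.V11328 Pool.Agent.V11328.E6

/-- Generating function bound for the probability of a degree at most one. -/
lemma PMI_low {n : ℕ} (hn : 2 ≤ n) (p : I) (hp : 1 ≤ (n : ℝ) * p) :
    (G(Fin n, p)).real {G : SimpleGraph (Fin n) | ∃ v, #(nb G v) < 2} ≤
      Real.exp 2 * Real.exp (Real.log n + Real.log (n * p) - n * p) := by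
  classical
  set x : ℝ := (n : ℝ) * p with hx
  have hnR : (2 : ℝ) ≤ n := by exact_mod_cast hn
  have hxpos : 0 < x := by linarith
  have hsub : {G : SimpleGraph (Fin n) | ∃ v, #(nb G v) < 2} ⊆ ⋃ v ∈ (univ : Finset (Fin n)),
      {G | #(nb G v) < 2} := by
    rintro G ⟨v, hv⟩
    simp only [Set.mem_iUnion]
    exact ⟨v, mem_univ v, hv⟩
  refine (measureReal_mono hsub (measure_ne_top _ _)).trans ?_
  refine (measureReal_biUnion_finset_le _ _).trans ?_
  have hone : ∀ v ∈ (univ : Finset (Fin n)), (G(Fin n, p)).real {G | #(nb G v) < 2} ≤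
      x * Real.exp (2 - x) := by
    intro v _
    rw [real_event]
    have h1 : ∀ G ∈ univ.filter (fun G : SimpleGraph (Fin n) => G ∈ {G | #(nb G v) < 2}),
        gw (p : ℝ) G ≤ gw (p : ℝ) G * (x * ∏ e ∈ ed G, (if e ∈ star v then 1 / x else 1)) := by
      intro G hG
      have hG' : #(nb G v) < 2 := by simpa using hG
      have h2 : ∏ e ∈ ed G, (if e ∈ star v then 1 / x else 1) = (1 / x) ^ #(nb G v) := by
        rw [Finset.prod_ite, Finset.prod_const, Finset.prod_const_one, mul_one,
          Finset.filter_mem_eq_inter, Finset.inter_comm, star_inter]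
      rw [h2]
      have h3 : 1 ≤ x * (1 / x) ^ #(nb G v) := by
        have h4 : (1 / x) ^ 1 ≤ (1 / x) ^ #(nb G v) := by
          apply pow_le_pow_of_le_one (by positivity) _ (by omega)
          rw [div_le_one hxpos]; exact hp
        have h5 : x * (1 / x) ^ 1 = 1 := by field_simp
        calc (1 : ℝ) = x * (1 / x) ^ 1 := h5.symm
          _ ≤ x * (1 / x) ^ #(nb G v) := mul_le_mul_of_nonneg_left h4 (by positivity)
      exact le_mul_of_one_le_right (gw_nonneg p.2.1 p.2.2 G) h3
    refine (Finset.sum_le_sum h1).trans ?_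
    refine (Finset.sum_le_sum_of_subset_of_nonneg (Finset.filter_subset _ _)
      fun G _ _ => ?_).trans ?_
    · refine mul_nonneg (gw_nonneg p.2.1 p.2.2 G) (mul_nonneg (by positivity) ?_)
      exact Finset.prod_nonneg fun e _ => by split_ifs <;> positivity
    · have h6 : ∑ G : SimpleGraph (Fin n), gw (p : ℝ) G *
          (x * ∏ e ∈ ed G, (if e ∈ star v then 1 / x else 1)) =
          x * ∏ e ∈ allE (Fin n), ((p : ℝ) * (if e ∈ star v then 1 / x else 1) + (1 - p)) := by
        rw [← sum_prod, Finset.mul_sum]
        exact Finset.sum_congr rfl fun G _ => by ring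
      rw [h6]
      refine mul_le_mul_of_nonneg_left ?_ (by positivity)
      have h7 : ∏ e ∈ allE (Fin n), ((p : ℝ) * (if e ∈ star v then 1 / x else 1) + (1 - p)) =
          ((p : ℝ) * (1 / x) + (1 - p)) ^ (n - 1) := by
        have h8 : ∀ e ∈ allE (Fin n), ((p : ℝ) * (if e ∈ star v then 1 / x else 1) + (1 - p)) =
            if e ∈ star v then ((p : ℝ) * (1 / x) + (1 - p)) else 1 := by
          intro e _
          split_ifs
          · rfl
          · ring
        rw [Finset.prod_congr rfl h8, Finset.prod_ite, Finset.prod_const, Finset.prod_const_one,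
          mul_one, Finset.filter_mem_eq_inter, Finset.inter_eq_right.2 (star_subset v), star_card,
          Fintype.card_fin]
      rw [h7]
      have hp0 : 0 ≤ (p : ℝ) := p.2.1
      have hp1 : (p : ℝ) ≤ 1 := p.2.2
      have h9 : (p : ℝ) * (1 / x) + (1 - p) ≤ Real.exp ((p : ℝ) * (1 / x) - p) := by
        have := Real.add_one_le_exp ((p : ℝ) * (1 / x) - p)
        linarith
      have h10 : 0 ≤ (p : ℝ) * (1 / x) + (1 - p) := by
        have : 0 ≤ (p : ℝ) * (1 / x) := by positivity
        linarith
      refine (pow_le_pow_left₀ h10 h9 _).trans ?_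
      rw [← Real.exp_nat_mul]
      refine Real.exp_le_exp.2 ?_
      have h11 : ((n - 1 : ℕ) : ℝ) = n - 1 := by
        rw [Nat.cast_sub (by omega)]; simp
      rw [h11]
      have h12 : (n : ℝ) * ((p : ℝ) * (1 / x)) = 1 := by
        rw [← mul_assoc, ← hx]
        exact mul_one_div_cancel hxpos.ne'
      have h13 : 0 ≤ (p : ℝ) * (1 / x) := by positivity
      nlinarith
  refine (Finset.sum_le_sum hone).trans (le_of_eq ?_)
  rw [Finset.sum_const, card_univ, Fintype.card_fin, nsmul_eq_mul]
  rw [Real.exp_sub, Real.exp_sub, Real.exp_add, Real.exp_log (by linarith), Real.exp_log hxpos]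
  ring

lemma PMI_tendsto {p : ℕ → I}
    (hp : Tendsto (fun n : ℕ => (n : ℝ) * p n - Real.log n - Real.log (Real.log n))
      atTop atTop) :
    Tendsto (fun n : ℕ => Real.exp 2 *
      Real.exp (Real.log n + Real.log (n * p n) - n * p n)) atTop (𝓝 0) := by
  have hmain : Tendsto (fun n : ℕ => Real.log n + Real.log (n * p n) - n * p n)
      atTop atBot := by
    have hlogn : Tendsto (fun n : ℕ => Real.log (n : ℝ)) atTop atTop :=
      Real.tendsto_log_atTop.comp tendsto_natCast_atTop_atTop
    rw [tendsto_atBot]
    intro M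
    filter_upwards [hp.eventually_ge_atTop (-M + 2 * Real.log 4),
      hlogn.eventually_ge_atTop 1, hlogn.eventually_ge_atTop ((4 - M) / 2)] with n h1 h2 h3
    set L := Real.log (n : ℝ) with hL
    set x : ℝ := (n : ℝ) * p n with hx
    have h40 : (0 : ℝ) < Real.log 4 := Real.log_pos (by norm_num)
    by_cases hx0 : x ≤ 0
    · have : 0 ≤ Real.log L := Real.log_nonneg h2
      have hx00 : x = 0 := le_antisymm hx0 (mul_nonneg (Nat.cast_nonneg n) (p n).2.1)
      rw [hx00] at h1 ⊢
      rw [Real.log_zero]
      linarith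
    · push Not at hx0
      by_cases hc : x ≤ 4 * L
      · have h4 : Real.log x ≤ Real.log 4 + Real.log L := by
          rw [← Real.log_mul (by norm_num) (by linarith)]
          exact Real.log_le_log hx0 hc
        linarith
      · push Not at hc
        have h5 : Real.log x ≤ x / 8 + 2 := by
          have h6 : Real.log (x / 8) ≤ x / 8 - 1 := Real.log_le_sub_one_of_pos (by positivity)
          rw [Real.log_div hx0.ne' (by norm_num)] at h6
          have h7 : Real.log 8 ≤ 3 := by
            rw [Real.log_le_iff_le_exp (by norm_num)]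
            have h8 := Real.exp_one_gt_d9
            have h9 : Real.exp 3 = Real.exp 1 * Real.exp 1 * Real.exp 1 := by
              rw [← Real.exp_add, ← Real.exp_add]; norm_num
            rw [h9]
            nlinarith
          linarith
        linarith
  have := (Real.tendsto_exp_atBot.comp hmain).const_mul (Real.exp 2)
  simpa using this

theorem s_PMI : S_PMI := by
  intro p hp
  have hlogn : Tendsto (fun n : ℕ => Real.log (n : ℝ)) atTop atTop :=
    Real.tendsto_log_atTop.comp tendsto_natCast_atTop_atTop
  refine squeeze_zero' (Eventually.of_forall fun n => measureReal_nonneg) ?_ (PMI_tendsto hp)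
  filter_upwards [hp.eventually_ge_atTop 0, hlogn.eventually_ge_atTop 1,
    eventually_ge_atTop 2] with n h1 h2 h3
  have h4 : 0 ≤ Real.log (Real.log n) := Real.log_nonneg h2
  exact PMI_low h3 (p n) (by linarith)

end Pool.Agent.H15P
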