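import Pool.Agent.H15P.Stm

/-! # Project H15P, piece PMX: maximum degree (helper86) -/

open MeasureTheory ProbabilityTheory unitInterval Finset Filter Topology
open scoped SimpleGraph

namespace Pool.Agent.H15P

open Pool.Agent.V11328 Pool.Agent.V11328.E6

theorem s_PMX (hTAI : S_TAI) : S_PMX := by
  intro p hp
  have he : Real.exp 1 - 1 ≤ 2 := by
    have := Real.exp_one_lt_d9
    linarith
  have hfin : ∀ n : ℕ, (G(Fin n, p n)).real
      {G : SimpleGraph (Fin n) | ∃ v, 6 * ((n : ℝ) * p n) < #(nb G v)} ≤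
      (n : ℝ) * Real.exp (-(4 * ((n : ℝ) * p n))) := by
    intro n
    classical
    have hp0 : 0 ≤ (p n : ℝ) := (p n).2.1
    set R := Real.exp (-(4 * ((n : ℝ) * p n))) with hR
    have hsub : {G : SimpleGraph (Fin n) | ∃ v, 6 * ((n : ℝ) * p n) < #(nb G v)} ⊆
        ⋃ v ∈ (univ : Finset (Fin n)),
          {G : SimpleGraph (Fin n) | 6 * ((n : ℝ) * p n) < #(star v ∩ ed G)} := by
      rintro G ⟨v, hv⟩
      simp only [Set.mem_iUnion]
      refine ⟨v, mem_univ v, ?_⟩
      rw [Set.mem_ofPred_eq, star_inter]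
      exact hv
    refine (measureReal_mono hsub (measure_ne_top _ _)).trans ?_
    refine (measureReal_biUnion_finset_le _ _).trans ?_
    have hle : ∀ v ∈ (univ : Finset (Fin n)), (G(Fin n, p n)).real
        {G : SimpleGraph (Fin n) | 6 * ((n : ℝ) * p n) < #(star v ∩ ed G)} ≤ R := by
      intro v _
      have h1 := hTAI (Fin n) (p n) ∅ (star v) 1 (6 * ((n : ℝ) * p n))
        {G : SimpleGraph (Fin n) | 6 * ((n : ℝ) * p n) < #(star v ∩ ed G)}
        (empty_subset _) (star_subset v) (disjoint_empty_left _)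
        (fun G hG => ⟨empty_subset _, by
          have : 6 * ((n : ℝ) * p n) < #(star v ∩ ed G) := hG
          linarith⟩)
      refine h1.trans ?_
      rw [card_empty, pow_zero, one_mul, hR]
      apply Real.exp_le_exp.2
      have h2 : (#(star v) : ℝ) ≤ n := by
        rw [star_card, Fintype.card_fin]
        exact_mod_cast Nat.sub_le _ _
      have h3 : (p n : ℝ) * #(star v) ≤ (n : ℝ) * p n := by
        rw [mul_comm]
        exact mul_le_mul_of_nonneg_right h2 hp0
      have h4 : 0 ≤ (p n : ℝ) * #(star v) := by positivity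
      have h5 : (p n : ℝ) * #(star v) * (Real.exp 1 - 1) ≤ (p n : ℝ) * #(star v) * 2 :=
        mul_le_mul_of_nonneg_left he h4
      linarith
    refine (Finset.sum_le_sum hle).trans ?_
    rw [Finset.sum_const, nsmul_eq_mul, card_univ, Fintype.card_fin]
  have hlim : Tendsto (fun n : ℕ => ((n : ℝ))⁻¹) atTop (𝓝 0) :=
    tendsto_inv_atTop_nhds_zero_nat
  refine squeeze_zero' (Eventually.of_forall fun n => measureReal_nonneg) ?_ hlim
  filter_upwards [hp, eventually_ge_atTop 1] with n h1 h2
  refine (hfin n).trans ?_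
  have hn : (1 : ℝ) ≤ n := by exact_mod_cast h2
  have hlog : 0 ≤ Real.log n := Real.log_nonneg hn
  have h3 : (n : ℝ) = Real.exp (Real.log n) := (Real.exp_log (by linarith)).symm
  calc (n : ℝ) * Real.exp (-(4 * ((n : ℝ) * p n)))
      = Real.exp (Real.log n + -(4 * ((n : ℝ) * p n))) := by
        rw [Real.exp_add, ← h3]
    _ ≤ Real.exp (-Real.log n) := by
        apply Real.exp_le_exp.2
        linarith
    _ = ((n : ℝ))⁻¹ := by
        rw [Real.exp_neg, ← h3]

end Pool.Agent.H15P
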