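import Pool.Agent.H15P.Stm

open MeasureTheory ProbabilityTheory unitInterval Finset Filter Topology
open scoped SimpleGraph

namespace Pool.Agent.H15P

open Pool.Agent.V11328 Pool.Agent.V11328.E6

private lemma un10 {Ω : Type*} [MeasurableSpace Ω] (μ : Measure Ω)
    (A1 A2 A3 A4 A5 A6 A7 A8 A9 A10 : Set Ω) :
    μ.real (A1 ∪ A2 ∪ A3 ∪ A4 ∪ A5 ∪ A6 ∪ A7 ∪ A8 ∪ A9 ∪ A10) ≤
      μ.real A1 + μ.real A2 + μ.real A3 + μ.real A4 + μ.real A5 + μ.real A6 + μ.real A7 +
        μ.real A8 + μ.real A9 + μ.real A10 := by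
  refine (measureReal_union_le _ _).trans (add_le_add ?_ le_rfl)
  refine (measureReal_union_le _ _).trans (add_le_add ?_ le_rfl)
  refine (measureReal_union_le _ _).trans (add_le_add ?_ le_rfl)
  refine (measureReal_union_le _ _).trans (add_le_add ?_ le_rfl)
  refine (measureReal_union_le _ _).trans (add_le_add ?_ le_rfl)
  refine (measureReal_union_le _ _).trans (add_le_add ?_ le_rfl)
  refine (measureReal_union_le _ _).trans (add_le_add ?_ le_rfl)
  refine (measureReal_union_le _ _).trans (add_le_add ?_ le_rfl)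
  exact measureReal_union_le _ _

/-- Piece PNI. -/
theorem s_PNI (h1 : S_PMX) (h2 : S_PSA) (h3 : S_PSC) (h4 : S_SED) (h5 : S_PSP) (h6 : S_PDN)
    (h7 : S_PBO) : S_PNI := by
  intro K p hp
  have hsum := (((((((((h1 p hp).add (h2 p hp 1 le_rfl (by norm_num))).add
    (h2 p hp 2 (by norm_num) (by norm_num))).add
    (h2 p hp 3 (by norm_num) (by norm_num))).add
    (h2 p hp 4 (by norm_num) le_rfl)).add
    (h3 p hp).1).add (h3 p hp).2).add (h5 p hp)).add (h6 p hp)).add (h7 K p hp)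
  simp only [add_zero] at hsum
  refine tendsto_of_tendsto_of_tendsto_of_le_of_le tendsto_const_nhds hsum
    (fun n => measureReal_nonneg) (fun n => ?_)
  refine le_trans (measureReal_mono ?_) (un10 _ _ _ _ _ _ _ _ _ _ _)
  intro G hG
  by_contra hc
  simp only [Set.mem_union, not_or, Set.mem_ofPred_eq] at hc
  obtain ⟨⟨⟨⟨⟨⟨⟨⟨⟨c1, c2⟩, c3⟩, c4⟩, c5⟩, c6⟩, c7⟩, c8⟩, c9⟩, c10⟩ := hc
  apply hG
  have hcard : (Fintype.card (Fin n) : ℝ) = n := by rw [Fintype.card_fin]
  have hsed := h4 (Fin n) G ((n : ℝ) * p n) (by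
    intro l hl1 hl4
    interval_cases l
    · exact c2
    · exact c3
    · exact c4
    · exact c5) c6 c7
  refine ⟨?_, hsed.1, hsed.2.1, hsed.2.2, ?_, ?_, ?_⟩
  · intro v
    by_contra h
    exact c1 ⟨v, not_le.1 h⟩
  · intro T hT
    by_contra h
    rw [hcard] at hT
    exact c8 ⟨T, hT, not_le.1 h⟩
  · intro A B hAB hA hB
    by_contra h
    rw [hcard] at hA hB h
    exact c9 ⟨A, B, hAB, hA, hB, not_le.1 h⟩
  · intro Γ U hU hΓ hfew hb
    by_contra h
    rw [hcard] at hfew hb h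
    exact c10 ⟨Γ, U, hU, hΓ, hfew, hb, not_lt.1 h⟩

end Pool.Agent.H15P
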