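import Pool.Agent.H15P.Stm

/-!
# Project H15P, piece PSA: no short path between small vertices
-/

set_option autoImplicit false
set_option linter.unusedSectionVars false

open MeasureTheory ProbabilityTheory unitInterval Finset Filter Topology
open scoped SimpleGraph

namespace Pool.Agent.H15P

open Pool.Agent.V11328 Pool.Agent.V11328.E6

namespace PSAP

/-- The union bound over a finite type. -/
theorem union_le {V : Type} [Fintype V] [DecidableEq V] {ι : Type} [Fintype ι] (p : I)
    (A : ι → Set (SimpleGraph V)) {C : ℝ} (h : ∀ i, (G(V, p)).real (A i) ≤ C)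
    {B : Set (SimpleGraph V)} (hB : ∀ G ∈ B, ∃ i, G ∈ A i) :
    (G(V, p)).real B ≤ Fintype.card ι * C := by
  have hsub : B ⊆ ⋃ i ∈ (univ : Finset ι), A i := by
    intro G hG
    obtain ⟨i, hi⟩ := hB G hG
    simp only [Set.mem_iUnion]
    exact ⟨i, mem_univ i, hi⟩
  refine (measureReal_mono hsub (measure_ne_top _ _)).trans ?_
  refine (measureReal_biUnion_finset_le _ _).trans ?_
  refine (Finset.sum_le_sum fun i _ => h i).trans (le_of_eq ?_)
  rw [Finset.sum_const, card_univ, nsmul_eq_mul]

/-- The mean degree tends to infinity. -/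
theorem d_tendsto {p : ℕ → I} (hp : ∀ᶠ n : ℕ in atTop, Real.log n ≤ n * (p n : ℝ)) :
    Tendsto (fun n : ℕ => (n : ℝ) * (p n : ℝ)) atTop atTop :=
  tendsto_atTop_mono' atTop hp (Real.tendsto_log_atTop.comp tendsto_natCast_atTop_atTop)

theorem pow_exp_tendsto (l : ℕ) {c C : ℝ} (hc : 0 < c) {d : ℕ → ℝ} (hd : Tendsto d atTop atTop) :
    Tendsto (fun n => C * (d n ^ l * Real.exp (-(c * d n)))) atTop (𝓝 0) := by
  have h1 : Tendsto (fun x : ℝ => x ^ l * Real.exp (-(c * x))) atTop (𝓝 0) := by
    have h2 := (Real.tendsto_pow_mul_exp_neg_atTop_nhds_zero l).comp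
      (tendsto_id.const_mul_atTop hc)
    have h3 := h2.const_mul ((1 / c) ^ l)
    rw [mul_zero] at h3
    refine h3.congr fun x => ?_
    simp only [Function.comp, id]
    rw [← mul_assoc, ← mul_pow]
    congr 2
    field_simp
  have := (h1.comp hd).const_mul C
  rw [mul_zero] at this
  exact this

variable {V : Type} [Fintype V] [DecidableEq V]

theorem star_inter_star {a b : V} (hab : a ≠ b) : star a ∩ star b ⊆ {s(a, b)} := by
  intro e he
  rw [Finset.mem_inter] at he
  simp only [E6.star, mem_image, mem_erase, mem_univ, and_true] at he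
  obtain ⟨⟨u, hu, rfl⟩, v, hv, h⟩ := he
  rw [Finset.mem_singleton]
  rw [Sym2.eq_iff] at h
  rcases h with ⟨h1, h2⟩ | ⟨h1, h2⟩
  · exact absurd h1.symm hab
  · rw [h1]

theorem card_union_star {a b : V} (hab : a ≠ b) :
    2 * (Fintype.card V - 1) ≤ #(star a ∪ star b) + 1 := by
  have h1 := Finset.card_union_add_card_inter (star a) (star b)
  rw [star_card, star_card] at h1
  have h2 := Finset.card_le_card (star_inter_star hab)
  rw [Finset.card_singleton] at h2
  omega

/-- The pairs of a path. -/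
def pths {l : ℕ} (f : Fin (l + 1) → V) : Finset (Sym2 V) :=
  univ.image fun i : Fin l => s(f i.castSucc, f i.succ)

theorem pths_card {l : ℕ} {f : Fin (l + 1) → V} (hf : Function.Injective f) : #(pths f) = l := by
  rw [pths, card_image_of_injective, card_univ, Fintype.card_fin]
  intro i j h
  have h' : s(f i.castSucc, f i.succ) = s(f j.castSucc, f j.succ) := h
  rw [Sym2.eq_iff] at h'
  rcases h' with ⟨h1, _⟩ | ⟨h1, h2⟩
  · exact Fin.castSucc_injective _ (hf h1)
  · have e1 := congrArg Fin.val (hf h1)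
    have e2 := congrArg Fin.val (hf h2)
    simp only [Fin.val_castSucc, Fin.val_succ] at e1 e2
    omega

theorem pths_subset {l : ℕ} {f : Fin (l + 1) → V} (hf : Function.Injective f) :
    pths f ⊆ allE V := by
  intro e he
  rw [pths, Finset.mem_image] at he
  obtain ⟨i, _, rfl⟩ := he
  rw [mem_allE, Sym2.mk_isDiag_iff]
  intro h
  have e1 := congrArg Fin.val (hf h)
  simp only [Fin.val_castSucc, Fin.val_succ] at e1
  omega

theorem exp_ten : Real.exp (-10) ≤ 1 / 1000 := by
  have h1 := Real.exp_one_gt_d9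
  have h2 : (1000 : ℝ) ≤ Real.exp 10 := by
    have h3 : Real.exp 10 = Real.exp 1 ^ 10 := by
      rw [← Real.exp_nat_mul]
      norm_num
    rw [h3]
    calc (1000 : ℝ) ≤ 2 ^ 10 := by norm_num
      _ ≤ Real.exp 1 ^ 10 := pow_le_pow_left₀ (by norm_num) (by linarith) 10
  rw [Real.exp_neg, one_div]
  exact inv_anti₀ (by norm_num) h2

/-- One path. -/
theorem one_path (hT : S_TAI) (p : I) {l : ℕ} (hl1 : 1 ≤ l) (hl : l ≤ 4) {f : Fin (l + 1) → V}
    (hf : Function.Injective f) {n : ℕ} (hn : Fintype.card V = n) (hn4 : 4 ≤ n) :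
    (G(V, p)).real {G : SimpleGraph V | (∀ i : Fin l, G.Adj (f i.castSucc) (f i.succ)) ∧
      f 0 ∈ sm G ((n : ℝ) * p) ∧ f (Fin.last l) ∈ sm G ((n : ℝ) * p)} ≤
      (p : ℝ) ^ l * Real.exp (7 - 19 / 10 * ((n : ℝ) * p)) := by
  have hp0 : 0 ≤ (p : ℝ) := p.2.1
  have hp1 : (p : ℝ) ≤ 1 := p.2.2
  have hne : f 0 ≠ f (Fin.last l) := by
    intro h
    have e1 := congrArg Fin.val (hf h)
    simp only [Fin.val_zero, Fin.val_last] at e1
    omega
  set B : Finset (Sym2 V) := (star (f 0) ∪ star (f (Fin.last l))) \ pths f with hB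
  have hBs : B ⊆ allE V := by
    intro e he
    rw [hB, Finset.mem_sdiff, Finset.mem_union] at he
    rcases he.1 with h | h
    · exact star_subset _ h
    · exact star_subset _ h
  have hBc : 2 * n - 7 ≤ #B := by
    have h1 := card_union_star hne
    rw [hn] at h1
    have h2 := Finset.le_card_sdiff (pths f) (star (f 0) ∪ star (f (Fin.last l)))
    rw [pths_card hf, ← hB] at h2
    omega
  have hBc' : 2 * (n : ℝ) - 7 ≤ #B := by
    have h1 : (2 * n : ℕ) ≤ #B + 7 := by omega
    have h2 : ((2 * n : ℕ) : ℝ) ≤ ((#B + 7 : ℕ) : ℝ) := by exact_mod_cast h1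
    push_cast at h2
    linarith
  refine (hT V p (pths f) B (-10) (-(20 * ((n : ℝ) * p) / 50000)) _ (pths_subset hf) hBs
    Finset.disjoint_sdiff (fun G hG => ?_)).trans ?_
  · obtain ⟨h1, h2, h3⟩ := hG
    constructor
    · intro e he
      rw [pths, Finset.mem_image] at he
      obtain ⟨i, _, rfl⟩ := he
      rw [mem_ed, SimpleGraph.mem_edgeSet]
      exact h1 i
    · simp only [sm, mem_filter, mem_univ, true_and] at h2 h3
      have h4 : #(B ∩ ed G) ≤ #(nb G (f 0)) + #(nb G (f (Fin.last l))) := by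
        rw [← star_inter, ← star_inter]
        refine (Finset.card_le_card ?_).trans (Finset.card_union_le _ _)
        intro e he
        rw [Finset.mem_inter, hB, Finset.mem_sdiff, Finset.mem_union] at he
        rw [Finset.mem_union, Finset.mem_inter, Finset.mem_inter]
        rcases he.1.1 with h | h
        · exact Or.inl ⟨h, he.2⟩
        · exact Or.inr ⟨h, he.2⟩
      have h5 : (#(B ∩ ed G) : ℝ) ≤ #(nb G (f 0)) + #(nb G (f (Fin.last l))) := by
        exact_mod_cast h4
      linarith
  · rw [pths_card hf]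
    refine mul_le_mul_of_nonneg_left (Real.exp_le_exp.2 ?_) (by positivity)
    have h1 := exp_ten
    have h2 := Real.exp_pos (-10)
    have h3 : (p : ℝ) * (2 * (n : ℝ) - 7) ≤ (p : ℝ) * #B := mul_le_mul_of_nonneg_left hBc' hp0
    have h4 : 0 ≤ (p : ℝ) * #B := by positivity
    have h5 : (p : ℝ) * #B * (Real.exp (-10) - 1) ≤ (p : ℝ) * #B * (-(999 / 1000)) :=
      mul_le_mul_of_nonneg_left (by linarith) h4
    have h6 : 0 ≤ (n : ℝ) * p := by positivity
    nlinarith

end PSAP

open PSAP in
/-- **Piece PSA.** -/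
theorem s_PSA (hT : S_TAI) : S_PSA := by
  intro p hp l hl1 hl
  have hd := d_tendsto hp
  have hlim := pow_exp_tendsto l (c := 9 / 10) (C := Real.exp 7) (by norm_num) hd
  refine tendsto_of_tendsto_of_tendsto_of_le_of_le' tendsto_const_nhds hlim
    (Eventually.of_forall fun n => measureReal_nonneg) ?_
  filter_upwards [hp, eventually_ge_atTop 4] with n h1 h2
  have hp0 : 0 ≤ (p n : ℝ) := (p n).2.1
  have hn0 : (0 : ℝ) < n := by
    have : 0 < n := by omega
    exact_mod_cast this
  set d : ℝ := (n : ℝ) * (p n : ℝ) with hdd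
  have hd0 : 0 ≤ d := by positivity
  set C : ℝ := (p n : ℝ) ^ l * Real.exp (7 - 19 / 10 * d) with hC
  have hC0 : 0 ≤ C := by positivity
  have key := union_le (V := Fin n) (ι := Fin (l + 1) → Fin n) (p n)
    (fun f => {G : SimpleGraph (Fin n) | Function.Injective f ∧
      (∀ i : Fin l, G.Adj (f i.castSucc) (f i.succ)) ∧
      f 0 ∈ sm G d ∧ f (Fin.last l) ∈ sm G d}) (C := C) (fun f => ?_)
    (B := {G : SimpleGraph (Fin n) | ∃ f : Fin (l + 1) → Fin n, Function.Injective f ∧
      (∀ i : Fin l, G.Adj (f i.castSucc) (f i.succ)) ∧ f 0 ∈ sm G d ∧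
      f (Fin.last l) ∈ sm G d}) (fun G hG => hG)
  · refine key.trans ?_
    rw [Fintype.card_fun, Fintype.card_fin, Fintype.card_fin]
    push_cast
    rw [hC]
    have h3 : (n : ℝ) ≤ Real.exp d := by
      rw [← Real.log_le_iff_le_exp hn0]
      exact h1
    have h4 : (n : ℝ) ^ (l + 1) * ((p n : ℝ) ^ l * Real.exp (7 - 19 / 10 * d)) =
        n * (d ^ l * Real.exp (7 - 19 / 10 * d)) := by
      rw [hdd, mul_pow]
      ring
    rw [h4]
    calc (n : ℝ) * (d ^ l * Real.exp (7 - 19 / 10 * d))
        ≤ Real.exp d * (d ^ l * Real.exp (7 - 19 / 10 * d)) :=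
          mul_le_mul_of_nonneg_right h3 (by positivity)
      _ = Real.exp 7 * (d ^ l * Real.exp (-(9 / 10 * d))) := by
          have h5 : Real.exp d * Real.exp (7 - 19 / 10 * d) =
              Real.exp 7 * Real.exp (-(9 / 10 * d)) := by
            rw [← Real.exp_add, ← Real.exp_add]
            congr 1
            ring
          linear_combination d ^ l * h5
  · by_cases hf : Function.Injective f
    · refine le_trans (measureReal_mono (fun G hG => hG.2) (measure_ne_top _ _))
        (one_path hT (p n) hl1 hl hf (Fintype.card_fin n) h2)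
    · have : {G : SimpleGraph (Fin n) | Function.Injective f ∧
          (∀ i : Fin l, G.Adj (f i.castSucc) (f i.succ)) ∧
          f 0 ∈ sm G d ∧ f (Fin.last l) ∈ sm G d} = ∅ := by
        ext G
        simp [hf]
      rw [this, measureReal_empty]
      exact hC0

end Pool.Agent.H15P
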