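import Pool.Agent.H15P.Stm

/-! # Project H15P, piece PSC: no triangle and no 4-cycle through a small vertex (helper86) -/

open MeasureTheory ProbabilityTheory unitInterval Finset Filter Topology
open scoped SimpleGraph

namespace Pool.Agent.H15P

open Pool.Agent.V11328 Pool.Agent.V11328.E6

private lemma psc_exp : Real.exp (-10) ≤ 1 / 1000 := by
  have h1 : (2 : ℝ) ≤ Real.exp 1 := by
    have := Real.add_one_le_exp (1 : ℝ)
    linarith
  have h2 : (2 : ℝ) ^ 10 ≤ Real.exp 1 ^ 10 := pow_le_pow_left₀ (by norm_num) h1 10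
  have h3 : Real.exp 1 ^ 10 = Real.exp 10 := by
    rw [← Real.exp_nat_mul]
    norm_num
  rw [h3] at h2
  rw [Real.exp_neg, ← one_div]
  apply one_div_le_one_div_of_le (by norm_num)
  linarith

private lemma psc_core (hTAI : S_TAI) (n : ℕ) (p : I) (u : Fin n) (E : Finset (Sym2 (Fin n)))
    (hE : E ⊆ allE (Fin n)) (hl : #E ≤ 4) :
    (G(Fin n, p)).real {G : SimpleGraph (Fin n) | E ⊆ ed G ∧ u ∈ sm G ((n : ℝ) * p)} ≤
      (p : ℝ) ^ #E * Real.exp (5 - 9 / 10 * ((n : ℝ) * p)) := by
  classical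
  have hp0 : 0 ≤ (p : ℝ) := p.2.1
  have hp1 : (p : ℝ) ≤ 1 := p.2.2
  have hn : 1 ≤ n := by
    have := u.isLt
    omega
  have h1 := hTAI (Fin n) p E (star u \ E) (-10) (-(10 * ((n : ℝ) * p / 50000)))
    {G : SimpleGraph (Fin n) | E ⊆ ed G ∧ u ∈ sm G ((n : ℝ) * p)} hE
    (sdiff_subset.trans (star_subset u)) disjoint_sdiff (fun G hG => ⟨hG.1, by
      have h2 : (#(nb G u) : ℝ) ≤ (n : ℝ) * p / 50000 := by
        have := hG.2
        rw [sm, mem_filter] at this
        exact this.2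
      have h3 : #((star u \ E) ∩ ed G) ≤ #(nb G u) := by
        rw [← star_inter]
        exact card_le_card (inter_subset_inter_right sdiff_subset)
      have h4 : (#((star u \ E) ∩ ed G) : ℝ) ≤ #(nb G u) := by exact_mod_cast h3
      linarith⟩)
  refine h1.trans ?_
  refine mul_le_mul_of_nonneg_left ?_ (pow_nonneg hp0 _)
  apply Real.exp_le_exp.2
  have h5 : (n : ℝ) - 5 ≤ #(star u \ E) := by
    have h6 : #(star u) ≤ #(star u \ E) + #E := by
      have := card_sdiff_add_card_inter (star u) E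
      have h7 : #(star u ∩ E) ≤ #E := card_le_card inter_subset_right
      omega
    rw [star_card, Fintype.card_fin] at h6
    have h8 : n ≤ #(star u \ E) + 5 := by omega
    have h9 : (n : ℝ) ≤ #(star u \ E) + 5 := by exact_mod_cast h8
    linarith
  have h10 : (n : ℝ) * p - 5 ≤ (p : ℝ) * #(star u \ E) := by
    have := mul_le_mul_of_nonneg_left h5 hp0
    nlinarith
  have h11 : 0 ≤ (p : ℝ) * #(star u \ E) := by positivity
  have h12 : (p : ℝ) * #(star u \ E) * (Real.exp (-10) - 1) ≤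
      (p : ℝ) * #(star u \ E) * (1 / 1000 - 1) :=
    mul_le_mul_of_nonneg_left (by linarith [psc_exp]) h11
  have h13 : 0 ≤ (n : ℝ) * p := by positivity
  linarith

private lemma psc_lim (l : ℕ) (p : ℕ → I) (hp : ∀ᶠ n : ℕ in atTop, Real.log n ≤ n * (p n : ℝ)) :
    Tendsto (fun n : ℕ => (n : ℝ) ^ l * ((p n : ℝ) ^ l * Real.exp (5 - 9 / 10 * ((n : ℝ) * p n))))
      atTop (𝓝 0) := by
  have hlog : Tendsto (fun n : ℕ => Real.log (n : ℝ)) atTop atTop :=
    Real.tendsto_log_atTop.comp tendsto_natCast_atTop_atTop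
  have hd : Tendsto (fun n : ℕ => (n : ℝ) * p n) atTop atTop := tendsto_atTop_mono' _ hp hlog
  have hd2 : Tendsto (fun n : ℕ => 9 / 10 * ((n : ℝ) * p n)) atTop atTop :=
    hd.const_mul_atTop (by norm_num)
  have h1 := (Real.tendsto_pow_mul_exp_neg_atTop_nhds_zero l).comp hd2
  have h2 := h1.const_mul (Real.exp 5 * (10 / 9) ^ l)
  rw [mul_zero] at h2
  refine h2.congr fun n => ?_
  simp only [Function.comp]
  have h3 : Real.exp (5 - 9 / 10 * ((n : ℝ) * p n)) =
      Real.exp 5 * Real.exp (-(9 / 10 * ((n : ℝ) * p n))) := by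
    rw [← Real.exp_add]
    congr 1
  rw [h3, mul_pow, mul_pow]
  have h4 : (10 / 9 : ℝ) ^ l * (9 / 10) ^ l = 1 := by
    rw [← mul_pow]
    norm_num
  calc Real.exp 5 * (10 / 9) ^ l * ((9 / 10) ^ l * ((n : ℝ) ^ l * (p n : ℝ) ^ l) *
        Real.exp (-(9 / 10 * ((n : ℝ) * p n))))
      = ((10 / 9 : ℝ) ^ l * (9 / 10) ^ l) * ((n : ℝ) ^ l * ((p n : ℝ) ^ l * (Real.exp 5 *
        Real.exp (-(9 / 10 * ((n : ℝ) * p n)))))) := by ring
    _ = _ := by rw [h4, one_mul]

theorem s_PSC (hTAI : S_TAI) : S_PSC := by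
  intro p hp
  constructor
  · refine squeeze_zero (fun n => measureReal_nonneg) ?_ (psc_lim 3 p hp)
    intro n
    classical
    set R := (p n : ℝ) ^ 3 * Real.exp (5 - 9 / 10 * ((n : ℝ) * p n)) with hR
    have hp0 : 0 ≤ (p n : ℝ) := (p n).2.1
    have hsub : {G : SimpleGraph (Fin n) | ∃ u v w, u ∈ sm G ((n : ℝ) * p n) ∧ G.Adj u v ∧
        G.Adj v w ∧ G.Adj w u} ⊆ ⋃ q ∈ (univ : Finset (Fin n × Fin n × Fin n)),
        {G : SimpleGraph (Fin n) | q.1 ∈ sm G ((n : ℝ) * p n) ∧ G.Adj q.1 q.2.1 ∧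
          G.Adj q.2.1 q.2.2 ∧ G.Adj q.2.2 q.1} := by
      rintro G ⟨u, v, w, h⟩
      simp only [Set.mem_iUnion]
      exact ⟨(u, v, w), mem_univ _, h⟩
    refine (measureReal_mono hsub (measure_ne_top _ _)).trans ?_
    refine (measureReal_biUnion_finset_le _ _).trans ?_
    have hle : ∀ q ∈ (univ : Finset (Fin n × Fin n × Fin n)), (G(Fin n, p n)).real
        {G : SimpleGraph (Fin n) | q.1 ∈ sm G ((n : ℝ) * p n) ∧ G.Adj q.1 q.2.1 ∧
          G.Adj q.2.1 q.2.2 ∧ G.Adj q.2.2 q.1} ≤ R := by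
      rintro ⟨u, v, w⟩ -
      by_cases hd : u ≠ v ∧ v ≠ w ∧ w ≠ u
      · obtain ⟨h1, h2, h3⟩ := hd
        set E : Finset (Sym2 (Fin n)) := {s(u, v), s(v, w), s(w, u)} with hE
        have hcard : #E = 3 := by
          rw [hE, card_eq_three]
          refine ⟨_, _, _, ?_, ?_, ?_, rfl⟩
          · rw [Ne, Sym2.eq_iff]
            rintro (⟨h, -⟩ | ⟨h, -⟩)
            · exact h1 h
            · exact h3 h.symm
          · rw [Ne, Sym2.eq_iff]
            rintro (⟨h, -⟩ | ⟨-, h⟩)
            · exact h3 h.symm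
            · exact h2 h
          · rw [Ne, Sym2.eq_iff]
            rintro (⟨h, -⟩ | ⟨h, -⟩)
            · exact h2 h
            · exact h1 h.symm
        have hEs : E ⊆ allE (Fin n) := by
          intro e he
          rw [hE, mem_insert, mem_insert, mem_singleton] at he
          rw [mem_allE]
          rcases he with rfl | rfl | rfl
          · rw [Sym2.mk_isDiag_iff]; exact h1
          · rw [Sym2.mk_isDiag_iff]; exact h2
          · rw [Sym2.mk_isDiag_iff]; exact h3
        have h4 := psc_core hTAI n (p n) u E hEs (by omega)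
        rw [hcard] at h4
        refine (measureReal_mono ?_ (measure_ne_top _ _)).trans h4
        rintro G ⟨g1, g2, g3, g4⟩
        refine ⟨?_, g1⟩
        intro e he
        rw [hE, mem_insert, mem_insert, mem_singleton] at he
        rw [mem_ed]
        rcases he with rfl | rfl | rfl
        · exact g2
        · exact g3
        · exact g4
      · have : {G : SimpleGraph (Fin n) | u ∈ sm G ((n : ℝ) * p n) ∧ G.Adj u v ∧
            G.Adj v w ∧ G.Adj w u} = ∅ := by
          ext G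
          simp only [Set.mem_ofPred_eq, Set.mem_empty_iff_false, iff_false]
          rintro ⟨-, g2, g3, g4⟩
          exact hd ⟨g2.ne, g3.ne, g4.ne⟩
        simp only [this, measureReal_empty]
        positivity
    refine (Finset.sum_le_sum hle).trans ?_
    rw [Finset.sum_const, nsmul_eq_mul, card_univ, Fintype.card_prod, Fintype.card_prod,
      Fintype.card_fin]
    apply le_of_eq
    push_cast
    ring
  · refine squeeze_zero (fun n => measureReal_nonneg) ?_ (psc_lim 4 p hp)
    intro n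
    classical
    set R := (p n : ℝ) ^ 4 * Real.exp (5 - 9 / 10 * ((n : ℝ) * p n)) with hR
    have hp0 : 0 ≤ (p n : ℝ) := (p n).2.1
    have hsub : {G : SimpleGraph (Fin n) | ∃ u v w x, u ∈ sm G ((n : ℝ) * p n) ∧ u ≠ w ∧ v ≠ x ∧
        G.Adj u v ∧ G.Adj v w ∧ G.Adj w x ∧ G.Adj x u} ⊆
        ⋃ q ∈ (univ : Finset (Fin n × Fin n × Fin n × Fin n)),
        {G : SimpleGraph (Fin n) | q.1 ∈ sm G ((n : ℝ) * p n) ∧ q.1 ≠ q.2.2.1 ∧
          q.2.1 ≠ q.2.2.2 ∧ G.Adj q.1 q.2.1 ∧ G.Adj q.2.1 q.2.2.1 ∧ G.Adj q.2.2.1 q.2.2.2 ∧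
          G.Adj q.2.2.2 q.1} := by
      rintro G ⟨u, v, w, x, h⟩
      simp only [Set.mem_iUnion]
      exact ⟨(u, v, w, x), mem_univ _, h⟩
    refine (measureReal_mono hsub (measure_ne_top _ _)).trans ?_
    refine (measureReal_biUnion_finset_le _ _).trans ?_
    have hle : ∀ q ∈ (univ : Finset (Fin n × Fin n × Fin n × Fin n)), (G(Fin n, p n)).real
        {G : SimpleGraph (Fin n) | q.1 ∈ sm G ((n : ℝ) * p n) ∧ q.1 ≠ q.2.2.1 ∧
          q.2.1 ≠ q.2.2.2 ∧ G.Adj q.1 q.2.1 ∧ G.Adj q.2.1 q.2.2.1 ∧ G.Adj q.2.2.1 q.2.2.2 ∧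
          G.Adj q.2.2.2 q.1} ≤ R := by
      rintro ⟨u, v, w, x⟩ -
      by_cases hd : (u ≠ w ∧ v ≠ x) ∧ u ≠ v ∧ v ≠ w ∧ w ≠ x ∧ x ≠ u
      · obtain ⟨⟨h1, h2⟩, h3, h4, h5, h6⟩ := hd
        set E : Finset (Sym2 (Fin n)) := {s(u, v), s(v, w), s(w, x), s(x, u)} with hE
        have hcard : #E = 4 := by
          rw [hE, card_insert_of_notMem, card_insert_of_notMem, card_insert_of_notMem,
            card_singleton]
          · rw [mem_singleton, Sym2.eq_iff]
            rintro (⟨h, -⟩ | ⟨h, -⟩)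
            · exact h5 h
            · exact h1 h.symm
          · rw [mem_insert, mem_singleton, Sym2.eq_iff, Sym2.eq_iff]
            rintro ((⟨h, -⟩ | ⟨h, -⟩) | (⟨h, -⟩ | ⟨h, -⟩))
            · exact h4 h
            · exact h2 h
            · exact h2 h
            · exact h3 h.symm
          · rw [mem_insert, mem_insert, mem_singleton, Sym2.eq_iff, Sym2.eq_iff, Sym2.eq_iff]
            rintro ((⟨h, -⟩ | ⟨h, -⟩) | (⟨h, -⟩ | ⟨h, -⟩) | (⟨h, -⟩ | ⟨-, h⟩))
            · exact h3 h
            · exact h1 h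
            · exact h1 h
            · exact h6 h.symm
            · exact h6 h.symm
            · exact h2 h
        have hEs : E ⊆ allE (Fin n) := by
          intro e he
          rw [hE, mem_insert, mem_insert, mem_insert, mem_singleton] at he
          rw [mem_allE]
          rcases he with rfl | rfl | rfl | rfl
          · rw [Sym2.mk_isDiag_iff]; exact h3
          · rw [Sym2.mk_isDiag_iff]; exact h4
          · rw [Sym2.mk_isDiag_iff]; exact h5
          · rw [Sym2.mk_isDiag_iff]; exact h6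
        have h7 := psc_core hTAI n (p n) u E hEs (by omega)
        rw [hcard] at h7
        refine (measureReal_mono ?_ (measure_ne_top _ _)).trans h7
        rintro G ⟨g1, -, -, g2, g3, g4, g5⟩
        refine ⟨?_, g1⟩
        intro e he
        rw [hE, mem_insert, mem_insert, mem_insert, mem_singleton] at he
        rw [mem_ed]
        rcases he with rfl | rfl | rfl | rfl
        · exact g2
        · exact g3
        · exact g4
        · exact g5
      · have : {G : SimpleGraph (Fin n) | u ∈ sm G ((n : ℝ) * p n) ∧ u ≠ w ∧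
            v ≠ x ∧ G.Adj u v ∧ G.Adj v w ∧ G.Adj w x ∧ G.Adj x u} = ∅ := by
          ext G
          simp only [Set.mem_ofPred_eq, Set.mem_empty_iff_false, iff_false]
          rintro ⟨-, g0, g1, g2, g3, g4, g5⟩
          exact hd ⟨⟨g0, g1⟩, g2.ne, g3.ne, g4.ne, g5.ne⟩
        simp only [this, measureReal_empty]
        positivity
    refine (Finset.sum_le_sum hle).trans ?_
    rw [Finset.sum_const, nsmul_eq_mul, card_univ, Fintype.card_prod, Fintype.card_prod,
      Fintype.card_prod, Fintype.card_fin]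
    apply le_of_eq
    push_cast
    ring

end Pool.Agent.H15P
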