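import Pool.Agent.H15P.Stm

/-! Piece PSP of project H15P: small sets are sparse. -/

set_option autoImplicit false

open MeasureTheory ProbabilityTheory unitInterval Finset Filter Topology
open scoped SimpleGraph

namespace Pool.Agent.H15P

open Pool.Agent.V11328 Pool.Agent.V11328.E6

namespace PSPx

/-- The pairs inside `T`. -/
noncomputable def ins {V : Type} [DecidableEq V] (T : Finset V) : Finset (Sym2 V) :=
  T.offDiag.image (fun q => s(q.1, q.2))

lemma ins_card {V : Type} [DecidableEq V] (T : Finset V) :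
    (#(ins T) : ℝ) ≤ (#T : ℝ) ^ 2 / 2 := by
  have h0 : #(ins T) = (#T).choose 2 := Sym2.card_image_offDiag T
  rw [h0, Nat.choose_two_right]
  have h1 : ((#T * (#T - 1) / 2 : ℕ) : ℝ) ≤ ((#T * (#T - 1) : ℕ) : ℝ) / 2 := by
    exact Nat.cast_div_le
  refine h1.trans ?_
  have h2 : ((#T * (#T - 1) : ℕ) : ℝ) ≤ (#T : ℝ) ^ 2 := by
    rw [pow_two]
    exact_mod_cast Nat.mul_le_mul_left _ (Nat.sub_le _ _)
  linarith

lemma ins_subset {V : Type} [Fintype V] [DecidableEq V] (T : Finset V) : ins T ⊆ allE V := by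
  intro e he
  rw [ins, mem_image] at he
  obtain ⟨⟨x, y⟩, hxy, rfl⟩ := he
  rw [mem_offDiag] at hxy
  rw [mem_allE]
  exact fun h => hxy.2.2 (Sym2.mk_isDiag_iff.1 h)

lemma ins_inter {V : Type} [Fintype V] [DecidableEq V] (G : SimpleGraph V) (T : Finset V) :
    ins T ∩ ed G = between G T T := by
  classical
  ext e
  simp only [ins, mem_inter, mem_image, mem_offDiag, mem_ed, between, mem_filter, mem_univ,
    true_and, Prod.exists]
  constructor
  · rintro ⟨⟨x, y, ⟨hx, hy, _⟩, rfl⟩, h⟩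
    exact ⟨h, x, hx, y, hy, rfl⟩
  · rintro ⟨h, x, hx, y, hy, rfl⟩
    exact ⟨⟨x, y, ⟨hx, hy, G.ne_of_adj h⟩, rfl⟩, h⟩

lemma one_set (hT : S_TAI) {n : ℕ} (p : I) (T : Finset (Fin n)) (h1 : (#T : ℝ) ≤ tau * n) :
    (G(Fin n, p)).real {G : SimpleGraph (Fin n) |
      ((n : ℝ) * p) / 8000000 * #T < #(between G T T)} ≤
      Real.exp (-(3 / 2 * ((n : ℝ) * p))) ^ #T := by
  have hp0 : 0 ≤ (p : ℝ) := p.2.1
  have h2 := hT (Fin n) p ∅ (ins T) 16000000 (2 * ((n : ℝ) * p) * #T)
    {G : SimpleGraph (Fin n) | ((n : ℝ) * p) / 8000000 * #T < #(between G T T)}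
    (empty_subset _) (ins_subset T) (disjoint_empty_left _) (by
      intro G hG
      refine ⟨empty_subset _, ?_⟩
      rw [ins_inter]
      have hG' : ((n : ℝ) * p) / 8000000 * #T < #(between G T T) := hG
      linarith)
  rw [card_empty, pow_zero, one_mul] at h2
  refine h2.trans ?_
  rw [← Real.exp_nat_mul]
  refine Real.exp_le_exp.2 ?_
  have h3 : (#T : ℝ) * Real.exp 16000000 ≤ n := by
    have h4 := mul_le_mul_of_nonneg_right h1 (Real.exp_pos 16000000).le
    have h5 : tau * n * Real.exp 16000000 = n := by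
      rw [tau, mul_right_comm, ← Real.exp_add]
      norm_num
    linarith
  have h6 : (#(ins T) : ℝ) * Real.exp 16000000 ≤ (#T : ℝ) * n / 2 := by
    have h7 := mul_le_mul_of_nonneg_right (ins_card T) (Real.exp_pos 16000000).le
    have h8 := mul_le_mul_of_nonneg_left h3 (Nat.cast_nonneg (α := ℝ) #T)
    nlinarith
  have h9 : (p : ℝ) * #(ins T) * (Real.exp 16000000 - 1) ≤ p * ((#T : ℝ) * n / 2) := by
    have h10 : (p : ℝ) * #(ins T) * (Real.exp 16000000 - 1) =
        p * (#(ins T) * Real.exp 16000000) - p * #(ins T) := by ring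
    have h11 : 0 ≤ (p : ℝ) * #(ins T) := mul_nonneg hp0 (Nat.cast_nonneg _)
    have h12 := mul_le_mul_of_nonneg_left h6 hp0
    linarith
  linarith

lemma all_sets (hT : S_TAI) {n : ℕ} (hn : 1 ≤ n) (p : I) (hlog : Real.log n ≤ n * (p : ℝ)) :
    (G(Fin n, p)).real {G : SimpleGraph (Fin n) | ∃ T : Finset (Fin n), (#T : ℝ) ≤ tau * n ∧
      ((n : ℝ) * p) / 8000000 * #T < #(between G T T)} ≤
      Real.exp (Real.exp (-(((n : ℝ) * p) / 2))) - 1 := by
  classical
  set d : ℝ := (n : ℝ) * p with hd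
  set q : ℝ := Real.exp (-(3 / 2 * d)) with hq
  set P : Finset (Finset (Fin n)) := univ.powerset.erase ∅ with hP
  have hsub : {G : SimpleGraph (Fin n) | ∃ T : Finset (Fin n), (#T : ℝ) ≤ tau * n ∧
      d / 8000000 * #T < #(between G T T)} ⊆ ⋃ T ∈ P,
      {G | (#T : ℝ) ≤ tau * n ∧ d / 8000000 * #T < #(between G T T)} := by
    rintro G ⟨T, h1, h2⟩
    simp only [Set.mem_iUnion]
    refine ⟨T, ?_, h1, h2⟩
    rw [hP, mem_erase]
    refine ⟨?_, by simp⟩
    rintro rfl
    have h3 : #(between G (∅ : Finset (Fin n)) ∅) = 0 := by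
      rw [card_eq_zero]
      ext e
      simp [between]
    rw [h3] at h2
    simp at h2
  refine (measureReal_mono hsub (measure_ne_top _ _)).trans ?_
  refine (measureReal_biUnion_finset_le _ _).trans ?_
  have hone : ∀ T ∈ P, (G(Fin n, p)).real
      {G : SimpleGraph (Fin n) | (#T : ℝ) ≤ tau * n ∧ d / 8000000 * #T < #(between G T T)} ≤
      q ^ #T := by
    intro T _
    by_cases h1 : (#T : ℝ) ≤ tau * n
    · refine (measureReal_mono ?_ (measure_ne_top _ _)).trans (one_set hT p T h1)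
      intro G hG
      exact hG.2
    · have : {G : SimpleGraph (Fin n) | (#T : ℝ) ≤ tau * n ∧
          d / 8000000 * #T < #(between G T T)} = ∅ := by
        ext G
        simp [h1]
      rw [this, measureReal_empty]
      exact pow_nonneg (Real.exp_pos _).le _
  refine (Finset.sum_le_sum hone).trans ?_
  have hsum : ∑ T ∈ P, q ^ #T = (1 + q) ^ n - 1 := by
    have h1 := Finset.sum_pow_mul_eq_add_pow q (1 : ℝ) (univ : Finset (Fin n))
    simp only [one_pow, mul_one] at h1
    rw [card_univ, Fintype.card_fin] at h1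
    have h2 := Finset.sum_erase_eq_sub (f := fun T : Finset (Fin n) => q ^ #T)
      (empty_mem_powerset (univ : Finset (Fin n)))
    rw [hP, h2, h1, card_empty, pow_zero, add_comm]
  rw [hsum]
  have hn0 : (0 : ℝ) < n := by exact_mod_cast hn
  have h3 : (n : ℝ) ≤ Real.exp d := by
    rw [← Real.log_le_iff_le_exp hn0]
    exact hlog
  have h4 : (1 + q) ^ n ≤ Real.exp (Real.exp (-(d / 2))) := by
    have h5 : 1 + q ≤ Real.exp q := by
      have := Real.add_one_le_exp q
      linarith
    have h6 : 0 ≤ 1 + q := by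
      have := (Real.exp_pos (-(3 / 2 * d))).le
      linarith
    refine (pow_le_pow_left₀ h6 h5 n).trans ?_
    rw [← Real.exp_nat_mul]
    refine Real.exp_le_exp.2 ?_
    have h7 : (n : ℝ) * q ≤ Real.exp d * q :=
      mul_le_mul_of_nonneg_right h3 (Real.exp_pos _).le
    have h8 : Real.exp d * q = Real.exp (-(d / 2)) := by
      rw [hq, ← Real.exp_add]
      congr 1
      ring
    linarith
  linarith

end PSPx

theorem s_PSP (h : S_TAI) : S_PSP := by
  intro p hp
  have hlogn : Tendsto (fun n : ℕ => Real.log (n : ℝ)) atTop atTop :=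
    Real.tendsto_log_atTop.comp tendsto_natCast_atTop_atTop
  have hd : Tendsto (fun n : ℕ => (n : ℝ) * p n) atTop atTop :=
    tendsto_atTop_mono' _ hp hlogn
  have hlim : Tendsto (fun n : ℕ => Real.exp (Real.exp (-(((n : ℝ) * p n) / 2))) - 1)
      atTop (𝓝 0) := by
    have h1 : Tendsto (fun n : ℕ => -(((n : ℝ) * p n) / 2)) atTop atBot :=
      tendsto_neg_atTop_atBot.comp (hd.atTop_div_const (by norm_num))
    have h2 := (Real.tendsto_exp_atBot.comp h1)
    have h3 := (Real.continuous_exp.tendsto 0).comp h2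
    have h4 := h3.sub_const 1
    simpa using h4
  refine squeeze_zero' (Eventually.of_forall fun n => measureReal_nonneg) ?_ hlim
  filter_upwards [hp, eventually_ge_atTop 1] with n h1 h2
  exact PSPx.all_sets h h2 (p n) h1

end Pool.Agent.H15P
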