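import Pool.Agent.H15P.Stm

namespace Pool.Agent.H15P

open Finset Pool.Agent.V11328 Pool.Agent.V11328.E6

theorem mem_QQ {V : Type} [Fintype V] [DecidableEq V] {G : SimpleGraph V} {d : ℝ} {x : V} :
    x ∈ QQ G d ↔ x ∈ sm G d ∨ ∃ u ∈ sm G d, G.Adj u x := by
  unfold QQ
  simp

/-- Piece SED. -/
theorem s_SED : S_SED := by
  intro V _ _ G d hp ht hc
  have s1 : ∀ u ∈ sm G d, ∀ v ∈ sm G d, ¬ G.Adj u v := by
    intro u hu v hv huv
    apply hp 1 le_rfl (by norm_num)
    refine ⟨![u, v], ?_, ?_, hu, hv⟩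
    · rw [← List.nodup_ofFn]
      simp [huv.ne]
    · intro i
      fin_cases i
      simpa using huv
  have s2 : ∀ u ∈ sm G d, ∀ v ∈ sm G d, u ≠ v → ∀ w, ¬ (G.Adj u w ∧ G.Adj v w) := by
    rintro u hu v hv huv w ⟨h1, h2⟩
    apply hp 2 (by norm_num) (by norm_num)
    refine ⟨![u, w, v], ?_, ?_, hu, hv⟩
    · rw [← List.nodup_ofFn]
      simp [h1.ne, h2.ne', huv]
    · intro i
      fin_cases i
      · simpa using h1
      · simpa using h2.symm
  -- path of length three between small vertices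
  have s3 : ∀ x ∈ sm G d, ∀ s ∈ sm G d, ∀ v y, v ∉ sm G d → y ∉ sm G d → x ≠ s → v ≠ y →
      G.Adj x v → G.Adj v y → G.Adj y s → False := by
    intro x hx s hs v y hv hy hxs hvy e1 e2 e3
    have a1 : x ≠ v := fun h => hv (h ▸ hx)
    have a2 : x ≠ y := fun h => hy (h ▸ hx)
    have a3 : s ≠ v := fun h => hv (h ▸ hs)
    have a4 : s ≠ y := fun h => hy (h ▸ hs)
    apply hp 3 (by norm_num) (by norm_num)
    refine ⟨![x, v, y, s], ?_, ?_, hx, hs⟩
    · rw [← List.nodup_ofFn]
      simp [a1, a2, hxs, hvy, a3.symm, a4.symm]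
    · intro i
      fin_cases i
      · simpa using e1
      · simpa using e2
      · simpa using e3
  have s3' : ∀ v, v ∉ sm G d → ∀ x ∈ sm G d, ∀ y, y ∉ sm G d → y ∈ QQ G d → G.Adj v x →
      G.Adj v y → False := by
    intro v hv x hx y hy hyq hvx hvy
    have hyq' : ∃ s ∈ sm G d, G.Adj s y := by
      rcases mem_QQ.1 hyq with h | h
      · exact absurd h hy
      · exact h
    obtain ⟨s, hs, hsy⟩ := hyq'
    by_cases hxs : x = s
    · subst hxs
      exact ht ⟨x, v, y, hx, hvx.symm, hvy, hsy.symm⟩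
    · exact s3 x hx s hs v y hv hy hxs hvy.ne hvx.symm hvy hsy.symm
  refine ⟨s1, s2, ?_⟩
  intro v hv x hx y hy hvx hvy
  by_contra hxy
  by_cases hxs : x ∈ sm G d
  · by_cases hys : y ∈ sm G d
    · exact s2 x hxs y hys hxy v ⟨hvx.symm, hvy.symm⟩
    · exact s3' v hv x hxs y hys hy hvx hvy
  · by_cases hys : y ∈ sm G d
    · exact s3' v hv y hys x hxs hx hvy hvx
    · have hxq' : ∃ s ∈ sm G d, G.Adj s x := by
        rcases mem_QQ.1 hx with h | h
        · exact absurd h hxs
        · exact h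
      have hyq' : ∃ s ∈ sm G d, G.Adj s y := by
        rcases mem_QQ.1 hy with h | h
        · exact absurd h hys
        · exact h
      obtain ⟨s, hs, hsx⟩ := hxq'
      obtain ⟨t, ht', hty⟩ := hyq'
      by_cases hst : s = t
      · subst hst
        refine hc ⟨s, x, v, y, hs, ?_, hxy, hsx, hvx.symm, hvy, hty.symm⟩
        exact fun h => hv (h ▸ hs)
      · have a1 : s ≠ x := hsx.ne
        have a2 : s ≠ v := fun h => hv (h ▸ hs)
        have a3 : s ≠ y := fun h => hys (h ▸ hs)
        have a4 : t ≠ x := fun h => hxs (h ▸ ht')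
        have a5 : t ≠ v := fun h => hv (h ▸ ht')
        have a6 : t ≠ y := hty.ne
        have a7 : v ≠ x := hvx.ne
        have a8 : v ≠ y := hvy.ne
        apply hp 4 (by norm_num) (by norm_num)
        refine ⟨![s, x, v, y, t], ?_, ?_, hs, ht'⟩
        · rw [← List.nodup_ofFn]
          simp [a1, a2, a3, hst, a7.symm, hxy, a4.symm, a8, a5.symm, a6.symm]
        · intro i
          fin_cases i
          · simpa using hsx
          · simpa using hvx.symm
          · simpa using hvy
          · simpa using hty.symm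

end Pool.Agent.H15P
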