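import Pool.Agent.H15P.Stm

/-!
# SEL: selection of the sparse subgraph (project H15P)
-/

open MeasureTheory ProbabilityTheory unitInterval Finset Filter Topology
open scoped SimpleGraph

namespace Pool.Agent.H15P.SEL

open Pool.Agent.V11328 Pool.Agent.V11328.E6 Pool.Agent.H15P

lemma tau_pos : 0 < tau := Real.exp_pos _

lemma sg_pos : 0 < sg := by
  unfold sg
  have := tau_pos
  positivity

variable {V : Type} [Fintype V] [DecidableEq V]

lemma mem_nb (G : SimpleGraph V) (v w : V) : w ∈ nb G v ↔ G.Adj v w := by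
  unfold nb
  simp

lemma mem_bet (G : SimpleGraph V) (A B : Finset V) (e : Sym2 V) :
    e ∈ between G A B ↔ e ∈ G.edgeSet ∧ ∃ x ∈ A, ∃ y ∈ B, e = s(x, y) := by
  unfold between
  simp

/-- the edges at the vertices of `S` -/
noncomputable def at' (G : SimpleGraph V) (S : Finset V) : Finset (Sym2 V) :=
  S.biUnion (fun v => (nb G v).image (fun w => s(v, w)))

lemma mem_at (G : SimpleGraph V) (S : Finset V) {v w : V} (hv : v ∈ S) (h : G.Adj v w) :
    s(v, w) ∈ at' G S := by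
  unfold at'
  rw [mem_biUnion]
  exact ⟨v, hv, mem_image.2 ⟨w, (mem_nb G v w).2 h, rfl⟩⟩

lemma card_at (G : SimpleGraph V) (S : Finset V) : #(at' G S) ≤ ∑ v ∈ S, #(nb G v) :=
  card_biUnion_le.trans (sum_le_sum fun _ _ => card_image_le)

lemma card_at_real (G : SimpleGraph V) (S : Finset V) {b : ℝ} (hb : ∀ v, (#(nb G v) : ℝ) ≤ b) :
    (#(at' G S) : ℝ) ≤ #S * b := by
  have h1 : (#(at' G S) : ℝ) ≤ ((∑ v ∈ S, #(nb G v) : ℕ) : ℝ) := by exact_mod_cast card_at G S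
  refine h1.trans ?_
  push_cast
  calc ∑ v ∈ S, (#(nb G v) : ℝ) ≤ ∑ _v ∈ S, b := sum_le_sum fun v _ => hb v
    _ = #S * b := by rw [sum_const, nsmul_eq_mul]

lemma ed_subset_at (G : SimpleGraph V) : ed G ⊆ at' G univ := by
  intro e he
  rw [mem_ed] at he
  induction e with
  | h x y => exact mem_at G univ (mem_univ x) he

lemma card_at_small (G : SimpleGraph V) (S : Finset V)
    (h : ∀ u ∈ S, ∀ v ∈ S, u ≠ v → ∀ w, ¬ (G.Adj u w ∧ G.Adj v w)) :
    #(at' G S) ≤ Fintype.card V := by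
  refine (card_at G S).trans ?_
  rw [← card_biUnion]
  · exact card_le_univ _
  · intro u hu v hv huv
    refine disjoint_left.2 ?_
    intro w h1 h2
    exact h u hu v hv huv w ⟨(mem_nb G u w).1 h1, (mem_nb G v w).1 h2⟩

lemma bet_lower (G : SimpleGraph V) (F : Finset (Sym2 V)) {U A B : Finset V} (hA : A ⊆ U) (hB : B ⊆ U) :
    #(between G A B) ≤ #(between (restr (G.deleteEdges (F : Set (Sym2 V))) U) A B) + #F := by
  have h2 : between G A B \ F ⊆ between (restr (G.deleteEdges (F : Set (Sym2 V))) U) A B := by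
    intro e he
    rw [Finset.mem_sdiff, mem_bet] at he
    rw [mem_bet]
    obtain ⟨⟨he1, x, hx, y, hy, rfl⟩, he2⟩ := he
    exact ⟨⟨(del_adj G F x y).2 ⟨he1, he2⟩, hA hx, hB hy⟩, x, hx, y, hy, rfl⟩
  have h4 := card_le_card h2
  have h5 := le_card_sdiff F (between G A B)
  omega

lemma restr_le (H : SimpleGraph V) (U : Finset V) : restr H U ≤ H := fun _ _ h => h.1

lemma ed_mono {G H : SimpleGraph V} (h : G ≤ H) : ed G ⊆ ed H := by
  intro e he
  rw [mem_ed] at he ⊢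
  exact (SimpleGraph.edgeSet_subset_edgeSet.2 h) he

lemma ed_card_le (G : SimpleGraph V) {b : ℝ} (hb : ∀ v, (#(nb G v) : ℝ) ≤ b) :
    (#(ed G) : ℝ) ≤ Fintype.card V * b := by
  have h1 : (#(ed G) : ℝ) ≤ #(at' G univ) := by exact_mod_cast card_le_card (ed_subset_at G)
  refine h1.trans ((card_at_real G univ hb).trans (le_of_eq ?_))
  rw [card_univ]

/-- the hitting set -/
lemma hitting (hHIT : S_HIT) (G : SimpleGraph V) (F : Finset (Sym2 V)) (U : Finset V) (d K : ℝ) (c : ℕ)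
    (hc : 24 / sg ^ 2 ≤ (c : ℝ)) (hd : 0 < d) (hn : 1 ≤ Fintype.card V)
    (hKn : K * 4 ≤ sg ^ 2 * Fintype.card V) (hF : (#F : ℝ) ≤ K * d)
    (maxdeg : ∀ v, (#(nb G v) : ℝ) ≤ 6 * d)
    (dense : ∀ A B : Finset V, Disjoint A B → sg * Fintype.card V ≤ #A → sg * Fintype.card V ≤ #B →
      sg ^ 2 * Fintype.card V * d / 2 ≤ (#(between G A B) : ℝ)) :
    ∃ E3 ⊆ ed (restr (G.deleteEdges (F : Set (Sym2 V))) U), #E3 ≤ c * (2 * Fintype.card V + 1) ∧
      ∀ A B : Finset V, A ⊆ U → B ⊆ U → Disjoint A B → sg * Fintype.card V ≤ #A →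
        sg * Fintype.card V ≤ #B → ∃ a ∈ A, ∃ b ∈ B, s(a, b) ∈ E3 := by
  classical
  have hsg := sg_pos
  have hn' : (1 : ℝ) ≤ Fintype.card V := by exact_mod_cast hn
  obtain ⟨HU, hHU⟩ : ∃ HU, HU = restr (G.deleteEdges (F : Set (Sym2 V))) U := ⟨_, rfl⟩
  obtain ⟨M, hM⟩ : ∃ M, M = ⌈sg ^ 2 * Fintype.card V * d / 4⌉₊ := ⟨_, rfl⟩
  obtain ⟨T, hT⟩ : ∃ T, T = (U.powerset ×ˢ U.powerset).filter
    (fun q => Disjoint q.1 q.2 ∧ sg * Fintype.card V ≤ #q.1 ∧ sg * Fintype.card V ≤ #q.2) := ⟨_, rfl⟩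
  have hMpos : 1 ≤ M := by
    rw [hM, Nat.one_le_ceil_iff]
    positivity
  have hmemT : ∀ q : Finset V × Finset V, q ∈ T ↔ (q.1 ⊆ U ∧ q.2 ⊆ U) ∧
      (Disjoint q.1 q.2 ∧ sg * Fintype.card V ≤ #q.1 ∧ sg * Fintype.card V ≤ #q.2) := by
    intro q
    rw [hT, mem_filter, mem_product, mem_powerset, mem_powerset]
  have hbet : ∀ i ∈ T, between HU i.1 i.2 ⊆ ed HU ∧ M ≤ #(between HU i.1 i.2) := by
    intro i hi
    rw [hmemT] at hi
    obtain ⟨⟨h1, h2⟩, h3, h4, h5⟩ := hi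
    refine ⟨fun e he => (mem_ed HU e).2 ((mem_bet HU _ _ e).1 he).1, ?_⟩
    have h6 := dense i.1 i.2 h3 h4 h5
    have h7 := bet_lower G F h1 h2
    rw [← hHU] at h7
    have h7' : (#(between G i.1 i.2) : ℝ) ≤ #(between HU i.1 i.2) + #F := by exact_mod_cast h7
    rw [hM, Nat.ceil_le]
    have h8 : K * 4 * d ≤ sg ^ 2 * Fintype.card V * d := mul_le_mul_of_nonneg_right hKn hd.le
    linarith
  have hHUG : HU ≤ G := by
    rw [hHU]
    exact (restr_le _ _).trans (SimpleGraph.deleteEdges_le _)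
  have hXcM : #(ed HU) ≤ c * M := by
    have h1 : (#(ed HU) : ℝ) ≤ #(ed G) := by exact_mod_cast card_le_card (ed_mono hHUG)
    have h1' := ed_card_le G maxdeg
    have h3 : sg ^ 2 * Fintype.card V * d / 4 ≤ (M : ℝ) := by
      rw [hM]
      exact Nat.le_ceil _
    have h4 : (24 / sg ^ 2) * (sg ^ 2 * Fintype.card V * d / 4) ≤ (c : ℝ) * M :=
      mul_le_mul hc h3 (by positivity) (Nat.cast_nonneg _)
    have h5 : (24 / sg ^ 2) * (sg ^ 2 * Fintype.card V * d / 4) = Fintype.card V * (6 * d) := by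
      field_simp
      ring
    have h6 : (#(ed HU) : ℝ) ≤ ((c * M : ℕ) : ℝ) := by
      push_cast
      linarith
    exact_mod_cast h6
  have hTcard : #T ≤ 2 ^ (2 * Fintype.card V) := by
    calc #T ≤ #(U.powerset ×ˢ U.powerset) := by
          rw [hT]
          exact card_filter_le _ _
      _ = 2 ^ #U * 2 ^ #U := by rw [card_product, card_powerset]
      _ ≤ 2 ^ Fintype.card V * 2 ^ Fintype.card V :=
          Nat.mul_le_mul (Nat.pow_le_pow_right (by norm_num) (card_le_univ U))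
          (Nat.pow_le_pow_right (by norm_num) (card_le_univ U))
      _ = 2 ^ (2 * Fintype.card V) := by rw [← pow_add, two_mul]
  obtain ⟨E3, hE3X, hE3c, hE3⟩ := hHIT (Sym2 V) (Finset V × Finset V) (ed HU) T
    (fun q => between HU q.1 q.2) M c (2 * Fintype.card V) hMpos hbet hXcM hTcard
  refine ⟨E3, hHU ▸ hE3X, hE3c, ?_⟩
  intro A B hA hB hAB h1 h2
  obtain ⟨e, he⟩ := hE3 (A, B) ((hmemT (A, B)).2 ⟨⟨hA, hB⟩, hAB, h1, h2⟩)
  rw [mem_inter, mem_bet] at he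
  obtain ⟨he1, _, x, hx, y, hy, rfl⟩ := he
  exact ⟨x, hx, y, hy, he1⟩

lemma hh_cases (G : SimpleGraph V) (F Ev : Finset (Sym2 V)) (U : Finset V) {v w : V}
    (h : (hh G F Ev U).Adj v w) : G.Adj v w ∨ s(v, w) ∈ Ev := by
  rcases h.1 with h4 | h4
  · exact Or.inl (SimpleGraph.deleteEdges_le _ h4)
  · rw [SimpleGraph.fromEdgeSet_adj] at h4
    exact Or.inr h4.1


lemma card_two (G : SimpleGraph V) (F Ev : Finset (Sym2 V)) (U Z S : Finset V) (K : ℕ) (d : ℝ)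
    (E2 : Finset (Sym2 V)) (hE2 : ∀ e ∈ E2, e ∈ ed (hh G F Ev U) ∧ ∃ v ∈ e, v ∈ S ∨ v ∈ Z)
    (hE : #Ev ≤ K) (hZ : #Z ≤ K) (hd : 0 ≤ d) (maxdeg : ∀ v, (#(nb G v) : ℝ) ≤ 6 * d)
    (hsep : ∀ u ∈ S, ∀ v ∈ S, u ≠ v → ∀ w, ¬ (G.Adj u w ∧ G.Adj v w)) :
    (#E2 : ℝ) ≤ K + Fintype.card V + 6 * K * d := by
  have h1 : E2 ⊆ Ev ∪ at' G S ∪ at' G Z := by
    intro e he
    obtain ⟨he, v, hv, hv2⟩ := hE2 e he
    obtain ⟨w, rfl⟩ := hv
    rw [mem_ed] at he
    rw [mem_union, mem_union]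
    rcases hh_cases G F Ev U he with h5 | h5
    · rcases hv2 with h6 | h6
      · exact Or.inl (Or.inr (mem_at G S h6 h5))
      · exact Or.inr (mem_at G Z h6 h5)
    · exact Or.inl (Or.inl h5)
  have h2 : #E2 ≤ #Ev + #(at' G S) + #(at' G Z) :=
    (card_le_card h1).trans ((card_union_le _ _).trans (Nat.add_le_add_right (card_union_le _ _) _))
  have h3 : #(at' G S) ≤ Fintype.card V := card_at_small G S hsep
  have h4 : (#(at' G Z) : ℝ) ≤ 6 * K * d := by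
    refine (card_at_real G Z maxdeg).trans ?_
    have h5 : (#Z : ℝ) ≤ K := by exact_mod_cast hZ
    nlinarith
  have h5 : (#Ev : ℝ) ≤ K := by exact_mod_cast hE
  have h6 : (#(at' G S) : ℝ) ≤ Fintype.card V := by exact_mod_cast h3
  have h7 : (#E2 : ℝ) ≤ #Ev + #(at' G S) + #(at' G Z) := by exact_mod_cast h2
  linarith

lemma final_ineq {n d K c e e1 e2 e3 : ℝ} (hK0 : 0 ≤ K) (hc0 : 0 ≤ c) (hd : 0 < d)
    (hd2 : 26000 * (3 + K + 3 * c) ≤ d) (hn2 : 156000 * K ≤ n) (hn3 : 1 ≤ n)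
    (b1 : e1 ≤ n * (d / 200000 + 1)) (b2 : e2 ≤ K + n + 6 * K * d) (b3 : e3 ≤ c * (2 * n + 1))
    (b : e ≤ e1 + e2 + e3) : e ≤ d * n / 12000 - n := by
  have k1 : 156000 * K * d ≤ n * d := mul_le_mul_of_nonneg_right hn2 hd.le
  have k2 : 26000 * (3 + K + 3 * c) * n ≤ d * n := mul_le_mul_of_nonneg_right hd2 (by linarith)
  have k3 : K ≤ K * n := by nlinarith
  have k4 : c ≤ c * n := by nlinarith
  have k5 : 0 ≤ d * n := by positivity
  nlinarith

theorem s_SEL (hHIT : S_HIT) : S_SEL := by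
  intro K
  have hsg := sg_pos
  obtain ⟨c, hc⟩ : ∃ c : ℕ, c = ⌈24 / sg ^ 2⌉₊ + 1 := ⟨_, rfl⟩
  have hc1 : 24 / sg ^ 2 ≤ (c : ℝ) := by
    rw [hc]
    push_cast
    have := Nat.le_ceil (24 / sg ^ 2)
    linarith
  clear hc
  refine ⟨max (200000 * ((K : ℝ) + 1)) (26000 * (3 + K + 3 * c)),
    max (⌈4 * (K : ℝ) / sg ^ 2⌉₊) (156000 * K) + 1, ?_⟩
  intro V _ _ G d F Ev U Z hd hn hN hH
  have hd1 : 200000 * ((K : ℝ) + 1) ≤ d := (le_max_left _ _).trans hd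
  have hd2 : 26000 * (3 + (K : ℝ) + 3 * c) ≤ d := (le_max_right _ _).trans hd
  have hn1 : ⌈4 * (K : ℝ) / sg ^ 2⌉₊ ≤ Fintype.card V := by
    have := le_max_left (⌈4 * (K : ℝ) / sg ^ 2⌉₊) (156000 * K)
    omega
  have hn2 : 156000 * K ≤ Fintype.card V := by
    have := le_max_right (⌈4 * (K : ℝ) / sg ^ 2⌉₊) (156000 * K)
    omega
  have hn3 : 1 ≤ Fintype.card V := by omega
  have hn1' : 4 * (K : ℝ) / sg ^ 2 ≤ Fintype.card V := (Nat.ceil_le.1 hn1)
  have hn2' : 156000 * (K : ℝ) ≤ Fintype.card V := by exact_mod_cast hn2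
  have hn3' : (1 : ℝ) ≤ Fintype.card V := by exact_mod_cast hn3
  have hK0 : (0 : ℝ) ≤ K := Nat.cast_nonneg K
  have hc0 : (0 : ℝ) ≤ c := Nat.cast_nonneg c
  have hdpos : 0 < d := by nlinarith
  have hKn : (K : ℝ) * 4 ≤ sg ^ 2 * Fintype.card V := by
    rw [div_le_iff₀ (by positivity)] at hn1'
    linarith
  obtain ⟨E3, hE3X, hE3c, hE3⟩ := hitting hHIT G F U d K c hc1 hdpos hn3 hKn hH.hF hN.maxdeg hN.dense
  have hHUle : restr (G.deleteEdges (F : Set (Sym2 V))) U ≤ hh G F Ev U := fun x y hxy => ⟨Or.inl hxy.1, hxy.2⟩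
  have hHUG : restr (G.deleteEdges (F : Set (Sym2 V))) U ≤ G :=
    (restr_le _ _).trans (SimpleGraph.deleteEdges_le _)
  -- E1
  obtain ⟨m, hm⟩ : ∃ m : ℕ, m = ⌈d / 200000⌉₊ := ⟨_, rfl⟩
  have hm1 : d / 200000 ≤ m := by
    rw [hm]
    exact Nat.le_ceil _
  have hm2 : (m : ℝ) ≤ d / 200000 + 1 := by
    rw [hm]
    exact (Nat.ceil_lt_add_one (by positivity)).le
  clear hm
  classical
  have hD : ∀ v, v ∈ U → v ∉ sm G d → v ∉ Z → ∃ D ⊆ nb (restr (G.deleteEdges (F : Set (Sym2 V))) U) v, #D = m := by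
    intro v hv1 hv2 hv3
    apply exists_subset_card_eq
    have h1 := hH.h1 v hv1 hv2 hv3
    have h2 : (m : ℝ) ≤ #(nb (restr (G.deleteEdges (F : Set (Sym2 V))) U) v) := by
      refine hm2.trans (le_trans ?_ h1)
      linarith
    exact_mod_cast h2
  choose! D hD1 hD2 using hD
  obtain ⟨good, hgood⟩ : ∃ good, good = U.filter (fun v => v ∉ sm G d ∧ v ∉ Z) := ⟨_, rfl⟩
  have hgood' : ∀ v, v ∈ good ↔ v ∈ U ∧ v ∉ sm G d ∧ v ∉ Z := by
    intro v
    rw [hgood, mem_filter]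
  obtain ⟨E1, hE1⟩ : ∃ E1, E1 = good.biUnion (fun v => (D v).image (fun w => s(v, w))) := ⟨_, rfl⟩
  obtain ⟨E2, hE2⟩ : ∃ E2, E2 = (ed (hh G F Ev U)).filter (fun e => ∃ v ∈ e, v ∈ sm G d ∨ v ∈ Z) :=
    ⟨_, rfl⟩
  have hE1s : E1 ⊆ ed (hh G F Ev U) := by
    intro e he
    rw [hE1, mem_biUnion] at he
    obtain ⟨v, hv, he⟩ := he
    obtain ⟨w, hw, rfl⟩ := mem_image.1 he
    rw [mem_ed]
    obtain ⟨h1, h2, h3⟩ := (hgood' v).1 hv
    exact hHUle ((mem_nb _ v w).1 (hD1 v h1 h2 h3 hw))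
  have hE2s : E2 ⊆ ed (hh G F Ev U) := by
    rw [hE2]
    exact filter_subset _ _
  have hE3s : E3 ⊆ ed (hh G F Ev U) := hE3X.trans (ed_mono hHUle)
  have hEs : E1 ∪ E2 ∪ E3 ⊆ ed (hh G F Ev U) := union_subset (union_subset hE1s hE2s) hE3s
  obtain ⟨E, hE⟩ : ∃ E, E = E1 ∪ E2 ∪ E3 := ⟨_, rfl⟩
  rw [← hE] at hEs
  have hed : ed (SimpleGraph.fromEdgeSet (E : Set (Sym2 V))) = E :=
    ed_fromEdgeSet (hEs.trans (ed_subset _))
  have hadj : ∀ x y, (SimpleGraph.fromEdgeSet (E : Set (Sym2 V))).Adj x y ↔ s(x, y) ∈ E := by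
    intro x y
    have h1 : s(x, y) ∈ ed (SimpleGraph.fromEdgeSet (E : Set (Sym2 V))) ↔ s(x, y) ∈ E := by rw [hed]
    rw [mem_ed] at h1
    exact h1
  refine ⟨SimpleGraph.fromEdgeSet (E : Set (Sym2 V)), ⟨?_, ?_, ?_, ?_, ?_⟩⟩
  · intro x y hxy
    have := hEs ((hadj x y).1 hxy)
    rw [mem_ed] at this
    exact this
  · intro v hv1 hv2 hv3
    have h1 : D v ⊆ nb (SimpleGraph.fromEdgeSet (E : Set (Sym2 V)) ⊓ G) v := by
      intro w hw
      rw [mem_nb]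
      refine ⟨(hadj v w).2 ?_, hHUG ((mem_nb _ v w).1 (hD1 v hv1 hv2 hv3 hw))⟩
      rw [hE, mem_union, mem_union]
      refine Or.inl (Or.inl ?_)
      rw [hE1, mem_biUnion]
      exact ⟨v, (hgood' v).2 ⟨hv1, hv2, hv3⟩, mem_image.2 ⟨w, hw, rfl⟩⟩
    have h2 := card_le_card h1
    rw [hD2 v hv1 hv2 hv3] at h2
    have h3 : (m : ℝ) ≤ #(nb (SimpleGraph.fromEdgeSet (E : Set (Sym2 V)) ⊓ G) v) := by exact_mod_cast h2
    linarith
  · intro v w hv hvw
    rw [hadj, hE, mem_union, mem_union]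
    refine Or.inl (Or.inr ?_)
    rw [hE2, mem_filter, mem_ed]
    exact ⟨hvw, v, Sym2.mem_mk_left v w, hv⟩
  · intro A B hA hB hAB h1 h2
    obtain ⟨a, ha, b, hb, hab⟩ := hE3 A B hA hB hAB h1 h2
    refine ⟨a, ha, b, hb, (hadj a b).2 ?_⟩
    rw [hE, mem_union]
    exact Or.inr hab
  · rw [hed]
    have b1 : (#E1 : ℝ) ≤ Fintype.card V * (d / 200000 + 1) := by
      have h1 : #E1 ≤ Fintype.card V * m := by
        rw [hE1]
        refine card_biUnion_le.trans ?_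
        calc ∑ v ∈ good, #((D v).image (fun w => s(v, w))) ≤ ∑ _v ∈ good, m := by
              refine sum_le_sum fun v hv => card_image_le.trans ?_
              obtain ⟨h1, h2, h3⟩ := (hgood' v).1 hv
              exact (hD2 v h1 h2 h3).le
          _ = good.card * m := by rw [sum_const, smul_eq_mul]
          _ ≤ Fintype.card V * m := Nat.mul_le_mul_right _ (card_le_univ _)
      have h2 : (#E1 : ℝ) ≤ Fintype.card V * m := by exact_mod_cast h1
      exact h2.trans (mul_le_mul_of_nonneg_left hm2 (by positivity))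
    have b2 : (#E2 : ℝ) ≤ K + Fintype.card V + 6 * K * d := by
      refine card_two G F Ev U Z (sm G d) K d E2 ?_ hH.hE hH.hZ hdpos.le hN.maxdeg hN.sep2
      intro e he
      rw [hE2, mem_filter] at he
      exact he
    have b3 : (#E3 : ℝ) ≤ c * (2 * Fintype.card V + 1) := by exact_mod_cast hE3c
    have b : (#E : ℝ) ≤ #E1 + #E2 + #E3 := by
      have : #E ≤ #E1 + #E2 + #E3 := by
        rw [hE]
        exact (card_union_le _ _).trans (Nat.add_le_add_right (card_union_le _ _) _)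
      exact_mod_cast this
    exact final_ineq hK0 hc0 hdpos hd2 hn2' hn3' b1 b2 b3 b

end Pool.Agent.H15P.SEL

namespace Pool.Agent.H15P

theorem s_SEL (h : S_HIT) : S_SEL := SEL.s_SEL h

end Pool.Agent.H15P
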