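import Pool.Agent.H15P.Stm

/-!
# Project H15P, piece TAI: exponential moments, with some pairs forced to be edges
-/

set_option autoImplicit false

open MeasureTheory ProbabilityTheory unitInterval Finset Filter Topology
open scoped SimpleGraph

namespace Pool.Agent.H15P

open Pool.Agent.V11328 Pool.Agent.V11328.E6

namespace TAIP

variable {V : Type} [Fintype V] [DecidableEq V]

/-- Product formula with two factors. -/
theorem sum_prod2 (p : ℝ) (c c' : Sym2 V → ℝ) :
    ∑ G : SimpleGraph V, gw p G * ((∏ e ∈ ed G, c e) * ∏ e ∈ allE V \ ed G, c' e) =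
      ∏ e ∈ allE V, (p * c e + (1 - p) * c' e) := by
  classical
  rw [Finset.prod_add]
  have := sum_graph (V := V) (fun S => (p ^ (#S) * (1 - p) ^ (#(allE V \ S))) *
    ((∏ e ∈ S, c e) * ∏ e ∈ allE V \ S, c' e))
  simp only [gw]
  rw [this]
  refine Finset.sum_congr rfl fun S _ => ?_
  rw [Finset.prod_mul_distrib, Finset.prod_mul_distrib, Finset.prod_const, Finset.prod_const]
  ring

end TAIP

open TAIP in
/-- **Piece TAI.** -/
theorem s_TAI : S_TAI := by
  intro V _ _ p E B s a A hE hB hEB hA
  classical
  have hp0 : 0 ≤ (p : ℝ) := p.2.1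
  have hp1 : (p : ℝ) ≤ 1 := p.2.2
  rw [real_event, Real.exp_sub, ← mul_div_assoc, le_div_iff₀ (Real.exp_pos a), Finset.sum_mul]
  set c : Sym2 V → ℝ := fun e => if e ∈ B then Real.exp s else 1 with hc
  set c' : Sym2 V → ℝ := fun e => if e ∈ E then 0 else 1 with hc'
  have hc0 : ∀ e, 0 ≤ c e := fun e => by
    rw [hc]
    dsimp only
    split_ifs
    · exact (Real.exp_pos s).le
    · exact zero_le_one
  have hc'0 : ∀ e, 0 ≤ c' e := fun e => by
    rw [hc']
    dsimp only
    split_ifs
    · exact le_rfl
    · exact zero_le_one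
  have hval : ∀ G ∈ A, Real.exp a ≤ (∏ e ∈ ed G, c e) * ∏ e ∈ allE V \ ed G, c' e := by
    intro G hG
    obtain ⟨h1, h2⟩ := hA G hG
    have h3 : ∏ e ∈ allE V \ ed G, c' e = 1 := by
      refine Finset.prod_eq_one fun e he => ?_
      rw [Finset.mem_sdiff] at he
      exact if_neg fun h => he.2 (h1 h)
    have h4 : ∏ e ∈ ed G, c e = Real.exp (s * #(B ∩ ed G)) := by
      rw [hc, Finset.prod_ite, Finset.prod_const, Finset.prod_const_one, mul_one,
        ← Real.exp_nat_mul, Finset.filter_mem_eq_inter, Finset.inter_comm, mul_comm]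
    rw [h3, h4, mul_one]
    exact Real.exp_le_exp.2 h2
  calc ∑ G ∈ univ.filter (· ∈ A), gw (p : ℝ) G * Real.exp a
      ≤ ∑ G ∈ univ.filter (· ∈ A), gw (p : ℝ) G * ((∏ e ∈ ed G, c e) *
          ∏ e ∈ allE V \ ed G, c' e) := by
        refine Finset.sum_le_sum fun G hG => ?_
        have hG' : G ∈ A := by simpa using hG
        exact mul_le_mul_of_nonneg_left (hval G hG') (gw_nonneg hp0 hp1 G)
    _ ≤ ∑ G : SimpleGraph V, gw (p : ℝ) G * ((∏ e ∈ ed G, c e) *
          ∏ e ∈ allE V \ ed G, c' e) := by
        refine Finset.sum_le_sum_of_subset_of_nonneg (Finset.filter_subset _ _) fun G _ _ => ?_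
        exact mul_nonneg (gw_nonneg hp0 hp1 G) (mul_nonneg
          (Finset.prod_nonneg fun e _ => hc0 e) (Finset.prod_nonneg fun e _ => hc'0 e))
    _ = ∏ e ∈ allE V, ((p : ℝ) * c e + (1 - p) * c' e) := sum_prod2 _ _ _
    _ ≤ ∏ e ∈ allE V, ((if e ∈ E then (p : ℝ) else 1) *
          (if e ∈ B then Real.exp ((p : ℝ) * (Real.exp s - 1)) else 1)) := by
        refine Finset.prod_le_prod (fun e _ => ?_) fun e _ => ?_
        · have h1 := hc0 e
          have h2 := hc'0 e
          have h3 : 0 ≤ 1 - (p : ℝ) := by linarith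
          positivity
        · rw [hc, hc']
          dsimp only
          by_cases h1 : e ∈ E
          · have h2 : e ∉ B := Finset.disjoint_left.1 hEB h1
            rw [if_pos h1, if_neg h2, if_pos h1, if_neg h2]
            linarith
          · rw [if_neg h1, if_neg h1]
            by_cases h2 : e ∈ B
            · rw [if_pos h2, if_pos h2]
              have h3 := Real.add_one_le_exp ((p : ℝ) * (Real.exp s - 1))
              nlinarith
            · rw [if_neg h2, if_neg h2]
              linarith
    _ = (p : ℝ) ^ #E * Real.exp ((p : ℝ) * #B * (Real.exp s - 1)) := by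
        rw [Finset.prod_mul_distrib, Finset.prod_ite, Finset.prod_ite, Finset.prod_const,
          Finset.prod_const_one, mul_one, Finset.prod_const, Finset.prod_const_one, mul_one,
          ← Real.exp_nat_mul, Finset.filter_mem_eq_inter, Finset.filter_mem_eq_inter,
          Finset.inter_eq_right.2 hE, Finset.inter_eq_right.2 hB]
        congr 2
        ring

end Pool.Agent.H15P
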