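import Pool.Agent.H15P.Stm

/-!
# H15P, piece VIR: the virtual graph satisfies `Hyp`
-/

set_option linter.unusedSectionVars false

open Finset
open scoped SimpleGraph

namespace Pool.Agent.H15P.VIR

open Pool.Agent.V11328 Pool.Agent.V11328.E6 Pool.Agent.H15P

variable {V : Type} [Fintype V] [DecidableEq V]

lemma mem_nb {G : SimpleGraph V} {u v : V} : u ∈ nb G v ↔ G.Adj v u := by
  simp [nb]

lemma mem_sm {G : SimpleGraph V} {d : ℝ} {v : V} :
    v ∈ sm G d ↔ (#(nb G v) : ℝ) ≤ d / 50000 := by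
  simp [sm]

lemma mem_QQ {G : SimpleGraph V} {d : ℝ} {v : V} :
    v ∈ QQ G d ↔ v ∈ sm G d ∨ ∃ u ∈ sm G d, G.Adj u v := by
  simp [QQ]

lemma hh_adj {G : SimpleGraph V} {F Ev : Finset (Sym2 V)} {U : Finset V} {a b : V} :
    (hh G F Ev U).Adj a b ↔
      ((G.deleteEdges (F : Set (Sym2 V))).Adj a b ∨ (s(a, b) ∈ Ev ∧ a ≠ b)) ∧ a ∈ U ∧ b ∈ U := by
  show ((G.deleteEdges (F : Set (Sym2 V)) ⊔ SimpleGraph.fromEdgeSet (Ev : Set (Sym2 V))).Adj a b ∧
    a ∈ U ∧ b ∈ U) ↔ _
  rw [SimpleGraph.sup_adj, SimpleGraph.fromEdgeSet_adj]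
  simp only [mem_coe]

lemma H_G {G : SimpleGraph V} {F : Finset (Sym2 V)} {a b : V}
    (h : (G.deleteEdges (F : Set (Sym2 V))).Adj a b) : G.Adj a b := ((del_adj G F a b).mp h).1

theorem s_VIR_aux : S_VIR := by
  classical
  intro V _ _ G d K F X T Z T1 T3 φ ν y hd hN hC hT1 hT3 hd12 hd13 hd23 hTu hinj hc3 hν hy
  obtain ⟨H, hH⟩ : ∃ H, H = G.deleteEdges (F : Set (Sym2 V)) := ⟨_, rfl⟩
  obtain ⟨T2, hT2⟩ : ∃ T2, T2 = T1.image φ := ⟨_, rfl⟩
  obtain ⟨Ev, hEv⟩ : ∃ Ev : Finset (Sym2 V),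
    Ev = T1.image (fun u => s(u, ν (φ u))) ∪ T3.image (fun t => s(t, y)) := ⟨_, rfl⟩
  obtain ⟨U, hU⟩ : ∃ U : Finset V, U = univ \ (X ∪ T2) := ⟨_, rfl⟩
  rw [← hT2, ← hU, ← hEv]
  rw [← hT2] at hd12 hd23 hTu
  have hHG : ∀ {a b}, H.Adj a b → G.Adj a b := fun {a b} h => by
    rw [hH] at h
    exact H_G h
  have hmU : ∀ v, v ∈ U ↔ v ∉ X ∧ v ∉ T2 := by
    intro v
    rw [hU, mem_sdiff, mem_union]
    simp
  have hφT2 : ∀ u ∈ T1, φ u ∈ T2 := fun u hu => by
    rw [hT2]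
    exact mem_image_of_mem _ hu
  have hT2T : T2 ⊆ T := by
    rw [hTu]
    exact (subset_union_right).trans subset_union_left
  have hsmT : ∀ v ∈ T, v ∈ sm G d := fun v hv => hC.Tsm hv
  have hsmQ : ∀ v ∈ sm G d, v ∈ QQ G d := fun v hv => mem_QQ.mpr (Or.inl hv)
  have hnsm : ∀ a b, a ∈ sm G d → G.Adj a b → b ∉ sm G d := fun a b ha hab hb =>
    hN.sep1 a ha b hb hab
  have hnQ : ∀ a b, a ∈ sm G d → G.Adj a b → b ∈ QQ G d := fun a b ha hab =>
    mem_QQ.mpr (Or.inr ⟨a, ha, hab⟩)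
  have hνG : ∀ v ∈ T, G.Adj v (ν v) := fun v hv => H_G (hν v hv).1
  have hνH : ∀ v ∈ T, H.Adj v (ν v) := fun v hv => by
    rw [hH]
    exact (hν v hv).1
  have hνsm : ∀ v ∈ T, ν v ∉ sm G d := fun v hv => hnsm v _ (hsmT v hv) (hνG v hv)
  have hνQ : ∀ v ∈ T, ν v ∈ QQ G d := fun v hv => hnQ v _ (hsmT v hv) (hνG v hv)
  have hνU : ∀ v ∈ T, ν v ∈ U := fun v hv => (hmU _).mpr ⟨(hν v hv).2, fun h =>
    hνsm v hv (hsmT _ (hT2T h))⟩
  have hyQ : ∀ t ∈ T3, y ∉ QQ G d := fun t ht => (hy ⟨t, ht⟩).1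
  have hysm : ∀ t ∈ T3, y ∉ sm G d := fun t ht h => hyQ t ht (hsmQ y h)
  have hyU : ∀ t ∈ T3, y ∈ U := fun t ht => (hmU _).mpr ⟨(hy ⟨t, ht⟩).2, fun h =>
    hysm t ht (hsmT _ (hT2T h))⟩
  have hadj : ∀ {a b}, (hh G F Ev U).Adj a b ↔
      (H.Adj a b ∨ (s(a, b) ∈ Ev ∧ a ≠ b)) ∧ a ∈ U ∧ b ∈ U := by
    intro a b
    rw [hH]
    exact hh_adj
  have hmEv : ∀ a b, s(a, b) ∈ Ev ↔ (a ∈ T1 ∧ b = ν (φ a)) ∨ (b ∈ T1 ∧ a = ν (φ b)) ∨
      (a ∈ T3 ∧ b = y) ∨ (b ∈ T3 ∧ a = y) := by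
    intro a b
    rw [hEv, mem_union, mem_image, mem_image]
    constructor
    · rintro (⟨u, hu, he⟩ | ⟨t, ht, he⟩)
      · rw [Sym2.eq_iff] at he
        rcases he with ⟨e1, e2⟩ | ⟨e1, e2⟩
        · subst e1
          exact Or.inl ⟨hu, e2.symm⟩
        · subst e1
          exact Or.inr (Or.inl ⟨hu, e2.symm⟩)
      · rw [Sym2.eq_iff] at he
        rcases he with ⟨e1, e2⟩ | ⟨e1, e2⟩
        · subst e1
          exact Or.inr (Or.inr (Or.inl ⟨ht, e2.symm⟩))
        · subst e1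
          exact Or.inr (Or.inr (Or.inr ⟨ht, e2.symm⟩))
    · rintro (⟨h1, h2⟩ | ⟨h1, h2⟩ | ⟨h1, h2⟩ | ⟨h1, h2⟩)
      · exact Or.inl ⟨a, h1, by rw [h2]⟩
      · exact Or.inl ⟨b, h1, by rw [h2, Sym2.eq_swap]⟩
      · exact Or.inr ⟨a, h1, by rw [h2]⟩
      · exact Or.inr ⟨b, h1, by rw [h2, Sym2.eq_swap]⟩
  -- fact (1)
  have f1 : ∀ a b, a ∈ sm G d → (hh G F Ev U).Adj a b →
      H.Adj a b ∨ (a ∈ T1 ∧ b = ν (φ a)) ∨ (a ∈ T3 ∧ b = y) := by
    intro a b ha hab
    rcases (hadj.mp hab).1 with h | ⟨h, _⟩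
    · exact Or.inl h
    rcases (hmEv a b).mp h with h | h | h | h
    · exact Or.inr (Or.inl h)
    · exfalso
      rw [h.2] at ha
      exact hνsm _ (hT2T (hφT2 b h.1)) ha
    · exact Or.inr (Or.inr h)
    · exfalso
      rw [h.2] at ha
      exact hysm b h.1 ha
  have hXT2 : #(X ∪ T2) ≤ 2 * K := by
    refine (card_union_le _ _).trans ?_
    have h1 := hC.hX
    have h2 := (card_le_card hT2T).trans hC.hT
    omega
  have hsub : ∀ v, v ∈ U → nb H v \ (X ∪ T2) ⊆ nb (restr H U) v := by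
    intro v hv w hw
    rw [mem_sdiff, mem_nb, mem_union] at hw
    rw [mem_nb]
    exact ⟨hw.1, hv, (hmU w).mpr ⟨fun h => hw.2 (Or.inl h), fun h => hw.2 (Or.inr h)⟩⟩
  have hsub' : ∀ v, v ∈ U → nb (restr H U) v ⊆ nb (hh G F Ev U) v := by
    intro v hv w hw
    rw [mem_nb] at hw ⊢
    exact hadj.mpr ⟨Or.inl hw.1, hw.2⟩
  have hcard : ∀ v, v ∈ U → #(nb H v) ≤ #(nb (restr H U) v) + 2 * K := by
    intro v hv
    have h1 := card_le_card (hsub v hv)
    have h2 := le_card_sdiff (X ∪ T2) (nb H v)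
    omega
  have hT1U : ∀ u ∈ T1, u ∉ T2 := fun u hu h => (disjoint_left.mp hd12) hu h
  have hne : ∀ u ∈ T1, u ≠ φ u := fun u hu h => hT1U u hu (by
    rw [h]
    exact hφT2 u hu)
  refine ⟨?_, ?_, ?_, ?_, ?_, ?_, ?_, ?_, ?_, ?_⟩
  · refine hC.hF.trans ?_
    push_cast
    have h1 : (0 : ℝ) ≤ K * d := mul_nonneg (Nat.cast_nonneg _) hd
    linarith
  · rw [hEv]
    refine (card_union_le _ _).trans ?_
    have h1 : #(T1.image (fun u => s(u, ν (φ u)))) ≤ #T1 := card_image_le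
    have h2 : #(T3.image (fun t => s(t, y))) ≤ #T3 := card_image_le
    have h3 : #T1 + #T3 ≤ #T := by
      rw [← card_union_of_disjoint hd13]
      exact card_le_card (union_subset hT1 hT3)
    have h4 := hC.hT
    omega
  · have h1 : univ \ U = X ∪ T2 := by
      ext v
      rw [mem_sdiff, hmU, mem_union]
      simp only [mem_univ, true_and]
      tauto
    rw [h1]
    exact hXT2
  · have h1 := hC.hZ
    omega
  · intro v hv hvs hvZ
    have h1 := hC.large v ((hmU v).mp hv).1 hvs hvZ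
    rw [← hH] at h1
    rw [← hH]
    have h2 : (#(nb H v) : ℝ) ≤ #(nb (restr H U) v) + 2 * K := by exact_mod_cast hcard v hv
    push_cast
    linarith
  · intro v hv hvs hvZ
    have h1 := hC.zlarge v ((hmU v).mp hv).1 hvs hvZ
    rw [← hH] at h1
    have h2 := hcard v hv
    have h3 := card_le_card (hsub' v hv)
    omega
  · intro v hv hvs
    have hvU := (hmU v).mp hv
    by_cases hvT : v ∈ T
    · have hvT' := hvT
      rw [hTu, mem_union, mem_union] at hvT'
      rcases hvT' with (h | h) | h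
      · have hφT := hT2T (hφT2 v h)
        have hne2 : ν v ≠ ν (φ v) := by
          intro he
          refine hN.sep2 v hvs (φ v) (hsmT _ hφT) (hne v h) (ν v) ⟨hνG v hvT, ?_⟩
          rw [he]
          exact hνG _ hφT
        have h3 : ({ν v, ν (φ v)} : Finset V) ⊆ nb (hh G F Ev U) v := by
          intro w hw
          rw [mem_insert, mem_singleton] at hw
          rw [mem_nb]
          rcases hw with rfl | rfl
          · exact hadj.mpr ⟨Or.inl (hνH v hvT), hv, hνU v hvT⟩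
          · refine hadj.mpr ⟨Or.inr ⟨(hmEv _ _).mpr (Or.inl ⟨h, rfl⟩), ?_⟩, hv, hνU _ hφT⟩
            intro he
            exact hνsm _ hφT (by rw [← he]; exact hvs)
        have h4 := card_le_card h3
        rw [card_pair hne2] at h4
        exact h4
      · exact absurd h hvU.2
      · have hne2 : ν v ≠ y := by
          intro he
          exact hyQ v h (by rw [← he]; exact hνQ v hvT)
        have h3 : ({ν v, y} : Finset V) ⊆ nb (hh G F Ev U) v := by
          intro w hw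
          rw [mem_insert, mem_singleton] at hw
          rw [mem_nb]
          rcases hw with hw | hw
          · rw [hw]
            exact hadj.mpr ⟨Or.inl (hνH v hvT), hv, hνU v hvT⟩
          · rw [hw]
            refine hadj.mpr ⟨Or.inr ⟨(hmEv _ _).mpr (Or.inr (Or.inr (Or.inl ⟨h, rfl⟩))), ?_⟩, hv,
              hyU v h⟩
            intro he
            exact hysm v h (by rw [← he]; exact hvs)
        have h4 := card_le_card h3
        rw [card_pair hne2] at h4
        exact h4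
    · have h1 := hC.two v hvU.1 hvT
      rw [← hH] at h1
      refine h1.trans (card_le_card ?_)
      intro w hw
      rw [mem_sdiff, mem_nb] at hw
      rw [mem_nb]
      refine hadj.mpr ⟨Or.inl hw.1, hv, (hmU w).mpr ⟨hw.2, fun h => ?_⟩⟩
      exact hnsm v w hvs (hHG hw.1) (hsmT _ (hT2T h))
  · intro u hu v hv huv
    rcases f1 u v hu huv with h | h | h
    · exact hnsm u v hu (hHG h) hv
    · rw [h.2] at hv
      exact hνsm _ (hT2T (hφT2 u h.1)) hv
    · rw [h.2] at hv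
      exact hysm u h.1 hv
  · have key : ∀ u ∈ sm G d, ∀ v ∈ sm G d, u ∈ U → u ≠ v → ∀ w, H.Adj u w →
        ¬ ((v ∈ T1 ∧ w = ν (φ v)) ∨ (v ∈ T3 ∧ w = y)) := by
      rintro u hu v hv huU huv w huw (⟨h1, h2⟩ | ⟨h1, h2⟩)
      · have hφT := hT2T (hφT2 v h1)
        by_cases he : u = φ v
        · apply ((hmU u).mp huU).2
          rw [he]
          exact hφT2 v h1
        · refine hN.sep2 u hu (φ v) (hsmT _ hφT) he w ⟨hHG huw, ?_⟩
          rw [h2]
          exact hνG _ hφT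
      · rw [h2] at huw
        exact hyQ v h1 (hnQ u y hu (hHG huw))
    intro u hu v hv huv w
    rintro ⟨h1, h2⟩
    have huU := (hadj.mp h1).2.1
    have hvU := (hadj.mp h2).2.1
    rcases f1 u w hu h1 with a1 | a1
    · rcases f1 v w hv h2 with b1 | b1
      · exact hN.sep2 u hu v hv huv w ⟨hHG a1, hHG b1⟩
      · exact key u hu v hv huU huv w a1 b1
    · rcases f1 v w hv h2 with b1 | b1
      · exact key v hv u hu hvU huv.symm w b1 a1
      · rcases a1 with ⟨a1, a2⟩ | ⟨a1, a2⟩ <;> rcases b1 with ⟨b1, b2⟩ | ⟨b1, b2⟩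
        · have hφu := hT2T (hφT2 u a1)
          have hφv := hT2T (hφT2 v b1)
          by_cases he : φ u = φ v
          · exact huv (hinj u a1 v b1 he)
          · refine hN.sep2 (φ u) (hsmT _ hφu) (φ v) (hsmT _ hφv) he w ⟨?_, ?_⟩
            · rw [a2]
              exact hνG _ hφu
            · rw [b2]
              exact hνG _ hφv
        · apply hyQ v b1
          rw [← b2, a2]
          exact hνQ _ (hT2T (hφT2 u a1))
        · apply hyQ u a1
          rw [← a2, b2]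
          exact hνQ _ (hT2T (hφT2 v b1))
        · exact huv (card_le_one.mp hc3 u a1 v b1)
  · intro v hv hvs
    obtain ⟨A, hA⟩ : ∃ A : Finset V, A = univ.filter (fun w => G.Adj v w ∧ w ∈ QQ G d) := ⟨_, rfl⟩
    obtain ⟨B, hB⟩ : ∃ B : Finset V, B = T1.filter (fun u => v = ν (φ u)) := ⟨_, rfl⟩
    have hA1 : #A ≤ 1 := by
      rw [card_le_one]
      intro x hx x' hx'
      rw [hA, mem_filter] at hx hx'
      exact hN.sep3 v hvs x hx.2.2 x' hx'.2.2 hx.2.1 hx'.2.1
    have hB1 : #B ≤ 1 := by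
      rw [card_le_one]
      intro x hx x' hx'
      rw [hB, mem_filter] at hx hx'
      have h1 := hT2T (hφT2 x hx.1)
      have h2 := hT2T (hφT2 x' hx'.1)
      by_cases he : φ x = φ x'
      · exact hinj x hx.1 x' hx'.1 he
      · exfalso
        refine hN.sep2 (φ x) (hsmT _ h1) (φ x') (hsmT _ h2) he v ⟨?_, ?_⟩
        · rw [hx.2]
          exact hνG _ h1
        · rw [hx'.2]
          exact hνG _ h2
    have hS : univ.filter (fun w => (hh G F Ev U).Adj v w ∧
        (w ∈ sm G d ∨ ∃ u ∈ sm G d, (hh G F Ev U).Adj u w)) ⊆ A ∪ ({y} ∪ (B ∪ T3)) := by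
      intro w hw
      rw [mem_filter] at hw
      obtain ⟨_, h1, h2⟩ := hw
      rw [mem_union, mem_union, mem_union, mem_singleton]
      have hQ : w ∈ QQ G d ∨ w = y := by
        rcases h2 with h2 | ⟨u, hu, h2⟩
        · exact Or.inl (hsmQ w h2)
        · rcases f1 u w hu h2 with h3 | h3 | h3
          · exact Or.inl (hnQ u w hu (hHG h3))
          · left
            rw [h3.2]
            exact hνQ _ (hT2T (hφT2 u h3.1))
          · exact Or.inr h3.2
      rcases (hadj.mp h1).1 with h | ⟨h, _⟩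
      · rcases hQ with hQ | hQ
        · left
          rw [hA, mem_filter]
          exact ⟨mem_univ _, hHG h, hQ⟩
        · exact Or.inr (Or.inl hQ)
      · rcases (hmEv v w).mp h with h | h | h | h
        · exact absurd (hsmT _ (hT1 h.1)) hvs
        · right; right; left
          rw [hB, mem_filter]
          exact h
        · exact absurd (hsmT _ (hT3 h.1)) hvs
        · exact Or.inr (Or.inr (Or.inr h.1))
    refine le_trans (le_of_eq ?_) ((card_le_card hS).trans ?_)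
    · congr 1
    · have c1 := card_union_le A ({y} ∪ (B ∪ T3))
      have c2 := card_union_le {y} (B ∪ T3)
      have c3 := card_union_le B T3
      have c4 : #({y} : Finset V) = 1 := card_singleton y
      omega

end Pool.Agent.H15P.VIR

namespace Pool.Agent.H15P

theorem s_VIR : S_VIR := VIR.s_VIR_aux

end Pool.Agent.H15P
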