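import Pool.Agent.H15P.POS
import Pool.Agent.H15P.BOO
import Pool.Agent.H15P.ITE
import Pool.Agent.H15P.HIT
import Pool.Agent.H15P.SEL
import Pool.Agent.H15P.EXN
import Pool.Agent.H15P.HTM
import Pool.Agent.H15P.INS
import Pool.Agent.H15P.MIN
import Pool.Agent.H15P.PCV
import Pool.Agent.H15P.ATT
import Pool.Agent.H15P.VIR
import Pool.Agent.H15P.COV
import Pool.Agent.H15P.BCD
import Pool.Agent.H15P.GAP
import Pool.Agent.H15P.CA1
import Pool.Agent.H15P.CA2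
import Pool.Agent.H15P.DET
import Pool.Agent.H15P.TAI
import Pool.Agent.H15P.PMX
import Pool.Agent.H15P.PSA
import Pool.Agent.H15P.PSC
import Pool.Agent.H15P.SED
import Pool.Agent.H15P.PSP
import Pool.Agent.H15P.PDN
import Pool.Agent.H15P.PMI
import Pool.Agent.H15P.PBO
import Pool.Agent.H15P.PNI
import Pool.Agent.H15P.FIN

/-! All pieces together. -/

namespace Pool.Agent.H15P

theorem m_HTM : S_HTM := s_HTM (s_BOO s_POS) s_ITE (s_SEL s_HIT) s_EXN

theorem m_COV : S_COV := s_COV m_HTM s_VIR s_MIN s_PCV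

theorem m_DET : S_DET := s_DET s_BCD s_GAP (s_CA1 m_COV s_BCD) (s_CA2 m_COV s_ATT s_BCD)

theorem m_PNI : S_PNI :=
  s_PNI (s_PMX s_TAI) (s_PSA s_TAI) (s_PSC s_TAI) s_SED (s_PSP s_TAI) s_PDN (s_PBO s_TAI)

theorem m_FIN : S_FIN := s_FIN m_DET m_PNI s_PMI

end Pool.Agent.H15P
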