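import Pool.Agent.H15P.Stm

/-! Piece POS: Pósa's rotation lemma. -/

open Finset
open scoped SimpleGraph

namespace Pool.Agent.H15P

open Pool.Agent.V11328 Pool.Agent.V11328.E6

namespace POS

variable {V : Type}

lemma rot_chain {r : V → V → Prop} (hr : ∀ a b, r a b → r b a) (A B : List V) (z x : V)
    (h : (A ++ z :: (B ++ [x])).IsChain r) (hzx : r z x) :
    (A ++ z :: x :: B.reverse).IsChain r := by
  have h1 : (A ++ [z]).IsChain r ∧ (z :: (B ++ [x])).IsChain r := by
    rw [List.isChain_split] at h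
    exact h
  have h2 : (B ++ [x]).IsChain r := h1.2.tail
  have h3 : (x :: B.reverse).IsChain r := by
    have h4 : (B ++ [x]).reverse.IsChain r := by
      rw [List.isChain_reverse]
      exact h2.imp (fun a b hab => hr a b hab)
    simpa using h4
  rw [List.isChain_split]
  refine ⟨h1.1, ?_⟩
  rw [List.isChain_cons_cons]
  exact ⟨hzx, h3⟩

/-- Lists reachable by rotations. -/
inductive Reach (Γ : SimpleGraph V) (P : List V) : List V → Prop
  | refl : Reach Γ P P
  | rot (A B : List V) (w x : V) : Reach Γ P (A ++ w :: (B ++ [x])) → Γ.Adj w x →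
      Reach Γ P (A ++ w :: x :: B.reverse)

lemma reach_pth {Γ : SimpleGraph V} {P Q : List V} (hP : IsPth Γ P) (h : Reach Γ P Q) :
    IsPth Γ Q ∧ Q.head? = P.head? ∧ (∀ w, w ∈ Q ↔ w ∈ P) ∧ Q.length = P.length := by
  induction h with
  | refl => exact ⟨hP, rfl, fun _ => Iff.rfl, rfl⟩
  | rot A B w x _ hadj ih =>
    obtain ⟨⟨_, hc, hn⟩, hh, hm, hl⟩ := ih
    refine ⟨⟨by simp, rot_chain (fun a b h => h.symm) A B w x hc hadj, ?_⟩, ?_, ?_, ?_⟩
    · have hp : List.Perm (A ++ w :: x :: B.reverse) (A ++ w :: (B ++ [x])) := by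
        refine List.Perm.append_left _ (List.Perm.cons _ ?_)
        have : (x :: B.reverse) = (B ++ [x]).reverse := by simp
        rw [this]
        exact List.reverse_perm _
      exact hp.nodup_iff.2 hn
    · rw [← hh]
      cases A <;> simp
    · intro v
      rw [← hm v]
      simp only [List.mem_append, List.mem_cons, List.mem_reverse, List.not_mem_nil, or_false]
      tauto
    · rw [← hl]
      simp

open Classical in
/-- Endpoints. -/
noncomputable def RR [Fintype V] (Γ : SimpleGraph V) (P : List V) : Finset V :=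
  univ.filter (fun v => ∃ Q, Reach Γ P Q ∧ Q.getLast? = some v)

lemma mem_RR [Fintype V] {Γ : SimpleGraph V} {P : List V} {v : V} :
    v ∈ RR Γ P ↔ ∃ Q, Reach Γ P Q ∧ Q.getLast? = some v := by
  simp [RR]

/-- The invariant. -/
lemma inv [Fintype V] {Γ : SimpleGraph V} {P : List V} {w : V} (hw : w ∉ RR Γ P)
    (hfree : ∀ y ∈ RR Γ P, P.IsChain (fun a b => s(a, b) ≠ s(w, y))) {Q : List V}
    (h : Reach Γ P Q) : ∀ y, P.IsChain (fun a b => s(a, b) ≠ s(w, y)) →
      Q.IsChain (fun a b => s(a, b) ≠ s(w, y)) := by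
  induction h with
  | refl => exact fun _ h => h
  | rot A B z x hQ hadj ih =>
    intro y hy
    refine rot_chain (fun a b h => by rwa [Sym2.eq_swap]) A B z x (ih y hy) ?_
    intro heq
    have hxR : x ∈ RR Γ P := mem_RR.2 ⟨_, hQ, by
      have : (A ++ z :: (B ++ [x])) = (A ++ z :: B) ++ [x] := by simp
      rw [this, List.getLast?_concat]⟩
    rw [Sym2.eq_iff] at heq
    rcases heq with ⟨rfl, rfl⟩ | ⟨rfl, rfl⟩
    · cases B with
      | nil =>
        have := ih x hy
        rw [List.isChain_split] at this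
        have h2 := this.2
        simp at h2
      | cons b B' =>
        have hb : b ∈ RR Γ P := mem_RR.2 ⟨_, Reach.rot A (b :: B') z x hQ hadj, by
          have : (A ++ z :: x :: (b :: B').reverse) = (A ++ z :: x :: B'.reverse) ++ [b] := by simp
          rw [this, List.getLast?_concat]⟩
        have h1 := ih b (hfree b hb)
        rw [List.isChain_split] at h1
        have h2 := h1.2
        rw [List.cons_append, List.isChain_cons_cons] at h2
        exact h2.1 rfl
    · exact hw hxR

lemma nbr_card [Fintype V] [DecidableEq V] {P : List V} (hn : P.Nodup) (y : V) :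
    ∃ N : Finset V, #N ≤ 2 ∧ (P.getLast? = some y → #N ≤ 1) ∧
      ∀ w, ¬ P.IsChain (fun a b => s(a, b) ≠ s(w, y)) → w ∈ N := by
  have key : ∀ w, ¬ P.IsChain (fun a b => s(a, b) ≠ s(w, y)) → ∃ i, ∃ hi : i + 1 < P.length,
      (P[i] = w ∧ P[i + 1] = y) ∨ (P[i] = y ∧ P[i + 1] = w) := by
    intro w hw
    rw [List.isChain_iff_getElem] at hw
    push Not at hw
    obtain ⟨i, hi, h⟩ := hw
    refine ⟨i, hi, ?_⟩
    rw [Sym2.eq_iff] at h
    exact h
  by_cases hy : y ∈ P
  · obtain ⟨j, hj, hjy⟩ := List.mem_iff_getElem.1 hy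
    by_cases hlast : j + 1 = P.length
    · refine ⟨{P.getD (j - 1) y}, by simp, by simp, ?_⟩
      intro w hw
      obtain ⟨i, hi, h⟩ := key w hw
      rw [mem_singleton]
      rcases h with ⟨h1, h2⟩ | ⟨h1, h2⟩
      · have : i + 1 = j := by
          rw [← List.Nodup.getElem_inj_iff hn (hi := hi) (hj := hj), h2, hjy]
        subst this
        rw [Nat.add_sub_cancel, List.getD_eq_getElem _ _ (by omega)]
        exact h1.symm
      · have : i = j := by
          rw [← List.Nodup.getElem_inj_iff hn (hi := by omega) (hj := hj), h1, hjy]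
        omega
    · refine ⟨{P.getD (j - 1) y, P.getD (j + 1) y}, card_le_two, ?_, ?_⟩
      · intro hl
        exfalso
        have hne : P ≠ [] := by rintro rfl; simp at hj
        rw [List.getLast?_eq_some_getLast hne] at hl
        have h3 : P.getLast hne = y := by simpa using hl
        rw [List.getLast_eq_getElem] at h3
        have : P.length - 1 = j := by
          rw [← List.Nodup.getElem_inj_iff hn (hi := by omega) (hj := hj), h3, hjy]
        omega
      · intro w hw
        obtain ⟨i, hi, h⟩ := key w hw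
        rw [mem_insert, mem_singleton]
        rcases h with ⟨h1, h2⟩ | ⟨h1, h2⟩
        · have : i + 1 = j := by
            rw [← List.Nodup.getElem_inj_iff hn (hi := hi) (hj := hj), h2, hjy]
          subst this
          left
          rw [Nat.add_sub_cancel, List.getD_eq_getElem _ _ (by omega)]
          exact h1.symm
        · have : i = j := by
            rw [← List.Nodup.getElem_inj_iff hn (hi := by omega) (hj := hj), h1, hjy]
          subst this
          right
          rw [List.getD_eq_getElem _ _ hi]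
          exact h2.symm
  · refine ⟨∅, by simp, by simp, ?_⟩
    intro w hw
    exfalso
    obtain ⟨i, hi, h⟩ := key w hw
    rcases h with ⟨_, h2⟩ | ⟨h1, _⟩
    · exact hy (h2 ▸ List.getElem_mem _)
    · exact hy (h1 ▸ List.getElem_mem _)

end POS

open POS in
theorem s_POS : S_POS := by
  classical
  intro V _ _ Γ U r hE P a hP hPU hlen ha
  set R := RR Γ P with hR
  have hlp : ∀ Q : List V, IsPth Γ Q → (∀ v ∈ Q, v ∈ U) → Q.length ≤ lp Γ U := by
    intro Q hQ hQU
    refine le_csSup ⟨#U, ?_⟩ ⟨Q, hQ, hQU, rfl⟩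
    rintro m ⟨Q', hQ', hQU', rfl⟩
    rw [← List.toFinset_card_of_nodup hQ'.2.2]
    exact card_le_card (fun v hv => hQU' v (by simpa using hv))
  -- the main inclusion
  have hmain : ∀ w ∈ nbh Γ R, ∃ y ∈ R, ¬ P.IsChain (fun a b => s(a, b) ≠ s(w, y)) := by
    intro w hw
    simp only [nbh, mem_filter, mem_univ, true_and] at hw
    obtain ⟨hwR, v, hvR, hadj⟩ := hw
    by_contra hcon
    push Not at hcon
    have hinv := fun Q (hQ : Reach Γ P Q) => inv (Q := Q) hwR hcon hQ
    obtain ⟨Q, hQ, hQv⟩ := mem_RR.1 hvR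
    obtain ⟨hQp, hQh, hQm, hQl⟩ := reach_pth hP hQ
    have hwv : w ≠ v := fun h => hwR (h ▸ hvR)
    obtain ⟨Q0, rfl⟩ : ∃ Q0, Q = Q0 ++ [v] := by
      obtain ⟨Q0, hQ0⟩ := List.getLast?_eq_some_iff.1 hQv
      exact ⟨Q0, hQ0⟩
    have hwQ : w ∈ Q0 ++ [v] := by
      by_contra hwQ
      have hpth : IsPth Γ ((Q0 ++ [v]) ++ [w]) := by
        refine ⟨by simp, ?_, ?_⟩
        · rw [List.isChain_append]
          refine ⟨hQp.2.1, List.isChain_singleton _, ?_⟩
          intro x hx y hy
          simp at hx hy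
          subst hx hy
          exact hadj
        · rw [List.nodup_append]
          refine ⟨hQp.2.2, by simp, ?_⟩
          intro x hx y hy
          simp only [List.mem_singleton] at hy
          rintro rfl
          exact hwQ (hy ▸ hx)
      have := hlp _ hpth (by
        intro x hx
        rw [List.mem_append] at hx
        rcases hx with hx | hx
        · exact hPU x ((hQm x).1 hx)
        · rw [List.mem_singleton] at hx
          rw [hx]
          exact hE.supp _ _ hadj.symm)
      rw [List.length_append, hQl, hlen] at this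
      simp at this
    have hwQ0 : w ∈ Q0 := by
      rw [List.mem_append, List.mem_singleton] at hwQ
      exact hwQ.resolve_right hwv
    obtain ⟨A, B, rfl⟩ := List.append_of_mem hwQ0
    have hQ' : Reach Γ P (A ++ w :: (B ++ [v])) := by simpa using hQ
    cases B with
    | nil =>
      have h1 := hinv _ hQ' v (hcon v hvR)
      rw [List.isChain_split] at h1
      simp at h1
    | cons b B' =>
      have hb : b ∈ RR Γ P := mem_RR.2 ⟨_, Reach.rot A (b :: B') w v hQ' hadj.symm, by
        have : (A ++ w :: v :: (b :: B').reverse) = (A ++ w :: v :: B'.reverse) ++ [b] := by simp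
        rw [this, List.getLast?_concat]⟩
      have h1 := hinv _ hQ' b (hcon b hb)
      rw [List.isChain_split] at h1
      have h2 := h1.2
      rw [List.cons_append, List.isChain_cons_cons] at h2
      exact h2.1 rfl
  -- counting
  choose N hN2 hN1 hN using fun y => nbr_card (V := V) hP.2.2 y
  obtain ⟨x, hx⟩ : ∃ x, P.getLast? = some x := by
    rw [List.getLast?_eq_some_getLast hP.1]
    exact ⟨_, rfl⟩
  have hxR : x ∈ R := mem_RR.2 ⟨P, Reach.refl, hx⟩
  have hsub : nbh Γ R ⊆ R.biUnion N := by
    intro w hw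
    obtain ⟨y, hy, h⟩ := hmain w hw
    rw [mem_biUnion]
    exact ⟨y, hy, hN y w h⟩
  have hcard : #(nbh Γ R) + 1 ≤ 2 * #R := by
    have h1 := (card_le_card hsub).trans card_biUnion_le
    rw [← Finset.add_sum_erase R _ hxR] at h1
    have h2 : ∑ y ∈ R.erase x, #(N y) ≤ ∑ y ∈ R.erase x, 2 := sum_le_sum fun y _ => hN2 y
    rw [sum_const, smul_eq_mul, card_erase_of_mem hxR] at h2
    have h3 := hN1 x hx
    have h4 : 1 ≤ #R := card_pos.2 ⟨x, hxR⟩
    omega
  refine ⟨R, ?_, ?_⟩
  · by_contra hcon
    push Not at hcon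
    have hRU : R ⊆ U := by
      intro v hv
      obtain ⟨Q, hQ, hQv⟩ := mem_RR.1 hv
      obtain ⟨hQp, hQh, hQm, hQl⟩ := reach_pth hP hQ
      exact hPU v ((hQm v).1 (List.mem_of_getLast? hQv))
    have := hE.exp R hRU hcon
    omega
  · intro v hv
    obtain ⟨Q, hQ, hQv⟩ := mem_RR.1 hv
    obtain ⟨hQp, hQh, hQm, hQl⟩ := reach_pth hP hQ
    exact ⟨Q, hQp, hQh.trans ha, hQv, hQm⟩

end Pool.Agent.H15P
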