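import Pool.Agent.V11328.E6.Lim

/-!
# Project H15P (helper15): MP_e6ec33_pr, full determination of `f_k(G)` for every fixed `k`

GOAL.  For every fixed `k ≥ 2` and every `p = p(n)` above the Hamiltonicity threshold, i.e.
`n p - log n - log log n → ∞`, with high probability `f_k(G(n,p)) = minTouch k G`, the least number of
edges meeting a set of `k - 1` vertices.

This file: all definitions and the exact statements `S_XXX` of the pieces, each with its full proof in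
the docstring.  A piece `XXX` is a file `Pool/Agent/H15P/XXX.lean` (importing this file only) with
`theorem s_XXX : S_XXX` (or `theorem s_XXX (h : S_YYY) : S_XXX` where the docstring says
'assume S_YYY').  `nb`, `between`, `touching`, `minTouch`, `fk`, `pcn`, `ed`, `allE`, `gw`, `star`,
`prs` come from `Pool/Agent/V11328/Gnp.lean` and `Pool/Agent/V11328/E6/*.lean` (start files, read only),
which contain many useful lemmas (`sum_graph`, `sum_prod`, `real_event`, `chernoff_lower`,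
`star_inter`, `prs_inter`, `pcn_delete_one`, `pcn_mono`, `touching_card_le`, `fk_le`, ...).

Throughout `n = Fintype.card V`, `d` is a real number (it will be `n p`).
-/

open MeasureTheory ProbabilityTheory unitInterval Finset Filter Topology
open scoped SimpleGraph

namespace Pool.Agent.H15P

open Pool.Agent.V11328 Pool.Agent.V11328.E6

/-! ## Definitions -/

section defs

variable {V : Type} [Fintype V] [DecidableEq V]

/-- The constant `τ`. -/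
noncomputable def tau : ℝ := Real.exp (-16000000)

/-- The constant `σ = τ / 11`. -/
noncomputable def sg : ℝ := tau / 11

open Classical in
/-- Outer neighbourhood of a set of vertices. -/
noncomputable def nbh (Γ : SimpleGraph V) (S : Finset V) : Finset V :=
  univ.filter (fun v => v ∉ S ∧ ∃ u ∈ S, Γ.Adj u v)

/-- `P` is (the list of vertices of) a path of `Γ`. -/
def IsPth (Γ : SimpleGraph V) (P : List V) : Prop := P ≠ [] ∧ P.IsChain Γ.Adj ∧ P.Nodup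

/-- `Γ` has a Hamilton cycle on the vertex set `U` (only used for `3 ≤ #U`): a path with vertex set `U`
whose last vertex is adjacent to its first one. -/
def HamOn (Γ : SimpleGraph V) (U : Finset V) : Prop :=
  ∃ (P : List V) (a b : V), IsPth Γ P ∧ P.head? = some a ∧ P.getLast? = some b ∧ Γ.Adj b a ∧
    ∀ v, v ∈ P ↔ v ∈ U

/-- Number of vertices of a longest path of `Γ` inside `U`. -/
noncomputable def lp (Γ : SimpleGraph V) (U : Finset V) : ℕ :=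
  sSup {m | ∃ P : List V, IsPth Γ P ∧ (∀ v ∈ P, v ∈ U) ∧ P.length = m}

/-- The graph `Γ` with all edges not inside `U` removed. -/
def restr (Γ : SimpleGraph V) (U : Finset V) : SimpleGraph V where
  Adj u v := Γ.Adj u v ∧ u ∈ U ∧ v ∈ U
  symm := ⟨fun _ _ h => ⟨h.1.symm, h.2.2, h.2.1⟩⟩
  loopless := ⟨fun _ h => Γ.irrefl h.1⟩

/-- Adding one pair to the edge set. -/
def addE (Γ : SimpleGraph V) (e : Sym2 V) : SimpleGraph V := Γ ⊔ SimpleGraph.fromEdgeSet {e}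

open Classical in
/-- The boosters of `Γ` in `U`: the non-edges inside `U` whose addition creates a Hamilton cycle on `U`
or a path inside `U` longer than all those of `Γ`. -/
noncomputable def bst (Γ : SimpleGraph V) (U : Finset V) : Finset (Sym2 V) :=
  univ.filter (fun e => ¬ e.IsDiag ∧ e ∉ ed Γ ∧ (∀ v ∈ e, v ∈ U) ∧
    (HamOn (addE Γ e) U ∨ lp Γ U < lp (addE Γ e) U))

/-- `Γ` lives on `U`, is connected there, and expands sets of size at most `r` by a factor 2. -/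
structure Exp (Γ : SimpleGraph V) (U : Finset V) (r : ℕ) : Prop where
  supp : ∀ u v, Γ.Adj u v → u ∈ U
  conn : ∀ S ⊆ U, S.Nonempty → S ≠ U → (nbh Γ S).Nonempty
  exp : ∀ S ⊆ U, #S ≤ r → 2 * #S ≤ #(nbh Γ S)

open Classical in
/-- Small vertices: degree at most `d / 50000`. -/
noncomputable def sm (G : SimpleGraph V) (d : ℝ) : Finset V :=
  univ.filter (fun v => (#(nb G v) : ℝ) ≤ d / 50000)

open Classical in
/-- Small vertices and their neighbours. -/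
noncomputable def QQ (G : SimpleGraph V) (d : ℝ) : Finset V :=
  univ.filter (fun v => v ∈ sm G d ∨ ∃ u ∈ sm G d, G.Adj u v)

/-- The typical properties of the random graph. -/
structure Nice (G : SimpleGraph V) (d : ℝ) (K : ℕ) : Prop where
  maxdeg : ∀ v, (#(nb G v) : ℝ) ≤ 6 * d
  sep1 : ∀ u ∈ sm G d, ∀ v ∈ sm G d, ¬ G.Adj u v
  sep2 : ∀ u ∈ sm G d, ∀ v ∈ sm G d, u ≠ v → ∀ w, ¬ (G.Adj u w ∧ G.Adj v w)
  sep3 : ∀ v, v ∉ sm G d → ∀ x ∈ QQ G d, ∀ y ∈ QQ G d, G.Adj v x → G.Adj v y → x = y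
  sparse : ∀ T : Finset V, (#T : ℝ) ≤ tau * Fintype.card V →
    (#(between G T T) : ℝ) ≤ d / 8000000 * #T
  dense : ∀ A B : Finset V, Disjoint A B → sg * Fintype.card V ≤ #A → sg * Fintype.card V ≤ #B →
    sg ^ 2 * Fintype.card V * d / 2 ≤ (#(between G A B) : ℝ)
  boost : ∀ (Γ : SimpleGraph V) (U : Finset V), #(univ \ U) ≤ K → #(ed Γ \ ed G) ≤ K →
    (#(ed Γ) : ℝ) ≤ d * Fintype.card V / 12000 →
    (Fintype.card V : ℝ) ^ 2 / 50 ≤ #(bst Γ U) →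
    d * Fintype.card V / 1000 < #(bst Γ U ∩ ed G)

/-- The graph `((G - F) + Ev)` restricted to `U`. -/
def hh (G : SimpleGraph V) (F Ev : Finset (Sym2 V)) (U : Finset V) : SimpleGraph V :=
  restr (G.deleteEdges (F : Set (Sym2 V)) ⊔ SimpleGraph.fromEdgeSet (Ev : Set (Sym2 V))) U

open Classical in
/-- Hypotheses of the Hamiltonicity theorem `S_HTM`. -/
structure Hyp (G : SimpleGraph V) (d : ℝ) (K : ℕ) (F Ev : Finset (Sym2 V)) (U Z : Finset V) :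
    Prop where
  hF : (#F : ℝ) ≤ K * d
  hE : #Ev ≤ K
  hU : #(univ \ U) ≤ K
  hZ : #Z ≤ K
  h1 : ∀ v ∈ U, v ∉ sm G d → v ∉ Z →
    d / 100000 - K ≤ (#(nb (restr (G.deleteEdges (F : Set (Sym2 V))) U) v) : ℝ)
  h2 : ∀ v ∈ U, v ∉ sm G d → v ∈ Z → 40 * K + 40 ≤ #(nb (hh G F Ev U) v)
  h3 : ∀ v ∈ U, v ∈ sm G d → 2 ≤ #(nb (hh G F Ev U) v)
  h4a : ∀ u ∈ sm G d, ∀ v ∈ sm G d, ¬ (hh G F Ev U).Adj u v
  h4b : ∀ u ∈ sm G d, ∀ v ∈ sm G d, u ≠ v → ∀ w, ¬ ((hh G F Ev U).Adj u w ∧ (hh G F Ev U).Adj v w)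
  h5 : ∀ v ∈ U, v ∉ sm G d → #(univ.filter (fun w => (hh G F Ev U).Adj v w ∧
    (w ∈ sm G d ∨ ∃ u ∈ sm G d, (hh G F Ev U).Adj u w))) ≤ 4

/-- The sparse subgraph `Γ0` selected in `hh G F Ev U`. -/
structure Sel (G : SimpleGraph V) (d : ℝ) (F Ev : Finset (Sym2 V)) (U Z : Finset V)
    (Γ0 : SimpleGraph V) : Prop where
  le : Γ0 ≤ hh G F Ev U
  big : ∀ v ∈ U, v ∉ sm G d → v ∉ Z → d / 200000 ≤ (#(nb (Γ0 ⊓ G) v) : ℝ)
  all : ∀ v w, v ∈ sm G d ∨ v ∈ Z → (hh G F Ev U).Adj v w → Γ0.Adj v w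
  hit : ∀ A B : Finset V, A ⊆ U → B ⊆ U → Disjoint A B → sg * Fintype.card V ≤ #A →
    sg * Fintype.card V ≤ #B → ∃ a ∈ A, ∃ b ∈ B, Γ0.Adj a b
  few : (#(ed Γ0) : ℝ) ≤ d * Fintype.card V / 12000 - Fintype.card V

/-- Hypotheses of the path cover theorem `S_COV` (`H = G - F`): `X` is dropped, the vertices of `T` have
exactly one `H`-neighbour outside `X`. -/
structure CovHyp (G : SimpleGraph V) (d : ℝ) (K : ℕ) (F : Finset (Sym2 V)) (X T Z : Finset V) :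
    Prop where
  hF : (#F : ℝ) ≤ K * d
  hX : #X ≤ K
  hT : #T ≤ K
  hZ : #Z ≤ K
  Tsm : T ⊆ sm G d
  TX : Disjoint T X
  one : ∀ v ∈ T, #(nb (G.deleteEdges (F : Set (Sym2 V))) v \ X) = 1
  two : ∀ v, v ∉ X → v ∉ T → 2 ≤ #(nb (G.deleteEdges (F : Set (Sym2 V))) v \ X)
  large : ∀ v, v ∉ X → v ∉ sm G d → v ∉ Z →
    d / 100000 ≤ (#(nb (G.deleteEdges (F : Set (Sym2 V))) v) : ℝ)
  zlarge : ∀ v, v ∉ X → v ∉ sm G d → v ∈ Z →
    82 * K + 40 ≤ #(nb (G.deleteEdges (F : Set (Sym2 V))) v)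

open Classical in
/-- Number of pairs of `F` containing `v`. -/
noncomputable def degF (F : Finset (Sym2 V)) (v : V) : ℕ := #(F.filter (fun e => v ∈ e))

open Classical in
/-- Vertices at which `F` contains at least half of the edges. -/
noncomputable def BB (G : SimpleGraph V) (F : Finset (Sym2 V)) : Finset V :=
  univ.filter (fun v => #(nb G v) ≤ 2 * degF F v)

open Classical in
/-- Vertices of degree at most `M`. -/
noncomputable def low (G : SimpleGraph V) (M : ℕ) : Finset V := univ.filter (fun v => #(nb G v) ≤ M)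

end defs

/-! ## Part A: Pósa rotations, boosters -/

/-- **PIECE POS** (Pósa's rotation lemma; ~250 lines, elementary, lists).

Proof.  Let `P` be as in the statement (a longest path inside `U`, first vertex `a`).  If
`P = A ++ w :: B` (as list), `B ≠ []`, `x` the last vertex and `x ∼ w`, the ROTATION of `P` at `w` is
`A ++ w :: B.reverse`: again a path of `Γ` with the same vertices and the same first vertex, its last
vertex is the old successor of `w` (= head of `B`).  Let `Reach` be the least set of lists containing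
`P` and closed under rotations (inductive predicate) and `R` the set of the last vertices of the
members of `Reach`.  Each member of `Reach` is a path in `Γ`, with first vertex `a`, with the same vertex set as
`P` and the same length.

For `w ∈ P` let `w⁻, w⁺` be its predecessor/successor in `P`.
(i) INVARIANT: for `w ∈ P`, `w ∉ R`, `w⁻ ∉ R`, `w⁺ ∉ R` (as far as they exist), and every `Q ∈ Reach`: any vertex
consecutive to `w` in `P` is consecutive to `w` in `Q` and conversely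
(consecutive = the pair occurs as `.. u, v ..` or `.. v, u ..`).  Induction on `Reach`: a rotation of `Q`
at `z` deletes exactly one consecutive pair `{z, head B}` and creates exactly one, `{z, x}`, and
`head B` (the new last vertex) and `x` (the old last vertex) are in `R`.  If `w = z`, then `head B`,
which is consecutive to `w` in `Q`, hence in `P` (induction), is in `R`: contradiction with
`w⁻, w⁺ ∉ R`.  If `w = head B` or `w = x`, then `w ∈ R`, contradiction.  So neither the deleted nor the created pair contains `w`.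
(ii) `nbh Γ R ⊆ {w : w⁻ ∈ R or w⁺ ∈ R}`: let `v ∈ R`, `w ∉ R`, `v ∼ w`, `v` the last vertex of `Q ∈ Reach`.
`w ∈ P`, otherwise `w ∈ U` (`Exp.supp`) and `Q ++ [w]` is a path in `U` of length `lp Γ U + 1`.
If `w⁻, w⁺ ∉ R`, then by (i) the successor `w'` of `w` in `Q` (it exists since `w ≠ v`) is consecutive to `w` in `P`,
so `w' ∈ {w⁻, w⁺}`; but the rotation of `Q` at `w` has last vertex `w'`, so `w' ∈ R`, a contradiction.
(iii) Hence `#(nbh Γ R) ≤ 2 #R - 1`: the maps `w ↦ w⁺`, `w ↦ w⁻` are injective, so there are at most `#R`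
vertices `w` with `w⁻ ∈ R`, but the last vertex `x` of `P` is in `R` and is not `w⁻` of any `w`, so at most
`#R - 1` of them; and at most `#R` vertices with `w⁺ ∈ R`.  If `#R ≤ r`, then `2 #R ≤ #(nbh Γ R) ≤ 2 #R - 1` by `Exp.exp`
(`R ⊆ U`), a contradiction.  So `r < #R`. (If you prefer: index `P` by a function `ℕ → V`, or use
`List.IsInfix [u, v] P`.) -/
def S_POS : Prop := ∀ (V : Type) [Fintype V] [DecidableEq V] (Γ : SimpleGraph V) (U : Finset V)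
  (r : ℕ), Exp Γ U r → ∀ (P : List V) (a : V), IsPth Γ P → (∀ v ∈ P, v ∈ U) → P.length = lp Γ U →
  P.head? = some a → ∃ R : Finset V, r < #R ∧ ∀ v ∈ R, ∃ P' : List V, IsPth Γ P' ∧
    P'.head? = some a ∧ P'.getLast? = some v ∧ ∀ w, w ∈ P' ↔ w ∈ P

/-- **PIECE BOO** (many boosters; ~200 lines; assume S_POS: `theorem s_BOO (h : S_POS) : S_BOO`).

Proof.  The set in the definition of `lp` is nonempty (`U ≠ ∅`) and bounded by `#U`, so there is a path `P`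
inside `U` with `#P = lp Γ U`.  Every vertex of `U` has at least two neighbours (`Exp.exp` for the singleton,
`r ≥ 1`), all in `U`, so `lp Γ U ≥ 3`.  Let `W` be the vertex set of `P`, `a` its first vertex; `S_POS` gives `R`, `#R ≥ r + 1`,
and for `v ∈ R` a path `P_v` from `a` to `v` with vertex set `W`; its reverse is a longest path starting at `v`;
`S_POS` again gives `R_v`, `#R_v ≥ r + 1`, and for `u ∈ R_v` a path `P_vu` with vertex set `W`, first vertex `v`,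
last vertex `u`.  CLAIM `s(v,u) ∈ bst Γ U`.  First `v ≠ u`, as `#W ≥ 3` and the list has no duplicates.
For any graph `Γ' ≥ Γ` with `Γ'.Adj u v`: if `W = U` then `HamOn Γ' U` (the list `P_vu`).  If `W ≠ U`, `Exp.conn`
gives `y ∉ W`, `y ∈ U` (supp), adjacent in `Γ` to some `w ∈ W`; write `P_vu = A ++ w :: B`; then
`y :: w :: B ++ A` (so: `y, w, B, A`, where the last vertex `u` of `w :: B` is `Γ'`-adjacent to the first vertex `v` of `A`,
or `A = []`) is a path of `Γ'` in `U` with `lp Γ U + 1` vertices.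
With `Γ' = Γ`: `Γ.Adj u v` is impossible (`¬ HamOn Γ U`, maximality).  With `Γ' = addE Γ s(v,u)`: `s(v,u)` is a booster (`lp Γ' U ≥ lp Γ U + 1`,
the set in the definition of `lp` is bounded by `#U`).
So the set of ordered pairs `{(v,u) : v ∈ R, u ∈ R_v}`, which has at least `(r+1)²` elements (`Finset.sigma`), maps
to `bst Γ U` by `(v,u) ↦ s(v,u)` with fibres of size at most 2.  Hence `(r+1)² ≤ 2 #bst`. -/
def S_BOO : Prop := ∀ (V : Type) [Fintype V] [DecidableEq V] (Γ : SimpleGraph V) (U : Finset V)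
  (r : ℕ), Exp Γ U r → 1 ≤ r → 3 ≤ #U → ¬ HamOn Γ U → (r + 1) ^ 2 ≤ 2 * #(bst Γ U)

/-- **PIECE ITE** (iteration; ~80 lines).

Proof.  `lp Γ U ≤ #U` always.  Show by strong induction on `#U - lp Γ U`: for all `Γ` with `Γ0 ≤ Γ ≤ H` and
`#(ed Γ) + lp Γ0 U ≤ #(ed Γ0) + lp Γ U` one has `HamOn H U`.  (Start: `Γ = Γ0`.)  Since `lp Γ U ≤ #U`, the hypothesis
applies to `Γ`: either `HamOn Γ U`, hence `HamOn H U` (monotone in the graph), or there is `e ∈ bst Γ U ∩ ed H`; put `Γ' = addE Γ e ≤ H`,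
`#(ed Γ') = #(ed Γ) + 1`.  Either `HamOn Γ' U`, done by monotonicity, or `lp Γ' U ≥ lp Γ U + 1` and the
induction hypothesis applies to `Γ'`. -/
def S_ITE : Prop := ∀ (V : Type) [Fintype V] [DecidableEq V] (Γ0 H : SimpleGraph V) (U : Finset V),
  Γ0 ≤ H → (∀ Γ : SimpleGraph V, Γ0 ≤ Γ → Γ ≤ H → #(ed Γ) ≤ #(ed Γ0) + #U → ¬ HamOn Γ U →
    ∃ e ∈ bst Γ U, e ∈ ed H) → HamOn H U

/-! ## Part B: the sparse expanding subgraph -/

/-- **PIECE HIT** (greedy hitting set; ~100 lines).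

Proof.  GREEDY STEP: if `T' ⊆ T` is nonempty there is `x ∈ X` with `#T' ≤ c * #{i ∈ T' : x ∈ B i}`: double counting,
`M #T' ≤ ∑_{i ∈ T'} #(B i) = ∑_{x ∈ X} #{i ∈ T' : x ∈ B i} ≤ #X * max ≤ c M max`.
HALVING: for every `T' ⊆ T` there is `Y ⊆ X`, `#Y ≤ c`, such that the set `T''` of `i ∈ T'` not hit by `Y` has `2 #T'' ≤ #T'`.
(By induction on `j ≤ c`: there is `Y_j`, `#Y_j ≤ j`, such that the set `T_j` of those not hit satisfies `2 #T_j ≤ #T'` or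
`2 c #T_j ≤ (2 c - j) #T'`; if `2 #T_j > #T'` the greedy step removes at least `#T_j / c > #T' / (2c)` indices.)
Then induction on `t`: `#T ≤ 2^(t+1)` → halve → at most `2^t` remain → `c (t+1)` more elements.  For `t = 0`:
`#T ≤ 1`: one element of `B i` (nonempty as `M ≥ 1`); note `c ≥ 1` if `T ≠ ∅` since then `0 < M ≤ #X ≤ c M`. -/
def S_HIT : Prop := ∀ (α ι : Type) [DecidableEq α] [DecidableEq ι] (X : Finset α) (T : Finset ι)
  (B : ι → Finset α) (M c t : ℕ), 1 ≤ M → (∀ i ∈ T, B i ⊆ X ∧ M ≤ #(B i)) → #X ≤ c * M →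
  #T ≤ 2 ^ t → ∃ Y ⊆ X, #Y ≤ c * (t + 1) ∧ ∀ i ∈ T, (Y ∩ B i).Nonempty

/-- **PIECE SEL** (selection of `Γ0`; ~250 lines; assume S_HIT).

Proof.  `n = card V`, `H = G.deleteEdges F`, `H_U = restr H U`.  `Γ0` has edge set `E1 ∪ E2 ∪ E3` (`SimpleGraph.fromEdgeSet`):
`E1`: for every `v ∈ U`, `v ∉ sm`, `v ∉ Z` choose (h1) a set `D_v` of exactly `⌈d/200000⌉₊` neighbours of `v` in `H_U`
(possible as `d/200000 + 1 ≤ d/100000 - K` for `d ≥ 200000 (K+1)`), and put all `s(v,w)`, `w ∈ D_v`: at most `n (d/200000 + 1)` pairs.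
`E2`: all edges of `hh G F Ev U` meeting `sm ∪ Z`: each is in `Ev` (`≤ K`) or an edge of `G` at `sm` or at `Z`.
Edges of `G` at `sm`: `≤ ∑_{v ∈ sm} deg v ≤ n`, because the sets `nb G v`, `v ∈ sm`, are pairwise disjoint (`sep2`).  Edges of `G` at `Z`: `≤ #Z * 6 d ≤ 6 K d` (`maxdeg`).
`E3`: a hitting set from `S_HIT` with `X = ed H_U`, index set `T` = all pairs `(A,B)` of disjoint subsets of `U` with
`sg n ≤ #A, #B`, `B (A,B) = between H_U A B`, `t = 2 n` (`#T ≤ 2^n 2^n`), `M = ⌈sg² n d / 4⌉₊ ≥ 1`, `c = ⌈24 / sg²⌉₊ + 1`.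
`between H_U A B ⊇ between G A B \ F` for `A, B ⊆ U`, so it has at least `sg² n d / 2 - K d ≥ sg² n d / 4` elements
(`dense`, `hF`; `n ≥ 4 K / sg²`); `#X ≤ #(ed G) ≤ 6 d n` (`maxdeg`; every edge is `s(v,w)`, `w ∈ nb G v`), so `#X ≤ c M`.  So `#E3 ≤ c (2 n + 1)`.
Everything is in `hh G F Ev U` and not a loop.  `big`: `D_v ⊆ nb (Γ0 ⊓ G) v`.  `few`:
`n (d/200000 + 1) + K + n + 6 K d + c (2 n + 1) ≤ d n / 12000 - n` for `n ≥ n0(K)` and `d ≥ d0(K)`: indeed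
`1/12000 - 1/200000 > 1/13000`, `6 K d ≤ d n / 26000` for `n ≥ 156000 K`, and `3 n + K + c (2 n + 1) ≤ n (3 + K + 3 c) ≤ d n / 26000` for
`d ≥ 26000 (3 + K + 3 c)`. -/
def S_SEL : Prop := ∀ K : ℕ, ∃ (d0 : ℝ) (n0 : ℕ), ∀ (V : Type) [Fintype V] [DecidableEq V]
  (G : SimpleGraph V) (d : ℝ) (F Ev : Finset (Sym2 V)) (U Z : Finset V), d0 ≤ d →
  n0 ≤ Fintype.card V → Nice G d K → Hyp G d K F Ev U Z →
  ∃ Γ0 : SimpleGraph V, Sel G d F Ev U Z Γ0

/-- **PIECE EXN** (expansion; ~250 lines).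

Proof.  `n0 = 5 K + 10`, `n = card V`, `H^ = hh G F Ev U`, all neighbourhoods in `Γ0`, `N = nbh Γ0`.  `sg < 1/100`.
`supp`: from `Sel.le` and the definition of `hh`.
`exp`, `#S ≤ n / 5` (natural division), `S ≠ ∅`.
CASE 1, `sg n ≤ #S`.  Let `B = U \ (S ∪ N S)`.  No edge of `Γ0` between `S` and `B`, so `#B < sg n` by `Sel.hit`.  Hence
`#(N S) ≥ #U - #S - #B > n - K - n/5 - n/100 ≥ 2 n / 5 ≥ 2 #S` as `K ≤ n / 5`.
CASE 2, `#S < sg n`.  `S_s = S ∩ sm`, `S_1 = S \ sm \ Z`, `S_2 = (S \ sm) ∩ Z`, `S_l = S_1 ∪ S_2`.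
(a) `10 #S_1 ≤ #(N S_1)`: otherwise `S_1 ≠ ∅`, `T = S_1 ∪ N S_1` has `#T < 11 #S_1 ≤ 11 sg n = tau n`; all edges of `Γ0 ⊓ G` at `S_1` are in
`between G T T`; their number is at least `(1/2) ∑_{v ∈ S_1} #(nb (Γ0 ⊓ G) v) ≥ d/400000 * #S_1` (`big`; map the pairs `(v,w)` to `s(v,w)`, fibres of size `≤ 2`);
`sparse` gives `≤ d/8000000 * #T ≤ 11 d/8000000 * #S_1 < d/400000 * #S_1` (`d > 0`), a contradiction.
(b) `7 #S_l ≤ #(N S_l)`: `N S_l ⊇ N S_1 \ S_2`, so `#(N S_l) ≥ 10 #S_1 - #S_2`, enough if `8 #S_2 ≤ 3 #S_1`.  Otherwise `3 #S_1 < 8 #S_2 ≤ 8 K`, `S_2 ≠ ∅`,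
take `z ∈ S_2`: `#(nb Γ0 z) = #(nb H^ z) ≥ 40 K + 40` (`all`, `h2`), so `#(N S_l) ≥ 40 K + 40 - #S_l` and `8 #S_l ≤ 8 (8K/3 + K) ≤ 40 K + 40`.
(c) `N S_s` has at least `2 #S_s` elements, none of them in `sm`: `h3`, `h4a`, `h4b` and `all` (the sets `nb Γ0 v = nb H^ v`, `v ∈ S_s`, are pairwise disjoint
and disjoint from `sm`).
(d) Every `v ∈ S_l` has at most 4 neighbours in `S_s ∪ N S_s` (`h5`, `Γ0 ≤ H^`).
(e) `N S ⊇ (N S_s \ S_l) ∪ (N S_l \ (S_s ∪ N S_s))`, a disjoint union, hence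
`#(N S) ≥ (2 #S_s - #S_l) + (#(N S_l) - 4 #S_l) ≥ 2 #S_s + 2 #S_l = 2 #S`.
`conn`: `S ⊆ U`, `S ≠ ∅`, `S ≠ U`.  If `#S ≤ n/5`, use `exp`.  If `#(U \ S) ≤ n/5`, `N (U \ S)` is nonempty (`exp`), contained in `S` (supp), so there is an edge between `S` and
`U \ S`.  Otherwise both have more than `n / 5`, i.e. at least `n/5` (real) `≥ sg n`, elements; use `hit`. -/
def S_EXN : Prop := ∀ K : ℕ, ∃ n0 : ℕ, ∀ (V : Type) [Fintype V] [DecidableEq V]
  (G : SimpleGraph V) (d : ℝ) (F Ev : Finset (Sym2 V)) (U Z : Finset V) (Γ0 : SimpleGraph V), 0 < d →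
  n0 ≤ Fintype.card V → Nice G d K → Hyp G d K F Ev U Z → Sel G d F Ev U Z Γ0 →
  Exp Γ0 U (Fintype.card V / 5)

/-- **PIECE HTM** (Hamiltonicity; ~120 lines; assume S_BOO, S_ITE, S_SEL, S_EXN).

Proof.  `n = card V`, `n0 ≥ 10, 2 K + 10, 1000 K + 1` and the bounds of SEL, EXN; `d0 ≥ 1` and the bound of SEL.  Take `Γ0` from `S_SEL`; `Exp Γ0 U (n/5)` by `S_EXN`.
Apply `S_ITE` with `H = hh G F Ev U`.  Let `Γ0 ≤ Γ ≤ H`, `#(ed Γ) ≤ #(ed Γ0) + #U`, `¬ HamOn Γ U`.  Then `#(ed Γ) ≤ d n / 12000` (`few`, `#U ≤ n`).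
`Exp Γ U (n/5)`: `supp` from `Γ ≤ H`, the rest is monotone (`nbh Γ0 S ⊆ nbh Γ S`).  `S_BOO` (`1 ≤ n/5`, `3 ≤ #U`): `(n/5 + 1)² ≤ 2 #bst`, so `n²/50 ≤ #bst`
(`n/5 + 1 > n/5` real).  `ed Γ \ ed G ⊆ Ev`, so `≤ K`; `boost`: `d n/1000 < #(bst Γ U ∩ ed G)`.  As `#F ≤ K d ≤ d n / 1000`, some `e ∈ bst Γ U ∩ ed G` is not in `F`.
Its ends are in `U`, so `e ∈ ed H`. -/
def S_HTM : Prop := ∀ K : ℕ, ∃ (d0 : ℝ) (n0 : ℕ), ∀ (V : Type) [Fintype V] [DecidableEq V]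
  (G : SimpleGraph V) (d : ℝ) (F Ev : Finset (Sym2 V)) (U Z : Finset V), d0 ≤ d →
  n0 ≤ Fintype.card V → Nice G d K → Hyp G d K F Ev U Z → HamOn (hh G F Ev U) U

/-! ## Part C: path covers -/

/-- **PIECE INS** (insertion of a vertex into a Hamilton cycle; ~130 lines, lists).

Proof.  Let `P` be the list of `HamOn Γ U`, cyclically: `P = A ++ u :: B`, so the cyclic list `u :: B ++ A` (rotation at `u`) is again a path
with vertex set `U` whose last vertex is adjacent to its first vertex `u` (if `A = []` it is `P`; otherwise the junction `B-A`, or `u-A` if `B = []`, is the closing edge of `P`).  It has length `≥ 3`: write it as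
`u :: y :: C ++ [y']`; then `y, y'` are neighbours of `u`, `y ≠ y'`, so `{y, y'} = {w, x}`.  If `y = x`, then the list `x :: C ++ [w] ++ [u]`
(the tail followed by `u`) is a path with vertex set `U`, from `x` to `u`, not using the pair `s(u,x)` (its only consecutive pair containing `u` is `s(w,u)`, `w ≠ x`).
If `y' = x`, take the reverse `x :: C.reverse ++ [w] ++ [u]`.  In both cases all consecutive pairs are edges of `Γ'`; appending `z` (`Γ'.Adj u z`) gives a path of `Γ'` with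
vertex set `insert z U`, first vertex `x`, last vertex `z`, and `Γ'.Adj z x`. -/
def S_INS : Prop := ∀ (V : Type) [Fintype V] [DecidableEq V] (Γ Γ' : SimpleGraph V) (U : Finset V)
  (u w x z : V), HamOn Γ U → 3 ≤ #U → u ∈ U → z ∉ U → w ≠ x → (∀ y, Γ.Adj u y → y = w ∨ y = x) →
  (∀ a b, Γ.Adj a b → s(a, b) ≠ s(u, x) → Γ'.Adj a b) → Γ'.Adj u z → Γ'.Adj z x →
  HamOn Γ' (insert z U)

/-- **PIECE MIN** (several insertions; ~120 lines; assume S_INS).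

Proof.  Induction on `T1` (generalizing `Γ`, `U`).  `T1 = ∅`: `Γ ≤ Γ'`.  Step `insert u T1`: let `Γ1` be the graph with
`Γ1.Adj a b ↔ (Γ.Adj a b ∧ s(a,b) ≠ s(u, x u)) ∨ (a ≠ b ∧ (s(a,b) = s(u, φ u) ∨ s(a,b) = s(φ u, x u)))`.  `S_INS`: `HamOn Γ1 (insert (φ u) U)`.
For `u' ∈ T1`: `u' ≠ u`, `u' ≠ x u` (`x u ∉ T1`-hypothesis), `u' ≠ φ u` (`φ u ∉ U`), so `Γ1.Adj u' y → Γ.Adj u' y`; `φ u' ∉ insert (φ u) U` by injectivity.  Apply the induction
hypothesis to `Γ1`, `insert (φ u) U`, `T1`; its hypothesis on `Γ'`: an edge of `Γ1` which is none of the `s(u', x u')` is an edge of `Γ'`. -/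
def S_MIN : Prop := ∀ (V : Type) [Fintype V] [DecidableEq V] (Γ' : SimpleGraph V)
  (φ w x : V → V) (T1 : Finset V) (Γ : SimpleGraph V) (U : Finset V),
  HamOn Γ U → 3 ≤ #U → T1 ⊆ U → (∀ u ∈ T1, φ u ∉ U) → (∀ u ∈ T1, ∀ v ∈ T1, φ u = φ v → u = v) →
  (∀ u ∈ T1, w u ≠ x u) → (∀ u ∈ T1, x u ∉ T1) →
  (∀ u ∈ T1, ∀ y, Γ.Adj u y → y = w u ∨ y = x u) →
  (∀ a b, Γ.Adj a b → (∀ u ∈ T1, s(a, b) ≠ s(u, x u)) → Γ'.Adj a b) →
  (∀ u ∈ T1, Γ'.Adj u (φ u) ∧ Γ'.Adj (φ u) (x u)) → HamOn Γ' (U ∪ T1.image φ)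

/-- **PIECE PCV** (path covers from a Hamilton cycle; ~130 lines).

Proof.  If `E = ∅`: the list of `HamOn` and the singletons of `X` (`pcn_le_one_list`) give `pcn ≤ #X + 1`.  If `e ∈ E`: `pcn (Γ.deleteEdges {e}) ≤ #X + 1`:
let `P` be the list (length `≥ 3`).  If `e` is not a consecutive pair of `P`, `P` is a path of `Γ - e`.  If `P = A ++ a :: b :: B` with `e = s(a,b)`, the list `b :: B ++ A ++ [a]` is a path of `Γ - e`
(junction `B-A` is the closing pair of `P`, not `e`: the closing pair is `s(last, head)` and `P` has no duplicates and length `≥ 3`; if `B = []` then the closing pair is `s(b, head A)`, if `A = []` it is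
`s(last B, a)`).  Use `pcn_le_one_list` again.  The remaining `#E - 1` pairs raise `pcn` by at most one each (`pcn_delete_one`, `deleteEdges_deleteEdges`), so `pcn ≤ #X + #E`. -/
def S_PCV : Prop := ∀ (V : Type) [Fintype V] [DecidableEq V] (Γ : SimpleGraph V) (X : Finset V)
  (E : Finset (Sym2 V)), HamOn Γ (univ \ X) → 3 ≤ #(univ \ X) →
  pcn (Γ.deleteEdges (E : Set (Sym2 V))) ≤ #X + max 1 #E

/-- **PIECE ATT** (~100 lines).

Proof.  Let `C` be the Hamilton cycle (list) on `univ \ X`.  If `u ∉ X`: rotate `C` so that it ends at `u` and append `v`: one path with vertex set `insert v (univ \ X)`; with the singletons of `X.erase v`: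
`pcn ≤ (#X - 1) + 1`.  If `u ∈ X` (`u ≠ v`): the lists `C` and `[v, u]` and the singletons of `(X.erase v).erase u` (`pcn_le_two_lists`): `pcn ≤ (#X - 2) + 2`. -/
def S_ATT : Prop := ∀ (V : Type) [Fintype V] [DecidableEq V] (H : SimpleGraph V) (X : Finset V)
  (v u : V), HamOn (restr H (univ \ X)) (univ \ X) → v ∈ X → H.Adj v u → pcn H ≤ #X

/-- **PIECE VIR** (the virtual graph satisfies `Hyp`; ~250 lines).

Setting: `H = G.deleteEdges F`; `T` is the disjoint union of `T1`, `T2 = φ(T1)` and `T3` (`#T3 ≤ 1`); `ν v` is the unique `H`-neighbour outside `X` of `v ∈ T`;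
`U = univ \ (X ∪ T2)`, `Ev = {s(u, ν (φ u)) : u ∈ T1} ∪ {s(t, y) : t ∈ T3}`, `y ∉ QQ`, `y ∉ X`.  `H^ = hh G F Ev U`.
Facts: (0) a neighbour in `G` of a small vertex is not small (`sep1`) and lies in `QQ`; so `ν v ∉ sm`, `ν v ∈ QQ` for `v ∈ T`; `y ∉ sm`, and `y` is not adjacent in `G` to a small vertex.
(1) An edge `s(a,b)` of `H^` with `a ∈ sm` is an edge of `H` or (`a ∈ T1`, `b = ν (φ a)`) or (`a ∈ T3`, `b = y`) [`a = ν (φ b)` or `a = y` are impossible as these are not small].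
(2) `φ u ∉ U` for `u ∈ T1`, and a vertex `v ≠ φ u`, `v ∈ sm`, is not adjacent in `G` to `ν (φ u)` (`sep2`); `ν (φ u) ≠ ν (φ v)` for `u ≠ v` in `T1`.
`hF`: `K d ≤ 2 K d` (`d ≥ 0`).  `hE`: `#Ev ≤ #T1 + #T3 ≤ #T ≤ K ≤ 2 K`.  `hU`: `#(X ∪ T2) ≤ 2 K`.  `hZ`.
`h1`: `nb (restr H U) v ⊇ nb H v \ (X ∪ T2)`, so at least `d/100000 - 2 K` elements (`large`).  `h2`: at least `82 K + 40 - 2 K = 40 (2 K) + 40` (`zlarge`).
`h3`: `v ∈ U ∩ sm`.  If `v ∉ T`: `nb H v \ X` has `≥ 2` elements, none of them small, so none in `T2`.  If `v ∈ T1`: `ν v` and `ν (φ v)`, different by `sep2` (`v ≠ φ v`).  If `v ∈ T3`: `ν v` and `y`,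
different since `ν v ∈ QQ`.  (`ν v, y ∈ U`: not in `X`, not small.)
`h4a`: by (1) and (0).  `h4b`: `u ≠ v` small with common `H^`-neighbour `w` (all in `U`): both edges in `H`: `sep2`.  `w = ν (φ u)` and `v ∼ w` in `H`: `φ u ≠ v` (as `v ∈ U`), `sep2`.  `w = ν (φ u) = ν (φ v)`: (2).
`w = y` and `v ∼ y` in `H`: `y ∈ QQ`.  `w = y = ν (φ u)`: `y ∈ QQ`.  `w = y` for both: `u, v ∈ T3`, `#T3 ≤ 1`.
`h5`: `v ∈ U`, `v ∉ sm`.  A small vertex or an `H^`-neighbour of a small vertex is in `QQ ∪ {y}` (by (1)).  So the set is contained in (`G`-neighbours of `v` in `QQ`: at most 1 by `sep3`) `∪ {y} ∪`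
(`{u ∈ T1 : v = ν (φ u)}`: at most 1 by (2)) `∪ T3`. -/
def S_VIR : Prop := ∀ (V : Type) [Fintype V] [DecidableEq V] (G : SimpleGraph V) (d : ℝ) (K : ℕ)
  (F : Finset (Sym2 V)) (X T Z T1 T3 : Finset V) (φ ν : V → V) (y : V), 0 ≤ d → Nice G d (2 * K) →
  CovHyp G d K F X T Z → T1 ⊆ T → T3 ⊆ T → Disjoint T1 (T1.image φ) → Disjoint T1 T3 →
  Disjoint (T1.image φ) T3 → T = T1 ∪ T1.image φ ∪ T3 → (∀ u ∈ T1, ∀ v ∈ T1, φ u = φ v → u = v) →
  #T3 ≤ 1 → (∀ v ∈ T, (G.deleteEdges (F : Set (Sym2 V))).Adj v (ν v) ∧ ν v ∉ X) →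
  (T3.Nonempty → y ∉ QQ G d ∧ y ∉ X) →
  Hyp G d (2 * K) F (T1.image (fun u => s(u, ν (φ u))) ∪ T3.image (fun t => s(t, y)))
    (univ \ (X ∪ T1.image φ)) Z

/-- **PIECE COV** (path cover theorem; ~250 lines; assume S_HTM, S_VIR, S_MIN, S_PCV).

Proof.  `H = G.deleteEdges F`, `d0 ≥ 0`, `d0 ≥ 100000 (K + 2)`, `n0 ≥ 2 K + 3` and the bounds of `S_HTM` for `2 K`.
PAIRING: there are `T1, T3 ⊆ T` and `φ` injective on `T1` with `T = T1 ∪ φ(T1) ∪ T3` disjoint, `#T3 ≤ 1`, so `#T1 + #T3 = (#T + 1) / 2` (e.g. `T1` = any subset of size `#T / 2`, `T2` another one of the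
same size in `T \ T1`, `φ` from an equivalence, `T3` the rest).  `ν` from `one`.
`y`: if `T3 ≠ ∅`, `t ∈ T3`: `v = ν t ∉ X`, `v ∉ sm` (`sep1`).  `#(nb H v) ≥ K + 2` (`large` or `zlarge`), so there is `y ∈ nb H v`, `y ∉ X`, `y ≠ t`.  `t ∈ QQ`; if `y ∈ QQ` then `y = t` by `sep3` for `v`.
So `y ∉ QQ`.
`S_VIR` and `S_HTM` (with `2 K`): `HamOn H^ U`, `U = univ \ (X ∪ T2)`.
If `T = ∅`: `Ev = ∅`, `H^ = restr H (univ \ X)`: second claim, and the first by `PCV` with `E = ∅` (and `pcn_mono`).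
In general `S_MIN` with `w = ν`, `x = ν ∘ φ`, `Γ = H^`, `Γ' = H ⊔ fromEdgeSet E`, `E = {s(u, φ u) : u ∈ T1} ∪ {s(t, y) : t ∈ T3}`: for `u ∈ T1` every `H^`-neighbour of `u` is `ν u` (the only `H`-neighbour outside `X`)
or `ν (φ u)`, which are different (`sep2`) and not in `T1` (not small).  Result: `HamOn Γ' (U ∪ T2)` and `U ∪ T2 = univ \ X`.
`S_PCV`: `pcn (Γ'.deleteEdges E) ≤ #X + max 1 #E`, and `Γ'.deleteEdges E ≤ H`, so `pcn H ≤ #X + max 1 ((#T + 1) / 2)` (`pcn_mono`). -/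
def S_COV : Prop := ∀ K : ℕ, ∃ (d0 : ℝ) (n0 : ℕ), ∀ (V : Type) [Fintype V] [DecidableEq V]
  (G : SimpleGraph V) (d : ℝ) (F : Finset (Sym2 V)) (X T Z : Finset V), d0 ≤ d →
  n0 ≤ Fintype.card V → Nice G d (2 * K) → CovHyp G d K F X T Z →
  pcn (G.deleteEdges (F : Set (Sym2 V))) ≤ #X + max 1 ((#T + 1) / 2) ∧
  (T = ∅ → HamOn (restr (G.deleteEdges (F : Set (Sym2 V))) (univ \ X)) (univ \ X))

/-! ## Part D: deletions -/

/-- **PIECE BCD** (few vertices lose half of their edges; ~80 lines).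

Proof.  If `#(BB G F) ≥ 4 (k-1)` take four pairwise disjoint subsets `S_1, ..., S_4` of size `k - 1` (or one subset `S` of size `4 (k-1)` cut in four).
`minTouch k G ≤ #(touching G S_i) ≤ ∑_{v ∈ S_i} #(nb G v) ≤ 2 ∑_{v ∈ S_i} degF F v`.  Sum: `4 minTouch ≤ 2 ∑_v degF F v = 4 #F` (every non-diagonal pair contains exactly two vertices), a contradiction. -/
def S_BCD : Prop := ∀ (V : Type) [Fintype V] [DecidableEq V] (G : SimpleGraph V)
  (F : Finset (Sym2 V)) (k : ℕ), 2 ≤ k → F ⊆ ed G → #F < minTouch k G → #(BB G F) < 4 * (k - 1)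

/-- **PIECE GAP** (pigeonhole for scales; ~100 lines, no graphs).

Proof.  `M_j = (100 k)^j (M0 + 1)`, `j = 0, ..., 5 k`, `M1 = M_{5k}`; intervals `I_j = (M_j, M_{j+1}]`, `0 ≤ j < 5 k`, pairwise disjoint.  Call `j` bad of type 1 if `f v ∈ I_j` for some `v ∈ B`: at most `#B ≤ 4 k - 5` such `j`
(choose `v_j ∈ B`: injective).  Bad of type 2: `#{v : f v ≤ M_j} < k - 1` and `f v ∈ I_j` for some `v`: at most `k - 1` such `j`: choose `v_j`, let `j*` be the largest; the `v_j` with `j < j*` are distinct and `f v_j ≤ M_{j+1} ≤ M_{j*}`,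
so there are at most `#{v : f v ≤ M_{j*}} ≤ k - 2` of them.  Since `(4 k - 5) + (k - 1) < 5 k` there is a `j` which is not bad; `M = M_j`. -/
def S_GAP : Prop := ∀ (k M0 : ℕ), 2 ≤ k → ∃ M1 : ℕ, ∀ (V : Type) [Fintype V] [DecidableEq V]
  (f : V → ℕ) (B : Finset V), #B < 4 * (k - 1) → ∃ M : ℕ, M0 ≤ M ∧ M ≤ M1 ∧
    (∀ v ∈ B, ¬ (M < f v ∧ f v ≤ 100 * k * M)) ∧
    (k - 1 ≤ #(univ.filter (fun v => f v ≤ M)) ∨ ∀ v, ¬ (M < f v ∧ f v ≤ 100 * k * M))

/-- **PIECE CA1** (case I: many vertices of bounded degree; ~250 lines; assume S_COV, S_BCD).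

Proof.  `H = G.deleteEdges F`, `deg = #(nb G ·)`, `#(nb H v) = deg v - degF F v` (`F ⊆ ed G`).  `d0 ≥ 50000 (M1 + 1)`, `d0, n0` at least the bounds of `S_COV` for `K = 6 k` (note `12 k = 2 (6 k)`).
(1) For `S ⊆ low G M`, `#S = k - 1`: `#F < minTouch k G ≤ #(touching G S) ≤ (k-1) M`.  So a vertex `v ∈ BB` with `deg v > 100 k M` is impossible (`deg v ≤ 2 degF F v ≤ 2 #F`).  Hence `deg v ≤ M` and `v ∈ sm G d` for `v ∈ BB`.
(2) `v ∉ BB`: `#(nb H v) > deg v / 2 ≥ 1`, so `≥ 2`.  `I = {v : #(nb H v) = 0}`, `T = {v : #(nb H v) = 1}` are contained in `BB ⊆ sm`, so `#I + #T ≤ #BB < 4 (k-1) ≤ 6 k`.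
(3) `CovHyp G d (6 k) F I T ∅`: `hF`: `#F < minTouch ≤ (k-1) 6 d` (`touching_card_le`, `maxdeg`; there is a set of size `k - 1` since `low` has that many); isolated vertices are nobody's neighbours, so `nb H v \ I = nb H v`;
`large`: `v ∉ sm` implies `v ∉ BB`, so `#(nb H v) ≥ deg v / 2 ≥ d / 100000`.
(4) `pcn H ≤ #I + max 1 ((#T+1)/2)`.  Suppose this is `≥ k`.  If `#I ≥ k - 1`: for `S ⊆ I`, `#S = k-1`, `touching G S ⊆ F`, so `minTouch ≤ #F`, contradiction.  So `#I ≤ k - 2`, `#I + (#T+1)/2 ≥ k`, hence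
`#T ≥ 2 (k - #I) - 1`; take `T' ⊆ T`, `#T' = k - 1 - #I`, `S = I ∪ T'`, `#S = k - 1`.  Each `e ∈ F` contains at most one vertex of `I ∪ T ⊆ sm` (`sep1`, `F ⊆ ed G`), so
`#F ≥ ∑_{v ∈ I ∪ T} degF F v = ∑_I deg v + ∑_T (deg v - 1)`, and with `deg ≥ 2`: `≥ ∑_{I ∪ T'} deg v - #T' + #(T \ T') ≥ ∑_S deg v + 1 > #(touching G S) ≥ minTouch`, contradiction. -/
def S_CA1 : Prop := ∀ (k M1 : ℕ), 2 ≤ k → ∃ (d0 : ℝ) (n0 : ℕ), ∀ (V : Type) [Fintype V]
  [DecidableEq V] (G : SimpleGraph V) (d : ℝ) (F : Finset (Sym2 V)) (M : ℕ), d0 ≤ d →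
  n0 ≤ Fintype.card V → Nice G d (12 * k) → (∀ v, 2 ≤ #(nb G v)) → F ⊆ ed G →
  #F < minTouch k G → M ≤ M1 → (∀ v ∈ BB G F, ¬ (M < #(nb G v) ∧ #(nb G v) ≤ 100 * k * M)) →
  k - 1 ≤ #(low G M) → pcn (G.deleteEdges (F : Set (Sym2 V))) ≤ k - 1

/-- **PIECE CA2** (case II: at most `k - 2` vertices of bounded degree; ~300 lines; assume S_COV, S_ATT, S_BCD).

Proof.  `H = G.deleteEdges F`, `deg = #(nb G ·)`, `K = 6 k`, `L = 82 K + 40 = 492 k + 40`, so `M ≥ L + k`.  `d0 ≥ 50000 (M1 + 1)` etc.  `W = low G M ⊆ sm G d`, `q = #W ≤ k - 2`; all other vertices have `deg > 100 k M`.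
`X_b = {v ∉ W : #(nb H v) < L}`.
(1) `#X_b ≤ k - 1 - q`.  Otherwise take `Y ⊆ X_b`, `#Y = k - q ≥ 2`, `y0 ∈ Y`, `Y' = Y.erase y0`; `#(W ∪ Y') = k - 1`, so `minTouch ≤ ∑_W deg + ∑_{Y'} deg ≤ q M + ∑_{Y'} deg`.  On the other hand
`∑_{v ∈ Y} degF F v ≤ #F + (#Y)²` (a pair of `F` contains at most 2 vertices, and the pairs inside `Y` are at most `(#Y)²`), and `degF F v = deg v - #(nb H v) ≥ deg v - L`.  So
`#F ≥ ∑_{Y'} deg + deg y0 - k L - k² > ∑_{Y'} deg + 100 k M - k L - k² ≥ ∑_{Y'} deg + q M ≥ minTouch`, a contradiction.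
(2) `X = X_b ∪ X_w`, `X_w = {w ∈ W : nb H w ⊆ X_b}`; `T = {w ∈ W \ X : #(nb H w \ X) = 1}`; `Z = BB G F` (`#Z < 4 (k-1)`, `S_BCD`).  `#X ≤ (k-1-q) + q = k - 1`.
`CovHyp G d (6 k) F X T Z`: `hF` as `#F < minTouch ≤ (k-1) 6 d`.  `two`, `v ∉ X`, `v ∉ T`: if `v ∈ W`: some neighbour of `v` is outside `X_b`; the neighbours of `v` outside `X_b` are not small (`sep1`), so not in `W`, so outside `X`;
so `nb H v \ X ≠ ∅`, and it does not have exactly one element as `v ∉ T`.  If `v ∉ W`: `#(nb H v) ≥ L`, minus `k - 1`.  `large`: `v ∉ sm`, `v ∉ BB`: `#(nb H v) ≥ deg v / 2 ≥ d / 100000`.  `zlarge`: `v ∉ sm ⊇ W`, `v ∉ X_b`.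
(3) `pcn H ≤ #X + max 1 ((#T+1)/2)`, `#X_w + #T ≤ q`.  If `T ≠ ∅`: `(#T+1)/2 ≤ #T`, total `≤ k - 1`.  If `T = ∅` and `#X ≤ k - 2`: fine.  If `T = ∅` and `#X = k - 1`: `#F < minTouch ≤ #(touching G X)`, so there is
`e ∈ touching G X`, `e ∉ F`: an edge `s(v,u)` of `H` with `v ∈ X`; `S_ATT` with the second claim of `S_COV`: `pcn H ≤ #X = k - 1`. -/
def S_CA2 : Prop := ∀ (k M1 : ℕ), 2 ≤ k → ∃ (d0 : ℝ) (n0 : ℕ), ∀ (V : Type) [Fintype V]
  [DecidableEq V] (G : SimpleGraph V) (d : ℝ) (F : Finset (Sym2 V)) (M : ℕ), d0 ≤ d →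
  n0 ≤ Fintype.card V → Nice G d (12 * k) → (∀ v, 2 ≤ #(nb G v)) → F ⊆ ed G →
  #F < minTouch k G → 500 * k + 40 ≤ M → M ≤ M1 → #(low G M) < k - 1 →
  (∀ v, ¬ (M < #(nb G v) ∧ #(nb G v) ≤ 100 * k * M)) →
  pcn (G.deleteEdges (F : Set (Sym2 V))) ≤ k - 1

/-- **PIECE DET** (deterministic theorem; ~80 lines; assume S_BCD, S_GAP, S_CA1, S_CA2).

Proof.  `M1` from `S_GAP k (500 k + 40)`; `d0, n0` the maxima from CA1, CA2 (and `1`, `k + 1`).  Key: `F ⊆ ed G`, `#F < minTouch k G` imply `pcn (G - F) ≤ k - 1`: apply `S_GAP` with `f = #(nb G ·)`, `B = BB G F`; if `k - 1 ≤ #(low G M)` use CA1, otherwise the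
second alternative of GAP and CA2.  Lower bound `minTouch ≤ fk`: a competitor `F` in the definition of `fk` with `#F < minTouch` would have `pcn = k ≤ k - 1`.  Upper bound: `fk_le` with `b = maxDegree` or any bound, `pcn G ≤ k`:
key with `F = ∅` (`0 < minTouch k G` since every vertex has an edge, `k - 1 ≥ 1`; `minTouch_spec`). -/
def S_DET : Prop := ∀ k : ℕ, 2 ≤ k → ∃ (d0 : ℝ) (n0 : ℕ), ∀ (V : Type) [Fintype V]
  [DecidableEq V] (G : SimpleGraph V) (d : ℝ), d0 ≤ d → n0 ≤ Fintype.card V →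
  Nice G d (12 * k) → (∀ v, 2 ≤ #(nb G v)) → fk k G = ((minTouch k G : ℕ) : ℕ∞)

/-! ## Part E: probability -/

/-- **PIECE TAI** (~80 lines).

Proof.  General product formula: `∑_G gw p G * ∏_{e ∈ ed G} c e * ∏_{e ∈ allE \ ed G} c' e = ∏_{e ∈ allE} (p * c e + (1 - p) * c' e)` (exactly as `sum_prod` in `V11328/Gnp.lean`: `Finset.prod_add` and `sum_graph`).
Take `c e = exp s` on `B`, `1` elsewhere, `c' e = 0` on `E`, `1` elsewhere.  For `G ∈ A`: `∏_{allE \ ed G} c' = 1` (as `E ⊆ ed G`), `∏_{ed G} c = exp (s #(B ∩ ed G)) ≥ exp a`.  All terms are `≥ 0`.  The right side is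
`p^#E * (p exp s + 1 - p)^#B ≤ p^#E exp (p #B (exp s - 1))` (`E`, `B` disjoint).  Use `real_event` as in `chernoff`. -/
def S_TAI : Prop := ∀ (V : Type) [Fintype V] [DecidableEq V] (p : I) (E B : Finset (Sym2 V))
  (s a : ℝ) (A : Set (SimpleGraph V)), E ⊆ allE V → B ⊆ allE V → Disjoint E B →
  (∀ G ∈ A, E ⊆ ed G ∧ a ≤ s * #(B ∩ ed G)) →
  (G(V, p)).real A ≤ (p : ℝ) ^ #E * Real.exp ((p : ℝ) * #B * (Real.exp s - 1) - a)

/-- **PIECE PMX** (maximum degree; ~60 lines; assume S_TAI).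

Proof.  `d = n p`.  For a vertex `v`: TAI with `E = ∅`, `B = star v` (`#B = n - 1`), `s = 1`, `a = 6 d`: probability `≤ exp (p (n-1) (e - 1) - 6 d) ≤ exp (-4 d)` (`e - 1 ≤ 2`).  Union over `n ≤ exp d` vertices:
`≤ exp (-3 d) ≤ exp (-3 log n) → 0`. -/
def S_PMX : Prop := ∀ p : ℕ → I, (∀ᶠ n : ℕ in atTop, Real.log n ≤ n * (p n : ℝ)) →
  Tendsto (fun n : ℕ => (G(Fin n, p n)).real
    {G : SimpleGraph (Fin n) | ∃ v, 6 * ((n : ℝ) * p n) < #(nb G v)}) atTop (𝓝 0)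

/-- **PIECE PSA** (no short path between small vertices; ~200 lines; assume S_TAI).

Proof.  `d = n p`, `n ≥ 10`.  Union over the at most `n^(l+1)` injective `f`.  For fixed `f`: `E` = the `l` pairs `s(f i, f (i+1))` (`#E = l` by injectivity), `B = (star (f 0) ∪ star (f l)) \ E`, `#B ≥ 2 (n-1) - 1 - l ≥ 2 n - 7` (the two stars have
only the pair `s(f 0, f l)` in common).  On the event `#(B ∩ ed G) ≤ deg (f 0) + deg (f l) ≤ 2 d / 50000`; TAI with `s = -10`, `a = -20 d / 50000`: probability `≤ p^l exp (-(2 n - 7) p (1 - e^(-10)) + d/2500) ≤ p^l exp (7 - 2 d (1 - 1/1000) + d / 2500)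
≤ p^l exp (7 - 1.9 d)` (`e^(-10) ≤ 1/1000`, `p ≤ 1`).  Total `≤ n^(l+1) p^l exp (7 - 1.9 d) = n d^l exp (7 - 1.9 d) ≤ d^l exp (7 - 0.9 d)` as `n ≤ exp d`.  `d ≥ log n → ∞`, so this tends to 0. -/
def S_PSA : Prop := ∀ p : ℕ → I, (∀ᶠ n : ℕ in atTop, Real.log n ≤ n * (p n : ℝ)) →
  ∀ l : ℕ, 1 ≤ l → l ≤ 4 → Tendsto (fun n : ℕ => (G(Fin n, p n)).real
    {G : SimpleGraph (Fin n) | ∃ f : Fin (l + 1) → Fin n, Function.Injective f ∧
      (∀ i : Fin l, G.Adj (f i.castSucc) (f i.succ)) ∧ f 0 ∈ sm G ((n : ℝ) * p n) ∧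
      f (Fin.last l) ∈ sm G ((n : ℝ) * p n)}) atTop (𝓝 0)

/-- **PIECE PSC** (no triangle and no 4-cycle through a small vertex; ~150 lines; assume S_TAI).

Proof.  As PSA: for a triangle `u v w`: `E` = its 3 edges, `B = star u \ E`, `#B ≥ n - 3`, `s = -10`, `a = -10 d/50000`: probability `≤ p^3 exp (3 - 0.99 d + d/5000) ≤ p^3 exp (3 - 0.9 d)`; there are `≤ n^3` triangles, total `d^3 exp (3 - 0.9 d) → 0`.
4-cycle `u v w x`: `E` = 4 edges (pairwise distinct), `B = star u \ E`, `#B ≥ n - 3`, total `≤ n^4 p^4 exp (3 - 0.9 d) = d^4 exp (3 - 0.9 d) → 0`. -/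
def S_PSC : Prop := ∀ p : ℕ → I, (∀ᶠ n : ℕ in atTop, Real.log n ≤ n * (p n : ℝ)) →
  Tendsto (fun n : ℕ => (G(Fin n, p n)).real
    {G : SimpleGraph (Fin n) | ∃ u v w, u ∈ sm G ((n : ℝ) * p n) ∧ G.Adj u v ∧ G.Adj v w ∧
      G.Adj w u}) atTop (𝓝 0) ∧
  Tendsto (fun n : ℕ => (G(Fin n, p n)).real
    {G : SimpleGraph (Fin n) | ∃ u v w x, u ∈ sm G ((n : ℝ) * p n) ∧ u ≠ w ∧ v ≠ x ∧ G.Adj u v ∧
      G.Adj v w ∧ G.Adj w x ∧ G.Adj x u}) atTop (𝓝 0)

/-- **PIECE SED** (deterministic: separation from the absence of short paths and cycles; ~100 lines).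

Proof.  `sep1`: `l = 1`, `f = ![u, v]` (`u ≠ v` as `u ∼ v`).  `sep2`: `l = 2`, `f = ![u, w, v]`.  `sep3`: let `v ∉ sm`, `x ≠ y` in `QQ`, both adjacent to `v`.  If `x, y ∈ sm`: `sep2` (common neighbour `v`).  If `x ∈ sm`, `y ∉ sm`: `y ∼ s`, `s ∈ sm`.  If `s = x`: triangle
`x, v, y`.  Otherwise path `x, v, y, s` (`l = 3`; distinct: `v ≠ s` as `v ∉ sm`).  Symmetric if `y ∈ sm`.  If both are not small: `x ∼ s`, `y ∼ s'`, `s, s' ∈ sm`.  If `s = s'`: 4-cycle `s, x, v, y`.  Otherwise path `s, x, v, y, s'` (`l = 4`; distinct since `x, v, y ∉ sm`). -/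
def S_SED : Prop := ∀ (V : Type) [Fintype V] [DecidableEq V] (G : SimpleGraph V) (d : ℝ),
  (∀ l : ℕ, 1 ≤ l → l ≤ 4 → ¬ ∃ f : Fin (l + 1) → V, Function.Injective f ∧
      (∀ i : Fin l, G.Adj (f i.castSucc) (f i.succ)) ∧ f 0 ∈ sm G d ∧ f (Fin.last l) ∈ sm G d) →
  (¬ ∃ u v w, u ∈ sm G d ∧ G.Adj u v ∧ G.Adj v w ∧ G.Adj w u) →
  (¬ ∃ u v w x, u ∈ sm G d ∧ u ≠ w ∧ v ≠ x ∧ G.Adj u v ∧ G.Adj v w ∧ G.Adj w x ∧ G.Adj x u) →
  (∀ u ∈ sm G d, ∀ v ∈ sm G d, ¬ G.Adj u v) ∧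
  (∀ u ∈ sm G d, ∀ v ∈ sm G d, u ≠ v → ∀ w, ¬ (G.Adj u w ∧ G.Adj v w)) ∧
  (∀ v, v ∉ sm G d → ∀ x ∈ QQ G d, ∀ y ∈ QQ G d, G.Adj v x → G.Adj v y → x = y)

/-- **PIECE PSP** (small sets are sparse; ~150 lines; assume S_TAI).

Proof.  `d = n p`, `Λ = 16000000`, `tau = exp (-Λ)`.  Fix `T ≠ ∅`, `t = #T ≤ tau n`.  TAI with `E = ∅`, `B` = all non-diagonal pairs inside `T` (`#B ≤ t²/2`; e.g. `#B = t.choose 2`), `s = Λ`, `a = Λ d t / 8000000 = 2 d t`; on the event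
`#(B ∩ ed G) = #(between G T T) ≥ d t / 8000000`.  Probability `≤ exp (p t² / 2 * exp Λ - 2 d t) ≤ exp (p t n / 2 - 2 d t) = exp (-(3/2) d t)`.  (`T = ∅`: `between G ∅ ∅ = ∅`, no problem.)  Union over all nonempty `T`:
`∑_{T ≠ ∅} exp (-(3/2) d)^#T = (1 + exp (-(3/2) d))^n - 1` (`Finset.sum_pow_mul_eq_add_pow` or `Finset.prod_one_add`/`prod_add`) `≤ exp (n exp (-(3/2) d)) - 1 ≤ exp (exp (-d/2)) - 1 → 0` as `n ≤ exp d` and `d ≥ log n → ∞`. -/
def S_PSP : Prop := ∀ p : ℕ → I, (∀ᶠ n : ℕ in atTop, Real.log n ≤ n * (p n : ℝ)) →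
  Tendsto (fun n : ℕ => (G(Fin n, p n)).real
    {G : SimpleGraph (Fin n) | ∃ T : Finset (Fin n), (#T : ℝ) ≤ tau * n ∧
      ((n : ℝ) * p n) / 8000000 * #T < #(between G T T)}) atTop (𝓝 0)

/-- **PIECE PDN** (large sets are joined by many edges; ~100 lines).

Proof.  `d = n p`.  Fix disjoint `A, B` with `#A, #B ≥ sg n`.  `chernoff_lower` with `T = prs A B`, `#T = #A #B ≥ sg² n²`, `η = 1/2`: on the event `#(T ∩ ed G) = #(between G A B) < sg² n d / 2 ≤ (1 - 1/2) p #T`.  Probability `≤ exp (-(1/16) p #T) ≤ exp (-sg² n d / 16)`.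
Union over `≤ 2^n 2^n` pairs: `≤ exp (n (2 log 2 - sg² d / 16)) → 0` as `d ≥ log n → ∞`. -/
def S_PDN : Prop := ∀ p : ℕ → I, (∀ᶠ n : ℕ in atTop, Real.log n ≤ n * (p n : ℝ)) →
  Tendsto (fun n : ℕ => (G(Fin n, p n)).real
    {G : SimpleGraph (Fin n) | ∃ A B : Finset (Fin n), Disjoint A B ∧ sg * n ≤ #A ∧ sg * n ≤ #B ∧
      (#(between G A B) : ℝ) < sg ^ 2 * n * ((n : ℝ) * p n) / 2}) atTop (𝓝 0)

/-- **PIECE PMI** (minimum degree two; ~150 lines; a port of `low_degree` and `low_degree_tendsto` in `V11328/E6/Lim.lean`).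

Proof.  Exactly `low_degree` with `2` replaced by `1`: for `x = n p ≥ 1`, `P(deg v ≤ 1) ≤ ∑_G gw G * x * (1/x)^(deg v) = x (p / x + 1 - p)^(n-1) ≤ x exp ((n-1) (p/x - p)) ≤ x exp (2 - x)`; union: `≤ exp 2 * exp (log n + log x - x)`.
And `log n + log (n p) - n p → -∞` when `n p - log n - log log n → ∞` (port of `low_degree_tendsto`: if `x ≤ 4 log n` then `log x ≤ log 4 + log log n`; otherwise `log x ≤ x/8 + 2` and `x ≥ 4 log n`). -/
def S_PMI : Prop := ∀ p : ℕ → I,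
  Tendsto (fun n : ℕ => (n : ℝ) * p n - Real.log n - Real.log (Real.log n)) atTop atTop →
  Tendsto (fun n : ℕ => (G(Fin n, p n)).real
    {G : SimpleGraph (Fin n) | ∃ v, #(nb G v) < 2}) atTop (𝓝 0)

/-- **PIECE PBO** (boosters; ~300 lines; assume S_TAI).

Proof.  `d = n p`, `V = Fin n`.  If `G` is in the bad event, with witnesses `Γ, U`, put `E0 = ed Γ ∩ ed G`, `Ev = ed Γ \ ed G`; so `Γ = fromEdgeSet (E0 ∪ Ev)`, `E0, Ev ⊆ allE` disjoint, `#E0 ≤ d n / 12000`, `#Ev ≤ K`, `#Uᶜ ≤ K`.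
Fix `(U, E0, Ev)` with `n²/50 ≤ #bst Γ U`.  TAI with `E = E0`, `B = bst Γ U` (`B ⊆ allE`, and disjoint from `ed Γ ⊇ E0` by definition), `s = -1/2`, `a = -d n / 2000`: probability of `E0 ⊆ ed G` and `#(B ∩ ed G) ≤ d n/1000` is
`≤ p^#E0 exp (-p #B (1 - e^(-1/2)) + d n/2000) ≤ p^#E0 exp (-0.39 d n / 50 + d n/2000) = p^#E0 exp (-0.0073 d n)` (`e^(-1/2) ≤ 0.61`, `p #B ≥ d n / 50`).
Sum over `E0`: with `z = 1/1000`, `∑_{E0 ⊆ allE, #E0 ≤ J} p^#E0 ≤ z^(-J) ∑_{E0 ⊆ allE} (z p)^#E0 = z^(-J) (1 + z p)^#allE ≤ exp (7 J + z p n²/2)` (`log 1000 ≤ 7`), which for `J = d n/12000` is `≤ exp (0.0006 d n + 0.0005 d n)`.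
The number of `Ev` (subsets of `allE` with at most `K` elements) is `≤ (n² + 1)^K`, the number of `U` is `≤ (n + 1)^K` (a set with at most `K` elements is the image of a function `Fin K → Option _`).
Total `≤ (n + 1)^(3 K) exp (-0.006 d n) ≤ (n+1)^(3K) exp (-0.006 n log n) → 0`. -/
def S_PBO : Prop := ∀ (K : ℕ) (p : ℕ → I), (∀ᶠ n : ℕ in atTop, Real.log n ≤ n * (p n : ℝ)) →
  Tendsto (fun n : ℕ => (G(Fin n, p n)).real
    {G : SimpleGraph (Fin n) | ∃ (Γ : SimpleGraph (Fin n)) (U : Finset (Fin n)),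
      #(univ \ U) ≤ K ∧ #(ed Γ \ ed G) ≤ K ∧ (#(ed Γ) : ℝ) ≤ ((n : ℝ) * p n) * n / 12000 ∧
      (n : ℝ) ^ 2 / 50 ≤ #(bst Γ U) ∧
      (#(bst Γ U ∩ ed G) : ℝ) ≤ ((n : ℝ) * p n) * n / 1000}) atTop (𝓝 0)

/-- **PIECE PNI** (assembly of the probabilistic part; ~80 lines; assume S_PMX, S_PSA, S_PSC, S_SED, S_PSP, S_PDN, S_PBO).

Proof.  The bad event is contained in the union of the bad events of the pieces (`Fintype.card (Fin n) = n`), for `l = 1, 2, 3, 4` in PSA; `measureReal_union_le`, sum of limits, squeeze. -/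
def S_PNI : Prop := ∀ (K : ℕ) (p : ℕ → I), (∀ᶠ n : ℕ in atTop, Real.log n ≤ n * (p n : ℝ)) →
  Tendsto (fun n : ℕ => (G(Fin n, p n)).real
    {G : SimpleGraph (Fin n) | ¬ Nice G ((n : ℝ) * p n) K}) atTop (𝓝 0)

/-- **PIECE FIN** (assembly, helper15; assume S_DET, S_PNI, S_PMI). -/
def S_FIN : Prop := ∀ (k : ℕ), 2 ≤ k → ∀ p : ℕ → I,
  Tendsto (fun n : ℕ => (n : ℝ) * p n - Real.log n - Real.log (Real.log n)) atTop atTop →
  Tendsto (fun n : ℕ => (SimpleGraph.binomialRandom (Fin n) (p n))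
    {G : SimpleGraph (Fin n) | fk k G = ((minTouch k G : ℕ) : ℕ∞)}) atTop (𝓝 1)

end Pool.Agent.H15P
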