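import Pool.Agent.H15P.Stm

/-!
# Project H15P, part 2: explicit value in the windows of constant minimum degree

GOAL.  For fixed `k, j ≥ 2` and `p` with `n p - log n - (j-1) log log n → ∞`,
`n p - log n - j log log n → -∞`, w.h.p. the minimum degree of `G` is `j` and
`f_k(G) = (k-1) j`.  (So the asked identity `f_k = k (δ - 1)` holds w.h.p. in the window `j = k` and
fails w.h.p. in the windows `j ≠ k`.)

A piece `XXX` is a file `Pool/Agent/H15P/XXX.lean` importing `Pool.Agent.H15P.Stm2` only, with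
`theorem s_XXX : S_XXX` (or with the hypotheses named after the word assume).
-/

open MeasureTheory ProbabilityTheory unitInterval Finset Filter Topology
open scoped SimpleGraph

namespace Pool.Agent.H15P

open Pool.Agent.V11328 Pool.Agent.V11328.E6

/-- The binomial probability `P(deg v = j)`. -/
noncomputable def bp (n j : ℕ) (p : ℝ) : ℝ :=
  ((n - 1).choose j : ℝ) * p ^ j * (1 - p) ^ (n - 1 - j)

/-- **PIECE CYL** (cylinder probabilities; ~60 lines).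

Proof.  General product formula `∑_G gw p G * ∏_{e ∈ ed G} c e * ∏_{e ∈ allE \ ed G} c' e = ∏_{e ∈ allE} (p * c e + (1 - p) * c' e)` (as `sum_prod` in `V11328/Gnp.lean`, from `Finset.prod_add` and `sum_graph`),
with `c = 0` on `B`, `1` elsewhere, `c' = 0` on `E`, `1` elsewhere: the product of the `c`'s is the indicator of the event; the right side is `p^#E (1-p)^#B`.  Then `real_event`. -/
def S_CYL : Prop := ∀ (V : Type) [Fintype V] [DecidableEq V] (p : I) (E B : Finset (Sym2 V)),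
  E ⊆ allE V → B ⊆ allE V → Disjoint E B →
  (G(V, p)).real {G : SimpleGraph V | E ⊆ ed G ∧ Disjoint B (ed G)} =
    (p : ℝ) ^ #E * (1 - (p : ℝ)) ^ #B

/-- **PIECE MOM** (first and second moment; ~200 lines; assume S_CYL).

Proof.  First claim: `#(nb G v) = #(star v ∩ ed G)` (`star_inter`), so the event is the disjoint union over `N ⊆ star v`, `#N = j`, of `{G : star v ∩ ed G = N} = {N ⊆ ed G, Disjoint (star v \ N) (ed G)}`, each of probability
`p^j (1-p)^(n-1-j)`; there are `(n-1).choose j` of them (`card_powersetCard`, `star_card`; `measureReal_biUnion_finset`).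
Second claim: `e0 = s(u,v)`, `Su = star u \ {e0}`, `Sv = star v \ {e0}`, `#Su = #Sv = n - 2`, disjoint, `{e0} ∪ Su ∪ Sv = star u ∪ star v`.  The event is contained in the union of (i) over `N ⊆ Su`, `N' ⊆ Sv`, `#N = #N' = j`:
`{N ∪ N' ⊆ ed G, Disjoint ({e0} ∪ (Su \ N) ∪ (Sv \ N')) (ed G)}`, probability `p^(2j) (1-p)^(1 + 2 (n-2-j))`, number `(n-2).choose j ^ 2`;  (ii) over `N ⊆ Su`, `N' ⊆ Sv`, `#N = #N' = j - 1`:
`{ {e0} ∪ N ∪ N' ⊆ ed G, ... }`, probability `p^(2j-1) (1-p)^(2 (n-2-(j-1)))`, number `(n-2).choose (j-1) ^ 2`.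
(i): `(n-2).choose j ≤ (n-1).choose j`, `1 + 2 (n-2-j) = 2 (n-1-j) - 1`: total `≤ bp² / (1-p)`.  (ii): `(n-1) * (n-2).choose (j-1) = j * (n-1).choose j` (`Nat.succ_mul_choose_eq` / `Nat.add_one_mul_choose_eq`): total `= bp² (j/(n-1))² / p`. -/
def S_MOM : Prop := ∀ (V : Type) [Fintype V] [DecidableEq V] (p : I) (j : ℕ),
  (∀ v : V, (G(V, p)).real {G : SimpleGraph V | #(nb G v) = j} = bp (Fintype.card V) j p) ∧
  (1 ≤ j → j + 3 ≤ Fintype.card V → (0 : ℝ) < p → (p : ℝ) < 1 → ∀ u v : V, u ≠ v →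
    (G(V, p)).real {G : SimpleGraph V | #(nb G u) = j ∧ #(nb G v) = j} ≤
      bp (Fintype.card V) j p ^ 2 *
        (1 / (1 - (p : ℝ)) + (j : ℝ) ^ 2 / (((Fintype.card V : ℝ) - 1) ^ 2 * p)))

/-- **PIECE CHE** (Chebyshev; ~100 lines, finite sums).

Proof.  `X G = #{v : G ∈ A v}`, `μ = card V * q`.  `E X = μ`, `E X² = ∑_{u,v} P(A u ∩ A v) ≤ μ + (card V)² q² (1+ε)`, so `E (X - μ)² ≤ μ + ε μ²`.  On `X < m` one has `(X - μ)² ≥ (μ - m)²` as `X < m < μ`.
So `(μ - m)² P(X < m) ≤ μ + ε μ²`.  Do it with the weights `gw` (`real_event`, `sum_gw`, `gw_nonneg`), or with integrals. -/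
def S_CHE : Prop := ∀ (V : Type) [Fintype V] [DecidableEq V] (p : I)
  (A : V → Set (SimpleGraph V)) (q ε : ℝ) (m : ℕ), 0 ≤ ε →
  (∀ v, (G(V, p)).real (A v) = q) →
  (∀ u v, u ≠ v → (G(V, p)).real (A u ∩ A v) ≤ q ^ 2 * (1 + ε)) →
  (m : ℝ) < Fintype.card V * q →
  (G(V, p)).real {G : SimpleGraph V | Set.ncard {v : V | G ∈ A v} < m} ≤
    (Fintype.card V * q + ε * (Fintype.card V * q) ^ 2) / (Fintype.card V * q - m) ^ 2

/-- **PIECE LIM** (analysis; ~150 lines).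

Proof.  Eventually `log n ≤ n p ≤ log n + j log log n ≤ 2 log n` (as `log log n = o(log n)`), so `p ≤ 2 log n / n → 0`.
First claim, `x = n p`: for `n ≥ 2 j + 2`: `(n-1).choose j ≥ (n-j)^j / j! ≥ (n/2)^j / j!` (`Nat.pow_le_choose`-type lemma), `(1-p)^(n-1-j) ≥ (1-p)^n ≥ exp (- n p - n p²)` for `p ≤ 1/2` (`log (1-p) ≥ -p - p²`), `n p² ≤ 4 (log n)²/n ≤ 1` eventually.
So `n * bp ≥ (2^j j! e)^(-1) exp (log n + j log x - x) ≥ (2^j j! e)^(-1) exp (log n + j log log n - n p) → ∞`.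
Second claim: `1/(1-p) → 1` and `(n-1)² p ≥ (n-1)² log n / n → ∞`.  Third: `p > 0` as `n p ≥ log n > 0`; `p < 1` as `p → 0`. -/
def S_LIM : Prop := ∀ (j : ℕ) (p : ℕ → I), (∀ᶠ n : ℕ in atTop, Real.log n ≤ n * (p n : ℝ)) →
  Tendsto (fun n : ℕ => (n : ℝ) * p n - Real.log n - j * Real.log (Real.log n)) atTop atBot →
  Tendsto (fun n : ℕ => (n : ℝ) * bp n j (p n)) atTop atTop ∧
  Tendsto (fun n : ℕ => 1 / (1 - (p n : ℝ)) + (j : ℝ) ^ 2 / (((n : ℝ) - 1) ^ 2 * p n) - 1)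
    atTop (𝓝 0) ∧
  ∀ᶠ n : ℕ in atTop, (0 : ℝ) < p n ∧ (p n : ℝ) < 1

/-- **PIECE WSM** (many vertices of degree `j`; ~80 lines; assume S_MOM, S_CHE, S_LIM).

Proof.  `CHE` with `A v = {G | #(nb G v) = j}`, `q = bp n j p`, `ε = 1/(1-p) + j²/((n-1)² p) - 1 ≥ 0`: with `μ = n q → ∞`, the bound `(μ + ε μ²)/(μ - m)² ≤ 4 (1/μ + ε)` for `μ ≥ 2 m` tends to `0`. -/
def S_WSM : Prop := ∀ (j m : ℕ) (p : ℕ → I), 1 ≤ j →
  (∀ᶠ n : ℕ in atTop, Real.log n ≤ n * (p n : ℝ)) →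
  Tendsto (fun n : ℕ => (n : ℝ) * p n - Real.log n - j * Real.log (Real.log n)) atTop atBot →
  Tendsto (fun n : ℕ => (G(Fin n, p n)).real
    {G : SimpleGraph (Fin n) | Set.ncard {v | #(nb G v) = j} < m}) atTop (𝓝 0)

/-- **PIECE WFM** (no vertex of degree less than `j`; ~150 lines; a port of `low_degree`, `low_degree_tendsto` in
`V11328/E6/Lim.lean` with `2` replaced by `j - 1`).

Proof.  `i = j - 1`, `x = n p ≥ 1`: `P(deg v ≤ i) ≤ ∑_G gw G x^i (1/x)^(deg v) = x^i (p/x + 1 - p)^(n-1) ≤ x^i exp (2 - x)`; union: `≤ exp 2 * exp (log n + i log x - x)`, and `log n + i log (n p) - n p → -∞`: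
if `x ≤ 4 log n`: `log x ≤ log 4 + log log n`; otherwise `i log x ≤ x/8 + C_i` and `x ≥ 4 log n`. -/
def S_WFM : Prop := ∀ (j : ℕ) (p : ℕ → I), 1 ≤ j →
  Tendsto (fun n : ℕ => (n : ℝ) * p n - Real.log n - ((j : ℝ) - 1) * Real.log (Real.log n))
    atTop atTop →
  Tendsto (fun n : ℕ => (G(Fin n, p n)).real
    {G : SimpleGraph (Fin n) | ∃ v, #(nb G v) < j}) atTop (𝓝 0)

/-- **PIECE WMT** (deterministic; ~100 lines).

Proof.  `d0 = 50000 k j + 1`.  A vertex of degree `j` is small.  Upper bound: `S` = `k - 1` vertices of degree `j`: `#(touching G S) ≤ ∑_{v ∈ S} #(nb G v) = (k-1) j`.  Lower bound: let `#S = k - 1`.  If `S ⊆ sm G d`: no two of its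
vertices are adjacent (`sep1`), so `#(touching G S) = ∑_{v ∈ S} #(nb G v) ≥ (k-1) j` (the sets of edges at the `v ∈ S` are pairwise disjoint).  Otherwise some `v ∈ S` has `#(nb G v) > d/50000 ≥ (k-1) j`, and `touching G S` contains all edges at `v`. -/
def S_WMT : Prop := ∀ (k j : ℕ), 2 ≤ k → 1 ≤ j → ∃ d0 : ℝ, ∀ (V : Type) [Fintype V]
  [DecidableEq V] (G : SimpleGraph V) (d : ℝ) (K : ℕ), d0 ≤ d → Nice G d K →
  (∀ v, j ≤ #(nb G v)) → k - 1 ≤ Set.ncard {v | #(nb G v) = j} → minTouch k G = (k - 1) * j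

open Classical in
/-- **PIECE WFI** (assembly, helper15; assume S_FIN, S_PNI, S_WSM, S_WFM, S_WMT). -/
def S_WFI : Prop := ∀ (k j : ℕ), 2 ≤ k → 2 ≤ j → ∀ p : ℕ → I,
  Tendsto (fun n : ℕ => (n : ℝ) * p n - Real.log n - ((j : ℝ) - 1) * Real.log (Real.log n))
    atTop atTop →
  Tendsto (fun n : ℕ => (n : ℝ) * p n - Real.log n - j * Real.log (Real.log n)) atTop atBot →
  Tendsto (fun n : ℕ => (SimpleGraph.binomialRandom (Fin n) (p n))
    {G : SimpleGraph (Fin n) | G.minDegree = j ∧ fk k G = (((k - 1) * j : ℕ) : ℕ∞)}) atTop (𝓝 1)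

end Pool.Agent.H15P
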