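import Pool.Agent.H15P.Stm2
import Pool.Agent.H15P.FIN

/-! Assembly: the windows of constant minimum degree. -/

open MeasureTheory ProbabilityTheory unitInterval Finset Filter Topology
open scoped SimpleGraph

namespace Pool.Agent.H15P

open Pool.Agent.V11328 Pool.Agent.V11328.E6

theorem s_WFI (hDET : S_DET) (hPNI : S_PNI) (hWSM : S_WSM) (hWFM : S_WFM)
    (hWMT : S_WMT) : S_WFI := by
  classical
  intro k j hk hj p hp1 hp2
  have hlogn : Tendsto (fun n : ℕ => Real.log (n : ℝ)) atTop atTop :=
    Real.tendsto_log_atTop.comp tendsto_natCast_atTop_atTop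
  have hjR : (2 : ℝ) ≤ j := by exact_mod_cast hj
  have hp : Tendsto (fun n : ℕ => (n : ℝ) * p n - Real.log n - Real.log (Real.log n))
      atTop atTop := by
    refine tendsto_atTop_mono' _ ?_ hp1
    filter_upwards [hlogn.eventually_ge_atTop 1] with n h1
    have h3 : 0 ≤ Real.log (Real.log n) := Real.log_nonneg h1
    nlinarith
  obtain ⟨d0, n0, hdet⟩ := hDET k hk
  obtain ⟨d1, hmt⟩ := hWMT k j hk (by omega)
  have hev := ev_log_le hp
  have hN := hPNI (12 * k) p hev
  have hM := hWFM j p (by omega) hp1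
  have hW := hWSM j (k - 1) p (by omega) hev hp2
  refine tendsto_one (B := fun n => ({G : SimpleGraph (Fin n) | ¬ Nice G ((n : ℝ) * p n) (12 * k)} ∪
      {G : SimpleGraph (Fin n) | ∃ v, #(nb G v) < j}) ∪
      {G : SimpleGraph (Fin n) | Set.ncard {v | #(nb G v) = j} < k - 1})
    (b := fun n => ((G(Fin n, p n)).real
      {G : SimpleGraph (Fin n) | ¬ Nice G ((n : ℝ) * p n) (12 * k)} +
      (G(Fin n, p n)).real {G : SimpleGraph (Fin n) | ∃ v, #(nb G v) < j}) +
      (G(Fin n, p n)).real {G : SimpleGraph (Fin n) | Set.ncard {v | #(nb G v) = j} < k - 1})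
      ?_ ?_ ?_
  · filter_upwards [hev, hlogn.eventually_ge_atTop d0, hlogn.eventually_ge_atTop d1,
      eventually_ge_atTop n0] with n h1 h2 h2' h3 G hG
    rw [Set.mem_union, Set.mem_union, not_or, not_or] at hG
    obtain ⟨⟨hG1, hG2⟩, hG3⟩ := hG
    simp only [Set.mem_ofPred_eq, not_not] at hG1
    simp only [Set.mem_ofPred_eq, not_exists, not_lt] at hG2 hG3
    have h4 := hdet (Fin n) G ((n : ℝ) * p n) (h2.trans h1) (by rw [Fintype.card_fin]; exact h3)
      hG1 (fun v => hj.trans (hG2 v))
    have h5 := hmt (Fin n) G ((n : ℝ) * p n) (12 * k) (h2'.trans h1) hG1 hG2 hG3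
    rw [h5] at h4
    refine ⟨?_, h4⟩
    have hne : {v | #(nb G v) = j}.Nonempty := by
      rw [← Set.ncard_pos]
      omega
    obtain ⟨v, hv⟩ := hne
    have hv' : #(nb G v) = j := hv
    apply le_antisymm
    · have := G.minDegree_le_degree v
      rw [degree_eq] at this
      omega
    · have : Nonempty (Fin n) := ⟨v⟩
      refine G.le_minDegree_of_forall_le_degree j ?_
      intro w
      rw [degree_eq]
      exact hG2 w
  · refine Eventually.of_forall fun n => ?_
    exact (measureReal_union_le _ _).trans (add_le_add (measureReal_union_le _ _) le_rfl)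
  · simpa using (hN.add hM).add hW

end Pool.Agent.H15P
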