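import Pool.Agent.H15P.Stm2

open Finset

namespace Pool.Agent.H15P

open Pool.Agent.V11328 Pool.Agent.V11328.E6

namespace WMT

set_option linter.unusedSectionVars false

variable {V : Type} [Fintype V] [DecidableEq V]

lemma mem_sm {G : SimpleGraph V} {d : ℝ} {v : V} :
    v ∈ sm G d ↔ (#(nb G v) : ℝ) ≤ d / 50000 := by
  unfold sm
  simp

lemma mem_nb {G : SimpleGraph V} {v u : V} : u ∈ nb G v ↔ G.Adj v u := by
  unfold nb
  simp

lemma mem_touching {G : SimpleGraph V} {S : Finset V} {e : Sym2 V} :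
    e ∈ touching G S ↔ e ∈ G.edgeSet ∧ ∃ v ∈ S, v ∈ e := by
  unfold touching
  simp

lemma touching_sum (G : SimpleGraph V) (S : Finset V) :
    #(touching G S) ≤ ∑ v ∈ S, #(nb G v) := by
  have h1 : touching G S ⊆ S.biUnion (fun v => (nb G v).image (fun u => s(v, u))) := by
    intro e he
    rw [mem_touching] at he
    obtain ⟨he, v, hv, hve⟩ := he
    obtain ⟨u, rfl⟩ := Sym2.mem_iff_exists.1 hve
    rw [mem_biUnion]
    refine ⟨v, hv, ?_⟩
    rw [mem_image]
    exact ⟨u, mem_nb.2 (by simpa using he), rfl⟩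
  refine (card_le_card h1).trans (card_biUnion_le.trans ?_)
  exact sum_le_sum (fun v _ => card_image_le)

lemma card_star (G : SimpleGraph V) (v : V) :
    #((nb G v).image (fun u => s(v, u))) = #(nb G v) := by
  refine card_image_of_injective _ ?_
  intro a b hab
  exact Sym2.congr_right.1 hab

lemma star_sub {G : SimpleGraph V} {S : Finset V} {v : V} (hv : v ∈ S) :
    (nb G v).image (fun u => s(v, u)) ⊆ touching G S := by
  intro e he
  rw [mem_image] at he
  obtain ⟨u, hu, rfl⟩ := he
  rw [mem_touching]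
  exact ⟨by simpa using mem_nb.1 hu, v, hv, by simp⟩

lemma touching_indep {G : SimpleGraph V} {S : Finset V} (h : ∀ u ∈ S, ∀ v ∈ S, ¬ G.Adj u v) :
    ∑ v ∈ S, #(nb G v) ≤ #(touching G S) := by
  have h1 : S.biUnion (fun v => (nb G v).image (fun u => s(v, u))) ⊆ touching G S :=
    biUnion_subset.2 (fun v hv => star_sub hv)
  refine le_trans (le_of_eq ?_) (card_le_card h1)
  rw [card_biUnion]
  · exact sum_congr rfl (fun v _ => (card_star G v).symm)
  · intro v hv w hw hvw
    rw [Function.onFun, Finset.disjoint_left]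
    intro e he he'
    rw [mem_image] at he he'
    obtain ⟨u, hu, rfl⟩ := he
    obtain ⟨u', hu', he⟩ := he'
    rw [Sym2.eq_iff] at he
    rcases he with ⟨h1, _⟩ | ⟨h1, h2⟩
    · exact hvw h1.symm
    · subst h1
      exact h v hv w hw (mem_nb.1 hu)

end WMT

/-- Piece WMT. -/
theorem s_WMT : S_WMT := by
  classical
  intro k j hk hj
  refine ⟨50000 * k * j + 1, ?_⟩
  intro V _ _ G d K hd hN hmin hcard
  have h0 : Set.ncard {v | #(nb G v) = j} = #(univ.filter (fun v => #(nb G v) = j)) := by
    rw [← Set.ncard_coe_finset]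
    congr 1
    ext v
    simp
  rw [h0] at hcard
  obtain ⟨S0, hS0, hS0c⟩ := Finset.exists_subset_card_eq hcard
  apply le_antisymm
  · refine (minTouch_le G hS0c).trans ((WMT.touching_sum G S0).trans (le_of_eq ?_))
    rw [sum_congr rfl (fun v hv => (mem_filter.1 (hS0 hv)).2), sum_const, hS0c, smul_eq_mul]
  · have hne : {c | ∃ S : Finset V, #S = k - 1 ∧ #(touching G S) = c}.Nonempty :=
      ⟨_, S0, hS0c, rfl⟩
    obtain ⟨S, hS, hSt⟩ := Nat.sInf_mem hne
    change #(touching G S) = minTouch k G at hSt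
    rw [← hSt]
    by_cases hsm : S ⊆ sm G d
    · refine le_trans ?_ (WMT.touching_indep (fun u hu v hv => hN.sep1 u (hsm hu) v (hsm hv)))
      rw [← hS, ← smul_eq_mul]
      exact card_nsmul_le_sum _ _ _ (fun v _ => hmin v)
    · rw [not_subset] at hsm
      obtain ⟨v, hv, hvs⟩ := hsm
      rw [WMT.mem_sm, not_le] at hvs
      have h1 := card_le_card (WMT.star_sub (G := G) hv)
      rw [WMT.card_star] at h1
      have h2 : ((k * j : ℕ) : ℝ) < #(nb G v) := by
        refine lt_of_le_of_lt ?_ hvs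
        push_cast
        rw [le_div_iff₀ (by norm_num)]
        nlinarith
      have h3 : k * j < #(nb G v) := by exact_mod_cast h2
      have h4 : (k - 1) * j ≤ k * j := Nat.mul_le_mul (Nat.sub_le _ _) le_rfl
      omega

end Pool.Agent.H15P
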