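import Pool.Agent.H15P.Stm2

open MeasureTheory ProbabilityTheory unitInterval Finset Filter Topology
open scoped SimpleGraph

namespace Pool.Agent.H15P

open Pool.Agent.V11328 Pool.Agent.V11328.E6

/-- Piece WSM. -/
theorem s_WSM (hMOM : S_MOM) (hCHE : S_CHE) (hLIM : S_LIM) : S_WSM := by
  classical
  intro j m p hj hp1 hp2
  obtain ⟨l1, l2, l3⟩ := hLIM j p hp1 hp2
  set μ : ℕ → ℝ := fun n => (n : ℝ) * bp n j (p n) with hμ
  set ε : ℕ → ℝ := fun n => 1 / (1 - (p n : ℝ)) + (j : ℝ) ^ 2 / (((n : ℝ) - 1) ^ 2 * p n) - 1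
    with hε
  have hb : Tendsto (fun n => 4 * (1 / μ n + ε n)) atTop (𝓝 0) := by
    have h1 : Tendsto (fun n => 1 / μ n) atTop (𝓝 0) := tendsto_const_nhds.div_atTop l1
    have h2 := (h1.add l2).const_mul 4
    simpa using h2
  refine tendsto_of_tendsto_of_tendsto_of_le_of_le' tendsto_const_nhds hb
    (Eventually.of_forall fun n => measureReal_nonneg) ?_
  filter_upwards [l3, l1.eventually_ge_atTop (2 * m + 1), eventually_ge_atTop (j + 3)]
    with n h3 h4 h5
  have hcard : Fintype.card (Fin n) = n := Fintype.card_fin n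
  have hq : ∀ v : Fin n, (G(Fin n, p n)).real {G : SimpleGraph (Fin n) | #(nb G v) = j} =
      bp n j (p n) := by
    intro v
    have := (hMOM (Fin n) (p n) j).1 v
    rwa [hcard] at this
  have hqq : ∀ u v : Fin n, u ≠ v → (G(Fin n, p n)).real
      ({G : SimpleGraph (Fin n) | #(nb G u) = j} ∩ {G : SimpleGraph (Fin n) | #(nb G v) = j}) ≤
      bp n j (p n) ^ 2 * (1 + ε n) := by
    intro u v huv
    have := (hMOM (Fin n) (p n) j).2 hj (by rw [hcard]; exact h5) h3.1 h3.2 u v huv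
    rw [hcard] at this
    refine le_trans (le_of_eq ?_) (this.trans (le_of_eq ?_))
    · rfl
    · rw [hε]; ring
  have hε0 : 0 ≤ ε n := by
    have h6 : 1 ≤ 1 / (1 - (p n : ℝ)) := by
      rw [le_div_iff₀ (by linarith [h3.2])]
      linarith [h3.1]
    have h7 : 0 ≤ (j : ℝ) ^ 2 / (((n : ℝ) - 1) ^ 2 * p n) := by
      have := h3.1
      positivity
    rw [hε]
    simp only
    linarith
  have hm0 : (0 : ℝ) ≤ m := Nat.cast_nonneg m
  have h4' : 2 * (m : ℝ) + 1 ≤ (n : ℝ) * bp n j (p n) := h4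
  have hche := hCHE (Fin n) (p n) (fun v => {G : SimpleGraph (Fin n) | #(nb G v) = j})
    (bp n j (p n)) (ε n) m hε0 hq hqq (by rw [hcard]; linarith)
  rw [hcard] at hche
  refine le_trans hche ?_
  have hμ1 : (n : ℝ) * bp n j (p n) = μ n := rfl
  rw [hμ1] at h4' ⊢
  have hμ0 : 0 < μ n := by linarith
  have h8 : μ n ^ 2 / 4 ≤ (μ n - m) ^ 2 := by nlinarith
  have h9 : 0 ≤ μ n + ε n * μ n ^ 2 := by positivity
  calc (μ n + ε n * μ n ^ 2) / (μ n - m) ^ 2 ≤ (μ n + ε n * μ n ^ 2) / (μ n ^ 2 / 4) := by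
        gcongr
    _ = 4 * (1 / μ n + ε n) := by
        field_simp

end Pool.Agent.H15P
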